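import Pool.Agent.Work.MP_fbd45d_lc.Ords

/-!
# Amalgamation holds in the minimal model
-/

namespace Pool.Agent.Work.MP_fbd45d_lc

universe u

open ZFSet (pair)
open Ordinal

theorem isFunc_app {A B f x : ZFSet.{u}} (hf : ZFSet.IsFunc A B f) (hx : x ∈ A) :
    pair x (app f x) ∈ f ∧ app f x ∈ B := by
  obtain ⟨y, hy, hu⟩ := hf.2 x hx
  have e : app f x = y := app_eq hy hu
  rw [e]
  exact ⟨hy, (ZFSet.pair_mem_prod.1 (hf.1 hy)).2⟩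

theorem isFunc_eq {A B f x y : ZFSet.{u}} (hf : ZFSet.IsFunc A B f) (h : pair x y ∈ f) :
    x ∈ A ∧ y ∈ B ∧ y = app f x := by
  have h1 := ZFSet.pair_mem_prod.1 (hf.1 h)
  obtain ⟨z, hz, hu⟩ := hf.2 x h1.1
  have e : app f x = z := app_eq hz hu
  exact ⟨h1.1, h1.2, by rw [e]; exact hu y h⟩

theorem isBij_app {a b f x : ZFSet.{u}} (hf : IsBij f a b) (hx : x ∈ a) :
    pair x (app f x) ∈ f ∧ app f x ∈ b := by
  obtain ⟨y, hy, hu⟩ := hf.2.1 x hx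
  have e : app f x = y := app_eq hy hu
  rw [e]
  refine ⟨hy, ?_⟩
  obtain ⟨x', _, y', hy', h⟩ := hf.1 _ hy
  rw [ZFSet.pair_inj] at h
  rw [h.2]; exact hy'

theorem isBij_inj {a b f x x' : ZFSet.{u}} (hf : IsBij f a b) (hx : x ∈ a) (hx' : x' ∈ a)
    (h : app f x = app f x') : x = x' := by
  obtain ⟨h1, h2⟩ := isBij_app hf hx
  obtain ⟨h3, _⟩ := isBij_app hf hx'
  obtain ⟨z, _, hu⟩ := hf.2.2 _ h2
  rw [← h] at h3
  rw [hu x h1, hu x' h3]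

theorem isFunc_gr {F : ZFSet.{u} → ZFSet.{u}} {a b : ZFSet.{u}} (h : ∀ x ∈ a, F x ∈ b) :
    ZFSet.IsFunc a b (gr F a) := by
  refine ⟨?_, ?_⟩
  · intro p hp
    obtain ⟨x, hx, rfl⟩ := mem_gr.1 hp
    exact ZFSet.pair_mem_prod.2 ⟨hx, h x hx⟩
  · intro x hx
    exact ⟨F x, pair_mem_gr.2 ⟨hx, rfl⟩, fun y hy => (pair_mem_gr.1 hy).2.symm⟩

theorem isEmb_gr {F : ZFSet.{u} → ZFSet.{u}} {A U B W : ZFSet.{u}} (h : ∀ x ∈ A, F x ∈ B)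
    (hinj : ∀ x ∈ A, ∀ x' ∈ A, F x = F x' → x = x')
    (hty : ∀ x ∈ A, ∀ n : ℕ, pair (nat n) x ∈ U ↔ pair (nat n) (F x) ∈ W) :
    IsEmb (gr F A) A U B W := by
  refine ⟨isFunc_gr h, ?_, ?_⟩
  · intro x x' y hx hx'
    obtain ⟨h1, h2⟩ := pair_mem_gr.1 hx
    obtain ⟨h3, h4⟩ := pair_mem_gr.1 hx'
    exact hinj x h1 x' h3 (h2.trans h4.symm)
  · intro x y hx n
    obtain ⟨h1, h2⟩ := pair_mem_gr.1 hx
    rw [← h2]
    exact hty x h1 n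

theorem odd_ne_even {ξ η : Ordinal.{u}} : 2 * ξ + 1 ≠ 2 * η + 1 + 1 := by
  intro h
  have h1 : (2 * ξ + 1) % 2 = 1 := by
    rw [Ordinal.mul_add_mod_self]
    exact Ordinal.mod_eq_of_lt (by exact_mod_cast (Nat.one_lt_two))
  have h2 : (2 * η + 1 + 1) % 2 = 0 := by
    have : 2 * η + 1 + 1 = 2 * (η + 1) := by
      rw [mul_add, mul_one, add_assoc, one_add_one_eq_two]
    rw [this, Ordinal.mul_mod]
  rw [h, h2] at h1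
  exact zero_ne_one h1

theorem two_mul_inj {ξ η : Ordinal.{u}} (h : 2 * ξ = 2 * η) : ξ = η := by
  have h1 := Ordinal.mul_div_cancel ξ (b := 2) (by norm_num)
  have h2 := Ordinal.mul_div_cancel η (b := 2) (by norm_num)
  rw [← h1, h, h2]

theorem IsAleph.card {V : ZFSet.{u}} {α κ : Ordinal.{u}} (h : IsAleph V α κ) :
    IsInfCard V κ := by
  obtain ⟨f, h1, h2⟩ := h
  have := (h1 α le_rfl).1
  rwa [h2] at this

section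

variable {V : ZFSet.{u}} {D : (Unit → (ℕ → ZFSet.{u}) → Prop) → Prop}

theorem ZM.gr_of_tm (Z : ZM V D) {F : ZFSet.{u} → ZFSet.{u}}
    (hF : TmV (fun _ => V) D (fun _ v => F (v 0))) {a : ZFSet.{u}} (ha : a ∈ V) :
    gr F a ∈ V := by
  refine Z.gr_mem ha ?_ ?_
  · exact Z.ts.and (Z.ts.mem (Z.ts.v 0) (Z.par _ ha)) (Z.ts.eq (Z.ts.v 1)
      (Z.ts.ds.tm1 (f := fun _ x => F x) hF (Z.ts.v 0)))
  · intro x hx
    exact hF.closed () (fun _ => x) (fun _ => Z.mem_tr ha hx)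

theorem ZM.sameSize_refl (Z : ZM V D) {a : ZFSet.{u}} (ha : a ∈ V) : SameSizeIn V a a :=
  ⟨gr (fun x => x) a, Z.gr_of_tm (Z.ts.v 0) ha, isBij_gr (fun _ h => h) (fun _ _ _ _ h => h)
    (fun y hy => ⟨y, hy, rfl⟩)⟩

open Classical in
theorem amalgamation_V (Z : ZM V D) {α : Ordinal.{u}} {b : ZFSet.{u}} {eb : ℕ → ZFSet.{u}}
    (hB : Base α b eb) (hr : rOf eb ∈ V)
    (hmin : ∀ V', IsK V' → (V' : Set ZFSet.{u}).Countable → rOf eb ∈ V' → V.rank ≤ V'.rank) :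
    AmalgamationIn V (phi (rOf eb)) α := by
  intro κ hκ A₀ U₀ A₁ U₁ A₂ U₂ hM0 hM1 hM2 f₁ hf₁ f₂ hf₂ he1 he2
  have hc := hκ.card
  have hκV := hc.1
  have hlim : ∀ ξ < κ, ξ + 1 < κ := fun ξ hξ => Z.card_limit hc hξ
  obtain ⟨_, hbV⟩ := decode Z hB hr
  have hTC := Z.mem_tr hbV hB.tC
  have hTD := Z.mem_tr hbV hB.tD
  obtain ⟨hA0, hU0, hS0, hH0, _⟩ := hM0
  obtain ⟨hA1, hU1, hS1, hH1, ⟨k1, hk1, hb1⟩⟩ := hM1
  obtain ⟨hA2, hU2, hS2, hH2, ⟨k2, hk2, hb2⟩⟩ := hM2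
  obtain ⟨E, hE, hG, -⟩ := (phi_sem hS0.1).1 hH0
  obtain ⟨E1, hE1, hG1, -⟩ := (phi_sem hS1.1).1 hH1
  obtain ⟨E2, hE2, hG2, -⟩ := (phi_sem hS2.1).1 hH2
  obtain ⟨a0, ha0⟩ := hS0.1
  have ha0V := Z.mem_tr hA0 ha0
  -- the cores agree
  have hE01 : E1 = E := by
    obtain ⟨h1, h2⟩ := isFunc_app he1.1 ha0
    funext m n
    apply propext
    rw [← hE1 _ h2, ← hE _ ha0]
    exact (he1.2.2 _ _ h1 _).symm
  have hE02 : E2 = E := by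
    obtain ⟨h1, h2⟩ := isFunc_app he2.1 ha0
    funext m n
    apply propext
    rw [← hE2 _ h2, ← hE _ ha0]
    exact (he2.2.2 _ _ h1 _).symm
  subst hE01
  rw [hE02] at hE2
  -- the core relation as a set
  have hTCV : ∀ {x y c : ZFSet.{u}}, pair (pair x y) c ∈ tabC.{u} → c ∈ V := fun h =>
    (mem_of_pair_mem Z.tr hTC h).2
  set Eh := ZFSet.sep (fun p => ∃ c, c ∈ V ∧ (pair p c ∈ tabC.{u} ∧ pair c a0 ∈ U₀))
    (ZFSet.prod (Ordinal.toZFSet (ω : Ordinal.{u})) (Ordinal.toZFSet (ω : Ordinal.{u})))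
    with hEh_def
  have hEhV : Eh ∈ V := by
    refine Z.sep' _ ?_ _ (Z.prod_mem Z.omega Z.omega)
    exact Z.ts.ex (Z.ts.and (Z.ts.mem (Z.ts.pair (Z.ts.v 1) (Z.ts.v 0)) (Z.par _ hTC))
      (Z.ts.mem (Z.ts.pair (Z.ts.v 0) (Z.par _ ha0V)) (Z.par _ hU0)))
  have hEh : ∀ m n, pair (nat m) (nat n) ∈ Eh ↔ E1 m n := by
    intro m n
    rw [hEh_def, ZFSet.mem_sep, ZFSet.pair_mem_prod]
    constructor
    · rintro ⟨_, c, _, h1, h2⟩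
      obtain ⟨m', n', h3, h4, rfl⟩ := mem_tabC.1 h1
      rw [nat_inj] at h3 h4
      subst h3; subst h4
      exact (hE _ ha0 _ _).1 h2
    · intro h
      have h1 : pair (pair (nat m) (nat n)) (nat (cr m n)) ∈ tabC.{u} :=
        mem_tabC.2 ⟨m, n, rfl, rfl, rfl⟩
      exact ⟨⟨nat_mem_omega m, nat_mem_omega n⟩, _, hTCV h1, h1, (hE _ ha0 _ _).2 h⟩
  obtain ⟨Y, hYV, hYω, ⟨y0, hy0⟩, hYm⟩ := core_illfounded Z rOf_subset hmin hG hEhV hEh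
  -- the type of the new element
  set S := ZFSet.sep (fun c => ((∃ p, p ∈ V ∧ pair p c ∈ tabC.{u}) ∧ pair c a0 ∈ U₀) ∨
    ∃ y, y ∈ Y ∧ pair y c ∈ tabD.{u}) (Ordinal.toZFSet (ω : Ordinal.{u})) with hS_def
  have hSV : S ∈ V := by
    refine Z.sep' _ ?_ _ Z.omega
    exact Z.ts.or (Z.ts.and (Z.ts.ex (Z.ts.mem (Z.ts.pair (Z.ts.v 0) (Z.ts.v 1)) (Z.par _ hTC)))
      (Z.ts.mem (Z.ts.pair (Z.ts.v 0) (Z.par _ ha0V)) (Z.par _ hU0)))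
      (Z.ts.exMem (Z.par _ hYV) (Z.ts.mem (Z.ts.pair (Z.ts.v 0) (Z.ts.v 1)) (Z.par _ hTD)))
  have hScr : ∀ m n, nat (cr m n) ∈ S ↔ E1 m n := by
    intro m n
    rw [hS_def, ZFSet.mem_sep]
    constructor
    · rintro ⟨_, ⟨_, h⟩ | ⟨y, _, h⟩⟩
      · exact (hE _ ha0 _ _).1 h
      · obtain ⟨k, _, hk⟩ := mem_tabD.1 h
        rw [nat_inj] at hk
        unfold cr at hk
        omega
    · intro h
      have h1 : pair (pair (nat m) (nat n)) (nat (cr m n)) ∈ tabC.{u} :=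
        mem_tabC.2 ⟨m, n, rfl, rfl, rfl⟩
      exact ⟨nat_mem_omega _, Or.inl ⟨⟨_, (mem_of_pair_mem Z.tr hTC h1).1, h1⟩,
        (hE _ ha0 _ _).2 h⟩⟩
  have hSD : ∀ n : ℕ, nat (3 * n + 2) ∈ S ↔ nat n ∈ Y := by
    intro n
    rw [hS_def, ZFSet.mem_sep]
    constructor
    · rintro ⟨_, ⟨⟨p, hp, h⟩, _⟩ | ⟨y, hy, h⟩⟩
      · exfalso
        unfold tabC at h
        rw [ZFSet.mem_range] at h
        obtain ⟨k, hk⟩ := h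
        rw [ZFSet.pair_inj, nat_inj] at hk
        omega
      · obtain ⟨k, rfl, hk⟩ := mem_tabD.1 h
        rw [nat_inj] at hk
        have : k = n := by omega
        rw [← this]; exact hy
    · intro h
      exact ⟨nat_mem_omega _, Or.inr ⟨nat n, h, mem_tabD.2 ⟨n, rfl, rfl⟩⟩⟩
  -- the embeddings
  obtain ⟨d0, hd0, hd⟩ := Z.double hκV
  set Gd := gr d0 κ.toZFSet with hGd
  have hdapp : ∀ ξ < κ, app Gd ξ.toZFSet = (2 * ξ).toZFSet := by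
    intro ξ hξ
    rw [hGd, app_gr (Ordinal.toZFSet_mem_toZFSet_iff.2 hξ), hd ξ hξ]
  let G1 : ZFSet.{u} → ZFSet.{u} := fun x =>
    insert (app Gd (app k1 x)) (app Gd (app k1 x))
  have hG1t : TmV (fun _ => V) D (fun _ v => G1 (v 0)) :=
    Z.tmSucc (s := fun _ v => app Gd (app k1 (v 0)))
      (Z.tmApp (Z.par _ hd0) (Z.tmApp (Z.par _ hk1) (Z.ts.v 0)))
  set f2inv := ZFSet.sep (fun p => ∃ x, x ∈ A₀ ∧ ∃ y, y ∈ A₂ ∧ (p = pair y x ∧ pair x y ∈ f₂))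
    (ZFSet.prod A₂ A₀) with hf2inv
  have hf2V : f2inv ∈ V := by
    refine Z.sep' _ ?_ _ (Z.prod_mem hA2 hA0)
    refine Z.ts.exMem (Z.par _ hA0) ?_
    refine Z.ts.exMem (Z.par _ hA2) ?_
    refine Z.ts.and ?_ ?_
    · exact Z.ts.eq (Z.ts.v 2) (Z.ts.pair (Z.ts.v 0) (Z.ts.v 1))
    · exact Z.ts.mem (Z.ts.pair (Z.ts.v 1) (Z.ts.v 0)) (Z.par _ hf₂)
  have hf2inv' : ∀ x y, pair x y ∈ f₂ → app f2inv y = x := by
    intro x y hxy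
    obtain ⟨hx, hy, _⟩ := isFunc_eq he2.1 hxy
    apply app_eq
    · rw [hf2inv, ZFSet.mem_sep, ZFSet.pair_mem_prod]
      exact ⟨⟨hy, hx⟩, x, hx, y, hy, rfl, hxy⟩
    · intro z hz
      rw [hf2inv, ZFSet.mem_sep] at hz
      obtain ⟨_, x', _, y', _, h1, h2⟩ := hz
      rw [ZFSet.pair_inj] at h1
      rw [h1.2]
      rw [← h1.1] at h2
      exact he2.2.1 _ _ _ h2 hxy
  let G2 : ZFSet.{u} → ZFSet.{u} := fun y =>
    if ∃ x, x ∈ A₀ ∧ pair x y ∈ f₂ then G1 (app f₁ (app f2inv y)) else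
      insert (insert (app Gd (app k2 y)) (app Gd (app k2 y)))
        (insert (app Gd (app k2 y)) (app Gd (app k2 y)))
  have hG2t : TmV (fun _ => V) D (fun _ v => G2 (v 0)) := by
    refine Z.ts.ite (P := fun _ v => ∃ x, x ∈ A₀ ∧ pair x (v 0) ∈ f₂) ?_ ?_ ?_
    · exact Z.ts.exMem (Z.par _ hA0) (Z.ts.mem (Z.ts.pair (Z.ts.v 0) (Z.ts.v 1)) (Z.par _ hf₂))
    · exact Z.ts.ds.tm1 (f := fun _ x => G1 x) hG1t
        (Z.tmApp (Z.par _ hf₁) (Z.tmApp (Z.par _ hf2V) (Z.ts.v 0)))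
    · exact Z.tmSucc (s := fun _ v => insert (app Gd (app k2 (v 0))) (app Gd (app k2 (v 0))))
        (Z.tmSucc (s := fun _ v => app Gd (app k2 (v 0)))
          (Z.tmApp (Z.par _ hd0) (Z.tmApp (Z.par _ hk2) (Z.ts.v 0))))
  have hv1 : ∀ x ∈ A₁, ∃ ξ < κ, app k1 x = ξ.toZFSet ∧ G1 x = (2 * ξ + 1).toZFSet := by
    intro x hx
    obtain ⟨_, h1⟩ := isBij_app hb1 hx
    obtain ⟨ξ, hξ, h2⟩ := Ordinal.mem_toZFSet_iff.1 h1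
    refine ⟨ξ, hξ, h2.symm, ?_⟩
    simp only [G1]
    rw [← h2, hdapp ξ hξ, Ordinal.toZFSet_add_one]
  have hv2 : ∀ x y, pair x y ∈ f₂ → G2 y = G1 (app f₁ x) := by
    intro x y hxy
    obtain ⟨hx, hy, _⟩ := isFunc_eq he2.1 hxy
    simp only [G2]
    rw [if_pos ⟨x, hx, hxy⟩, hf2inv' x y hxy]
  have hv3 : ∀ y ∈ A₂, (¬ ∃ x, x ∈ A₀ ∧ pair x y ∈ f₂) →
      ∃ η < κ, app k2 y = η.toZFSet ∧ G2 y = (2 * η + 1 + 1).toZFSet := by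
    intro y hy hn
    obtain ⟨_, h1⟩ := isBij_app hb2 hy
    obtain ⟨ξ, hξ, h2⟩ := Ordinal.mem_toZFSet_iff.1 h1
    refine ⟨ξ, hξ, h2.symm, ?_⟩
    simp only [G2]
    rw [if_neg hn, ← h2, hdapp ξ hξ, Ordinal.toZFSet_add_one, Ordinal.toZFSet_add_one]
  have hin1 : ∀ x ∈ A₁, G1 x ∈ κ.toZFSet := by
    intro x hx
    obtain ⟨ξ, hξ, _, h2⟩ := hv1 x hx
    rw [h2, Ordinal.toZFSet_mem_toZFSet_iff]
    exact lt_trans (lt_add_one _) (double_lt hlim hξ)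
  have hin2 : ∀ y ∈ A₂, G2 y ∈ κ.toZFSet := by
    intro y hy
    by_cases h : ∃ x, x ∈ A₀ ∧ pair x y ∈ f₂
    · obtain ⟨x, hx, hxy⟩ := h
      rw [hv2 x y hxy]
      exact hin1 _ (isFunc_app he1.1 hx).2
    · obtain ⟨η, hη, _, h2⟩ := hv3 y hy h
      rw [h2, Ordinal.toZFSet_mem_toZFSet_iff]
      exact double_lt hlim hη
  have hinj1 : ∀ x ∈ A₁, ∀ x' ∈ A₁, G1 x = G1 x' → x = x' := by
    intro x hx x' hx' h
    obtain ⟨ξ, hξ, h1, h2⟩ := hv1 x hx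
    obtain ⟨ξ', hξ', h1', h2'⟩ := hv1 x' hx'
    rw [h2, h2'] at h
    have h3 := Ordinal.toZFSet_injective h
    have h4 : ξ = ξ' := two_mul_inj (by simpa using h3)
    exact isBij_inj hb1 hx hx' (by rw [h1, h1', h4])
  have hmix : ∀ x ∈ A₁, ∀ y ∈ A₂, (¬ ∃ x, x ∈ A₀ ∧ pair x y ∈ f₂) → G1 x ≠ G2 y := by
    intro x hx y hy hn h
    obtain ⟨ξ, _, _, h2⟩ := hv1 x hx
    obtain ⟨η, _, _, h2'⟩ := hv3 y hy hn
    rw [h2, h2'] at h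
    exact odd_ne_even (Ordinal.toZFSet_injective h)
  have hinj2 : ∀ y ∈ A₂, ∀ y' ∈ A₂, G2 y = G2 y' → y = y' := by
    intro y hy y' hy' h
    by_cases h1 : ∃ x, x ∈ A₀ ∧ pair x y ∈ f₂ <;> by_cases h2 : ∃ x, x ∈ A₀ ∧ pair x y' ∈ f₂
    · obtain ⟨x, hx, hxy⟩ := h1
      obtain ⟨x', hx', hxy'⟩ := h2
      rw [hv2 x y hxy, hv2 x' y' hxy'] at h
      have h3 := hinj1 _ (isFunc_app he1.1 hx).2 _ (isFunc_app he1.1 hx').2 h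
      have h4 : x = x' := he1.2.1 x x' (app f₁ x) (isFunc_app he1.1 hx).1
        (by rw [h3]; exact (isFunc_app he1.1 hx').1)
      rw [(isFunc_eq he2.1 hxy).2.2, (isFunc_eq he2.1 hxy').2.2, h4]
    · obtain ⟨x, hx, hxy⟩ := h1
      rw [hv2 x y hxy] at h
      exact absurd h (hmix _ (isFunc_app he1.1 hx).2 y' hy' h2)
    · obtain ⟨x, hx, hxy⟩ := h2
      rw [hv2 x y' hxy] at h
      exact absurd h.symm (hmix _ (isFunc_app he1.1 hx).2 y hy h1)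
    · obtain ⟨η, _, h3, h4⟩ := hv3 y hy h1
      obtain ⟨η', _, h3', h4'⟩ := hv3 y' hy' h2
      rw [h4, h4'] at h
      have h5 := Ordinal.toZFSet_injective h
      have h6 : η = η' := two_mul_inj (by simpa using h5)
      exact isBij_inj hb2 hy hy' (by rw [h3, h3', h6])
  -- the structure
  set UN := ZFSet.sep (fun p => ∃ n, n ∈ Ordinal.toZFSet (ω : Ordinal.{u}) ∧ ∃ z,
    z ∈ κ.toZFSet ∧ (p = pair n z ∧ ((∃ x, x ∈ A₁ ∧ (z = G1 x ∧ pair n x ∈ U₁)) ∨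
      ((∃ y, y ∈ A₂ ∧ (z = G2 y ∧ pair n y ∈ U₂)) ∨ ((¬ ∃ x, x ∈ A₁ ∧ z = G1 x) ∧
        ((¬ ∃ y, y ∈ A₂ ∧ z = G2 y) ∧ n ∈ S))))))
    (ZFSet.prod (Ordinal.toZFSet (ω : Ordinal.{u})) κ.toZFSet) with hUN_def
  have hUNV : UN ∈ V := by
    refine Z.sep' _ ?_ _ (Z.prod_mem Z.omega hκV)
    have t1 : ∀ k, TmV (fun _ => V) D (fun _ v => G1 (v k)) := fun k =>
      Z.ts.ds.tm1 (f := fun _ x => G1 x) hG1t (Z.ts.v k)
    have t2 : ∀ k, TmV (fun _ => V) D (fun _ v => G2 (v k)) := fun k =>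
      Z.ts.ds.tm1 (f := fun _ x => G2 x) hG2t (Z.ts.v k)
    refine Z.ts.exMem (Z.par _ Z.omega) ?_
    refine Z.ts.exMem (Z.par _ hκV) ?_
    refine Z.ts.and ?_ ?_
    · exact Z.ts.eq (Z.ts.v 2) (Z.ts.pair (Z.ts.v 1) (Z.ts.v 0))
    refine Z.ts.or ?_ ?_
    · refine Z.ts.exMem (Z.par _ hA1) ?_
      refine Z.ts.and ?_ ?_
      · exact Z.ts.eq (Z.ts.v 1) (t1 0)
      · exact Z.ts.mem (Z.ts.pair (Z.ts.v 2) (Z.ts.v 0)) (Z.par _ hU1)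
    refine Z.ts.or ?_ ?_
    · refine Z.ts.exMem (Z.par _ hA2) ?_
      refine Z.ts.and ?_ ?_
      · exact Z.ts.eq (Z.ts.v 1) (t2 0)
      · exact Z.ts.mem (Z.ts.pair (Z.ts.v 2) (Z.ts.v 0)) (Z.par _ hU2)
    · refine Z.ts.and ?_ ?_
      · refine Z.ts.not ?_
        refine Z.ts.exMem (Z.par _ hA1) ?_
        exact Z.ts.eq (Z.ts.v 1) (t1 0)
      refine Z.ts.and ?_ ?_
      · refine Z.ts.not ?_
        refine Z.ts.exMem (Z.par _ hA2) ?_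
        exact Z.ts.eq (Z.ts.v 1) (t2 0)
      · exact Z.ts.mem (Z.ts.v 1) (Z.par _ hSV)
  have hUN : ∀ (n : ℕ) (z : ZFSet.{u}), pair (nat n) z ∈ UN ↔ z ∈ κ.toZFSet ∧
      ((∃ x, x ∈ A₁ ∧ (z = G1 x ∧ pair (nat n) x ∈ U₁)) ∨
      ((∃ y, y ∈ A₂ ∧ (z = G2 y ∧ pair (nat n) y ∈ U₂)) ∨ ((¬ ∃ x, x ∈ A₁ ∧ z = G1 x) ∧
        ((¬ ∃ y, y ∈ A₂ ∧ z = G2 y) ∧ nat n ∈ S)))) := by
    intro n z
    rw [hUN_def, ZFSet.mem_sep, ZFSet.pair_mem_prod]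
    constructor
    · rintro ⟨_, n', _, z', hz', h1, h2⟩
      rw [ZFSet.pair_inj] at h1
      obtain ⟨rfl, rfl⟩ := h1
      exact ⟨hz', h2⟩
    · rintro ⟨hz, h⟩
      exact ⟨⟨nat_mem_omega n, hz⟩, nat n, nat_mem_omega n, z, hz, rfl, h⟩
  have hT1 : ∀ x ∈ A₁, ∀ n : ℕ, pair (nat n) x ∈ U₁ ↔ pair (nat n) (G1 x) ∈ UN := by
    intro x hx n
    rw [hUN]
    constructor
    · intro h
      exact ⟨hin1 x hx, Or.inl ⟨x, hx, rfl, h⟩⟩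
    · rintro ⟨_, ⟨x', hx', h1, h2⟩ | ⟨y, hy, h1, h2⟩ | ⟨h1, _⟩⟩
      · rw [hinj1 x hx x' hx' h1]; exact h2
      · by_cases h : ∃ x, x ∈ A₀ ∧ pair x y ∈ f₂
        · obtain ⟨x0, hx0, hxy⟩ := h
          rw [hv2 x0 y hxy] at h1
          have h3 := hinj1 x hx _ (isFunc_app he1.1 hx0).2 h1
          rw [h3]
          exact (he1.2.2 _ _ (isFunc_app he1.1 hx0).1 n).1 ((he2.2.2 _ _ hxy n).2 h2)
        · exact absurd h1 (hmix x hx y hy h)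
      · exact absurd ⟨x, hx, rfl⟩ h1
  have hT2 : ∀ y ∈ A₂, ∀ n : ℕ, pair (nat n) y ∈ U₂ ↔ pair (nat n) (G2 y) ∈ UN := by
    intro y hy n
    constructor
    · intro h
      rw [hUN]
      exact ⟨hin2 y hy, Or.inr (Or.inl ⟨y, hy, rfl, h⟩)⟩
    · intro h
      by_cases hc : ∃ x, x ∈ A₀ ∧ pair x y ∈ f₂
      · obtain ⟨x0, hx0, hxy⟩ := hc
        rw [hv2 x0 y hxy, ← hT1 _ (isFunc_app he1.1 hx0).2] at h
        exact (he2.2.2 _ _ hxy n).1 ((he1.2.2 _ _ (isFunc_app he1.1 hx0).1 n).2 h)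
      · rw [hUN] at h
        obtain ⟨_, ⟨x', hx', h1, h2⟩ | ⟨y', hy', h1, h2⟩ | ⟨_, h1, _⟩⟩ := h
        · exact absurd h1.symm (hmix x' hx' y hy hc)
        · rw [hinj2 y hy y' hy' h1]; exact h2
        · exact absurd ⟨y, hy, rfl⟩ h1
  have hT3 : ∀ z ∈ κ.toZFSet, (¬ ∃ x, x ∈ A₁ ∧ z = G1 x) → (¬ ∃ y, y ∈ A₂ ∧ z = G2 y) →
      ∀ n : ℕ, pair (nat n) z ∈ UN ↔ nat n ∈ S := by
    intro z hz h1 h2 n
    rw [hUN]
    constructor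
    · rintro ⟨_, ⟨x', hx', h3, _⟩ | ⟨y', hy', h3, _⟩ | ⟨_, _, h3⟩⟩
      · exact absurd ⟨x', hx', h3⟩ h1
      · exact absurd ⟨y', hy', h3⟩ h2
      · exact h3
    · intro h
      exact ⟨hz, Or.inr (Or.inr ⟨h1, h2, h⟩)⟩
  have h0κ : (0 : Ordinal.{u}).toZFSet ∈ κ.toZFSet :=
    Ordinal.toZFSet_mem_toZFSet_iff.2 (lt_of_lt_of_le Ordinal.omega0_pos hc.2.1)
  have h01 : ¬ ∃ x, x ∈ A₁ ∧ (0 : Ordinal.{u}).toZFSet = G1 x := by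
    rintro ⟨x, hx, h⟩
    obtain ⟨ξ, _, _, h2⟩ := hv1 x hx
    rw [h2] at h
    have := Ordinal.toZFSet_injective h
    have h3 : (0 : Ordinal.{u}) < 2 * ξ + 1 := lt_of_le_of_lt zero_le (lt_add_one _)
    rw [← this] at h3
    exact lt_irrefl _ h3
  have h02 : ¬ ∃ y, y ∈ A₂ ∧ (0 : Ordinal.{u}).toZFSet = G2 y := by
    rintro ⟨y, hy, h⟩
    by_cases hc : ∃ x, x ∈ A₀ ∧ pair x y ∈ f₂
    · obtain ⟨x0, hx0, hxy⟩ := hc
      rw [hv2 x0 y hxy] at h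
      exact h01 ⟨_, (isFunc_app he1.1 hx0).2, h⟩
    · obtain ⟨η, _, _, h2⟩ := hv3 y hy hc
      rw [h2] at h
      have := Ordinal.toZFSet_injective h
      have h3 : (0 : Ordinal.{u}) < 2 * η + 1 + 1 := lt_of_le_of_lt zero_le (lt_add_one _)
      rw [← this] at h3
      exact lt_irrefl _ h3
  have hmodel : ModSem (rOf eb) κ.toZFSet UN := by
    refine ⟨E1, ?_, hG, ?_⟩
    · intro z hz m n
      by_cases h1 : ∃ x, x ∈ A₁ ∧ z = G1 x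
      · obtain ⟨x, hx, rfl⟩ := h1
        rw [← hT1 x hx, hE1 x hx]
      · by_cases h2 : ∃ y, y ∈ A₂ ∧ z = G2 y
        · obtain ⟨y, hy, rfl⟩ := h2
          rw [← hT2 y hy, hE2 y hy]
        · rw [hT3 z hz h1 h2, hScr]
    · intro _ _
      refine ⟨_, h0κ, ?_, ?_⟩
      · obtain ⟨n, rfl⟩ := mem_omega.1 (hYω hy0)
        exact ⟨n, (hT3 _ h0κ h01 h02 _).2 ((hSD n).2 hy0)⟩
      · intro n hn
        rw [hT3 _ h0κ h01 h02, hSD] at hn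
        obtain ⟨y, hy, hyn⟩ := hYm _ hn
        obtain ⟨m, rfl⟩ := mem_omega.1 (hYω hy)
        exact ⟨m, (hT3 _ h0κ h01 h02 _).2 ((hSD m).2 hy), (hEh m n).1 hyn⟩
  refine ⟨κ.toZFSet, UN, ⟨hκV, hUNV, ⟨⟨_, h0κ⟩, ?_⟩, (phi_sem ⟨_, h0κ⟩).2 hmodel,
    Z.sameSize_refl hκV⟩, gr G1 A₁, Z.gr_of_tm hG1t hA1, gr G2 A₂, Z.gr_of_tm hG2t hA2,
    isEmb_gr hin1 hinj1 hT1, isEmb_gr hin2 hinj2 hT2, ?_⟩
  · intro p hp
    rw [hUN_def, ZFSet.mem_sep] at hp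
    obtain ⟨_, n, hn, z, hz, rfl, _⟩ := hp
    obtain ⟨n, rfl⟩ := mem_omega.1 hn
    exact ⟨n, z, hz, rfl⟩
  · intro x y₁ y₂ z₁ z₂ h1 h2 h3 h4
    obtain ⟨_, h5⟩ := pair_mem_gr.1 h3
    obtain ⟨_, h6⟩ := pair_mem_gr.1 h4
    rw [← h5, ← h6, hv2 x y₂ h2, (isFunc_eq he1.1 h1).2.2]

end

end Pool.Agent.Work.MP_fbd45d_lc
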