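import Pool.Agent.Work.MP_fbd45d_lc.Defs

/-!
# Definability systems

An abstract treatment of first-order definability (classes of predicates of assignments closed
under the logical operations), with terms and substitution.
-/

namespace Pool.Agent.Work.MP_fbd45d_lc

/-- A definability system: a collection `D` of predicates of assignments, closed under the
logical operations. -/
structure DS {I : Type*} {M : Type*} (dom : I → M → Prop)
    (D : (I → (ℕ → M) → Prop) → Prop) : Prop where
  congr' : ∀ {P Q : I → (ℕ → M) → Prop},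
    (∀ i v, (∀ n, dom i (v n)) → (P i v ↔ Q i v)) → D P → D Q
  eq' : ∀ m n : ℕ, D (fun _ v => v m = v n)
  not : ∀ {P : I → (ℕ → M) → Prop}, D P → D (fun i v => ¬ P i v)
  and : ∀ {P Q : I → (ℕ → M) → Prop}, D P → D Q → D (fun i v => P i v ∧ Q i v)
  ex' : ∀ {P : I → (ℕ → M) → Prop}, D P → D (fun i v => ∃ a, dom i a ∧ P i (cons a v))
  rename : ∀ {P : I → (ℕ → M) → Prop}, D P → ∀ f : ℕ → ℕ, D (fun i v => P i (fun n => v (f n)))
  fin : ∀ {P : I → (ℕ → M) → Prop}, D P → ∃ N, ∀ i v w, (∀ n, dom i (v n)) →
    (∀ n, dom i (w n)) → (∀ n < N, v n = w n) → (P i v ↔ P i w)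

/-- A definable function (term). -/
structure Tm {I : Type*} {M : Type*} (dom : I → M → Prop)
    (D : (I → (ℕ → M) → Prop) → Prop) (t : I → (ℕ → M) → M) : Prop where
  closed : ∀ i v, (∀ n, dom i (v n)) → dom i (t i v)
  graph : D (fun i v => v 0 = t i (fun n => v (n + 1)))

section

variable {I : Type*} {M : Type*} {dom : I → M → Prop} {D : (I → (ℕ → M) → Prop) → Prop}

theorem cons_tail {M : Type*} (v : ℕ → M) : cons (v 0) (fun n => v (n + 1)) = v := by
  funext n; cases n <;> rfl

theorem cons_dom {P : M → Prop} {a : M} {v : ℕ → M} (ha : P a) (hv : ∀ n, P (v n)) :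
    ∀ n, P (cons a v n) := by
  intro n; cases n
  · exact ha
  · exact hv _

namespace DS

theorem congr (S : DS dom D) {P Q : I → (ℕ → M) → Prop} (hP : D P)
    (h : ∀ i v, (∀ n, dom i (v n)) → (P i v ↔ Q i v)) : D Q := S.congr' h hP

theorem or (S : DS dom D) {P Q : I → (ℕ → M) → Prop} (hP : D P) (hQ : D Q) :
    D (fun i v => P i v ∨ Q i v) :=
  S.congr (S.not (S.and (S.not hP) (S.not hQ))) (fun i v _ => by tauto)

theorem imp (S : DS dom D) {P Q : I → (ℕ → M) → Prop} (hP : D P) (hQ : D Q) :
    D (fun i v => P i v → Q i v) :=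
  S.congr (S.not (S.and hP (S.not hQ))) (fun i v _ => by tauto)

theorem iff (S : DS dom D) {P Q : I → (ℕ → M) → Prop} (hP : D P) (hQ : D Q) :
    D (fun i v => P i v ↔ Q i v) :=
  S.congr (S.and (S.imp hP hQ) (S.imp hQ hP)) (fun i v _ => by tauto)

theorem const (S : DS dom D) (p : Prop) : D (fun _ _ => p) := by
  by_cases hp : p
  · exact S.congr (S.eq' 0 0) (fun i v _ => by simp [hp])
  · exact S.congr (S.not (S.eq' 0 0)) (fun i v _ => by simp [hp])

theorem ex (S : DS dom D) {Q : I → M → (ℕ → M) → Prop}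
    (h : D (fun i w => Q i (w 0) (fun n => w (n + 1)))) : D (fun i v => ∃ a, dom i a ∧ Q i a v) :=
  S.ex' h

theorem all (S : DS dom D) {Q : I → M → (ℕ → M) → Prop}
    (h : D (fun i w => Q i (w 0) (fun n => w (n + 1)))) : D (fun i v => ∀ a, dom i a → Q i a v) :=
  S.congr (S.not (S.ex (Q := fun i a v => ¬ Q i a v) (S.not h)))
    (fun i v _ => by push Not; rfl)

/-- `∃!` over the domain. -/
theorem exu (S : DS dom D) {Q : I → M → (ℕ → M) → Prop}
    (h : D (fun i w => Q i (w 0) (fun n => w (n + 1)))) :
    D (fun i v => ∃! a, dom i a ∧ Q i a v) := by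
  have h2 : D (fun i v => ∃ a, dom i a ∧ (Q i a v ∧ ∀ b, dom i b → (Q i b v → b = a))) := by
    refine S.ex (S.and h ?_)
    refine S.all (S.imp ?_ (S.eq' 0 1))
    have := S.rename h (fun n => if n = 0 then 0 else n + 1)
    refine S.congr this (fun i v _ => ?_)
    simp
  refine S.congr h2 (fun i v _ => ?_)
  constructor
  · rintro ⟨a, ha, hq, hu⟩
    exact ⟨a, ⟨ha, hq⟩, fun b hb => hu b hb.1 hb.2⟩
  · rintro ⟨a, ⟨ha, hq⟩, hu⟩
    exact ⟨a, ha, hq, fun b hb hb' => hu b ⟨hb, hb'⟩⟩

end DS

theorem Tm.var (S : DS dom D) (n : ℕ) : Tm dom D (fun _ v => v n) :=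
  ⟨fun _ _ h => h n, S.eq' 0 (n + 1)⟩

namespace DS

theorem subst0 (S : DS dom D) {P : I → (ℕ → M) → Prop} (hP : D P) {t : I → (ℕ → M) → M}
    (ht : Tm dom D t) : D (fun i v => P i (cons (t i v) v)) := by
  refine S.congr (S.ex' (S.and ht.graph hP)) (fun i v hv => ?_)
  constructor
  · rintro ⟨a, _, h1, h2⟩
    have h1' : a = t i v := h1
    subst h1'
    exact h2
  · intro h
    exact ⟨t i v, ht.closed i v hv, rfl, h⟩

theorem tmRename (S : DS dom D) {t : I → (ℕ → M) → M} (ht : Tm dom D t) (f : ℕ → ℕ) :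
    Tm dom D (fun i v => t i (fun n => v (f n))) := by
  refine ⟨fun i v hv => ht.closed i _ (fun n => hv _), ?_⟩
  exact S.rename ht.graph (fun n => Nat.casesOn n 0 (fun k => f k + 1))

theorem substAux (S : DS dom D) {P : I → (ℕ → M) → Prop} (hP : D P) (m : ℕ) :
    ∀ t : ℕ → I → (ℕ → M) → M, (∀ n, Tm dom D (t n)) →
      D (fun i v => P i (fun n => if n < m then t n i v else v (n - m))) := by
  induction m with
  | zero =>
    intro t _
    exact S.congr hP (fun i v _ => by simp)
  | succ m ih =>
    intro t ht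
    have h1 := ih (fun n i v => t n i (fun k => v (k + 1)))
      (fun n => S.tmRename (ht n) (fun k => k + 1))
    have h2 := S.subst0 h1 (ht m)
    refine S.congr h2 (fun i v _ => ?_)
    have : (fun n => if n < m then t n i (fun k => cons (t m i v) v (k + 1))
        else cons (t m i v) v (n - m)) =
        (fun n => if n < m + 1 then t n i v else v (n - (m + 1))) := by
      funext n
      rcases lt_trichotomy n m with h | h | h
      · simp [h, Nat.lt_succ_of_lt h, cons]
      · subst h
        simp [cons]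
      · have h3 : ¬ n < m := by omega
        have h4 : ¬ n < m + 1 := by omega
        obtain ⟨k, rfl⟩ : ∃ k, n = m + 1 + k := ⟨n - (m + 1), by omega⟩
        have h5 : m + 1 + k - m = k + 1 := by omega
        simp only [h3, h4, if_false, h5]
        have h6 : m + 1 + k - (m + 1) = k := by omega
        rw [h6]
        rfl
    rw [this]

theorem subst (S : DS dom D) {P : I → (ℕ → M) → Prop} (hP : D P) (t : ℕ → I → (ℕ → M) → M)
    (ht : ∀ n, Tm dom D (t n)) : D (fun i v => P i (fun n => t n i v)) := by
  obtain ⟨N, hN⟩ := S.fin hP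
  refine S.congr (S.substAux hP N t ht) (fun i v hv => ?_)
  apply hN
  · intro n
    by_cases h : n < N
    · simp only [h, if_true]
      exact (ht n).closed i v hv
    · simp only [h, if_false]
      exact hv _
  · intro n
    exact (ht n).closed i v hv
  · intro n hn
    simp [hn]

theorem rel1 (S : DS dom D) {R : I → M → Prop} (hR : D (fun i v => R i (v 0)))
    {s : I → (ℕ → M) → M} (hs : Tm dom D s) : D (fun i v => R i (s i v)) :=
  S.subst hR (fun _ => s) (fun _ => hs)

theorem rel2 (S : DS dom D) {R : I → M → M → Prop} (hR : D (fun i v => R i (v 0) (v 1)))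
    {s t : I → (ℕ → M) → M} (hs : Tm dom D s) (ht : Tm dom D t) :
    D (fun i v => R i (s i v) (t i v)) :=
  S.subst hR (fun n => Nat.casesOn n s (fun _ => t)) (fun n => by cases n; exacts [hs, ht])

theorem rel3 (S : DS dom D) {R : I → M → M → M → Prop}
    (hR : D (fun i v => R i (v 0) (v 1) (v 2)))
    {s t r : I → (ℕ → M) → M} (hs : Tm dom D s) (ht : Tm dom D t) (hr : Tm dom D r) :
    D (fun i v => R i (s i v) (t i v) (r i v)) :=
  S.subst hR (fun n => Nat.casesOn n s (fun n => Nat.casesOn n t (fun _ => r)))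
    (fun n => by
      rcases n with _ | _ | n
      exacts [hs, ht, hr])

theorem rel4 (S : DS dom D) {R : I → M → M → M → M → Prop}
    (hR : D (fun i v => R i (v 0) (v 1) (v 2) (v 3)))
    {s t r q : I → (ℕ → M) → M} (hs : Tm dom D s) (ht : Tm dom D t) (hr : Tm dom D r)
    (hq : Tm dom D q) :
    D (fun i v => R i (s i v) (t i v) (r i v) (q i v)) :=
  S.subst hR (fun n => Nat.casesOn n s (fun n => Nat.casesOn n t
    (fun n => Nat.casesOn n r (fun _ => q))))
    (fun n => by
      rcases n with _ | _ | _ | n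
      exacts [hs, ht, hr, hq])

theorem tmSubst (S : DS dom D) {f : I → (ℕ → M) → M} (hf : Tm dom D f)
    (t : ℕ → I → (ℕ → M) → M) (ht : ∀ n, Tm dom D (t n)) :
    Tm dom D (fun i v => f i (fun n => t n i v)) := by
  refine ⟨fun i v hv => hf.closed i _ (fun n => (ht n).closed i v hv), ?_⟩
  exact S.subst hf.graph
    (fun n => Nat.casesOn n (fun _ v => v 0) (fun n i v => t n i (fun k => v (k + 1))))
    (fun n => by
      cases n
      · exact Tm.var S 0
      · exact S.tmRename (ht _) (fun k => k + 1))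

theorem tm1 (S : DS dom D) {f : I → M → M} (hf : Tm dom D (fun i v => f i (v 0)))
    {s : I → (ℕ → M) → M} (hs : Tm dom D s) : Tm dom D (fun i v => f i (s i v)) :=
  S.tmSubst hf (fun _ => s) (fun _ => hs)

theorem tm2 (S : DS dom D) {f : I → M → M → M} (hf : Tm dom D (fun i v => f i (v 0) (v 1)))
    {s t : I → (ℕ → M) → M} (hs : Tm dom D s) (ht : Tm dom D t) :
    Tm dom D (fun i v => f i (s i v) (t i v)) :=
  S.tmSubst hf (fun n => Nat.casesOn n s (fun _ => t)) (fun n => by cases n; exacts [hs, ht])

theorem tm3 (S : DS dom D) {f : I → M → M → M → M}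
    (hf : Tm dom D (fun i v => f i (v 0) (v 1) (v 2)))
    {s t r : I → (ℕ → M) → M} (hs : Tm dom D s) (ht : Tm dom D t) (hr : Tm dom D r) :
    Tm dom D (fun i v => f i (s i v) (t i v) (r i v)) :=
  S.tmSubst hf (fun n => Nat.casesOn n s (fun n => Nat.casesOn n t (fun _ => r)))
    (fun n => by
      rcases n with _ | _ | n
      exacts [hs, ht, hr])

theorem eq (S : DS dom D) {s t : I → (ℕ → M) → M} (hs : Tm dom D s) (ht : Tm dom D t) :
    D (fun i v => s i v = t i v) :=
  S.rel2 (R := fun _ a b => a = b) (S.eq' 0 1) hs ht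

/-- `∀ v`, i.e. universal closure of a definable predicate. -/
theorem closure (S : DS dom D) {P : I → (ℕ → M) → Prop} (hP : D P) :
    D (fun i _ => ∀ v, (∀ n, dom i (v n)) → P i v) := by
  obtain ⟨N, hN⟩ := S.fin hP
  have key : ∀ m, D (fun i v => ∀ w : ℕ → M, (∀ n, dom i (w n)) → (∀ n, w (n + m) = v n) →
      P i w) := by
    intro m
    induction m with
    | zero =>
      refine S.congr hP (fun i v hv => ?_)
      constructor
      · intro h w _ hw
        have : w = v := funext hw
        rw [this]; exact h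
      · intro h
        exact h v hv (fun n => rfl)
    | succ m ih =>
      have h1 := S.all (Q := fun i a v => ∀ w : ℕ → M, (∀ n, dom i (w n)) →
        (∀ n, w (n + m) = cons a v n) → P i w) (by
          refine S.congr ih (fun i v _ => ?_)
          rw [cons_tail])
      refine S.congr h1 (fun i v hv => ?_)
      constructor
      · intro h w hw hwv
        refine h (w m) (hw m) w hw (fun n => ?_)
        cases n with
        | zero => simp [cons]
        | succ n =>
          have := hwv n
          rw [show n + 1 + m = n + (m + 1) by ring]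
          exact this
      · intro h a ha w hw hwv
        refine h w hw (fun n => ?_)
        have := hwv (n + 1)
        rw [show n + (m + 1) = n + 1 + m by ring]
        exact this
  refine S.congr (key N) (fun i v hv => ?_)
  constructor
  · intro h w hw
    have h1 := h (fun n => if n < N then w n else v (n - N)) (fun n => by
      by_cases hn : n < N
      · simp only [hn, if_true]; exact hw n
      · simp only [hn, if_false]; exact hv _) (fun n => by simp)
    refine (hN i _ w ?_ hw ?_).1 h1
    · intro n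
      by_cases hn : n < N
      · simp only [hn, if_true]; exact hw n
      · simp only [hn, if_false]; exact hv _
    · intro n hn
      simp [hn]
  · intro h w hw _
    exact h w hw

end DS

end

/-! ## First-order syntax with ternary relations -/

/-- Formulas with (at most ternary) relation symbols from `L`. -/
inductive Fm (L : Type) : Type
  | rel (r : L) (i j k : ℕ) : Fm L
  | eq (i j : ℕ) : Fm L
  | neg (φ : Fm L) : Fm L
  | and (φ ψ : Fm L) : Fm L
  | ex (φ : Fm L) : Fm L
  deriving Encodable

/-- Satisfaction. -/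
def Fm.Sat {L : Type} {M : Type*} (dom : M → Prop) (R : L → M → M → M → Prop) :
    Fm L → (ℕ → M) → Prop
  | rel r i j k, v => R r (v i) (v j) (v k)
  | eq i j, v => v i = v j
  | neg φ, v => ¬ φ.Sat dom R v
  | and φ ψ, v => φ.Sat dom R v ∧ ψ.Sat dom R v
  | ex φ, v => ∃ a, dom a ∧ φ.Sat dom R (cons a v)

/-- Renaming of the variables. -/
def Fm.rename {L : Type} : Fm L → (ℕ → ℕ) → Fm L
  | rel r i j k, f => rel r (f i) (f j) (f k)
  | eq i j, f => eq (f i) (f j)
  | neg φ, f => neg (φ.rename f)
  | and φ ψ, f => and (φ.rename f) (ψ.rename f)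
  | ex φ, f => ex (φ.rename (fun n => Nat.casesOn n 0 (fun k => f k + 1)))

theorem Fm.sat_rename {L : Type} {M : Type*} (dom : M → Prop) (R : L → M → M → M → Prop)
    (φ : Fm L) : ∀ (f : ℕ → ℕ) (v : ℕ → M),
    (φ.rename f).Sat dom R v ↔ φ.Sat dom R (fun n => v (f n)) := by
  induction φ with
  | rel r i j k => intro f v; rfl
  | eq i j => intro f v; rfl
  | neg φ ih => intro f v; simp only [rename, Sat, ih]
  | and φ ψ ih1 ih2 => intro f v; simp only [rename, Sat, ih1, ih2]
  | ex φ ih =>
    intro f v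
    simp only [rename, Sat, ih]
    have : ∀ a, (fun n => cons a v (Nat.casesOn n 0 (fun k => f k + 1))) =
        cons a (fun n => v (f n)) := by
      intro a; funext n; cases n <;> rfl
    simp only [this]

/-- A bound for the free variables. -/
def Fm.bd {L : Type} : Fm L → ℕ
  | rel _ i j k => i + j + k + 1
  | eq i j => i + j + 1
  | neg φ => φ.bd
  | and φ ψ => φ.bd + ψ.bd
  | ex φ => φ.bd

theorem Fm.sat_bd {L : Type} {M : Type*} (dom : M → Prop) (R : L → M → M → M → Prop)
    (φ : Fm L) : ∀ v w : ℕ → M, (∀ n < φ.bd, v n = w n) → (φ.Sat dom R v ↔ φ.Sat dom R w) := by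
  induction φ with
  | rel r i j k =>
    intro v w h
    simp only [bd] at h
    simp only [Sat, h i (by omega), h j (by omega), h k (by omega)]
  | eq i j =>
    intro v w h
    simp only [bd] at h
    simp only [Sat, h i (by omega), h j (by omega)]
  | neg φ ih =>
    intro v w h
    simp only [Sat, ih v w h]
  | and φ ψ ih1 ih2 =>
    intro v w h
    simp only [bd] at h
    simp only [Sat, ih1 v w (fun n hn => h n (by omega)), ih2 v w (fun n hn => h n (by omega))]
  | ex φ ih =>
    intro v w h
    have : ∀ a, (φ.Sat dom R (cons a v) ↔ φ.Sat dom R (cons a w)) := by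
      intro a
      apply ih
      intro n hn
      cases n with
      | zero => rfl
      | succ n => exact h n (by simp only [bd]; omega)
    simp only [Sat, this]

/-- The predicates which are (uniformly) definable by formulas without parameters. -/
def FD {L : Type} {I M : Type*} (dom : I → M → Prop) (R : I → L → M → M → M → Prop)
    (P : I → (ℕ → M) → Prop) : Prop :=
  ∃ φ : Fm L, ∀ i v, (∀ n, dom i (v n)) → (P i v ↔ φ.Sat (dom i) (R i) v)

theorem FD.ds {L : Type} {I M : Type*} (dom : I → M → Prop) (R : I → L → M → M → M → Prop) :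
    DS dom (FD dom R) where
  congr' := by
    rintro P Q h ⟨φ, hφ⟩
    exact ⟨φ, fun i v hv => (h i v hv).symm.trans (hφ i v hv)⟩
  eq' := fun m n => ⟨Fm.eq m n, fun i v _ => Iff.rfl⟩
  not := by
    rintro P ⟨φ, hφ⟩
    exact ⟨Fm.neg φ, fun i v hv => not_congr (hφ i v hv)⟩
  and := by
    rintro P Q ⟨φ, hφ⟩ ⟨ψ, hψ⟩
    exact ⟨Fm.and φ ψ, fun i v hv => and_congr (hφ i v hv) (hψ i v hv)⟩
  ex' := by
    rintro P ⟨φ, hφ⟩
    refine ⟨Fm.ex φ, fun i v hv => ?_⟩
    constructor
    · rintro ⟨a, ha, h⟩
      exact ⟨a, ha, (hφ i _ (cons_dom ha hv)).1 h⟩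
    · rintro ⟨a, ha, h⟩
      exact ⟨a, ha, (hφ i _ (cons_dom ha hv)).2 h⟩
  rename := by
    rintro P ⟨φ, hφ⟩ f
    exact ⟨φ.rename f, fun i v hv => (hφ i _ (fun n => hv _)).trans
      (Fm.sat_rename _ _ φ f v).symm⟩
  fin := by
    rintro P ⟨φ, hφ⟩
    refine ⟨φ.bd, fun i v w hv hw h => ?_⟩
    rw [hφ i v hv, hφ i w hw]
    exact Fm.sat_bd _ _ φ v w h

theorem FD.rel {L : Type} {I M : Type*} (dom : I → M → Prop) (R : I → L → M → M → M → Prop)
    (r : L) (i j k : ℕ) : FD dom R (fun x v => R x r (v i) (v j) (v k)) :=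
  ⟨Fm.rel r i j k, fun _ _ _ => Iff.rfl⟩

/-! ## Parameters -/

/-- Substitution of variables and parameters. -/
def asg {I M : Type*} (s : ℕ → ℕ ⊕ (I → M)) (i : I) (v : ℕ → M) (n : ℕ) : M :=
  Sum.elim v (fun c => c i) (s n)

/-- Definability with parameters. -/
def PD {I M : Type*} (dom : I → M → Prop) (D : (I → (ℕ → M) → Prop) → Prop)
    (P : I → (ℕ → M) → Prop) : Prop :=
  ∃ Q, D Q ∧ ∃ s : ℕ → ℕ ⊕ (I → M), (∀ n c, s n = Sum.inr c → ∀ i, dom i (c i)) ∧
    ∀ i v, (∀ n, dom i (v n)) → (P i v ↔ Q i (asg s i v))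

theorem asg_dom {I M : Type*} {dom : I → M → Prop} {s : ℕ → ℕ ⊕ (I → M)}
    (hs : ∀ n c, s n = Sum.inr c → ∀ i, dom i (c i)) {i : I} {v : ℕ → M}
    (hv : ∀ n, dom i (v n)) : ∀ n, dom i (asg s i v n) := by
  intro n
  unfold asg
  rcases h : s n with m | c
  · exact hv m
  · exact hs n c h i

theorem PD.ds {I M : Type*} {dom : I → M → Prop} {D : (I → (ℕ → M) → Prop) → Prop}
    (S : DS dom D) : DS dom (PD dom D) where
  congr' := by
    rintro P Q h ⟨P', hP', s, hs, h'⟩
    exact ⟨P', hP', s, hs, fun i v hv => (h i v hv).symm.trans (h' i v hv)⟩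
  eq' := fun m n => ⟨_, S.eq' m n, fun n => Sum.inl n, by simp, fun i v _ => Iff.rfl⟩
  not := by
    rintro P ⟨P', hP', s, hs, h'⟩
    exact ⟨_, S.not hP', s, hs, fun i v hv => not_congr (h' i v hv)⟩
  and := by
    rintro P Q ⟨P', hP', s, hs, h'⟩ ⟨Q', hQ', s2, hs2, h2⟩
    refine ⟨_, S.and (S.rename hP' (fun n => 2 * n)) (S.rename hQ' (fun n => 2 * n + 1)),
      fun n => if n % 2 = 0 then s (n / 2) else s2 (n / 2), ?_, ?_⟩
    · intro n c
      by_cases h : n % 2 = 0
      · simp only [h, if_true]; exact hs _ _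
      · simp only [h, if_false]; exact hs2 _ _
    · intro i v hv
      have e1 : ∀ n, asg (fun n => if n % 2 = 0 then s (n / 2) else s2 (n / 2)) i v (2 * n) =
          asg s i v n := by
        intro n
        have : 2 * n / 2 = n := by omega
        simp [asg]
      have e2 : ∀ n, asg (fun n => if n % 2 = 0 then s (n / 2) else s2 (n / 2)) i v (2 * n + 1) =
          asg s2 i v n := by
        intro n
        have h1 : (2 * n + 1) / 2 = n := by omega
        have h2 : (2 * n + 1) % 2 = 1 := by omega
        simp [asg, h1, h2]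
      simp only [e1, e2]
      exact and_congr (h' i v hv) (h2 i v hv)
  ex' := by
    rintro P ⟨P', hP', s, hs, h'⟩
    classical
    refine ⟨_, S.ex' (S.rename hP' (fun n => if s n = Sum.inl 0 then 0 else n + 1)),
      fun n => Sum.elim (fun m => Sum.inl (m - 1)) Sum.inr (s n), ?_, ?_⟩
    · intro n c hc i
      rcases h : s n with m | c'
      · simp [h] at hc
      · simp only [h, Sum.elim_inr] at hc
        cases hc
        exact hs n _ h i
    · intro i v hv
      have key : ∀ a, (fun n => cons a (asg (fun n => Sum.elim (fun m => Sum.inl (m - 1))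
          Sum.inr (s n)) i v) (if s n = Sum.inl 0 then 0 else n + 1)) = asg s i (cons a v) := by
        intro a
        funext n
        rcases h : s n with m | c'
        · cases m with
          | zero => simp [asg, h, cons]
          | succ m => simp [asg, h, cons]
        · simp [asg, h, cons]
      simp only [key]
      constructor
      · rintro ⟨a, ha, h⟩
        exact ⟨a, ha, (h' i _ (cons_dom ha hv)).1 h⟩
      · rintro ⟨a, ha, h⟩
        exact ⟨a, ha, (h' i _ (cons_dom ha hv)).2 h⟩
  rename := by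
    rintro P ⟨P', hP', s, hs, h'⟩ f
    refine ⟨P', hP', fun n => Sum.map f id (s n), ?_, ?_⟩
    · intro n c hc i
      rcases h : s n with m | c'
      · simp [h] at hc
      · simp only [h, Sum.map_inr, id] at hc
        cases hc
        exact hs n _ h i
    · intro i v hv
      refine (h' i _ (fun n => hv _)).trans ?_
      have : asg s i (fun n => v (f n)) = asg (fun n => Sum.map f id (s n)) i v := by
        funext n
        rcases h : s n with m | c' <;> simp [asg, h]
      rw [this]
  fin := by
    rintro P ⟨P', hP', s, hs, h'⟩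
    obtain ⟨N, hN⟩ := S.fin hP'
    refine ⟨(Finset.range N).sup (fun n => Sum.elim (fun m => m + 1) (fun _ => 0) (s n)),
      fun i v w hv hw h => ?_⟩
    rw [h' i v hv, h' i w hw]
    apply hN i _ _ (asg_dom hs hv) (asg_dom hs hw)
    intro n hn
    rcases e : s n with m | c'
    · simp only [asg, e, Sum.elim_inl]
      apply h
      have := Finset.le_sup (f := fun n => Sum.elim (fun m => m + 1) (fun _ => 0) (s n))
        (Finset.mem_range.2 hn)
      simp only [e, Sum.elim_inl] at this
      exact this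
    · simp [asg, e]

theorem PD.of {I M : Type*} {dom : I → M → Prop} {D : (I → (ℕ → M) → Prop) → Prop}
    {P : I → (ℕ → M) → Prop} (h : D P) : PD dom D P :=
  ⟨P, h, fun n => Sum.inl n, by simp, fun _ _ _ => Iff.rfl⟩

theorem PD.par {I M : Type*} {dom : I → M → Prop} {D : (I → (ℕ → M) → Prop) → Prop}
    (S : DS dom D) {c : I → M} (hc : ∀ i, dom i (c i)) : Tm dom (PD dom D) (fun i _ => c i) := by
  refine ⟨fun i _ _ => hc i, fun i v => v 0 = v 1, S.eq' 0 1,
    fun n => Nat.casesOn n (Sum.inl 0) (fun _ => Sum.inr c), ?_, fun i v _ => Iff.rfl⟩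
  intro n c' h i
  cases n with
  | zero => simp at h
  | succ n =>
    simp only at h
    cases h
    exact hc i

end Pool.Agent.Work.MP_fbd45d_lc
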