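import Mathlib

/-!
# Amalgamation of sentences of `L_{ω₁,ω}` inside transitive models of ZFC + GCH

Everything takes place in the universe `ZFSet.{u}` of ZFC sets of Mathlib.  An ordinal `α` is
identified with the von Neumann ordinal `α.toZFSet`.
-/

namespace Pool.Agent.Work.MP_fbd45d_lc

open Ordinal

universe u

/-! ## Transitive models of ZFC + GCH -/

/-- `cons a v` is the assignment `a, v 0, v 1, v 2, …`. -/
def cons {M : Type*} (a : M) (v : ℕ → M) : ℕ → M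
  | 0 => a
  | n + 1 => v n

/-- First-order formulas of the language of set theory, with variables `x_0, x_1, …`
(de Bruijn indices: `ex φ` quantifies over the variable `x_0` of `φ`). -/
inductive SForm : Type
  | mem (i j : ℕ) : SForm
  | eq (i j : ℕ) : SForm
  | neg (φ : SForm) : SForm
  | and (φ ψ : SForm) : SForm
  | ex (φ : SForm) : SForm

/-- `φ.Sat V v`: the structure `(V, ∈)` satisfies the formula `φ` at the assignment `v`. -/
def SForm.Sat (V : ZFSet.{u}) : SForm → (ℕ → ZFSet.{u}) → Prop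
  | mem i j, v => v i ∈ v j
  | eq i j, v => v i = v j
  | neg φ, v => ¬ φ.Sat V v
  | and φ ψ, v => φ.Sat V v ∧ ψ.Sat V v
  | ex φ, v => ∃ a ∈ V, φ.Sat V (cons a v)

/-- `V` is a transitive model of ZFC: a transitive set such that the axioms of ZFC hold in
`(V, ∈)`.  (Extensionality and foundation hold in every transitive set.)  All the clauses are the
usual axioms with quantifiers ranging over `V`; separation and replacement are schemes, over all
first-order formulas with parameters in `V`. -/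
structure IsTransModelZFC (V : ZFSet.{u}) : Prop where
  transitive : V.IsTransitive
  pairing : ∀ a ∈ V, ∀ b ∈ V, ∃ c ∈ V, ∀ x ∈ V, x ∈ c ↔ x = a ∨ x = b
  union : ∀ a ∈ V, ∃ c ∈ V, ∀ x ∈ V, x ∈ c ↔ ∃ y ∈ V, y ∈ a ∧ x ∈ y
  powerset : ∀ a ∈ V, ∃ c ∈ V, ∀ x ∈ V, x ∈ c ↔ ∀ y ∈ V, y ∈ x → y ∈ a
  infinity : ∃ c ∈ V, (∃ e ∈ V, e ∈ c ∧ ∀ x ∈ V, x ∉ e) ∧
    ∀ x ∈ V, x ∈ c → ∃ y ∈ V, y ∈ c ∧ ∀ z ∈ V, z ∈ y ↔ z ∈ x ∨ z = x
  separation : ∀ (φ : SForm) (v : ℕ → ZFSet.{u}), (∀ n, v n ∈ V) → ∀ a ∈ V,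
    ∃ b ∈ V, ∀ x ∈ V, x ∈ b ↔ x ∈ a ∧ φ.Sat V (cons x v)
  replacement : ∀ (φ : SForm) (v : ℕ → ZFSet.{u}), (∀ n, v n ∈ V) → ∀ a ∈ V,
    (∀ x ∈ V, x ∈ a → ∃! y, y ∈ V ∧ φ.Sat V (cons x (cons y v))) →
    ∃ b ∈ V, ∀ y ∈ V, y ∈ b ↔ ∃ x ∈ V, x ∈ a ∧ φ.Sat V (cons x (cons y v))
  choice : ∀ a ∈ V, (∀ x ∈ V, x ∈ a → ∃ z ∈ V, z ∈ x) →
    (∀ x ∈ V, ∀ y ∈ V, x ∈ a → y ∈ a → (∃ z ∈ V, z ∈ x ∧ z ∈ y) → x = y) →
    ∃ c ∈ V, ∀ x ∈ V, x ∈ a → ∃! z, z ∈ V ∧ z ∈ x ∧ z ∈ c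

/-- `f` is (the graph of) a bijection from `a` onto `b`. -/
def IsBij (f a b : ZFSet.{u}) : Prop :=
  (∀ p ∈ f, ∃ x ∈ a, ∃ y ∈ b, p = ZFSet.pair x y) ∧
  (∀ x ∈ a, ∃! y, ZFSet.pair x y ∈ f) ∧ (∀ y ∈ b, ∃! x, ZFSet.pair x y ∈ f)

/-- `a` and `b` have the same size in the sense of `V`: `V` contains a bijection from `a` onto
`b`. -/
def SameSizeIn (V a b : ZFSet.{u}) : Prop := ∃ f ∈ V, IsBij f a b

/-- The ordinal `κ` is an infinite cardinal in the sense of `V`. -/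
def IsInfCard (V : ZFSet.{u}) (κ : Ordinal.{u}) : Prop :=
  κ.toZFSet ∈ V ∧ ω ≤ κ ∧ ∀ β < κ, ¬ SameSizeIn V β.toZFSet κ.toZFSet

/-- `κ = ℵ_α` in the sense of `V`: some function `h` lists the infinite cardinals of `V` up to
`κ` in increasing order, without omission, and `h α = κ`. -/
def IsAleph (V : ZFSet.{u}) (α κ : Ordinal.{u}) : Prop :=
  ∃ h : Ordinal.{u} → Ordinal.{u},
    (∀ β ≤ α, IsInfCard V (h β) ∧ (∀ γ < β, h γ < h β) ∧
      ∀ μ < h β, IsInfCard V μ → ∃ γ < β, h γ = μ) ∧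
    h α = κ

/-- `V` satisfies GCH: for every infinite cardinal `κ` of `V`, the power set of `κ` in `V` has in
`V` the size of the next cardinal of `V`. -/
def SatGCH (V : ZFSet.{u}) : Prop :=
  ∀ κ, IsInfCard V κ → ∃ μ, κ < μ ∧ IsInfCard V μ ∧ (∀ ν, κ < ν → IsInfCard V ν → μ ≤ ν) ∧
    ∃ p ∈ V, (∀ x ∈ V, x ∈ p ↔ x ⊆ κ.toZFSet) ∧ SameSizeIn V p μ.toZFSet

/-- `α` belongs to `V` and is countable in the sense of `V`: `V` contains an injective function
from `α` to `ω`. -/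
def CountableIn (V : ZFSet.{u}) (α : Ordinal.{u}) : Prop :=
  α.toZFSet ∈ V ∧ ∃ f ∈ V, ZFSet.IsFunc α.toZFSet (toZFSet ω) f ∧
    ∀ x x' y, ZFSet.pair x y ∈ f → ZFSet.pair x' y ∈ f → x = x'

/-! ## `L_{ω₁,ω}` -/

/-- Formulas of `L_{ω₁,ω}` in the countable vocabulary consisting of unary predicate symbols
`U_0, U_1, U_2, …`, with variables `x_0, x_1, …` (de Bruijn indices: `ex φ` quantifies over the
variable `x_0` of `φ`); `conj f` is the conjunction of the formulas `f 0, f 1, f 2, …`. -/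
inductive LForm : Type
  | pred (n i : ℕ) : LForm
  | eq (i j : ℕ) : LForm
  | neg (φ : LForm) : LForm
  | conj (f : ℕ → LForm) : LForm
  | ex (φ : LForm) : LForm

/-- The free variables of the formula are among `x_0, …, x_{k-1}`. -/
def LForm.FreeBelow : LForm → ℕ → Prop
  | pred _ i, k => i < k
  | eq i j, k => i < k ∧ j < k
  | neg φ, k => φ.FreeBelow k
  | conj f, k => ∀ n, (f n).FreeBelow k
  | ex φ, k => φ.FreeBelow (k + 1)

/-- A sentence is a formula without free variables. -/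
def LForm.IsSentence (φ : LForm) : Prop := φ.FreeBelow 0

/-- The natural number `n` as a set. -/
noncomputable def nat (n : ℕ) : ZFSet.{u} := toZFSet n

/-- The hereditarily countable set which codes a formula of `L_{ω₁,ω}`; the conjunction of
`f 0, f 1, …` is coded by means of the function `n ↦ code (f n)` with domain `ω`. -/
noncomputable def LForm.code : LForm → ZFSet.{u}
  | pred n i => ZFSet.pair (nat 0) (ZFSet.pair (nat n) (nat i))
  | eq i j => ZFSet.pair (nat 1) (ZFSet.pair (nat i) (nat j))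
  | neg φ => ZFSet.pair (nat 2) φ.code
  | conj f => ZFSet.pair (nat 3) (ZFSet.range fun n : ℕ => ZFSet.pair (nat n) (f n).code)
  | ex φ => ZFSet.pair (nat 4) φ.code

/-- `(A, U)` is a structure for the vocabulary: the universe is the nonempty set `A`, and the
predicate `U_n` holds at `a ∈ A` iff the pair `(n, a)` belongs to `U ⊆ ω × A`. -/
def IsStr (A U : ZFSet.{u}) : Prop :=
  (∃ a, a ∈ A) ∧ ∀ p ∈ U, ∃ n : ℕ, ∃ a ∈ A, p = ZFSet.pair (nat n) a

/-- Satisfaction of a formula in the structure `(A, U)` at an assignment.  (This relation is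
absolute between transitive models of ZFC.) -/
def LForm.Holds (A U : ZFSet.{u}) : LForm → (ℕ → ZFSet.{u}) → Prop
  | pred n i, v => ZFSet.pair (nat n) (v i) ∈ U
  | eq i j, v => v i = v j
  | neg φ, v => ¬ φ.Holds A U v
  | conj f, v => ∀ n, (f n).Holds A U v
  | ex φ, v => ∃ a ∈ A, φ.Holds A U (cons a v)

/-- In the sense of `V`, `(A, U)` is a model of the sentence `φ` and has size `κ`. -/
def IsModelOfSize (V : ZFSet.{u}) (φ : LForm) (κ : Ordinal.{u}) (A U : ZFSet.{u}) : Prop :=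
  A ∈ V ∧ U ∈ V ∧ IsStr A U ∧ (∀ v : ℕ → ZFSet.{u}, (∀ n, v n ∈ A) → φ.Holds A U v) ∧
    SameSizeIn V A κ.toZFSet

/-- `f` is (the graph of) an embedding of the structure `(A, U)` into the structure `(B, W)`: an
injective function from `A` to `B` which preserves each predicate in both directions. -/
def IsEmb (f A U B W : ZFSet.{u}) : Prop :=
  ZFSet.IsFunc A B f ∧ (∀ x x' y, ZFSet.pair x y ∈ f → ZFSet.pair x' y ∈ f → x = x') ∧
    ∀ x y, ZFSet.pair x y ∈ f → ∀ n : ℕ, ZFSet.pair (nat n) x ∈ U ↔ ZFSet.pair (nat n) y ∈ W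

/-- The statement that the models of `φ` of size `ℵ_α` satisfy amalgamation, evaluated in `V`:
for all models `M₀, M₁, M₂` of `φ` of size `ℵ_α` and embeddings `f₁ : M₀ → M₁`, `f₂ : M₀ → M₂`
there are a model `N` of `φ` of size `ℵ_α` and embeddings `g₁ : M₁ → N`, `g₂ : M₂ → N` with
`g₁ ∘ f₁ = g₂ ∘ f₂`; models and embeddings are elements of `V`, sizes and `ℵ_α` are computed
in `V`. -/
def AmalgamationIn (V : ZFSet.{u}) (φ : LForm) (α : Ordinal.{u}) : Prop :=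
  ∀ κ, IsAleph V α κ →
    ∀ A₀ U₀ A₁ U₁ A₂ U₂ : ZFSet.{u}, IsModelOfSize V φ κ A₀ U₀ → IsModelOfSize V φ κ A₁ U₁ →
      IsModelOfSize V φ κ A₂ U₂ →
      ∀ f₁ ∈ V, ∀ f₂ ∈ V, IsEmb f₁ A₀ U₀ A₁ U₁ → IsEmb f₂ A₀ U₀ A₂ U₂ →
        ∃ B W : ZFSet.{u}, IsModelOfSize V φ κ B W ∧
          ∃ g₁ ∈ V, ∃ g₂ ∈ V, IsEmb g₁ A₁ U₁ B W ∧ IsEmb g₂ A₂ U₂ B W ∧
            ∀ x y₁ y₂ z₁ z₂ : ZFSet.{u}, ZFSet.pair x y₁ ∈ f₁ → ZFSet.pair x y₂ ∈ f₂ →
              ZFSet.pair y₁ z₁ ∈ g₁ → ZFSet.pair y₂ z₂ ∈ g₂ → z₁ = z₂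

/-- `ℵ_α`-amalgamation is non-absolute for transitive models of ZFC + GCH: there are transitive
models `V` and `W` of ZFC + GCH, both containing `α` as a countable ordinal, and a sentence `φ`
of `L_{ω₁,ω}` lying in both, such that `V` and `W` disagree on the statement that the models of
`φ` of size `ℵ_α` satisfy amalgamation. -/
def NonAbsolute (α : Ordinal.{u}) : Prop :=
  ∃ (V W : ZFSet.{u}) (φ : LForm),
    (IsTransModelZFC V ∧ SatGCH V ∧ CountableIn V α) ∧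
    (IsTransModelZFC W ∧ SatGCH W ∧ CountableIn W α) ∧
    φ.IsSentence ∧ φ.code ∈ V ∧ φ.code ∈ W ∧
    ¬ (AmalgamationIn V φ α ↔ AmalgamationIn W φ α)

end Pool.Agent.Work.MP_fbd45d_lc
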