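import Pool.Agent.Work.MP_fbd45d_lc.LS

/-!
# The sentence
-/

namespace Pool.Agent.Work.MP_fbd45d_lc

universe u

open ZFSet (pair)
open Ordinal

/-- Index of the bit coding the pair `(m, n)`. -/
def cr (m n : ℕ) : ℕ := 3 * Nat.pair m n

theorem cr_inj {m n m' n' : ℕ} (h : cr m n = cr m' n') : m = m' ∧ n = n' := by
  unfold cr at h
  exact Nat.pair_eq_pair.1 (by omega)

/-- Satisfaction in the pre-structure `(ℕ, E)`, where equality is interpreted as having the same
`E`-members. -/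
def SatE (E : ℕ → ℕ → Prop) : SForm → (ℕ → ℕ) → Prop
  | .mem i j, s => E (s i) (s j)
  | .eq i j, s => ∀ k, E k (s i) ↔ E k (s j)
  | .neg φ, s => ¬ SatE E φ s
  | .and φ ψ, s => SatE E φ s ∧ SatE E ψ s
  | .ex φ, s => ∃ k, SatE E φ (cons k s)

theorem cons_zero {M : Type*} (a : M) (v : ℕ → M) : cons a v 0 = a := rfl

namespace LForm

/-- Conjunction of two formulas. -/
def conj2 (φ ψ : LForm) : LForm := conj (fun n => if n = 0 then φ else ψ)
/-- Implication. -/
def imp (φ ψ : LForm) : LForm := neg (conj2 φ (neg ψ))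
/-- Equivalence. -/
def iff (φ ψ : LForm) : LForm := conj2 (imp φ ψ) (imp ψ φ)
/-- Universal quantification. -/
def all (φ : LForm) : LForm := neg (ex (neg φ))
/-- Countable disjunction. -/
def disj (f : ℕ → LForm) : LForm := neg (conj (fun n => neg (f n)))

variable {A U : ZFSet.{u}} {v : ℕ → ZFSet.{u}} {φ ψ : LForm} {f : ℕ → LForm}

theorem holds_neg : (neg φ).Holds A U v ↔ ¬ φ.Holds A U v := Iff.rfl
theorem holds_pred {n i : ℕ} : (pred n i).Holds A U v ↔ pair (nat n) (v i) ∈ U := Iff.rfl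
theorem holds_conj : (conj f).Holds A U v ↔ ∀ n, (f n).Holds A U v := Iff.rfl
theorem holds_ex : (ex φ).Holds A U v ↔ ∃ a ∈ A, φ.Holds A U (cons a v) := Iff.rfl

theorem holds_conj2 : (conj2 φ ψ).Holds A U v ↔ φ.Holds A U v ∧ ψ.Holds A U v := by
  unfold conj2
  rw [holds_conj]
  constructor
  · intro h
    exact ⟨by simpa using h 0, by simpa using h 1⟩
  · rintro ⟨h1, h2⟩ n
    by_cases hn : n = 0
    · simpa [hn] using h1
    · simpa [hn] using h2

theorem holds_imp : (imp φ ψ).Holds A U v ↔ (φ.Holds A U v → ψ.Holds A U v) := by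
  unfold imp
  rw [holds_neg, holds_conj2, holds_neg]
  tauto

theorem holds_iff : (iff φ ψ).Holds A U v ↔ (φ.Holds A U v ↔ ψ.Holds A U v) := by
  unfold iff
  rw [holds_conj2, holds_imp, holds_imp]
  tauto

theorem holds_all : (all φ).Holds A U v ↔ ∀ a ∈ A, φ.Holds A U (cons a v) := by
  unfold all
  rw [holds_neg, holds_ex]
  push Not
  simp only [holds_neg, not_not]

theorem holds_disj : (disj f).Holds A U v ↔ ∃ n, (f n).Holds A U v := by
  unfold disj
  rw [holds_neg, holds_conj]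
  simp only [holds_neg]
  push Not
  rfl

theorem fb_conj2 {k : ℕ} (h1 : φ.FreeBelow k) (h2 : ψ.FreeBelow k) :
    (conj2 φ ψ).FreeBelow k := by
  intro n
  by_cases hn : n = 0
  · simpa [hn] using h1
  · simpa [hn] using h2

theorem fb_neg {k : ℕ} (h1 : φ.FreeBelow k) : (neg φ).FreeBelow k := h1
theorem fb_ex {k : ℕ} (h1 : φ.FreeBelow (k + 1)) : (ex φ).FreeBelow k := h1
theorem fb_imp {k : ℕ} (h1 : φ.FreeBelow k) (h2 : ψ.FreeBelow k) :
    (imp φ ψ).FreeBelow k := fb_conj2 h1 h2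
theorem fb_iff {k : ℕ} (h1 : φ.FreeBelow k) (h2 : ψ.FreeBelow k) :
    (iff φ ψ).FreeBelow k := fb_conj2 (fb_imp h1 h2) (fb_imp h2 h1)
theorem fb_all {k : ℕ} (h1 : φ.FreeBelow (k + 1)) : (all φ).FreeBelow k := h1
theorem fb_disj {k : ℕ} (h1 : ∀ n, (f n).FreeBelow k) : (disj f).FreeBelow k := h1

end LForm

open LForm

/-- The formula saying that the bit `(m, n)` of `x_0` is set. -/
def edge (m n : ℕ) : LForm := .pred (cr m n) 0

/-- Translation of formulas of set theory. -/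
def tr : SForm → (ℕ → ℕ) → LForm
  | .mem i j, s => edge (s i) (s j)
  | .eq i j, s => .conj (fun k => LForm.iff (edge k (s i)) (edge k (s j)))
  | .neg φ, s => .neg (tr φ s)
  | .and φ ψ, s => .conj2 (tr φ s) (tr ψ s)
  | .ex φ, s => .disj (fun k => tr φ (cons k s))

theorem holds_tr {A U : ZFSet.{u}} (φ : SForm) : ∀ (s : ℕ → ℕ) (v : ℕ → ZFSet.{u}),
    (tr φ s).Holds A U v ↔ SatE (fun m n => pair (nat (cr m n)) (v 0) ∈ U) φ s := by
  induction φ with
  | mem i j => intro s v; rfl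
  | eq i j =>
    intro s v
    simp only [tr, holds_conj, holds_iff, SatE]
    rfl
  | neg φ ih => intro s v; simp only [tr, holds_neg, SatE, ih]
  | and φ ψ ih1 ih2 => intro s v; simp only [tr, holds_conj2, SatE, ih1, ih2]
  | ex φ ih => intro s v; simp only [tr, holds_disj, SatE, ih]

theorem fb_tr (φ : SForm) : ∀ s : ℕ → ℕ, (tr φ s).FreeBelow 1 := by
  induction φ with
  | mem i j => intro s; exact Nat.zero_lt_one
  | eq i j =>
    intro s
    exact fun k => fb_iff Nat.zero_lt_one Nat.zero_lt_one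
  | neg φ ih => intro s; exact fb_neg (ih s)
  | and φ ψ ih1 ih2 => intro s; exact fb_conj2 (ih1 s) (ih2 s)
  | ex φ ih => intro s; exact fb_disj (fun k => ih _)

/-! ### The fixed countable transitive set -/

/-- A countable transitive set closed under pairing. -/
noncomputable def q0 : ZFSet.{u} := ZFSet.vonNeumann (ω : Ordinal.{u})

theorem q0_trans : (q0.{u}).IsTransitive := ZFSet.isTransitive_vonNeumann _

theorem q0_pair {m n : ℕ} : pair (nat m) (nat n) ∈ q0.{u} := by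
  unfold q0 pair
  rw [ZFSet.mem_vonNeumann, ZFSet.rank_pair, ZFSet.rank_pair, ZFSet.rank_singleton]
  have h : ∀ n : ℕ, Order.succ (ZFSet.rank (nat.{u} n)) = ((n + 1 : ℕ) : Ordinal.{u}) := by
    intro n
    rw [nat, Ordinal.rank_toZFSet]
    push_cast
    rfl
  rw [h, h]
  have hs : ∀ {o : Ordinal.{u}}, o < ω → Order.succ o < ω :=
    fun h => Ordinal.isSuccLimit_omega0.succ_lt h
  exact max_lt (hs (Ordinal.natCast_lt_omega0 _))
    (hs (max_lt (Ordinal.natCast_lt_omega0 _) (Ordinal.natCast_lt_omega0 _)))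

theorem q0_countable : ((q0.{u} : ZFSet.{u}) : Set ZFSet.{u}).Countable := by
  have h := ZFSet.card_vonNeumann (ω : Ordinal.{u})
  rw [Cardinal.preBeth_omega] at h
  rw [← Set.countable_coe_iff, ← Cardinal.mk_le_aleph0_iff]
  have h2 := ZFSet.cardinalMk_coe_sort (x := q0.{u})
  have h3 : Cardinal.mk ((q0.{u} : ZFSet.{u}) : Set ZFSet.{u}) = Cardinal.mk q0.{u} := rfl
  rw [h3, h2, q0, h, Cardinal.lift_aleph0]

theorem exists_e0 : ∃ f : ℕ → ZFSet.{u}, ∀ z, z ∈ q0.{u} ↔ ∃ n, f n = z := by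
  obtain ⟨f, hf⟩ := q0_countable.{u}.exists_eq_range ⟨_, q0_pair (m := 0) (n := 0)⟩
  refine ⟨f, fun z => ?_⟩
  have : z ∈ ((q0.{u} : ZFSet.{u}) : Set ZFSet.{u}) ↔ z ∈ Set.range f := by rw [hf]
  simpa using this

/-- An enumeration of `q0`. -/
noncomputable def e0 : ℕ → ZFSet.{u} := exists_e0.{u}.choose

theorem e0_spec (z : ZFSet.{u}) : z ∈ q0.{u} ↔ ∃ n, e0 n = z := exists_e0.{u}.choose_spec z

theorem exists_enumT : ∃ f : ℕ → SForm, ∀ φ, φ ∈ T0.{u} ↔ ∃ n, f n = φ := by
  have h1 : (T0.{u}).Countable := Set.to_countable _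
  obtain ⟨f, hf⟩ := h1.exists_eq_range ⟨SForm.eq 0 0, fun V _ v _ => rfl⟩
  refine ⟨f, fun z => ?_⟩
  rw [hf]
  rfl

/-- An enumeration of `T0`. -/
noncomputable def enumT : ℕ → SForm := exists_enumT.{u}.choose

theorem enumT_spec (φ : SForm) : φ ∈ T0.{u} ↔ ∃ n, enumT.{u} n = φ :=
  exists_enumT.{u}.choose_spec φ

/-! ### The sentence -/

/-- The name of `e0 m`. -/
def nm (m : ℕ) : ℕ := 2 * m + 1

/-- The names `0` and `nm n`. -/
def tg (n : ℕ) : ℕ := if n = 0 then 0 else nm (n - 1)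

open Classical in
/-- The formula describing the core. -/
noncomputable def Psi : LForm :=
  .conj2 (.conj fun n => tr (enumT.{u} n) (fun _ => 0))
    (.conj2 (.conj fun m => .conj fun n => if e0.{u} m ∈ e0.{u} n then edge (nm m) (nm n)
        else .neg (edge (nm m) (nm n)))
      (.conj fun n => .conj fun k => .imp (edge k (tg n))
        (.disj fun m => .conj fun l => LForm.iff (edge l k) (edge l (nm m)))))

/-- All elements have the same core bits. -/
def PhiB : LForm := .conj fun k => .neg (.conj2 (.ex (.pred (3 * k) 0))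
  (.ex (.neg (.pred (3 * k) 0))))

/-- The witness formula. -/
def Wit : LForm := .conj2 (.disj fun n => .pred (3 * n + 2) 0)
  (.conj fun n => .imp (.pred (3 * n + 2) 0) (.disj fun m => .conj2 (.pred (3 * m + 2) 0)
    (edge m n)))

/-- The marker clause. -/
def PhiC : LForm := .imp (.conj2 (.ex (.pred 1 0)) (.ex (.pred 4 0))) (.ex Wit)

/-- The fixed part. -/
noncomputable def Phi : LForm := .conj2 (.all Psi.{u}) (.conj2 PhiB PhiC)

/-- The fixed part with a positive bit. -/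
noncomputable def litA (n : ℕ) : LForm := .conj2 Phi.{u} (.all (edge (nm n) 0))
/-- The fixed part with a negative bit. -/
noncomputable def litB (n : ℕ) : LForm := .conj2 Phi.{u} (.all (.neg (edge (nm n) 0)))

open Classical in
/-- The sentence. -/
noncomputable def phi (r : ZFSet.{u}) : LForm :=
  .conj fun n => if e0.{u} n ∈ r then litA.{u} n else litB.{u} n

theorem fb_edge (m n : ℕ) : (edge m n).FreeBelow 1 := Nat.zero_lt_one

theorem fb_Psi : Psi.{u}.FreeBelow 1 := by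
  refine fb_conj2 (fun n => fb_tr _ _) (fb_conj2 (fun m n => ?_) (fun n k => ?_))
  · dsimp only
    split
    · exact fb_edge _ _
    · exact fb_neg (fb_edge _ _)
  · exact fb_imp (fb_edge _ _) (fb_disj fun m => fun l => fb_iff (fb_edge _ _) (fb_edge _ _))

theorem fb_Phi : Phi.{u}.FreeBelow 0 := by
  refine fb_conj2 (fb_all fb_Psi) (fb_conj2 ?_ ?_)
  · exact fun k => fb_neg (fb_conj2 (fb_ex Nat.zero_lt_one) (fb_ex (fb_neg Nat.zero_lt_one)))
  · refine fb_imp (fb_conj2 (fb_ex Nat.zero_lt_one) (fb_ex Nat.zero_lt_one)) (fb_ex ?_)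
    exact fb_conj2 (fb_disj fun n => Nat.zero_lt_one)
      (fun n => fb_imp Nat.zero_lt_one (fb_disj fun m => fb_conj2 Nat.zero_lt_one
        (fb_edge _ _)))

theorem phi_sentence (r : ZFSet.{u}) : (phi r).IsSentence := by
  intro n
  dsimp only
  split
  · exact fb_conj2 fb_Phi (fb_all (fb_edge _ _))
  · exact fb_conj2 fb_Phi (fb_all (fb_neg (fb_edge _ _)))

/-- The conditions on the core relation. -/
structure GoodE (r : ZFSet.{u}) (E : ℕ → ℕ → Prop) : Prop where
  thy : ∀ φ ∈ T0.{u}, SatE E φ (fun _ => 0)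
  dia : ∀ m n, E (nm m) (nm n) ↔ e0.{u} m ∈ e0.{u} n
  cl : ∀ n k, E k (tg n) → ∃ m, ∀ l, E l k ↔ E l (nm m)
  lit : ∀ n, E (nm n) 0 ↔ e0.{u} n ∈ r

/-- Semantic description of the models of `phi r`. -/
def ModSem (r A U : ZFSet.{u}) : Prop :=
  ∃ E : ℕ → ℕ → Prop, (∀ z ∈ A, ∀ m n, pair (nat (cr m n)) z ∈ U ↔ E m n) ∧ GoodE r E ∧
    ((∃ z ∈ A, pair (nat 1) z ∈ U) → (∃ z ∈ A, pair (nat 4) z ∈ U) →
      ∃ z ∈ A, (∃ n : ℕ, pair (nat (3 * n + 2)) z ∈ U) ∧
        ∀ n : ℕ, pair (nat (3 * n + 2)) z ∈ U → ∃ m : ℕ, pair (nat (3 * m + 2)) z ∈ U ∧ E m n)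

theorem holds_edge {A U : ZFSet.{u}} {v : ℕ → ZFSet.{u}} {m n : ℕ} :
    (edge m n).Holds A U v ↔ pair (nat (cr m n)) (v 0) ∈ U := Iff.rfl

theorem holds_PhiB {A U : ZFSet.{u}} {v : ℕ → ZFSet.{u}} :
    PhiB.Holds A U v ↔ ∀ k : ℕ, ∀ z ∈ A, ∀ z' ∈ A,
      pair (nat (3 * k)) z ∈ U → pair (nat (3 * k)) z' ∈ U := by
  unfold PhiB
  simp only [holds_conj, holds_neg, holds_conj2, holds_ex, holds_pred, cons_zero]
  constructor
  · intro h k z hz z' hz' h1
    by_contra h2
    exact h k ⟨⟨z, hz, h1⟩, z', hz', h2⟩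
  · rintro h k ⟨⟨z, hz, h1⟩, z', hz', h2⟩
    exact h2 (h k z hz z' hz' h1)

theorem holds_Psi {A U : ZFSet.{u}} {v : ℕ → ZFSet.{u}} :
    Psi.{u}.Holds A U v ↔
      (∀ φ ∈ T0.{u}, SatE (fun m n => pair (nat (cr m n)) (v 0) ∈ U) φ (fun _ => 0)) ∧
      (∀ m n, pair (nat (cr (nm m) (nm n))) (v 0) ∈ U ↔ e0.{u} m ∈ e0.{u} n) ∧
      (∀ n k, pair (nat (cr k (tg n))) (v 0) ∈ U → ∃ m, ∀ l,
        pair (nat (cr l k)) (v 0) ∈ U ↔ pair (nat (cr l (nm m))) (v 0) ∈ U) := by
  unfold Psi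
  simp only [holds_conj2, holds_conj, holds_imp, holds_disj, holds_iff, holds_edge, holds_tr]
  refine and_congr ?_ (and_congr ?_ Iff.rfl)
  · constructor
    · intro h φ hφ
      obtain ⟨n, rfl⟩ := (enumT_spec φ).1 hφ
      exact h n
    · intro h n
      exact h _ ((enumT_spec _).2 ⟨n, rfl⟩)
  · refine forall_congr' fun m => forall_congr' fun n => ?_
    by_cases h : e0.{u} m ∈ e0.{u} n
    · simp only [h, if_true, holds_edge, iff_true]
    · simp only [h, if_false, holds_neg, holds_edge, iff_false]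

theorem phi_sem {r A U : ZFSet.{u}} (hA : ∃ a, a ∈ A) :
    (∀ v : ℕ → ZFSet.{u}, (∀ n, v n ∈ A) → (phi r).Holds A U v) ↔ ModSem r A U := by
  have hC : ∀ v : ℕ → ZFSet.{u}, PhiC.Holds A U v ↔
      ((∃ z ∈ A, pair (nat 1) z ∈ U) → (∃ z ∈ A, pair (nat 4) z ∈ U) →
      ∃ z ∈ A, (∃ n : ℕ, pair (nat (3 * n + 2)) z ∈ U) ∧
        ∀ n : ℕ, pair (nat (3 * n + 2)) z ∈ U →
          ∃ m : ℕ, pair (nat (3 * m + 2)) z ∈ U ∧ pair (nat (cr m n)) z ∈ U) := by
    intro v
    unfold PhiC Wit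
    simp only [holds_conj2, holds_conj, holds_imp, holds_disj, holds_edge, holds_ex, holds_pred,
      cons_zero, and_imp]
  constructor
  · intro h
    obtain ⟨a, ha⟩ := hA
    have hv := h (fun _ => a) (fun _ => ha)
    unfold phi at hv
    rw [holds_conj] at hv
    have hPhi : Phi.{u}.Holds A U (fun _ => a) := by
      have := hv 0
      split at this
      · exact (holds_conj2.1 this).1
      · exact (holds_conj2.1 this).1
    unfold Phi at hPhi
    rw [holds_conj2, holds_conj2, holds_all, holds_PhiB, hC] at hPhi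
    obtain ⟨h1, h2, h3⟩ := hPhi
    have hcore : ∀ z ∈ A, ∀ m n, pair (nat (cr m n)) z ∈ U ↔ pair (nat (cr m n)) a ∈ U :=
      fun z hz m n => ⟨h2 _ z hz a ha, h2 _ a ha z hz⟩
    refine ⟨fun m n => pair (nat (cr m n)) a ∈ U, hcore, ?_, ?_⟩
    · have h4 := holds_Psi.1 (h1 a ha)
      simp only [cons_zero] at h4
      refine ⟨h4.1, h4.2.1, h4.2.2, ?_⟩
      intro n
      have h5 := hv n
      by_cases hn : e0.{u} n ∈ r
      · simp only [hn, if_true] at h5
        have h6 := holds_all.1 (holds_conj2.1 h5).2 a ha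
        rw [holds_edge, cons_zero] at h6
        exact iff_of_true h6 hn
      · simp only [hn, if_false] at h5
        have h6 := holds_all.1 (holds_conj2.1 h5).2 a ha
        rw [holds_neg, holds_edge, cons_zero] at h6
        exact iff_of_false h6 hn
    · intro h5 h6
      obtain ⟨z, hz, h7, h8⟩ := h3 h5 h6
      refine ⟨z, hz, h7, fun n hn => ?_⟩
      obtain ⟨m, hm, hmn⟩ := h8 n hn
      exact ⟨m, hm, (hcore z hz m n).1 hmn⟩
  · rintro ⟨E, hE, hG, hM⟩ v hv
    have hEz : ∀ z ∈ A, (fun m n => pair (nat (cr m n)) z ∈ U) = E := by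
      intro z hz
      funext m n
      exact propext (hE z hz m n)
    have hPhi : Phi.{u}.Holds A U v := by
      unfold Phi
      rw [holds_conj2, holds_conj2, holds_all, holds_PhiB, hC]
      refine ⟨?_, ?_, ?_⟩
      · intro z hz
        rw [holds_Psi]
        simp only [cons_zero]
        rw [hEz z hz]
        simp only [hE z hz]
        exact ⟨hG.thy, hG.dia, hG.cl⟩
      · intro k z hz z' hz' h
        have e : 3 * k = cr (Nat.unpair k).1 (Nat.unpair k).2 := by
          unfold cr; rw [Nat.pair_unpair]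
        rw [e] at h ⊢
        rw [hE z' hz']
        exact (hE z hz _ _).1 h
      · intro h5 h6
        obtain ⟨z, hz, h7, h8⟩ := hM h5 h6
        refine ⟨z, hz, h7, fun n hn => ?_⟩
        obtain ⟨m, hm, hmn⟩ := h8 n hn
        exact ⟨m, hm, (hE z hz m n).2 hmn⟩
    unfold phi
    rw [holds_conj]
    intro n
    by_cases hn : e0.{u} n ∈ r
    · simp only [hn, if_true]
      refine holds_conj2.2 ⟨hPhi, holds_all.2 fun z hz => ?_⟩
      rw [holds_edge, cons_zero, hE z hz]
      exact (hG.lit n).2 hn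
    · simp only [hn, if_false]
      refine holds_conj2.2 ⟨hPhi, holds_all.2 fun z hz => ?_⟩
      rw [holds_neg, holds_edge, cons_zero, hE z hz]
      exact fun h => hn ((hG.lit n).1 h)

end Pool.Agent.Work.MP_fbd45d_lc
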