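import Mathlib

/-!
# Gödel's pairing function on the ordinals
-/

namespace Pool.Agent.Work.MP_fbd45d_lc

universe u

open Ordinal

/-- The order type of `μ × μ` in the canonical well-ordering. -/
noncomputable def gG (μ : Ordinal.{u}) : Ordinal.{u} :=
  ⨆ ν : Set.Iio μ, (gG ν.1 + ν.1 + ν.1 + 1)
termination_by μ
decreasing_by exact ν.2

theorem gG_lt {ν μ : Ordinal.{u}} (h : ν < μ) : gG ν + ν + ν + 1 ≤ gG μ := by
  rw [gG.eq_1 μ]
  exact Ordinal.le_iSup (fun ν : Set.Iio μ => gG ν.1 + ν.1 + ν.1 + 1) ⟨ν, h⟩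

theorem lt_gG {ξ μ : Ordinal.{u}} (h : ξ < gG μ) : ∃ ν < μ, ξ < gG ν + ν + ν + 1 := by
  rw [gG.eq_1 μ, Ordinal.lt_iSup_iff] at h
  obtain ⟨ν, hν⟩ := h
  exact ⟨ν.1, ν.2, hν⟩

theorem le_gG (μ : Ordinal.{u}) : μ ≤ gG μ := by
  induction μ using WellFoundedLT.induction with
  | _ μ ih =>
    by_contra hcon
    have h : gG μ < μ := not_le.1 hcon
    have h1 := gG_lt h
    have h2 : gG μ ≤ gG (gG μ) := ih _ h
    have h3 : gG (gG μ) < gG (gG μ) + gG μ + gG μ + 1 := by
      rw [← Order.succ_eq_add_one, Order.lt_succ_iff, add_assoc]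
      exact le_self_add
    exact absurd (lt_of_lt_of_le (lt_of_le_of_lt h2 h3) h1) (lt_irrefl _)

open Classical in
/-- Gödel's pairing function. -/
noncomputable def gJ (a b : Ordinal.{u}) : Ordinal.{u} := if a < b then gG b + a else gG a + a + b

theorem gJ_lt_case {a b : Ordinal.{u}} (h : a < b) : gJ a b = gG b + a := by
  unfold gJ; rw [if_pos h]

theorem gJ_ge_case {a b : Ordinal.{u}} (h : b ≤ a) : gJ a b = gG a + a + b := by
  unfold gJ; rw [if_neg (not_lt.2 h)]

theorem gG_le_gJ (a b : Ordinal.{u}) : gG (max a b) ≤ gJ a b := by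
  rcases lt_or_ge a b with h | h
  · rw [gJ_lt_case h, max_eq_right h.le]; exact le_self_add
  · rw [gJ_ge_case h, max_eq_left h, add_assoc]; exact le_self_add

theorem gJ_lt_block (a b : Ordinal.{u}) :
    gJ a b < gG (max a b) + max a b + max a b + 1 := by
  rw [← Order.succ_eq_add_one, Order.lt_succ_iff]
  rcases lt_or_ge a b with h | h
  · rw [gJ_lt_case h, max_eq_right h.le, add_assoc]
    gcongr
    exact h.le.trans le_self_add
  · rw [gJ_ge_case h, max_eq_left h]
    gcongr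

/-- The canonical well-ordering of pairs. -/
def gLt (a b a' b' : Ordinal.{u}) : Prop :=
  max a b < max a' b' ∨ (max a b = max a' b' ∧ (a < a' ∨ (a = a' ∧ b < b')))

theorem gJ_lt_of_gLt {a b a' b' : Ordinal.{u}} (h : gLt a b a' b') : gJ a b < gJ a' b' := by
  rcases h with h | ⟨h1, h⟩
  · exact lt_of_lt_of_le (gJ_lt_block a b) ((gG_lt h).trans (gG_le_gJ a' b'))
  · rcases h with h | ⟨rfl, h⟩
    · rcases lt_or_ge a b with hab | hab <;> rcases lt_or_ge a' b' with hab' | hab'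
      · rw [max_eq_right hab.le, max_eq_right hab'.le] at h1
        rw [gJ_lt_case hab, gJ_lt_case hab', h1]
        gcongr
      · rw [max_eq_right hab.le, max_eq_left hab'] at h1
        rw [gJ_lt_case hab, gJ_ge_case hab', h1, add_assoc]
        gcongr
        exact lt_of_lt_of_le h le_self_add
      · rw [max_eq_left hab, max_eq_right hab'.le] at h1
        rw [h1] at h
        exact absurd (h.trans hab') (lt_irrefl _)
      · rw [max_eq_left hab, max_eq_left hab'] at h1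
        rw [h1] at h
        exact absurd h (lt_irrefl _)
    · rcases lt_or_ge a b with hab | hab
      · have hab' : a < b' := hab.trans h
        rw [max_eq_right hab.le, max_eq_right hab'.le] at h1
        rw [h1] at h
        exact absurd h (lt_irrefl _)
      · rcases lt_or_ge a b' with hab' | hab'
        · rw [max_eq_left hab, max_eq_right hab'.le] at h1
          rw [h1] at hab'
          exact absurd hab' (lt_irrefl _)
        · rw [gJ_ge_case hab, gJ_ge_case hab']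
          gcongr

theorem gLt_trichotomy (a b a' b' : Ordinal.{u}) :
    gLt a b a' b' ∨ (a = a' ∧ b = b') ∨ gLt a' b' a b := by
  unfold gLt
  rcases lt_trichotomy (max a b) (max a' b') with h | h | h
  · exact Or.inl (Or.inl h)
  · rcases lt_trichotomy a a' with h2 | h2 | h2
    · exact Or.inl (Or.inr ⟨h, Or.inl h2⟩)
    · rcases lt_trichotomy b b' with h3 | h3 | h3
      · exact Or.inl (Or.inr ⟨h, Or.inr ⟨h2, h3⟩⟩)
      · exact Or.inr (Or.inl ⟨h2, h3⟩)
      · exact Or.inr (Or.inr (Or.inr ⟨h.symm, Or.inr ⟨h2.symm, h3⟩⟩))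
    · exact Or.inr (Or.inr (Or.inr ⟨h.symm, Or.inl h2⟩))
  · exact Or.inr (Or.inr (Or.inl h))

theorem gJ_lt_iff {a b a' b' : Ordinal.{u}} : gJ a b < gJ a' b' ↔ gLt a b a' b' := by
  constructor
  · intro h
    rcases gLt_trichotomy a b a' b' with h1 | ⟨rfl, rfl⟩ | h1
    · exact h1
    · exact absurd h (lt_irrefl _)
    · exact absurd (h.trans (gJ_lt_of_gLt h1)) (lt_irrefl _)
  · exact gJ_lt_of_gLt

theorem gJ_inj {a b a' b' : Ordinal.{u}} (h : gJ a b = gJ a' b') : a = a' ∧ b = b' := by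
  rcases gLt_trichotomy a b a' b' with h1 | h1 | h1
  · exact absurd (gJ_lt_of_gLt h1) (by rw [h]; exact lt_irrefl _)
  · exact h1
  · exact absurd (gJ_lt_of_gLt h1) (by rw [h]; exact lt_irrefl _)

theorem gJ_surj (ξ : Ordinal.{u}) : ∃ a b, gJ a b = ξ := by
  have hex : ∃ μ, ξ < gG μ :=
    ⟨ξ + 1, lt_of_lt_of_le (lt_add_one ξ) (le_gG _)⟩
  -- the least such μ
  have hmin := WellFounded.min_mem (wellFounded_lt (α := Ordinal.{u})) {μ | ξ < gG μ} hex
  have hmin' : ∀ ν, ξ < gG ν →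
      ¬ ν < WellFounded.min (wellFounded_lt (α := Ordinal.{u})) {μ | ξ < gG μ} hex :=
    fun ν hν => WellFounded.not_lt_min _ _ (by exact hν)
  set μ := WellFounded.min (wellFounded_lt (α := Ordinal.{u})) {μ | ξ < gG μ} hex
  obtain ⟨ν, hν, hξ⟩ := lt_gG hmin
  have h1 : gG ν ≤ ξ := by
    by_contra hc
    exact hmin' ν (not_le.1 hc) hν
  rw [← Order.succ_eq_add_one, Order.lt_succ_iff] at hξ
  -- write `ξ = gG ν + ρ`
  have e1 : gG ν + (ξ - gG ν) = ξ := Ordinal.add_sub_cancel_of_le h1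
  set ρ := ξ - gG ν
  have hρ : ρ ≤ ν + ν := by
    have : gG ν + ρ ≤ gG ν + (ν + ν) := by rw [e1, ← add_assoc]; exact hξ
    exact (add_le_add_iff_left _).1 this
  rcases lt_or_ge ρ ν with h2 | h2
  · exact ⟨ρ, ν, by rw [gJ_lt_case h2, e1]⟩
  · have e2 : ν + (ρ - ν) = ρ := Ordinal.add_sub_cancel_of_le h2
    refine ⟨ν, ρ - ν, ?_⟩
    have h3 : ρ - ν ≤ ν := by
      have : ν + (ρ - ν) ≤ ν + ν := by rw [e2]; exact hρ
      exact (add_le_add_iff_left _).1 this
    rw [gJ_ge_case h3, add_assoc, e2, e1]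

/-- First projection. -/
noncomputable def K1 (ξ : Ordinal.{u}) : Ordinal.{u} := (gJ_surj ξ).choose
/-- Second projection. -/
noncomputable def K2 (ξ : Ordinal.{u}) : Ordinal.{u} := (gJ_surj ξ).choose_spec.choose

theorem gJ_K (ξ : Ordinal.{u}) : gJ (K1 ξ) (K2 ξ) = ξ := (gJ_surj ξ).choose_spec.choose_spec

theorem K1_gJ (a b : Ordinal.{u}) : K1 (gJ a b) = a := (gJ_inj (gJ_K (gJ a b))).1
theorem K2_gJ (a b : Ordinal.{u}) : K2 (gJ a b) = b := (gJ_inj (gJ_K (gJ a b))).2

theorem max_le_gJ (a b : Ordinal.{u}) : max a b ≤ gJ a b := (le_gG _).trans (gG_le_gJ a b)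

theorem left_le_gJ (a b : Ordinal.{u}) : a ≤ gJ a b := (le_max_left _ _).trans (max_le_gJ a b)
theorem right_le_gJ (a b : Ordinal.{u}) : b ≤ gJ a b := (le_max_right _ _).trans (max_le_gJ a b)

theorem K1_le (ξ : Ordinal.{u}) : K1 ξ ≤ ξ := by
  conv_rhs => rw [← gJ_K ξ]
  exact left_le_gJ _ _

theorem K2_le (ξ : Ordinal.{u}) : K2 ξ ≤ ξ := by
  conv_rhs => rw [← gJ_K ξ]
  exact right_le_gJ _ _

theorem max_K_le {ξ a b : Ordinal.{u}} (h : ξ < gJ a b) : max (K1 ξ) (K2 ξ) ≤ max a b := by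
  rw [← gJ_K ξ, gJ_lt_iff] at h
  rcases h with h | h
  · exact h.le
  · exact h.1.le

theorem gJ_zero : gJ (0 : Ordinal.{u}) 0 = 0 := by
  obtain ⟨a, b, h⟩ := gJ_surj (0 : Ordinal.{u})
  have h1 : a = 0 := by
    have := left_le_gJ a b
    rw [h] at this
    exact le_antisymm this zero_le
  have h2 : b = 0 := by
    have := right_le_gJ a b
    rw [h] at this
    exact le_antisymm this zero_le
  rw [h1, h2] at h
  exact h

theorem gG_lt_omega (n : ℕ) : gG (n : Ordinal.{u}) < ω := by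
  induction n using Nat.strong_induction_on with
  | _ n ih =>
    cases n with
    | zero =>
      by_contra hcon
      have h1 : (0 : Ordinal.{u}) < gG ((0 : ℕ) : Ordinal.{u}) :=
        lt_of_lt_of_le Ordinal.omega0_pos (not_lt.1 hcon)
      obtain ⟨ν, hν, _⟩ := lt_gG h1
      simp at hν
    | succ n =>
      -- `gG (n+1) ≤ gG n + n + n + 1`
      by_contra hcon
      obtain ⟨m, hm⟩ := Ordinal.lt_omega0.1 (ih n (Nat.lt_succ_self n))
      have h1 : ((m + n + n + 1 : ℕ) : Ordinal.{u}) < gG ((n + 1 : ℕ) : Ordinal.{u}) :=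
        lt_of_lt_of_le (Ordinal.natCast_lt_omega0 _) (not_lt.1 hcon)
      obtain ⟨ν, hν, hν'⟩ := lt_gG h1
      obtain ⟨k, rfl⟩ := Ordinal.lt_omega0.1 (hν.trans (Ordinal.natCast_lt_omega0 _))
      have hk : k < n + 1 := by exact_mod_cast hν
      have hle : gG ((k : ℕ) : Ordinal.{u}) ≤ gG ((n : ℕ) : Ordinal.{u}) := by
        rcases Nat.lt_succ_iff_lt_or_eq.1 hk with hk | rfl
        · refine le_trans ?_ (gG_lt (show ((k : ℕ) : Ordinal.{u}) < n by exact_mod_cast hk))
          rw [add_assoc, add_assoc]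
          exact le_self_add
        · exact le_rfl
      have hkn : ((k : ℕ) : Ordinal.{u}) ≤ (n : ℕ) := by exact_mod_cast Nat.lt_succ_iff.1 hk
      have h2 : gG ((k : ℕ) : Ordinal.{u}) + k + k + 1 ≤ ((m + n + n + 1 : ℕ) : Ordinal.{u}) := by
        push_cast
        rw [← hm]
        gcongr
      exact absurd (lt_of_lt_of_le hν' h2) (lt_irrefl _)

theorem gJ_lt_omega {a b : Ordinal.{u}} (ha : a < ω) (hb : b < ω) : gJ a b < ω := by
  obtain ⟨n, hn⟩ := Ordinal.lt_omega0.1 (max_lt ha hb)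
  obtain ⟨m, hm⟩ := Ordinal.lt_omega0.1 (gG_lt_omega.{u} n)
  have := gJ_lt_block a b
  rw [hn, hm] at this
  refine this.trans ?_
  have e : (m : Ordinal.{u}) + n + n + 1 = ((m + n + n + 1 : ℕ) : Ordinal.{u}) := by push_cast; rfl
  rw [e]
  exact Ordinal.natCast_lt_omega0 _

end Pool.Agent.Work.MP_fbd45d_lc
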