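import Pool.Agent.Work.MP_fbd45d_lc.WSide

/-!
# The theorem, from the existence of suitable models of ZFC + GCH
-/

namespace Pool.Agent.Work.MP_fbd45d_lc

universe u

open ZFSet (pair)
open Ordinal

/-- Every hereditarily countable set belongs to a transitive model of ZFC + GCH in which the
alephs with countable index exist. -/
def Star : Prop :=
  ∀ x : ZFSet.{u}, HC x → ∃ W : ZFSet.{u}, IsK W ∧ x ∈ W ∧
    ∀ α < ω_ 1, ∃ κ, IsAleph W α κ

theorem HC.of_subset {x : ZFSet.{u}} (h : x ⊆ q0) : HC x :=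
  ⟨insert x q0, HC.insert_trans q0_trans h, ZFSet.mem_insert _ _, by
    rw [ZFSet.coe_insert]; exact q0_countable.insert _⟩

theorem omega_subset_q0 : Ordinal.toZFSet (ω : Ordinal.{u}) ⊆ q0 := by
  intro x hx
  obtain ⟨n, rfl⟩ := mem_omega.1 hx
  exact (mem_of_pair q0_trans (q0_pair.{u} (m := n) (n := n))).1

theorem nonAbsolute_of_star (hS : Star.{u}) {α : Ordinal.{u}} (hα : α < ω_ 1) :
    NonAbsolute α := by
  obtain ⟨b, eb, hB⟩ := exists_base hα
  set r := rOf eb with hr_def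
  have hrq : r ⊆ q0 := rOf_subset
  -- the minimal model
  let P : ZFSet.{u} → Prop := fun V => IsK V ∧ (V : Set ZFSet.{u}).Countable ∧ r ∈ V
  have hP : ∃ V, P V := by
    obtain ⟨W0, hW0, hr0, _⟩ := hS r (HC.of_subset hrq)
    have ht0 : (insert r q0 : ZFSet.{u}).IsTransitive := HC.insert_trans q0_trans hrq
    obtain ⟨V, hV, hVc, hVt⟩ := exists_countable_model hW0
      (t := (insert r q0 : ZFSet.{u}) ∩ W0) (ht0.inter hW0.1.transitive) (by
        rw [ZFSet.coe_inter]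
        refine Set.Countable.mono Set.inter_subset_left ?_
        rw [ZFSet.coe_insert]
        exact q0_countable.insert _)
      (fun z hz => (ZFSet.mem_inter.1 hz).2)
    exact ⟨V, hV, hVc, hVt (ZFSet.mem_inter.2 ⟨ZFSet.mem_insert _ _, hr0⟩)⟩
  have hwf : WellFounded (fun V V' : ZFSet.{u} => V.rank < V'.rank) :=
    InvImage.wf ZFSet.rank (wellFounded_lt)
  obtain ⟨V, ⟨hVK, hVc, hrV⟩, hVmin⟩ := hwf.has_min {V | P V} hP
  have hmin : ∀ V', IsK V' → (V' : Set ZFSet.{u}).Countable → r ∈ V' → V.rank ≤ V'.rank :=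
    fun V' h1 h2 h3 => not_lt.1 (hVmin V' ⟨h1, h2, h3⟩)
  have ZV := hVK.1.zm
  obtain ⟨_, hbV⟩ := decode ZV hB hrV
  have heV : ∀ n, e0 n ∈ V := by
    intro n
    have h1 : pair (nat n) (e0 n) ∈ tabE.{u} := mem_tab.2 ⟨n, rfl, rfl⟩
    exact (mem_of_pair_mem ZV.tr (ZV.mem_tr hbV hB.tE) h1).2
  obtain ⟨d, hd⟩ := hVK.1.nonempty
  obtain ⟨hv, hhv⟩ := hVc.exists_eq_range ⟨d, hd⟩
  have hVr : ∀ z, z ∈ V ↔ ∃ n, hv n = z := by
    intro z
    have : z ∈ (V : Set ZFSet.{u}) ↔ z ∈ Set.range hv := by rw [hhv]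
    simpa using this
  have hG := goodE_nameOf hVK hrV hrq heV hVr
  -- the larger model
  have hHCV : HC V := ⟨insert V V, HC.insert_trans hVK.1.transitive (fun _ h => h),
    ZFSet.mem_insert _ _, by rw [ZFSet.coe_insert]; exact hVc.insert _⟩
  obtain ⟨W, hWK, hxW, hal⟩ := hS (pair V (coreSet (nameOf r hv)))
    (hHCV.pair (HC.of_subset (coreSet_subset.trans omega_subset_q0)))
  obtain ⟨hVW, hSW⟩ := mem_of_pair hWK.1.transitive hxW
  have hsub : ∀ {z}, z ∈ V → z ∈ W := fun hz => hWK.1.transitive _ hVW hz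
  have hcV : CountableIn V α := countableIn ZV hB hrV
  have hcW : CountableIn W α := by
    obtain ⟨h1, f, hf, h2⟩ := hcV
    exact ⟨hsub h1, f, hsub hf, h2⟩
  have hcode : (phi r).code ∈ V := code_mem ZV hB hrV
  obtain ⟨κ, hκ⟩ := hal α hα
  refine ⟨V, W, phi r, ⟨hVK.1, hVK.2, hcV⟩, ⟨hWK.1, hWK.2, hcW⟩, phi_sentence r, hcode,
    hsub hcode, ?_⟩
  intro hiff
  exact not_amalgamation_W hWK.1.zm hG hSW hκ (hiff.1 (amalgamation_V ZV hB hrV hmin))

end Pool.Agent.Work.MP_fbd45d_lc
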