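import Pool.Agent.Work.MP_fbd45d_lc.GPair
import Pool.Agent.Work.MP_fbd45d_lc.PartOne

/-!
# A constructible hierarchy over a countable transitive set

`row e ξ` consists of a set of ordinals (the satisfaction relation for the structure `𝔹_β`,
a formula and a tuple of parameters, all coded by `ξ`) and of a set `F e ξ`.
-/

namespace Pool.Agent.Work.MP_fbd45d_lc

open ZFSet (pair)
open Ordinal

/-- The relation symbols. -/
inductive BL | lt | J | T | E | Q | N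
  deriving Encodable

/-- An ordinal of the lower universe as a set. -/
noncomputable def lf (ζ : Ordinal.{0}) : ZFSet.{1} := (Ordinal.lift.{1, 0} ζ).toZFSet

theorem lf_inj {a b : Ordinal.{0}} : lf a = lf b ↔ a = b := by
  unfold lf
  rw [Ordinal.toZFSet_injective.eq_iff, Ordinal.lift_inj]

theorem lf_mem_lf {a b : Ordinal.{0}} : lf a ∈ lf b ↔ a < b := by
  unfold lf
  rw [Ordinal.toZFSet_mem_toZFSet_iff, Ordinal.lift_lt]

theorem mem_lf {x : ZFSet.{1}} {b : Ordinal.{0}} : x ∈ lf b ↔ ∃ a < b, x = lf a := by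
  unfold lf
  rw [Ordinal.mem_toZFSet_iff]
  constructor
  · rintro ⟨c, hc, rfl⟩
    obtain ⟨a, rfl⟩ := Ordinal.mem_range_lift_of_le hc.le
    exact ⟨a, Ordinal.lift_lt.1 hc, rfl⟩
  · rintro ⟨a, ha, rfl⟩
    exact ⟨_, Ordinal.lift_lt.2 ha, rfl⟩

theorem lf_nat (n : ℕ) : lf (n : Ordinal.{0}) = nat n := by
  unfold lf nat
  rw [Ordinal.lift_natCast]

theorem lf_omega : lf (ω : Ordinal.{0}) = Ordinal.toZFSet (ω : Ordinal.{1}) := by
  unfold lf
  rw [Ordinal.lift_omega0]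

/-- Rows. -/
abbrev Row := (Ordinal.{0} → Prop) × ZFSet.{1}

/-- The relations determined by the rows. -/
def BR (ρ : Ordinal.{0} → Row) : BL → Ordinal.{0} → Ordinal.{0} → Ordinal.{0} → Prop
  | BL.lt, a, b, _ => a < b
  | BL.J, a, b, c => gJ a b = c
  | BL.T, a, b, _ => (ρ a).1 b
  | BL.E, a, b, _ => (ρ a).2 ∈ (ρ b).2
  | BL.Q, a, b, _ => (ρ a).2 = (ρ b).2
  | BL.N, a, b, _ => (ρ a).2 = lf b

open Classical in
/-- The tuple of parameters coded by `p`, truncated at `β`. -/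
noncomputable def dec (β p : Ordinal.{0}) (k : ℕ) : Ordinal.{0} :=
  if K1 (K2^[k] p) < β then K1 (K2^[k] p) else 0

/-- The satisfaction relation computed from the rows `ρ`. -/
def TT (ρ : Ordinal.{0} → Row) (ξ η : Ordinal.{0}) : Prop :=
  η < K1 ξ ∧ ∃ φ : Fm BL, K1 (K2 ξ) = ((Encodable.encode φ : ℕ) : Ordinal.{0}) ∧
    φ.Sat (fun a => a < K1 ξ) (BR ρ) (cons η (dec (K1 ξ) (K2 (K2 ξ))))

open Classical in
/-- The next row. -/
noncomputable def stepRow (e : ℕ → ZFSet.{1}) (ρ : Ordinal.{0} → Row) (ξ : Ordinal.{0}) : Row :=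
  (TT ρ ξ, if h : ∃ n : ℕ, ξ = n then e h.choose else
    ZFSet.range (fun η : {η : Set.Iio (K1 ξ) // TT ρ ξ η.1} => (ρ η.1.1).2))

open Classical in
/-- The rows. -/
noncomputable def row (e : ℕ → ZFSet.{1}) (ξ : Ordinal.{0}) : Row :=
  stepRow e (fun η => if h : η < ξ then row e η else (fun _ => False, ∅)) ξ
termination_by ξ
decreasing_by exact h

theorem Fm.sat_congr {L : Type} {M : Type*} (dom : M → Prop) (R R' : L → M → M → M → Prop)
    (h : ∀ r a b c, dom a → dom b → dom c → (R r a b c ↔ R' r a b c)) (φ : Fm L) :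
    ∀ v : ℕ → M, (∀ n, dom (v n)) → (φ.Sat dom R v ↔ φ.Sat dom R' v) := by
  induction φ with
  | rel r i j k => intro v hv; exact h r _ _ _ (hv i) (hv j) (hv k)
  | eq i j => intro v _; rfl
  | neg φ ih => intro v hv; simp only [Sat, ih v hv]
  | and φ ψ ih1 ih2 => intro v hv; simp only [Sat, ih1 v hv, ih2 v hv]
  | ex φ ih =>
    intro v hv
    constructor
    · rintro ⟨a, ha, h1⟩
      exact ⟨a, ha, (ih _ (cons_dom ha hv)).1 h1⟩
    · rintro ⟨a, ha, h1⟩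
      exact ⟨a, ha, (ih _ (cons_dom ha hv)).2 h1⟩

theorem dec_lt {β p : Ordinal.{0}} (hβ : 0 < β) (k : ℕ) : dec β p k < β := by
  unfold dec
  split
  · assumption
  · exact hβ

theorem BR_congr {ρ ρ' : Ordinal.{0} → Row} {β : Ordinal.{0}} (h : ∀ η < β, ρ η = ρ' η)
    (r : BL) (a b c : Ordinal.{0}) (ha : a < β) (hb : b < β) (_ : c < β) :
    BR ρ r a b c ↔ BR ρ' r a b c := by
  cases r <;> simp only [BR, h a ha, h b hb]

theorem TT_congr {ρ ρ' : Ordinal.{0} → Row} {ξ : Ordinal.{0}} (h : ∀ η < K1 ξ, ρ η = ρ' η)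
    (η : Ordinal.{0}) : TT ρ ξ η ↔ TT ρ' ξ η := by
  unfold TT
  refine and_congr_right fun hη => exists_congr fun φ => and_congr_right fun _ => ?_
  have h0 : 0 < K1 ξ := lt_of_le_of_lt zero_le hη
  exact Fm.sat_congr _ _ _ (fun r a b c ha hb hc => BR_congr h r a b c ha hb hc) φ _
    (cons_dom (P := fun a => a < K1 ξ) hη (dec_lt h0))

theorem stepRow_congr {e : ℕ → ZFSet.{1}} {ρ ρ' : Ordinal.{0} → Row} {ξ : Ordinal.{0}}
    (h : ∀ η < K1 ξ, ρ η = ρ' η) : stepRow e ρ ξ = stepRow e ρ' ξ := by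
  have h1 : TT ρ ξ = TT ρ' ξ := by
    funext η
    exact propext (TT_congr h η)
  unfold stepRow
  refine Prod.ext h1 ?_
  dsimp only
  split
  · rfl
  · ext z
    rw [ZFSet.mem_range, ZFSet.mem_range]
    constructor
    · rintro ⟨⟨⟨η, hη⟩, hη'⟩, rfl⟩
      exact ⟨⟨⟨η, hη⟩, by rw [← h1]; exact hη'⟩, by dsimp only; rw [h η hη]⟩
    · rintro ⟨⟨⟨η, hη⟩, hη'⟩, rfl⟩
      exact ⟨⟨⟨η, hη⟩, by rw [h1]; exact hη'⟩, by dsimp only; rw [h η hη]⟩

theorem row_eq (e : ℕ → ZFSet.{1}) (ξ : Ordinal.{0}) : row e ξ = stepRow e (row e) ξ := by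
  rw [row.eq_1]
  apply stepRow_congr
  intro η hη
  rw [dif_pos (lt_of_lt_of_le hη (K1_le ξ))]

section

variable (e : ℕ → ZFSet.{1})

/-- The satisfaction relation. -/
def T (ξ η : Ordinal.{0}) : Prop := (row e ξ).1 η

/-- The enumeration of the hierarchy. -/
noncomputable def F (ξ : Ordinal.{0}) : ZFSet.{1} := (row e ξ).2

/-- The relations. -/
def Rl : BL → Ordinal.{0} → Ordinal.{0} → Ordinal.{0} → Prop := BR (row e)

theorem T_iff (ξ η : Ordinal.{0}) : T e ξ η ↔ η < K1 ξ ∧ ∃ φ : Fm BL,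
    K1 (K2 ξ) = ((Encodable.encode φ : ℕ) : Ordinal.{0}) ∧
    φ.Sat (fun a => a < K1 ξ) (Rl e) (cons η (dec (K1 ξ) (K2 (K2 ξ)))) := by
  unfold T
  rw [row_eq]
  rfl

theorem F_nat (n : ℕ) : F e (n : Ordinal.{0}) = e n := by
  unfold F
  rw [row_eq]
  have h : ∃ m : ℕ, (n : Ordinal.{0}) = m := ⟨n, rfl⟩
  unfold stepRow
  dsimp only
  rw [dif_pos h]
  have h1 := h.choose_spec
  have h2 : n = h.choose := by exact_mod_cast h1
  rw [← h2]

theorem mem_F {ξ : Ordinal.{0}} (hξ : ω ≤ ξ) (z : ZFSet.{1}) :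
    z ∈ F e ξ ↔ ∃ η, T e ξ η ∧ F e η = z := by
  unfold F
  rw [row_eq e ξ]
  have h : ¬ ∃ m : ℕ, ξ = m := by
    rintro ⟨m, rfl⟩
    exact absurd (Ordinal.natCast_lt_omega0 m) (not_lt.2 hξ)
  unfold stepRow
  dsimp only
  rw [dif_neg h, ZFSet.mem_range]
  have hT : ∀ η, TT (row e) ξ η ↔ T e ξ η := by
    intro η
    unfold T
    rw [row_eq e ξ]
    rfl
  constructor
  · rintro ⟨⟨⟨η, hη⟩, hη'⟩, h1⟩
    exact ⟨η, (hT η).1 hη', h1⟩
  · rintro ⟨η, h1, h2⟩
    exact ⟨⟨⟨η, ((T_iff e ξ η).1 h1).1⟩, (hT η).2 h1⟩, h2⟩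

theorem T_lt {ξ η : Ordinal.{0}} (h : T e ξ η) : η < K1 ξ := ((T_iff e ξ η).1 h).1

theorem T_lt' {ξ η : Ordinal.{0}} (h : T e ξ η) : η < ξ := lt_of_lt_of_le (T_lt e h) (K1_le ξ)

theorem Rl_lt {a b c : Ordinal.{0}} : Rl e BL.lt a b c ↔ a < b := Iff.rfl
theorem Rl_J {a b c : Ordinal.{0}} : Rl e BL.J a b c ↔ gJ a b = c := Iff.rfl
theorem Rl_T {a b c : Ordinal.{0}} : Rl e BL.T a b c ↔ T e a b := Iff.rfl
theorem Rl_E {a b c : Ordinal.{0}} : Rl e BL.E a b c ↔ F e a ∈ F e b := Iff.rfl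
theorem Rl_Q {a b c : Ordinal.{0}} : Rl e BL.Q a b c ↔ F e a = F e b := Iff.rfl
theorem Rl_N {a b c : Ordinal.{0}} : Rl e BL.N a b c ↔ F e a = lf b := Iff.rfl

end

/-! ### Codes of tuples -/

/-- The code of the first `N` entries of `w`. -/
noncomputable def cd : ℕ → (ℕ → Ordinal.{0}) → Ordinal.{0}
  | 0, _ => 0
  | N + 1, w => gJ (w 0) (cd N (fun n => w (n + 1)))

theorem K1_cd (N : ℕ) : ∀ (w : ℕ → Ordinal.{0}) (k : ℕ), k < N → K1 (K2^[k] (cd N w)) = w k := by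
  induction N with
  | zero => intro w k hk; exact absurd hk (Nat.not_lt_zero k)
  | succ N ih =>
    intro w k hk
    cases k with
    | zero => simp only [Function.iterate_zero, id, cd, K1_gJ]
    | succ k =>
      rw [Function.iterate_succ_apply, cd, K2_gJ]
      exact ih _ k (Nat.lt_of_succ_lt_succ hk)

theorem dec_cd {β : Ordinal.{0}} {N : ℕ} {w : ℕ → Ordinal.{0}} {k : ℕ} (hk : k < N)
    (hw : w k < β) : dec β (cd N w) k = w k := by
  unfold dec
  rw [K1_cd N w k hk, if_pos hw]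

/-- The index of the set defined by `φ` over `𝔹_β` with parameters `w`. -/
noncomputable def idx (β : Ordinal.{0}) (φ : Fm BL) (w : ℕ → Ordinal.{0}) : Ordinal.{0} :=
  gJ β (gJ ((Encodable.encode φ : ℕ) : Ordinal.{0}) (cd φ.bd w))

theorem T_idx (e : ℕ → ZFSet.{1}) {β : Ordinal.{0}} {φ : Fm BL} {w : ℕ → Ordinal.{0}}
    (hw : ∀ n, w n < β) (η : Ordinal.{0}) :
    T e (idx β φ w) η ↔ η < β ∧ φ.Sat (fun a => a < β) (Rl e) (cons η w) := by
  rw [T_iff]
  unfold idx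
  simp only [K1_gJ, K2_gJ]
  refine and_congr_right fun hη => ?_
  have key : ∀ ψ : Fm BL, ψ = φ → (ψ.Sat (fun a => a < β) (Rl e) (cons η (dec β (cd φ.bd w))) ↔
      φ.Sat (fun a => a < β) (Rl e) (cons η w)) := by
    rintro ψ rfl
    apply Fm.sat_bd
    intro n hn
    cases n with
    | zero => rfl
    | succ n => exact dec_cd (by omega) (hw n)
  constructor
  · rintro ⟨ψ, h1, h2⟩
    have h3 : ψ = φ := by
      have : Encodable.encode φ = Encodable.encode ψ := by exact_mod_cast h1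
      exact (Encodable.encode_injective this).symm
    exact (key ψ h3).1 h2
  · intro h
    exact ⟨φ, rfl, (key φ rfl).2 h⟩

theorem le_idx (β : Ordinal.{0}) (φ : Fm BL) (w : ℕ → Ordinal.{0}) : β ≤ idx β φ w :=
  left_le_gJ _ _

end Pool.Agent.Work.MP_fbd45d_lc
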