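import Pool.Agent.Work.MP_fbd45d_lc.HierIso

/-!
# Cardinals in the union of the hierarchy
-/

namespace Pool.Agent.Work.MP_fbd45d_lc

open ZFSet (pair)
open Ordinal

/-! ## Same size -/

section Gen

universe u

variable {V : ZFSet.{u}} {D : (Unit → (ℕ → ZFSet.{u}) → Prop) → Prop}

theorem ZM.sameSize_symm (Z : ZM V D) {a b : ZFSet.{u}} (ha : a ∈ V) (hb : b ∈ V)
    (h : SameSizeIn V a b) : SameSizeIn V b a := by
  obtain ⟨f, hf, hbij⟩ := h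
  set g := ZFSet.sep (fun p => ∃ x, x ∈ a ∧ ∃ y, y ∈ b ∧ (p = pair y x ∧ pair x y ∈ f))
    (ZFSet.prod b a) with hg
  have hgm : ∀ x y, pair y x ∈ g ↔ x ∈ a ∧ y ∈ b ∧ pair x y ∈ f := by
    intro x y
    rw [hg, ZFSet.mem_sep, ZFSet.pair_mem_prod]
    constructor
    · rintro ⟨_, x', hx', y', hy', h1, h2⟩
      rw [ZFSet.pair_inj] at h1
      obtain ⟨rfl, rfl⟩ := h1
      exact ⟨hx', hy', h2⟩
    · rintro ⟨h1, h2, h3⟩
      exact ⟨⟨h2, h1⟩, x, h1, y, h2, rfl, h3⟩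
  have hfm : ∀ x y, pair x y ∈ f → x ∈ a ∧ y ∈ b := by
    intro x y hxy
    obtain ⟨x', hx', y', hy', h1⟩ := hbij.1 _ hxy
    rw [ZFSet.pair_inj] at h1
    rw [h1.1, h1.2]
    exact ⟨hx', hy'⟩
  refine ⟨g, ?_, ?_, ?_, ?_⟩
  · refine Z.sep' _ ?_ _ (Z.prod_mem hb ha)
    exact Z.ts.exMem (Z.par _ ha) (Z.ts.exMem (Z.par _ hb) (Z.ts.and (Z.ts.eq (Z.ts.v 2)
      (Z.ts.pair (Z.ts.v 0) (Z.ts.v 1))) (Z.ts.mem (Z.ts.pair (Z.ts.v 1) (Z.ts.v 0))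
      (Z.par _ hf))))
  · intro p hp
    have hp' := ZFSet.sep_subset hp
    obtain ⟨y, hy, x, hx, rfl⟩ := ZFSet.mem_prod.1 hp'
    exact ⟨y, hy, x, hx, rfl⟩
  · intro y hy
    obtain ⟨x, hx, hu⟩ := hbij.2.2 y hy
    refine ⟨x, (hgm _ _).2 ⟨(hfm _ _ hx).1, hy, hx⟩, fun x' hx' => ?_⟩
    exact hu x' ((hgm _ _).1 hx').2.2
  · intro x hx
    obtain ⟨y, hy, hu⟩ := hbij.2.1 x hx
    refine ⟨y, (hgm _ _).2 ⟨hx, (hfm _ _ hy).2, hy⟩, fun y' hy' => ?_⟩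
    exact hu y' ((hgm _ _).1 hy').2.2

theorem isBij_surj {a b f y : ZFSet.{u}} (hf : IsBij f a b) (hy : y ∈ b) :
    ∃ x ∈ a, app f x = y := by
  obtain ⟨x, hx, _⟩ := hf.2.2 y hy
  obtain ⟨x', hx', y', _, h1⟩ := hf.1 _ hx
  rw [ZFSet.pair_inj] at h1
  obtain ⟨rfl, rfl⟩ := h1
  obtain ⟨z, hz, hu⟩ := hf.2.1 x hx'
  refine ⟨x, hx', ?_⟩
  rw [app_eq hz hu]
  exact (hu y hx).symm

theorem ZM.sameSize_trans (Z : ZM V D) {a b c : ZFSet.{u}} (ha : a ∈ V)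
    (h : SameSizeIn V a b) (h' : SameSizeIn V b c) : SameSizeIn V a c := by
  obtain ⟨f, hf, hbij⟩ := h
  obtain ⟨g, hg, hbij'⟩ := h'
  refine ⟨gr (fun x => app g (app f x)) a, Z.gr_of_tm (F := fun x => app g (app f x))
    (Z.tmApp (Z.par _ hg) (Z.tmApp (Z.par _ hf) (Z.ts.v 0))) ha, isBij_gr ?_ ?_ ?_⟩
  · intro x hx
    exact (isBij_app hbij' (isBij_app hbij hx).2).2
  · intro x hx x' hx' hxx
    exact isBij_inj hbij hx hx' (isBij_inj hbij' (isBij_app hbij hx).2 (isBij_app hbij hx').2 hxx)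
  · intro z hz
    obtain ⟨y, hy, rfl⟩ := isBij_surj hbij' hz
    obtain ⟨x, hx, rfl⟩ := isBij_surj hbij hy
    exact ⟨x, hx, rfl⟩

theorem card_eq_of_sameSize {a b : ZFSet.{u}} (h : SameSizeIn V a b) : a.card = b.card := by
  obtain ⟨f, _, hbij⟩ := h
  have e : a ≃ b := Equiv.ofBijective
    (fun x : a => (⟨app f x.1, (isBij_app hbij x.2).2⟩ : b)) (by
      constructor
      · intro x y hxy
        have h1 : app f x.1 = app f y.1 := congrArg Subtype.val hxy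
        exact Subtype.ext (isBij_inj hbij x.2 y.2 h1)
      · intro y
        obtain ⟨x, hx, h1⟩ := isBij_surj hbij y.2
        exact ⟨⟨x, hx⟩, Subtype.ext h1⟩)
  have h1 := Cardinal.mk_congr e
  rw [ZFSet.cardinalMk_coe_sort, ZFSet.cardinalMk_coe_sort] at h1
  exact Cardinal.lift_injective h1

end Gen

section

/-! ## Ordinals -/

theorem lf_mem_WW {e : ℕ → ZFSet.{1}} (ζ : Ordinal.{0}) : lf ζ ∈ WW e := by
  induction ζ using WellFoundedLT.induction with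
  | _ ζ ih =>
    have S := BD.ds e
    have hQ : BD e (fun _ w => ∃ ζ', True ∧ (Rl e BL.lt ζ' ζ ζ' ∧ Rl e BL.N (w 0) ζ' ζ')) := by
      refine S.ex (Q := fun _ ζ' w => Rl e BL.lt ζ' ζ ζ' ∧ Rl e BL.N (w 0) ζ' ζ') ?_
      exact S.and (S.rel3 (R := fun _ a b c => Rl e BL.lt a b c) (BD.rel e BL.lt 0 1 2)
        (BD.v e 0) (BD.par e ζ) (BD.v e 0)) (BD.rel e BL.N 1 0 0)
    obtain ⟨γ, hγ⟩ := bounded_family (e := e) (fun ζ' : Set.Iio ζ => lf ζ'.1)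
      (fun ζ' => ih ζ'.1 ζ'.2)
    obtain ⟨s, hs, h⟩ := comp e (Q := fun η => ∃ ζ', True ∧ (Rl e BL.lt ζ' ζ ζ' ∧
      Rl e BL.N η ζ' ζ')) hQ γ
    have : lf ζ = s := by
      ext z
      rw [h, mem_lf]
      constructor
      · rintro ⟨ζ', hζ', rfl⟩
        obtain ⟨η, hη, h1⟩ := hγ ⟨ζ', hζ'⟩
        exact ⟨η, hη, ⟨ζ', trivial, hζ', h1⟩, h1⟩
      · rintro ⟨η, _, ⟨ζ', _, h1, h2⟩, rfl⟩
        exact ⟨ζ', h1, h2⟩
    rw [this]; exact hs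

theorem ord_in_WW {e : ℕ → ZFSet.{1}} (he : BT e) {κ : Ordinal.{1}} (h : κ.toZFSet ∈ WW e) :
    ∃ l : Ordinal.{0}, κ = Ordinal.lift.{1, 0} l := by
  by_contra hcon
  push Not at hcon
  have h1 : ∀ ζ : Ordinal.{0}, lf ζ ∈ κ.toZFSet := by
    intro ζ
    unfold lf
    rw [Ordinal.toZFSet_mem_toZFSet_iff]
    by_contra hc
    obtain ⟨l, hl⟩ := Ordinal.mem_range_lift_of_le (not_lt.1 hc)
    exact hcon l hl.symm
  have hsm := small_elems he h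
  have h2 : Function.Injective (fun ζ : Ordinal.{0} => (⟨lf ζ, h1 ζ⟩ : {x // x ∈ κ.toZFSet})) := by
    intro a b hab
    exact lf_inj.1 (congrArg Subtype.val hab)
  have h3 : Small.{0} Ordinal.{0} := small_of_injective h2
  exact not_small_ordinal.{0, 0} h3

end

/-- Infinite cardinals of the model. -/
def WC (e : ℕ → ZFSet.{1}) (l : Ordinal.{0}) : Prop :=
  ω ≤ l ∧ ∀ β < l, ¬ SameSizeIn (WW e) (lf β) (lf l)

theorem isInfCard_iff {e : ℕ → ZFSet.{1}} (he : BT e) {κ : Ordinal.{1}} :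
    IsInfCard (WW e) κ ↔ ∃ l : Ordinal.{0}, κ = Ordinal.lift.{1, 0} l ∧ WC e l := by
  constructor
  · rintro ⟨h1, h2, h3⟩
    obtain ⟨l, rfl⟩ := ord_in_WW he h1
    refine ⟨l, rfl, ?_, ?_⟩
    · rw [← Ordinal.lift_omega0.{1, 0}, Ordinal.lift_le] at h2
      exact h2
    · intro β hβ
      exact h3 _ (Ordinal.lift_lt.2 hβ)
  · rintro ⟨l, rfl, h1, h2⟩
    refine ⟨lf_mem_WW l, ?_, ?_⟩
    · rw [← Ordinal.lift_omega0.{1, 0}, Ordinal.lift_le]; exact h1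
    · intro β hβ
      obtain ⟨b, rfl⟩ := Ordinal.mem_range_lift_of_le hβ.le
      exact h2 b (Ordinal.lift_lt.1 hβ)

theorem WC.succ_lt {e : ℕ → ZFSet.{1}} (he : BT e) {l ξ : Ordinal.{0}} (hl : WC e l)
    (hξ : ξ < l) : ξ + 1 < l := by
  have h1 := (WW_zm he).card_limit ((isInfCard_iff he).2 ⟨l, rfl, hl⟩)
    (ξ := Ordinal.lift.{1, 0} ξ) (Ordinal.lift_lt.2 hξ)
  have h2 : Ordinal.lift.{1, 0} ξ + 1 = Ordinal.lift.{1, 0} (ξ + 1) := by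
    rw [Ordinal.lift_add, Ordinal.lift_one]
  rw [h2, Ordinal.lift_lt] at h1
  exact h1

theorem WC_of_card {e : ℕ → ZFSet.{1}} {l : Ordinal.{0}} (h1 : ω ≤ l)
    (h2 : ∀ β < l, β.card < l.card) : WC e l := by
  refine ⟨h1, fun β hβ h => ?_⟩
  have h3 := card_eq_of_sameSize h
  unfold lf at h3
  rw [Ordinal.card_toZFSet, Ordinal.card_toZFSet, ← Ordinal.lift_card, ← Ordinal.lift_card] at h3
  have h4 := Cardinal.lift_injective h3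
  exact absurd (h2 β hβ) (by rw [h4]; exact lt_irrefl _)

theorem WC_omega {e : ℕ → ZFSet.{1}} : WC e ω := by
  refine WC_of_card le_rfl ?_
  intro β hβ
  obtain ⟨n, rfl⟩ := Ordinal.lt_omega0.1 hβ
  rw [Ordinal.card_nat, Ordinal.card_omega0]
  exact Cardinal.natCast_lt_aleph0

/-! ## Order types -/

theorem otp_mem {e : ℕ → ZFSet.{1}} (he : BT e) {a : ZFSet.{1}} (ha : a ∈ WW e) :
    ∃ g : ZFSet.{1} → ZFSet.{1}, gr g a ∈ WW e ∧
      ∀ ξ, lf ξ ∈ a → g (lf ξ) = lf (cl {ξ | lf ξ ∈ a} ξ) := by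
  have Z := WW_zm he
  obtain ⟨g, hg, hgx⟩ := Z.recursion (X := a) (R := fun x y => x ∈ y) (h := fun s => s) ha
    (Z.ts.mem (Z.ts.v 0) (Z.ts.v 1)) (ZM.memWF _ _) (Z.ts.v 0)
  refine ⟨g, hg, ?_⟩
  intro ξ
  induction ξ using WellFoundedLT.induction with
  | _ ξ ih =>
    intro hξ
    rw [(hgx _ hξ).2]
    ext z
    rw [mem_img, mem_lf]
    constructor
    · rintro ⟨y, hy, rfl⟩
      rw [ZFSet.mem_sep] at hy
      obtain ⟨η, hη, rfl⟩ := mem_lf.1 hy.2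
      rw [ih η hη hy.1]
      exact ⟨_, cl_lt_of hη hy.1, rfl⟩
    · rintro ⟨ζ, hζ, rfl⟩
      obtain ⟨η, hη, hηξ, rfl⟩ := lt_cl.1 hζ
      exact ⟨lf η, ZFSet.mem_sep.2 ⟨hη, lf_mem_lf.2 hηξ⟩, ih η hηξ hη⟩

theorem inj_bij {e : ℕ → ZFSet.{1}} (he : BT e) {x : ZFSet.{1}} (hx : x ∈ WW e)
    {f : ZFSet.{1} → ZFSet.{1}} (hf : gr f x ∈ WW e) {ν : Ordinal.{0}}
    (hin : ∀ z ∈ x, ∃ ζ < ν, f z = lf ζ) (hinj : ∀ z ∈ x, ∀ z' ∈ x, f z = f z' → z = z') :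
    ∃ ν' ≤ ν, SameSizeIn (WW e) x (lf ν') := by
  have Z := WW_zm he
  have ha : img f x ∈ WW e := Z.img_of_gr hf hx
  obtain ⟨g, hg, hgx⟩ := otp_mem he ha
  set X : Set Ordinal.{0} := {ξ | lf ξ ∈ img f x} with hX
  have hXm : ∀ z ∈ x, ∀ ζ, f z = lf ζ → ζ ∈ X := by
    intro z hz ζ h
    show lf ζ ∈ img f x
    rw [← h]; exact mem_img.2 ⟨z, hz, rfl⟩
  have hk : gr (fun z => app (gr g (img f x)) (app (gr f x) z)) x =
      gr (fun z => g (f z)) x := by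
    refine gr_congr (fun z hz => ?_)
    rw [app_gr hz, app_gr (mem_img.2 ⟨z, hz, rfl⟩)]
  refine ⟨cl X ν, cl_le ν, gr (fun z => g (f z)) x, ?_, isBij_gr ?_ ?_ ?_⟩
  · rw [← hk]
    exact Z.gr_of_tm (F := fun z => app (gr g (img f x)) (app (gr f x) z))
      (Z.tmApp (Z.par _ hg) (Z.tmApp (Z.par _ hf) (Z.ts.v 0))) hx
  · intro z hz
    obtain ⟨ζ, hζ, h⟩ := hin z hz
    have h1 := hXm z hz ζ h
    rw [h, hgx ζ h1]
    exact lf_mem_lf.2 (cl_lt_of hζ h1)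
  · intro z hz z' hz' hzz
    obtain ⟨ζ, hζ, h⟩ := hin z hz
    obtain ⟨ζ', hζ', h'⟩ := hin z' hz'
    have h1 := hXm z hz ζ h
    have h1' := hXm z' hz' ζ' h'
    have h2 : lf (cl X ζ) = lf (cl X ζ') := by
      rw [← hgx ζ h1, ← hgx ζ' h1', ← h, ← h']
      exact hzz
    have h3 := cl_inj h1 h1' (lf_inj.1 h2)
    apply hinj z hz z' hz'
    rw [h, h', h3]
  · intro y hy
    obtain ⟨ζ, hζ, rfl⟩ := mem_lf.1 hy
    obtain ⟨η, hη, _, rfl⟩ := lt_cl.1 hζ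
    obtain ⟨z, hz, h⟩ := mem_img.1 (show lf η ∈ img f x from hη)
    refine ⟨z, hz, ?_⟩
    rw [h, hgx η hη]

theorem WC.le_of_inj {e : ℕ → ZFSet.{1}} (he : BT e) {l ν : Ordinal.{0}} (hl : WC e l)
    {f : ZFSet.{1} → ZFSet.{1}} (hf : gr f (lf l) ∈ WW e)
    (hin : ∀ z ∈ lf l, ∃ ζ < ν, f z = lf ζ)
    (hinj : ∀ z ∈ lf l, ∀ z' ∈ lf l, f z = f z' → z = z') : l ≤ ν := by
  obtain ⟨ν', hν', h⟩ := inj_bij he (lf_mem_WW l) hf hin hinj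
  by_contra hcon
  exact hl.2 ν' (lt_of_le_of_lt hν' (not_le.1 hcon))
    ((WW_zm he).sameSize_symm (lf_mem_WW l) (lf_mem_WW ν') h)

theorem inj_of_surj {e : ℕ → ZFSet.{1}} (he : BT e) {l : Ordinal.{0}}
    {G : ZFSet.{1} → ZFSet.{1}} (hG : gr G (lf l) ∈ WW e) {y : ZFSet.{1}} (hy : y ∈ WW e)
    (hs : ∀ z ∈ y, ∃ q < l, G (lf q) = z) : ∃ f : ZFSet.{1} → ZFSet.{1}, gr f y ∈ WW e ∧
      (∀ z ∈ y, ∃ ζ < l, f z = lf ζ) ∧ ∀ z ∈ y, ∀ z' ∈ y, f z = f z' → z = z' := by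
  have Z := WW_zm he
  have hlV : lf l ∈ WW e := lf_mem_WW l
  let f : ZFSet.{1} → ZFSet.{1} := fun z => ZFSet.sUnion (ZFSet.sep (fun t =>
    app (gr G (lf l)) t = z ∧ ∀ s, s ∈ t → ¬ app (gr G (lf l)) s = z) (lf l))
  have hft : TmV (fun _ => WW e) (DW e) (fun _ v => f (v 0)) := by
    refine Z.tmsUnion (Z.tmSep (Q := fun t v => app (gr G (lf l)) t = v 0 ∧
      ∀ s, s ∈ t → ¬ app (gr G (lf l)) s = v 0) ?_ (Z.par _ hlV))
    exact Z.ts.and (Z.ts.eq (Z.tmApp (Z.par _ hG) (Z.ts.v 0)) (Z.ts.v 1))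
      (Z.ts.allMem (Z.ts.v 0) (Z.ts.not (Z.ts.eq (Z.tmApp (Z.par _ hG) (Z.ts.v 0))
        (Z.ts.v 2))))
  have key : ∀ z ∈ y, ∃ q < l, f z = lf q ∧ G (lf q) = z := by
    intro z hz
    have hex : ∃ q, q < l ∧ G (lf q) = z := hs z hz
    have hmin := WellFounded.min_mem (wellFounded_lt (α := Ordinal.{0}))
      {q | q < l ∧ G (lf q) = z} hex
    have hmin' : ∀ ν, (ν < l ∧ G (lf ν) = z) →
        ¬ ν < WellFounded.min (wellFounded_lt (α := Ordinal.{0})) {q | q < l ∧ G (lf q) = z} hex :=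
      fun ν hν => WellFounded.not_lt_min _ _ (by exact hν)
    set q := WellFounded.min (wellFounded_lt (α := Ordinal.{0})) {q | q < l ∧ G (lf q) = z} hex
    refine ⟨q, hmin.1, ?_, hmin.2⟩
    have h1 : ZFSet.sep (fun t => app (gr G (lf l)) t = z ∧ ∀ s, s ∈ t →
        ¬ app (gr G (lf l)) s = z) (lf l) = {lf q} := by
      ext t
      rw [ZFSet.mem_sep, ZFSet.mem_singleton]
      constructor
      · rintro ⟨ht, h2, h3⟩
        obtain ⟨q', hq', rfl⟩ := mem_lf.1 ht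
        rw [app_gr ht] at h2
        rcases lt_trichotomy q q' with h | h | h
        · exfalso
          apply h3 (lf q) (lf_mem_lf.2 h)
          rw [app_gr (lf_mem_lf.2 hmin.1)]
          exact hmin.2
        · rw [h]
        · exact absurd h (hmin' q' ⟨hq', h2⟩)
      · rintro rfl
        refine ⟨lf_mem_lf.2 hmin.1, ?_, ?_⟩
        · rw [app_gr (lf_mem_lf.2 hmin.1)]; exact hmin.2
        · intro s hs' h4
          obtain ⟨q', hq', rfl⟩ := mem_lf.1 hs'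
          rw [app_gr (lf_mem_lf.2 (hq'.trans hmin.1))] at h4
          exact hmin' q' ⟨hq'.trans hmin.1, h4⟩ hq'
    show ZFSet.sUnion _ = _
    rw [h1, ZFSet.sUnion_singleton]
  refine ⟨f, Z.gr_of_tm hft hy, ?_, ?_⟩
  · intro z hz
    obtain ⟨q, hq, h1, _⟩ := key z hz
    exact ⟨q, hq, h1⟩
  · intro z hz z' hz' hzz
    obtain ⟨q, hq, h1, h2⟩ := key z hz
    obtain ⟨q', hq', h1', h2'⟩ := key z' hz'
    rw [h1, h1', lf_inj] at hzz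
    rw [← h2, ← h2', hzz]

end Pool.Agent.Work.MP_fbd45d_lc
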