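import Pool.Agent.Work.MP_fbd45d_lc.HierGCH

/-!
# The union of the hierarchy is a model of ZFC + GCH
-/

namespace Pool.Agent.Work.MP_fbd45d_lc

open ZFSet (pair)
open Ordinal

section

variable {e : ℕ → ZFSet.{1}}

/-! ## Cardinals are closed under pairing -/

theorem least_size (he : BT e) {p : ZFSet.{1}} (hp : p ∈ WW e) {ν : Ordinal.{0}}
    (hν : SameSizeIn (WW e) p (lf ν)) : ∃ μ ≤ ν, SameSizeIn (WW e) p (lf μ) ∧
      (∀ ν', SameSizeIn (WW e) p (lf ν') → μ ≤ ν') ∧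
      ∀ β < μ, ¬ SameSizeIn (WW e) (lf β) (lf μ) := by
  have Z := WW_zm he
  have hne : Set.Nonempty {ν | SameSizeIn (WW e) p (lf ν)} := ⟨ν, hν⟩
  have h1 : SameSizeIn (WW e) p (lf (sInf {ν | SameSizeIn (WW e) p (lf ν)})) := csInf_mem hne
  have h2 : ∀ ν', SameSizeIn (WW e) p (lf ν') →
      sInf {ν | SameSizeIn (WW e) p (lf ν)} ≤ ν' := fun ν' h => csInf_le' h
  refine ⟨_, h2 ν hν, h1, h2, ?_⟩
  intro β hβ h3
  exact absurd (h2 β (Z.sameSize_trans hp h1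
    (Z.sameSize_symm (lf_mem_WW β) (lf_mem_WW _) h3))) (not_le.2 hβ)

theorem WC.J_closed (he : BT e) {l : Ordinal.{0}} (hl : WC e l) :
    ∀ a < l, ∀ b < l, gJ a b < l := by
  induction l using WellFoundedLT.induction with
  | _ l ih =>
    intro a ha b hb
    have Z := WW_zm he
    rcases hl.1.lt_or_eq with hωl | hωl
    · by_contra hcon
      have hle : l ≤ gJ a b := not_lt.1 hcon
      set γ := max (max a b) ω + 1 with hγ
      have hγl : γ < l := hl.succ_lt he (max_lt (max_lt ha hb) hωl)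
      have hωγ : ω < γ := lt_of_le_of_lt (le_max_right _ _) (lt_add_one _)
      obtain ⟨μ, hμγ, hμ, hmin, hμc⟩ := least_size he (lf_mem_WW (e := e) γ)
        (Z.sameSize_refl (lf_mem_WW γ))
      obtain ⟨f, hf, hbij⟩ := hμ
      have hωμ : ω ≤ μ := by
        refine WC.le_of_inj he (f := app f) WC_omega ?_ ?_ ?_
        · exact Z.gr_of_tm (F := app f) (Z.tmApp (Z.par _ hf) (Z.ts.v 0)) (lf_mem_WW ω)
        · intro z hz
          obtain ⟨ζ, hζ, rfl⟩ := mem_lf.1 hz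
          exact mem_lf.1 (isBij_app hbij (lf_mem_lf.2 (hζ.trans hωγ))).2
        · intro z hz z' hz' h
          obtain ⟨ζ, hζ, rfl⟩ := mem_lf.1 hz
          obtain ⟨ζ', hζ', rfl⟩ := mem_lf.1 hz'
          exact isBij_inj hbij (lf_mem_lf.2 (hζ.trans hωγ)) (lf_mem_lf.2 (hζ'.trans hωγ)) h
      have hμl : μ < l := lt_of_le_of_lt hμγ hγl
      have hJμ := ih μ hμl ⟨hωμ, hμc⟩
      have hK : ∀ ξ < l, K1 ξ < γ ∧ K2 ξ < γ := by
        intro ξ hξ
        have h1 := max_K_le (lt_of_lt_of_le hξ hle)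
        have h2 : max (K1 ξ) (K2 ξ) < γ := lt_of_le_of_lt (h1.trans (le_max_left _ _))
          (lt_add_one _)
        exact max_lt_iff.1 h2
      have hv : ∀ ξ < γ, ∃ ζ < μ, app f (lf ξ) = lf ζ := by
        intro ξ hξ
        exact mem_lf.1 (isBij_app hbij (lf_mem_lf.2 hξ)).2
      refine absurd (WC.le_of_inj he (f := fun z => lf (gJ (un (app f (lf (K1 (un z)))))
        (un (app f (lf (K2 (un z))))))) (ν := μ) hl ?_ ?_ ?_) (not_le.2 hμl)
      · refine Z.gr_of_tm (F := fun z => lf (gJ (un (app f (lf (K1 (un z)))))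
          (un (app f (lf (K2 (un z))))))) ?_ (lf_mem_WW l)
        refine (TmU.gJ (TmU.un (Z.tmApp (Z.par _ hf) (TmU.un (Z.ts.v 0)).k1.lf))
          (TmU.un (Z.tmApp (Z.par _ hf) (TmU.un (Z.ts.v 0)).k2.lf))).lf
      · intro z hz
        obtain ⟨ξ, hξ, rfl⟩ := mem_lf.1 hz
        obtain ⟨hK1, hK2⟩ := hK ξ hξ
        obtain ⟨ζ1, hζ1, h1⟩ := hv _ hK1
        obtain ⟨ζ2, hζ2, h2⟩ := hv _ hK2
        refine ⟨gJ ζ1 ζ2, hJμ _ hζ1 _ hζ2, ?_⟩
        rw [un_lf, h1, h2, un_lf, un_lf]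
      · intro z hz z' hz' h
        obtain ⟨ξ, hξ, rfl⟩ := mem_lf.1 hz
        obtain ⟨ξ', hξ', rfl⟩ := mem_lf.1 hz'
        obtain ⟨hK1, hK2⟩ := hK ξ hξ
        obtain ⟨hK1', hK2'⟩ := hK ξ' hξ'
        obtain ⟨ζ1, hζ1, h1⟩ := hv _ hK1
        obtain ⟨ζ2, hζ2, h2⟩ := hv _ hK2
        obtain ⟨ζ1', hζ1', h1'⟩ := hv _ hK1'
        obtain ⟨ζ2', hζ2', h2'⟩ := hv _ hK2'
        rw [un_lf, un_lf, h1, h2, h1', h2', un_lf, un_lf, un_lf, un_lf, lf_inj] at h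
        obtain ⟨h3, h4⟩ := gJ_inj h
        rw [h3, ← h1'] at h1
        rw [h4, ← h2'] at h2
        have h5 := lf_inj.1 (isBij_inj hbij (lf_mem_lf.2 hK1) (lf_mem_lf.2 hK1') h1)
        have h6 := lf_inj.1 (isBij_inj hbij (lf_mem_lf.2 hK2) (lf_mem_lf.2 hK2') h2)
        rw [← gJ_K ξ, ← gJ_K ξ', h5, h6]
    · rw [← hωl] at ha hb ⊢
      exact gJ_lt_omega ha hb

/-! ## GCH -/

/-- The power set in the model. -/
noncomputable def pw (e : ℕ → ZFSet.{1}) (l : Ordinal.{0}) : ZFSet.{1} :=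
  ZFSet.sep (fun x => x ⊆ lf l) (WW e)

theorem pw_mem (he : BT e) (l : Ordinal.{0}) : pw e l ∈ WW e :=
  (WW_zm he).power' _ (lf_mem_WW l)

theorem mem_pw {l : Ordinal.{0}} {x : ZFSet.{1}} : x ∈ pw e l ↔ x ∈ WW e ∧ x ⊆ lf l :=
  ZFSet.mem_sep

theorem cantor (he : BT e) {l : Ordinal.{0}} {f : ZFSet.{1}} (hf : f ∈ WW e)
    (hin : ∀ z ∈ pw e l, app f z ∈ lf l)
    (hinj : ∀ z ∈ pw e l, ∀ z' ∈ pw e l, app f z = app f z' → z = z') : False := by
  have Z := WW_zm he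
  have hD : ZFSet.sep (fun t => ∃ x, x ∈ pw e l ∧ (app f x = t ∧ ¬ t ∈ x)) (lf l) ∈ WW e := by
    refine Z.sep' _ ?_ _ (lf_mem_WW l)
    exact Z.ts.exMem (Z.par _ (pw_mem he l)) (Z.ts.and (Z.ts.eq
      (Z.tmApp (Z.par _ hf) (Z.ts.v 0)) (Z.ts.v 1)) (Z.ts.not (Z.ts.mem (Z.ts.v 1) (Z.ts.v 0))))
  set D := ZFSet.sep (fun t => ∃ x, x ∈ pw e l ∧ (app f x = t ∧ ¬ t ∈ x)) (lf l) with hDdef
  have hDp : D ∈ pw e l := mem_pw.2 ⟨hD, ZFSet.sep_subset⟩
  have ht := hin D hDp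
  by_cases h : app f D ∈ D
  · have h' := h
    rw [hDdef, ZFSet.mem_sep] at h'
    obtain ⟨_, x, hx, h1, h2⟩ := h'
    have h3 := hinj x hx D hDp h1
    rw [h3] at h2
    exact h2 h
  · apply h
    have : app f D ∈ ZFSet.sep (fun t => ∃ x, x ∈ pw e l ∧ (app f x = t ∧ ¬ t ∈ x)) (lf l) :=
      ZFSet.mem_sep.2 ⟨ht, D, hDp, rfl, h⟩
    exact this

theorem pw_size (he : BT e) {l ν : Ordinal.{0}} (hν : ∀ z ∈ pw e l, ri e z < ν) :
    ∃ ν' ≤ ν, SameSizeIn (WW e) (pw e l) (lf ν') := by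
  have Z := WW_zm he
  refine inj_bij he (pw_mem he l) (f := fun z => lf (ri e z)) ?_ ?_ ?_
  · exact Z.gr_of_tm (F := fun z => lf (ri e z)) (TmU.ri (Z.ts.v 0)).lf (pw_mem he l)
  · intro z hz
    exact ⟨_, hν z hz, rfl⟩
  · intro z hz z' hz' h
    have h1 : ri e z = ri e z' := lf_inj.1 h
    rw [← F_ri (mem_pw.1 hz).1, ← F_ri (mem_pw.1 hz').1, h1]

theorem pw_bound (he : BT e) {l ν : Ordinal.{0}} (hl : WC e l) (hν : WC e ν) (hlν : l < ν) :
    ∀ z ∈ pw e l, ri e z < ν := by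
  intro z hz
  obtain ⟨hzW, hzl⟩ := mem_pw.1 hz
  by_contra hcon
  have hle : ν ≤ ri e z := not_lt.1 hcon
  have h1 := F_ri hzW
  obtain ⟨f, hf, hin, hinj⟩ := hull_bound he (δ := ri e z) hl.1 (hl.J_closed he)
    (by rw [h1]; exact hzl) (fun δ' h => ri_le (by rw [h, h1]))
  have Z := WW_zm he
  have hsub : ∀ z' ∈ lf ν, z' ∈ lf (ri e z) := by
    intro z' hz'
    obtain ⟨ζ, hζ, rfl⟩ := mem_lf.1 hz'
    exact lf_mem_lf.2 (lt_of_lt_of_le hζ hle)
  have hf' : gr f (lf ν) ∈ WW e := by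
    have h2 : gr f (lf ν) = gr (app (gr f (lf (ri e z)))) (lf ν) :=
      gr_congr (fun x hx => (app_gr (hsub x hx)).symm)
    rw [h2]
    exact Z.gr_of_tm (F := app (gr f (lf (ri e z)))) (Z.tmApp (Z.par _ hf) (Z.ts.v 0))
      (lf_mem_WW ν)
  exact absurd (WC.le_of_inj he hν hf' (fun z hz => hin z (hsub z hz))
    (fun z hz z' hz' => hinj z (hsub z hz) z' (hsub z' hz'))) (not_le.2 hlν)

theorem WW_GCH (he : BT e) : SatGCH (WW e) := by
  have Z := WW_zm he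
  intro κ hκ
  obtain ⟨l, rfl, hl⟩ := (isInfCard_iff he).1 hκ
  -- some size
  have hsm := small_elems he (pw_mem he l)
  obtain ⟨γ, hγ⟩ := bounded_family (e := e) (fun x : {x // x ∈ pw e l} => x.1)
    (fun x => (mem_pw.1 x.2).1)
  obtain ⟨ν, _, hν⟩ := pw_size he (l := l) (ν := γ) (fun z hz => by
    obtain ⟨η, hη, h⟩ := hγ ⟨z, hz⟩
    exact lt_of_le_of_lt (ri_le h) hη)
  obtain ⟨μ, _, hμ, hmin, hμc⟩ := least_size he (pw_mem he l) hν
  have hlμ : l < μ := by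
    by_contra hcon
    have hle : μ ≤ l := not_lt.1 hcon
    obtain ⟨f, hf, hbij⟩ := hμ
    refine cantor he (l := l) hf ?_ ?_
    · intro z hz
      obtain ⟨ζ, hζ, h⟩ := mem_lf.1 (isBij_app hbij hz).2
      rw [h]
      exact lf_mem_lf.2 (lt_of_lt_of_le hζ hle)
    · intro z hz z' hz' h
      exact isBij_inj hbij hz hz' h
  refine ⟨Ordinal.lift.{1, 0} μ, Ordinal.lift_lt.2 hlμ,
    (isInfCard_iff he).2 ⟨μ, rfl, hl.1.trans hlμ.le, hμc⟩, ?_, pw e l, pw_mem he l, ?_, hμ⟩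
  · intro ν' hν' hc
    obtain ⟨n, rfl, hn⟩ := (isInfCard_iff he).1 hc
    rw [Ordinal.lift_lt] at hν'
    rw [Ordinal.lift_le]
    obtain ⟨n', hn', h⟩ := pw_size he (pw_bound he hl hn hν')
    exact (hmin n' h).trans hn'
  · intro x hx
    rw [mem_pw]
    exact ⟨fun h => h.2, fun h => ⟨hx, h⟩⟩

/-! ## Alephs -/

theorem exists_WC (γ : Ordinal.{0}) : ∃ l, γ < l ∧ WC e l := by
  set c : Cardinal.{0} := Order.succ (max γ.card Cardinal.aleph0) with hc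
  have h1 : γ < c.ord := by
    rw [Cardinal.lt_ord]
    exact lt_of_le_of_lt (le_max_left _ _) (Order.lt_succ _)
  refine ⟨c.ord, h1, WC_of_card ?_ ?_⟩
  · rw [← Cardinal.ord_aleph0, Cardinal.ord_le_ord]
    exact (le_max_right _ _).trans (Order.le_succ _)
  · intro β hβ
    rw [Cardinal.card_ord]
    exact Cardinal.lt_ord.1 hβ

/-- The infinite cardinals of the model. -/
noncomputable def ale (e : ℕ → ZFSet.{1}) (a : Ordinal.{0}) : Ordinal.{0} :=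
  sInf {l | WC e l ∧ ∀ b : Set.Iio a, ale e b.1 < l}
termination_by a
decreasing_by exact b.2

theorem ale_spec (a : Ordinal.{0}) : WC e (ale e a) ∧ ∀ b < a, ale e b < ale e a := by
  have hne : Set.Nonempty {l | WC e l ∧ ∀ b : Set.Iio a, ale e b.1 < l} := by
    obtain ⟨l, h1, h2⟩ := exists_WC (e := e) (⨆ b : Set.Iio a, ale e b.1)
    exact ⟨l, h2, fun b => lt_of_le_of_lt (Ordinal.le_iSup (fun b : Set.Iio a => ale e b.1) b) h1⟩
  have h := csInf_mem hne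
  rw [← ale.eq_1] at h
  exact ⟨h.1, fun b hb => h.2 ⟨b, hb⟩⟩

theorem ale_le {a l : Ordinal.{0}} (h1 : WC e l) (h2 : ∀ b < a, ale e b < l) : ale e a ≤ l := by
  rw [ale.eq_1]
  exact csInf_le' ⟨h1, fun b => h2 b.1 b.2⟩

theorem ale_all (a : Ordinal.{0}) : ∀ m < ale e a, WC e m → ∃ c < a, ale e c = m := by
  induction a using WellFoundedLT.induction with
  | _ a ih =>
    intro m hm hmc
    by_contra hcon
    have h1 : ¬ ∀ b < a, ale e b < m := fun h => absurd (ale_le hmc h) (not_le.2 hm)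
    push Not at h1
    obtain ⟨b, hb, hmb⟩ := h1
    rcases hmb.lt_or_eq with h | h
    · obtain ⟨c, hc, h2⟩ := ih b hb m h hmc
      exact hcon ⟨c, hc.trans hb, h2⟩
    · exact hcon ⟨b, hb, h.symm⟩

theorem WW_aleph (he : BT e) (a : Ordinal.{0}) :
    IsAleph (WW e) (Ordinal.lift.{1, 0} a) (Ordinal.lift.{1, 0} (ale e a)) := by
  let u : Ordinal.{1} → Ordinal.{0} := fun β => sInf {b | Ordinal.lift.{1, 0} b = β}
  have hu : ∀ b, u (Ordinal.lift.{1, 0} b) = b := by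
    intro b
    have : {b' | Ordinal.lift.{1, 0} b' = Ordinal.lift.{1, 0} b} = {b} := by
      ext b'
      simp only [Set.mem_ofPred_eq, Set.mem_singleton_iff, Ordinal.lift_inj]
    show sInf {b' | Ordinal.lift.{1, 0} b' = Ordinal.lift.{1, 0} b} = b
    rw [this, csInf_singleton]
  refine ⟨fun β => Ordinal.lift.{1, 0} (ale e (u β)), ?_, by dsimp only; rw [hu]⟩
  intro β hβ
  obtain ⟨b, rfl⟩ := Ordinal.mem_range_lift_of_le hβ
  refine ⟨?_, ?_, ?_⟩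
  · dsimp only
    rw [hu]
    exact (isInfCard_iff he).2 ⟨_, rfl, (ale_spec b).1⟩
  · intro γ hγ
    obtain ⟨c, rfl⟩ := Ordinal.mem_range_lift_of_le hγ.le
    dsimp only
    rw [hu, hu, Ordinal.lift_lt]
    exact (ale_spec b).2 c (Ordinal.lift_lt.1 hγ)
  · intro μ hμ hμc
    obtain ⟨m, rfl, hm⟩ := (isInfCard_iff he).1 hμc
    dsimp only at hμ
    rw [hu, Ordinal.lift_lt] at hμ
    obtain ⟨c, hc, h⟩ := ale_all b m hμ hm
    refine ⟨Ordinal.lift.{1, 0} c, Ordinal.lift_lt.2 hc, ?_⟩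
    dsimp only
    rw [hu, h]

end

/-! ## The hypothesis of the first part -/

theorem star : Star.{1} := by
  intro x hx
  obtain ⟨t, ht, hxt, hc⟩ := hx
  obtain ⟨e, he⟩ := hc.exists_eq_range ⟨x, hxt⟩
  have hmem : ∀ z, z ∈ t ↔ ∃ n, e n = z := by
    intro z
    have : z ∈ (t : Set ZFSet.{1}) ↔ z ∈ Set.range e := by rw [he]
    exact this
  have hB : BT e := by
    intro n z hz
    exact (hmem z).1 (ht _ ((hmem _).2 ⟨n, rfl⟩) hz)
  refine ⟨WW e, ⟨WW_ZFC hB, WW_GCH hB⟩, ?_, ?_⟩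
  · obtain ⟨n, rfl⟩ := (hmem x).1 hxt
    rw [← F_nat e n]
    exact F_mem e _
  · intro α hα
    have h1 : α ≤ Ordinal.lift.{1, 0} (ω_ 1) := by
      rw [Ordinal.lift_omega, Ordinal.lift_one]
      exact hα.le
    obtain ⟨a, rfl⟩ := Ordinal.mem_range_lift_of_le h1
    exact ⟨_, WW_aleph hB a⟩

/-- **Main theorem.** For every countable ordinal `α`, `ℵ_α`-amalgamation is non-absolute for
transitive models of ZFC + GCH. -/
theorem main (α : Ordinal.{1}) (hα : α < ω_ 1) : NonAbsolute α := nonAbsolute_of_star star hα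

end Pool.Agent.Work.MP_fbd45d_lc
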