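import Pool.Agent.Work.MP_fbd45d_lc.HierHull

/-!
# GCH in the union of the hierarchy
-/

namespace Pool.Agent.Work.MP_fbd45d_lc

open ZFSet (pair)
open Ordinal

/-! ## Ordinal-valued terms -/

section

variable {e : ℕ → ZFSet.{1}}

/-- Ordinal-valued terms over the structure of all ordinals. -/
abbrev TmO (e : ℕ → ZFSet.{1}) (t : Unit → (ℕ → Ordinal.{0}) → Ordinal.{0}) : Prop :=
  Tm (fun (_ : Unit) (_ : Ordinal.{0}) => True) (BD e) t

theorem BD.least {R : Ordinal.{0} → (ℕ → Ordinal.{0}) → Prop}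
    (hR : BD e (fun _ w => R (w 0) (fun n => w (n + 1)))) :
    TmO e (fun _ v => sInf {η | R η v}) := by
  have S := BD.ds e
  refine ⟨fun i v _ => trivial, ?_⟩
  have h1 : BD e (fun _ w => R (w 0) (fun n => w (n + 2))) :=
    S.rename hR (fun n => Nat.casesOn n 0 (fun n => n + 2))
  have h2 := S.or (S.and hR (S.all (Q := fun _ a v => a < v 0 → ¬ R a (fun n => v (n + 1)))
    (S.imp (BD.rel e BL.lt 0 1 0) (S.not h1))))
    (S.and (S.all (Q := fun _ a v => ¬ R a (fun n => v (n + 1))) (S.not h1))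
      (S.eq (BD.v e 0) (BD.par e 0)))
  refine S.congr h2 (fun i v _ => ?_)
  show _ ↔ v 0 = sInf {η | R η (fun n => v (n + 1))}
  constructor
  · rintro (⟨h3, h4⟩ | ⟨h3, h4⟩)
    · have hne : Set.Nonempty {η | R η (fun n => v (n + 1))} := ⟨v 0, h3⟩
      apply le_antisymm
      · by_contra hcon
        exact h4 _ trivial (not_le.1 hcon) (csInf_mem hne)
      · exact csInf_le' h3
    · have : {η | R η (fun n => v (n + 1))} = ∅ := by
        ext η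
        simp only [Set.mem_ofPred_eq, Set.mem_empty_iff_false, iff_false]
        exact h3 η trivial
      rw [this, Ordinal.sInf_empty]
      exact h4
  · intro h'
    by_cases hne : Set.Nonempty {η | R η (fun n => v (n + 1))}
    · left
      have h5 := csInf_mem hne
      rw [← h'] at h5
      refine ⟨h5, fun a _ hav hRa => ?_⟩
      have h6 : sInf {η | R η (fun n => v (n + 1))} ≤ a := csInf_le' hRa
      rw [← h'] at h6
      exact absurd (lt_of_lt_of_le hav h6) (lt_irrefl _)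
    · right
      rw [Set.not_nonempty_iff_eq_empty] at hne
      rw [hne, Ordinal.sInf_empty] at h'
      refine ⟨fun a _ hRa => ?_, h'⟩
      have : a ∈ {η | R η (fun n => v (n + 1))} := hRa
      rw [hne] at this
      exact this

theorem TmO.gJ {s t : Unit → (ℕ → Ordinal.{0}) → Ordinal.{0}} (hs : TmO e s)
    (ht : TmO e t) : TmO e (fun i v => gJ (s i v) (t i v)) := by
  have S := BD.ds e
  refine S.tm2 (f := fun _ a b => MP_fbd45d_lc.gJ a b) ⟨fun _ _ _ => trivial, ?_⟩ hs ht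
  refine S.congr (BD.rel e BL.J 1 2 0) (fun i v _ => ?_)
  exact eq_comm

theorem TmO.k1 {s : Unit → (ℕ → Ordinal.{0}) → Ordinal.{0}} (hs : TmO e s) :
    TmO e (fun i v => K1 (s i v)) := by
  have S := BD.ds e
  refine S.tm1 (f := fun _ a => MP_fbd45d_lc.K1 a) ⟨fun _ _ _ => trivial, ?_⟩ hs
  refine S.congr (S.ex (Q := fun _ d v => MP_fbd45d_lc.gJ (v 0) d = v 1) (BD.rel e BL.J 1 0 2))
    (fun i v _ => ?_)
  constructor
  · rintro ⟨d, _, h⟩
    show v 0 = MP_fbd45d_lc.K1 (v 1)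
    rw [← h, K1_gJ]
  · intro h
    have h' : v 0 = MP_fbd45d_lc.K1 (v 1) := h
    exact ⟨MP_fbd45d_lc.K2 (v 1), trivial, by rw [h', gJ_K]⟩

theorem TmO.k2 {s : Unit → (ℕ → Ordinal.{0}) → Ordinal.{0}} (hs : TmO e s) :
    TmO e (fun i v => K2 (s i v)) := by
  have S := BD.ds e
  refine S.tm1 (f := fun _ a => MP_fbd45d_lc.K2 a) ⟨fun _ _ _ => trivial, ?_⟩ hs
  refine S.congr (S.ex (Q := fun _ d v => MP_fbd45d_lc.gJ d (v 0) = v 1) (BD.rel e BL.J 0 1 2))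
    (fun i v _ => ?_)
  constructor
  · rintro ⟨d, _, h⟩
    show v 0 = MP_fbd45d_lc.K2 (v 1)
    rw [← h, K2_gJ]
  · intro h
    have h' : v 0 = MP_fbd45d_lc.K2 (v 1) := h
    exact ⟨MP_fbd45d_lc.K1 (v 1), trivial, by rw [h', gJ_K]⟩

theorem TmO.hh (β δ : Ordinal.{0}) {s : Unit → (ℕ → Ordinal.{0}) → Ordinal.{0}}
    (hs : TmO e s) : TmO e (fun i v => hh e β δ (s i v)) := by
  have S := BD.ds e
  refine S.tm1 (f := fun _ a => MP_fbd45d_lc.hh e β δ a) ?_ hs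
  refine BD.least (R := fun η v => Rl e BL.T (MP_fbd45d_lc.gJ β (MP_fbd45d_lc.gJ (K1 (v 0))
    (MP_fbd45d_lc.gJ δ (MP_fbd45d_lc.gJ (K2 (v 0)) 0)))) η η) ?_
  exact S.rel3 (R := fun _ a b c => Rl e BL.T a b c) (BD.rel e BL.T 0 1 2)
    (TmO.gJ (BD.par e β) (TmO.gJ (TmO.k1 (BD.v e 1)) (TmO.gJ (BD.par e δ)
      (TmO.gJ (TmO.k2 (BD.v e 1)) (BD.par e 0))))) (BD.v e 0) (BD.v e 0)

/-- Ordinal-valued terms over `WW e`. -/
def TmU (e : ℕ → ZFSet.{1}) (t : (ℕ → ZFSet.{1}) → Ordinal.{0}) : Prop :=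
  TmO e (fun _ w => t (fun n => F e (w n)))

theorem TmU.lf {t : (ℕ → ZFSet.{1}) → Ordinal.{0}} (ht : TmU e t) :
    TmV (fun (_ : Unit) => WW e) (DW e) (fun _ v => lf (t v)) := by
  refine ⟨fun _ _ _ => lf_mem_WW _, ?_⟩
  exact (BD.ds e).rel3 (R := fun _ a b c => Rl e BL.N a b c) (BD.rel e BL.N 0 1 2) (BD.v e 0)
    ((BD.ds e).tmRename ht (fun n => n + 1)) (BD.v e 0)

/-- The ordinal given by a set. -/
noncomputable def un (z : ZFSet.{1}) : Ordinal.{0} := sInf {ζ | z = lf ζ}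

theorem un_lf (ζ : Ordinal.{0}) : un (lf ζ) = ζ := by
  unfold un
  have : {ζ' | lf ζ = lf ζ'} = {ζ} := by
    ext ζ'
    simp only [Set.mem_ofPred_eq, Set.mem_singleton_iff, lf_inj]
    exact eq_comm
  rw [this, csInf_singleton]

/-- The least index of a set. -/
noncomputable def ri (e : ℕ → ZFSet.{1}) (z : ZFSet.{1}) : Ordinal.{0} := sInf {ξ | z = F e ξ}

theorem F_ri {z : ZFSet.{1}} (hz : z ∈ WW e) : F e (ri e z) = z := by
  have : Set.Nonempty {ξ | z = F e ξ} := by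
    obtain ⟨ξ, h⟩ := mem_WW.1 hz
    exact ⟨ξ, h.symm⟩
  exact (csInf_mem this).symm

theorem ri_le {z : ZFSet.{1}} {ξ : Ordinal.{0}} (h : F e ξ = z) : ri e z ≤ ξ :=
  csInf_le' h.symm

theorem TmU.of_tm {f : ZFSet.{1} → Ordinal.{0}} (hf : TmO e (fun _ w => f (F e (w 0))))
    {s : Unit → (ℕ → ZFSet.{1}) → ZFSet.{1}}
    (hs : TmV (fun (_ : Unit) => WW e) (DW e) s) : TmU e (fun v => f (s () v)) := by
  have S := BD.ds e
  refine ⟨fun _ _ _ => trivial, ?_⟩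
  have h1 : BD e (fun _ w => ∃ a, True ∧ (F e a = s () (fun n => F e (w (n + 1))) ∧
      w 0 = f (F e a))) := by
    refine S.ex (Q := fun _ a w => F e a = s () (fun n => F e (w (n + 1))) ∧
      w 0 = f (F e a)) (S.and ?_ ?_)
    · exact S.rename hs.graph (fun n => Nat.casesOn n 0 (fun n => n + 2))
    · exact S.eq (BD.v e 1) (S.tmRename hf (fun _ => 0))
  refine S.congr h1 (fun i w _ => ?_)
  constructor
  · rintro ⟨a, _, h2, h3⟩
    show w 0 = f (s () (fun n => F e (w (n + 1))))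
    rw [← h2]; exact h3
  · intro h
    obtain ⟨a, ha⟩ := mem_WW.1 (hs.closed () (fun n => F e (w (n + 1))) (fun n => F_mem e _))
    refine ⟨a, trivial, ha, ?_⟩
    rw [ha]; exact h

theorem TmU.un {s : Unit → (ℕ → ZFSet.{1}) → ZFSet.{1}}
    (hs : TmV (fun (_ : Unit) => WW e) (DW e) s) : TmU e (fun v => un (s () v)) := by
  refine TmU.of_tm (f := MP_fbd45d_lc.un) ?_ hs
  exact BD.least (R := fun η v => Rl e BL.N (v 0) η η) (BD.rel e BL.N 1 0 0)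

theorem TmU.ri {s : Unit → (ℕ → ZFSet.{1}) → ZFSet.{1}}
    (hs : TmV (fun (_ : Unit) => WW e) (DW e) s) : TmU e (fun v => ri e (s () v)) := by
  refine TmU.of_tm (f := MP_fbd45d_lc.ri e) ?_ hs
  exact BD.least (R := fun η v => Rl e BL.Q (v 0) η η) (BD.rel e BL.Q 1 0 0)

theorem TmU.gJ {s t : (ℕ → ZFSet.{1}) → Ordinal.{0}} (hs : TmU e s) (ht : TmU e t) :
    TmU e (fun v => gJ (s v) (t v)) := TmO.gJ hs ht

theorem TmU.k1 {s : (ℕ → ZFSet.{1}) → Ordinal.{0}} (hs : TmU e s) :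
    TmU e (fun v => K1 (s v)) := TmO.k1 hs

theorem TmU.k2 {s : (ℕ → ZFSet.{1}) → Ordinal.{0}} (hs : TmU e s) :
    TmU e (fun v => K2 (s v)) := TmO.k2 hs

theorem TmU.hh (β δ : Ordinal.{0}) {s : (ℕ → ZFSet.{1}) → Ordinal.{0}} (hs : TmU e s) :
    TmU e (fun v => hh e β δ (s v)) := TmO.hh β δ hs

/-! ## The indices of subsets of a cardinal -/

theorem hull_F {β l δ : Ordinal.{0}} {X : Set Ordinal.{0}} (he : BT e) (H : Hull e β X)
    (hlX : ∀ p < l, p ∈ X) (hδ : δ ∈ X) (hx : F e δ ⊆ lf l) :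
    F e (cl X δ) = F e δ := by
  have hδβ := H.sub δ hδ
  rcases lt_or_ge δ ω with hδω | hδω
  · obtain ⟨n, rfl⟩ := Ordinal.lt_omega0.1 hδω
    rw [H.cl_nat]
  have hcω := H.cl_ge_omega hδ hδω
  ext z
  constructor
  · intro hz
    obtain ⟨θ', hθ', rfl⟩ := F_elem he hz
    rw [max_eq_left hcω] at hθ'
    obtain ⟨θ, hθ, hθδ, rfl⟩ := lt_cl.1 hθ'
    have h1 : F e θ ∈ F e δ := (H.pres he (δ + 1) BL.E θ δ δ hθ hδ hδ
      (hθδ.trans (lt_add_one _)) (lt_add_one _) (lt_add_one _)).2 hz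
    obtain ⟨ζ, hζ, h2⟩ := mem_lf.1 (hx h1)
    have hζX := hlX ζ hζ
    have h3 : F e (cl X θ) = lf (cl X ζ) := (H.pres he (max θ ζ + 1) BL.N θ ζ ζ hθ hζX hζX
      (lt_of_le_of_lt (le_max_left _ _) (lt_add_one _))
      (lt_of_le_of_lt (le_max_right _ _) (lt_add_one _))
      (lt_of_le_of_lt (le_max_right _ _) (lt_add_one _))).1 h2
    rw [cl_id hlX hζ.le] at h3
    rw [h3, ← h2]; exact h1
  · intro hz
    obtain ⟨ζ, hζ, rfl⟩ := mem_lf.1 (hx hz)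
    obtain ⟨θ, hθ, h1⟩ := F_elem he hz
    rw [max_eq_left hδω] at hθ
    have hζX := hlX ζ hζ
    obtain ⟨θ, hθX, h3⟩ := H.tv3 (P := fun θ ζ _ _ => Rl e BL.N θ ζ ζ)
      (FB.rel BL.N 0 1 1) hζX hδ hδ ⟨θ, hθ.trans hδβ, h1⟩
    have h3' : F e θ = lf ζ := h3
    have h4 : F e (cl X θ) = lf (cl X ζ) := (H.pres he (max θ ζ + 1) BL.N θ ζ ζ hθX hζX hζX
      (lt_of_le_of_lt (le_max_left _ _) (lt_add_one _))
      (lt_of_le_of_lt (le_max_right _ _) (lt_add_one _))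
      (lt_of_le_of_lt (le_max_right _ _) (lt_add_one _))).1 h3
    rw [cl_id hlX hζ.le] at h4
    rw [← h4]
    refine (H.pres he (max θ δ + 1) BL.E θ δ δ hθX hδ hδ
      (lt_of_le_of_lt (le_max_left _ _) (lt_add_one _))
      (lt_of_le_of_lt (le_max_right _ _) (lt_add_one _))
      (lt_of_le_of_lt (le_max_right _ _) (lt_add_one _))).1 ?_
    show F e θ ∈ F e δ
    rw [h3']; exact hz

theorem hull_bound (he : BT e) {l δ : Ordinal.{0}} (hl : ω ≤ l)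
    (hJ : ∀ a < l, ∀ b < l, gJ a b < l) (hx : F e δ ⊆ lf l)
    (hmin : ∀ δ', F e δ' = F e δ → δ ≤ δ') :
    ∃ f : ZFSet.{1} → ZFSet.{1}, gr f (lf δ) ∈ WW e ∧ (∀ z ∈ lf δ, ∃ ζ < l, f z = lf ζ) ∧
      ∀ z ∈ lf δ, ∀ z' ∈ lf δ, f z = f z' → z = z' := by
  have Z := WW_zm he
  obtain ⟨β, hβ, _, hEl⟩ := exists_El e (max δ l)
  have hδβ : δ < β := lt_of_le_of_lt (le_max_left _ _) hβ
  have hlβ : l < β := lt_of_le_of_lt (le_max_right _ _) hβ
  obtain ⟨H, hlX, hδX⟩ := hull_isHull e β δ hEl hl hJ hlβ hδβ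
  set X : Set Ordinal.{0} := {η | ∃ q < l, hh e β δ q = η} with hX
  have h1 : cl X δ = δ := le_antisymm (cl_le δ) (hmin _ (hull_F he H hlX hδX hx))
  let hS : ZFSet.{1} → ZFSet.{1} := fun z => lf (hh e β δ (un z))
  have hSt : TmV (fun (_ : Unit) => WW e) (DW e) (fun _ v => hS (v 0)) :=
    (TmU.hh β δ (TmU.un (Z.ts.v 0))).lf
  have hSg : gr hS (lf l) ∈ WW e := Z.gr_of_tm hSt (lf_mem_WW l)
  have ha : img hS (lf l) ∈ WW e := Z.img_of_gr hSg (lf_mem_WW l)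
  have hSq : ∀ q, hS (lf q) = lf (hh e β δ q) := by
    intro q
    show lf (hh e β δ (un (lf q))) = _
    rw [un_lf]
  have hXa : {ξ | lf ξ ∈ img hS (lf l)} = X := by
    ext ξ
    show lf ξ ∈ img hS (lf l) ↔ ∃ q < l, hh e β δ q = ξ
    rw [mem_img]
    constructor
    · rintro ⟨z, hz, h⟩
      obtain ⟨q, hq, rfl⟩ := mem_lf.1 hz
      rw [hSq, lf_inj] at h
      exact ⟨q, hq, h⟩
    · rintro ⟨q, hq, rfl⟩
      exact ⟨lf q, lf_mem_lf.2 hq, hSq q⟩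
  obtain ⟨g, hg, hgx⟩ := otp_mem he ha
  rw [hXa] at hgx
  have hGt : TmV (fun (_ : Unit) => WW e) (DW e)
      (fun _ v => app (gr g (img hS (lf l))) (hS (v 0))) := Z.tmApp (Z.par _ hg) hSt
  have hG : gr (fun z => app (gr g (img hS (lf l))) (hS z)) (lf l) ∈ WW e :=
    Z.gr_of_tm (F := fun z => app (gr g (img hS (lf l))) (hS z)) hGt (lf_mem_WW l)
  refine inj_of_surj he hG (lf_mem_WW δ) ?_
  intro z hz
  obtain ⟨ζ, hζ, rfl⟩ := mem_lf.1 hz
  rw [← h1] at hζ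
  obtain ⟨η, ⟨q, hq, rfl⟩, _, rfl⟩ := lt_cl.1 hζ
  refine ⟨q, hq, ?_⟩
  have h2 : lf (hh e β δ q) ∈ img hS (lf l) := mem_img.2 ⟨lf q, lf_mem_lf.2 hq, hSq q⟩
  show app (gr g (img hS (lf l))) (hS (lf q)) = _
  rw [hSq, app_gr h2]
  exact hgx _ h2

end

end Pool.Agent.Work.MP_fbd45d_lc
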