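import Pool.Agent.Work.MP_fbd45d_lc.HierCard

/-!
# Definable hulls
-/

namespace Pool.Agent.Work.MP_fbd45d_lc

open ZFSet (pair)
open Ordinal

/-- Terms over `𝔹_β`. -/
abbrev TmB (e : ℕ → ZFSet.{1}) (β : Ordinal.{0})
    (t : Unit → (ℕ → Ordinal.{0}) → Ordinal.{0}) : Prop :=
  Tm (fun (_ : Unit) (a : Ordinal.{0}) => a < β) (FB e β) t

section

variable {e : ℕ → ZFSet.{1}} {β : Ordinal.{0}}

theorem FB.lt {s t : Unit → (ℕ → Ordinal.{0}) → Ordinal.{0}} (hs : TmB e β s)
    (ht : TmB e β t) : FB e β (fun i v => s i v < t i v) :=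
  (FB.ds e β).rel2 (R := fun _ a b => a < b) (FB.rel BL.lt 0 1 0) hs ht

theorem TmB.v (n : ℕ) : TmB e β (fun _ v => v n) := Tm.var (FB.ds e β) n

/-- Least elements (or `0`). -/
theorem TmB.least (hβ : 0 < β) {R : Ordinal.{0} → (ℕ → Ordinal.{0}) → Prop}
    (hR : FB e β (fun _ w => R (w 0) (fun n => w (n + 1)))) :
    TmB e β (fun _ v => sInf {η | η < β ∧ R η v}) := by
  have S := FB.ds e β
  refine ⟨fun i v _ => ?_, ?_⟩
  · by_cases h : ∃ η, η < β ∧ R η v
    · exact (csInf_mem (s := {η | η < β ∧ R η v}) h).1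
    · have : {η | η < β ∧ R η v} = ∅ := by
        ext η
        simp only [Set.mem_ofPred_eq, Set.mem_empty_iff_false, iff_false]
        exact fun h' => h ⟨η, h'⟩
      show sInf {η | η < β ∧ R η v} < β
      rw [this, Ordinal.sInf_empty]
      exact hβ
  · have h1 : FB e β (fun _ w => R (w 0) (fun n => w (n + 2))) :=
      S.rename hR (fun n => Nat.casesOn n 0 (fun n => n + 2))
    have h2 := S.or (S.and hR (S.all (Q := fun _ a v => a < v 0 → ¬ R a (fun n => v (n + 1)))
      (S.imp (FB.rel BL.lt 0 1 0) (S.not h1))))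
      (S.and (S.all (Q := fun _ a v => ¬ R a (fun n => v (n + 1))) (S.not h1))
        (S.all (Q := fun _ a v => ¬ a < v 0) (S.not (FB.rel BL.lt 0 1 0))))
    refine S.congr h2 (fun i v hv => ?_)
    constructor
    · rintro (⟨h3, h4⟩ | ⟨h3, h4⟩)
      · show v 0 = sInf {η | η < β ∧ R η (fun n => v (n + 1))}
        have hne : Set.Nonempty {η | η < β ∧ R η (fun n => v (n + 1))} := ⟨v 0, hv 0, h3⟩
        apply le_antisymm
        · by_contra hcon
          have h5 := csInf_mem hne
          exact h4 _ h5.1 (not_le.1 hcon) h5.2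
        · exact csInf_le' ⟨hv 0, h3⟩
      · show v 0 = sInf {η | η < β ∧ R η (fun n => v (n + 1))}
        have : {η | η < β ∧ R η (fun n => v (n + 1))} = ∅ := by
          ext η
          simp only [Set.mem_ofPred_eq, Set.mem_empty_iff_false, iff_false]
          exact fun h' => h3 η h'.1 h'.2
        rw [this, Ordinal.sInf_empty]
        by_contra hne
        exact h4 0 hβ (lt_of_le_of_ne zero_le (Ne.symm hne))
    · intro h
      have h' : v 0 = sInf {η | η < β ∧ R η (fun n => v (n + 1))} := h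
      by_cases hne : Set.Nonempty {η | η < β ∧ R η (fun n => v (n + 1))}
      · left
        have h5 := csInf_mem hne
        rw [← h'] at h5
        refine ⟨h5.2, fun a ha hav hRa => ?_⟩
        have h6 : sInf {η | η < β ∧ R η (fun n => v (n + 1))} ≤ a := csInf_le' ⟨ha, hRa⟩
        rw [← h'] at h6
        exact absurd (lt_of_lt_of_le hav h6) (lt_irrefl _)
      · right
        rw [Set.not_nonempty_iff_eq_empty] at hne
        rw [hne, Ordinal.sInf_empty] at h'
        refine ⟨fun a ha hRa => ?_, fun a _ hav => ?_⟩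
        · have : a ∈ {η | η < β ∧ R η (fun n => v (n + 1))} := ⟨ha, hRa⟩
          rw [hne] at this
          exact this
        · rw [h'] at hav
          exact absurd hav (not_lt.2 zero_le)

theorem TmB.zero (hβ : 0 < β) : TmB e β (fun _ _ => 0) := by
  have h := TmB.least (e := e) hβ (R := fun _ _ => False) ((FB.ds e β).const False)
  have e1 : sInf {η : Ordinal.{0} | η < β ∧ False} = 0 := by
    have : {η : Ordinal.{0} | η < β ∧ False} = ∅ := by ext; simp
    rw [this, Ordinal.sInf_empty]
  rw [e1] at h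
  exact h

theorem TmB.K1 : TmB e β (fun _ v => K1 (v 0)) := by
  have S := FB.ds e β
  refine ⟨fun i v hv => lt_of_le_of_lt (K1_le _) (hv 0), ?_⟩
  refine S.congr (S.ex (Q := fun _ d v => gJ (v 0) d = v 1) (FB.rel BL.J 1 0 2))
    (fun i v hv => ?_)
  constructor
  · rintro ⟨d, _, h⟩
    show v 0 = MP_fbd45d_lc.K1 (v 1)
    rw [← h, K1_gJ]
  · intro h
    have h' : v 0 = MP_fbd45d_lc.K1 (v 1) := h
    exact ⟨MP_fbd45d_lc.K2 (v 1), lt_of_le_of_lt (K2_le _) (hv 1), by rw [h', gJ_K]⟩

theorem TmB.K2 : TmB e β (fun _ v => K2 (v 0)) := by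
  have S := FB.ds e β
  refine ⟨fun i v hv => lt_of_le_of_lt (K2_le _) (hv 0), ?_⟩
  refine S.congr (S.ex (Q := fun _ d v => gJ d (v 0) = v 1) (FB.rel BL.J 0 1 2))
    (fun i v hv => ?_)
  constructor
  · rintro ⟨d, _, h⟩
    show v 0 = MP_fbd45d_lc.K2 (v 1)
    rw [← h, K2_gJ]
  · intro h
    have h' : v 0 = MP_fbd45d_lc.K2 (v 1) := h
    exact ⟨MP_fbd45d_lc.K1 (v 1), lt_of_le_of_lt (K1_le _) (hv 1), by rw [h', gJ_K]⟩

theorem TmB.k1 {s : Unit → (ℕ → Ordinal.{0}) → Ordinal.{0}} (hs : TmB e β s) :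
    TmB e β (fun i v => MP_fbd45d_lc.K1 (s i v)) :=
  (FB.ds e β).tm1 (f := fun _ a => MP_fbd45d_lc.K1 a) TmB.K1 hs

theorem TmB.k2 {s : Unit → (ℕ → Ordinal.{0}) → Ordinal.{0}} (hs : TmB e β s) :
    TmB e β (fun i v => MP_fbd45d_lc.K2 (s i v)) :=
  (FB.ds e β).tm1 (f := fun _ a => MP_fbd45d_lc.K2 a) TmB.K2 hs

theorem TmB.k2iter {s : Unit → (ℕ → Ordinal.{0}) → Ordinal.{0}} (hs : TmB e β s) (k : ℕ) :
    TmB e β (fun i v => MP_fbd45d_lc.K2^[k] (s i v)) := by
  induction k with
  | zero => exact hs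
  | succ k ih =>
    have : (fun (i : Unit) v => MP_fbd45d_lc.K2^[k + 1] (s i v)) =
        (fun i v => MP_fbd45d_lc.K2 (MP_fbd45d_lc.K2^[k] (s i v))) := by
      funext i v
      rw [Function.iterate_succ_apply']
    rw [this]
    exact ih.k2

end

theorem K1_zero : K1 (0 : Ordinal.{0}) = 0 := le_antisymm (K1_le 0) zero_le
theorem K2_zero : K2 (0 : Ordinal.{0}) = 0 := le_antisymm (K2_le 0) zero_le

theorem dec3 {β δ p : Ordinal.{0}} (hβ : 0 < β) (hδ : δ < β) (hp : p < β) :
    dec β (gJ δ (gJ p 0)) = cons δ (cons p (fun _ => 0)) := by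
  funext n
  rcases n with _ | _ | n
  · unfold dec
    simp only [Function.iterate_zero, id, K1_gJ, hδ, if_true]
    rfl
  · unfold dec
    simp only [Function.iterate_succ, Function.iterate_zero, Function.comp, id, K2_gJ, K1_gJ,
      hp, if_true]
    rfl
  · have h1 : K2^[n + 1 + 1] (gJ δ (gJ p 0)) = (0 : Ordinal.{0}) := by
      rw [Function.iterate_succ_apply, Function.iterate_succ_apply, K2_gJ, K2_gJ]
      induction n with
      | zero => rfl
      | succ n ih => rw [Function.iterate_succ_apply, K2_zero]; exact ih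
    unfold dec
    rw [h1, K1_zero, if_pos hβ]
    rfl

section HullSec

variable (e : ℕ → ZFSet.{1}) (β δ : Ordinal.{0})

/-- The element of the hull coded by `q`. -/
noncomputable def hh (q : Ordinal.{0}) : Ordinal.{0} :=
  sInf {η | T e (gJ β (gJ (K1 q) (gJ δ (gJ (K2 q) 0)))) η}

theorem hh_code (hδ : δ < β) (φ : Fm BL) {p : Ordinal.{0}} (hp : p < β) :
    hh e β δ (gJ ((Encodable.encode φ : ℕ) : Ordinal.{0}) p) =
      sInf {η | η < β ∧ φ.Sat (fun a => a < β) (Rl e) (cons η (cons δ (cons p (fun _ => 0))))} := by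
  unfold hh
  congr 1
  ext η
  simp only [Set.mem_ofPred_eq]
  rw [T_iff]
  simp only [K1_gJ, K2_gJ]
  refine and_congr_right fun hη => ?_
  have hβ : 0 < β := lt_of_le_of_lt zero_le hη
  rw [dec3 hβ hδ hp]
  constructor
  · rintro ⟨ψ, h1, h2⟩
    have h3 : ψ = φ := by
      have : Encodable.encode φ = Encodable.encode ψ := by exact_mod_cast h1
      exact (Encodable.encode_injective this).symm
    rw [← h3]; exact h2
  · intro h
    exact ⟨φ, rfl, h⟩

theorem hh_other {q : Ordinal.{0}}
    (h : ¬ ∃ φ : Fm BL, K1 q = ((Encodable.encode φ : ℕ) : Ordinal.{0})) : hh e β δ q = 0 := by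
  unfold hh
  have : {η | T e (gJ β (gJ (K1 q) (gJ δ (gJ (K2 q) 0)))) η} = ∅ := by
    ext η
    simp only [Set.mem_ofPred_eq, Set.mem_empty_iff_false, iff_false]
    rw [T_iff]
    simp only [K1_gJ, K2_gJ]
    rintro ⟨_, φ, h1, _⟩
    exact h ⟨φ, h1⟩
  rw [this, Ordinal.sInf_empty]

theorem hh_lt (hβ : 0 < β) (q : Ordinal.{0}) : hh e β δ q < β := by
  unfold hh
  by_cases h : Set.Nonempty {η | T e (gJ β (gJ (K1 q) (gJ δ (gJ (K2 q) 0)))) η}
  · have h1 := csInf_mem h
    have h2 := T_lt e h1
    rw [K1_gJ] at h2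
    exact h2
  · rw [Set.not_nonempty_iff_eq_empty] at h
    rw [h, Ordinal.sInf_empty]
    exact hβ

theorem El.J_closed {e : ℕ → ZFSet.{1}} {β : Ordinal.{0}} (h : El e β) {a b : Ordinal.{0}}
    (ha : a < β) (hb : b < β) : gJ a b < β := by
  have h1 := (h (Fm.ex (Fm.rel BL.J 1 2 0)) (cons a (fun _ => b))
    (cons_dom (P := fun a => a < β) ha (fun _ => hb))).2 ⟨gJ a b, trivial, rfl⟩
  obtain ⟨c, hc, h2⟩ := h1
  have h3 : gJ a b = c := h2
  rw [h3]; exact hc

theorem cd_lt {l : Ordinal.{0}} (hJ : ∀ a < l, ∀ b < l, gJ a b < l) (h0 : 0 < l) (N : ℕ) :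
    ∀ w : ℕ → Ordinal.{0}, (∀ n, w n < l) → cd N w < l := by
  induction N with
  | zero => intro w _; exact h0
  | succ N ih => intro w hw; exact hJ _ (hw 0) _ (ih _ (fun n => hw _))

theorem hh_of_sat (hδ : δ < β) {l : Ordinal.{0}} (hl : ω ≤ l)
    (hJ : ∀ a < l, ∀ b < l, gJ a b < l) (hlβ : l < β) (φ : Fm BL) {p : Ordinal.{0}} (hp : p < l)
    {η0 : Ordinal.{0}} (hη0 : η0 < β)
    (h : ∀ η < β, (φ.Sat (fun a => a < β) (Rl e) (cons η (cons δ (cons p (fun _ => 0)))) ↔
      η = η0)) :
    ∃ q < l, hh e β δ q = η0 := by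
  refine ⟨_, hJ _ (lt_of_lt_of_le (Ordinal.natCast_lt_omega0 (Encodable.encode φ)) hl) p hp, ?_⟩
  rw [hh_code e β δ hδ _ (hp.trans hlβ)]
  have : {η | η < β ∧ φ.Sat (fun a => a < β) (Rl e)
      (cons η (cons δ (cons p (fun _ => 0))))} = {η0} := by
    ext η
    simp only [Set.mem_ofPred_eq, Set.mem_singleton_iff]
    constructor
    · rintro ⟨h1, h2⟩; exact (h η h1).1 h2
    · rintro rfl; exact ⟨hη0, (h _ hη0).2 rfl⟩
  rw [this, csInf_singleton]

open Classical in
/-- The definable hull of `l ∪ {δ}` in `𝔹_β` is an elementary submodel. -/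
theorem hull_isHull (hEl : El e β) {l : Ordinal.{0}} (hl : ω ≤ l)
    (hJ : ∀ a < l, ∀ b < l, gJ a b < l) (hlβ : l < β) (hδ : δ < β) :
    Hull e β {η | ∃ q < l, hh e β δ q = η} ∧ (∀ p < l, p ∈ {η | ∃ q < l, hh e β δ q = η}) ∧
      δ ∈ {η | ∃ q < l, hh e β δ q = η} := by
  have hβ : 0 < β := lt_of_le_of_lt zero_le hδ
  have hl0 : 0 < l := lt_of_lt_of_le Ordinal.omega0_pos hl
  have hnl : ∀ n : ℕ, (n : Ordinal.{0}) < l := fun n =>
    lt_of_lt_of_le (Ordinal.natCast_lt_omega0 n) hl
  have hp : ∀ p < l, p ∈ {η | ∃ q < l, hh e β δ q = η} := by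
    intro p hp
    exact hh_of_sat e β δ hδ hl hJ hlβ (Fm.eq 0 2) hp (hp.trans hlβ) (fun η _ => Iff.rfl)
  refine ⟨⟨?_, ?_, ?_, ?_⟩, hp, ?_⟩
  · rintro a ⟨q, _, rfl⟩
    exact hh_lt e β δ hβ q
  · intro n
    exact hp _ (hnl n)
  · intro a ha b hb
    exact hEl.J_closed ha hb
  · -- Tarski–Vaught
    intro P hP w hw hex
    have S := FB.ds e β
    choose q hq hqw using hw
    obtain ⟨N, hN⟩ := S.fin hP
    -- the terms
    let R : ℕ → Ordinal.{0} → (ℕ → Ordinal.{0}) → Prop := fun k η v =>
      ∃ φ : Fm BL, K1 (q k) = ((Encodable.encode φ : ℕ) : Ordinal.{0}) ∧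
        φ.Sat (fun a => a < β) (Rl e) (cons η (cons (v 1) (cons (K2 (K1 (K2^[k] (v 2))))
          (fun _ => 0))))
    have hR : ∀ k, FB e β (fun _ w => R k (w 0) (fun n => w (n + 1))) := by
      intro k
      by_cases h : ∃ φ : Fm BL, K1 (q k) = ((Encodable.encode φ : ℕ) : Ordinal.{0})
      · obtain ⟨φ, hφ⟩ := h
        have h1 : FB e β (fun _ v => φ.Sat (fun a => a < β) (Rl e) v) :=
          ⟨φ, fun _ _ _ => Iff.rfl⟩
        have h2 := S.subst h1 (fun n => Nat.casesOn n (fun _ v => v 0) (fun n =>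
          Nat.casesOn n (fun _ v => v 2) (fun n => Nat.casesOn n
            (fun _ v => K2 (K1 (K2^[k] (v 3)))) (fun _ _ _ => 0)))) (fun n => by
              rcases n with _ | _ | _ | n
              · exact TmB.v 0
              · exact TmB.v 2
              · exact ((TmB.v 3).k2iter k).k1.k2
              · exact TmB.zero hβ)
        refine S.congr h2 (fun i v _ => ?_)
        have h3 : (fun n => (Nat.casesOn n (fun (_ : Unit) (v : ℕ → Ordinal.{0}) => v 0) (fun n =>
            Nat.casesOn n (fun _ v => v 2) (fun n => Nat.casesOn n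
            (fun _ v => K2 (K1 (K2^[k] (v 3)))) (fun _ _ _ => 0))) :
              Unit → (ℕ → Ordinal.{0}) → Ordinal.{0}) i v) =
            cons (v 0) (cons (v 2) (cons (K2 (K1 (K2^[k] (v 3)))) (fun _ => 0))) := by
          funext n; rcases n with _ | _ | _ | n <;> rfl
        rw [h3]
        constructor
        · intro h4
          exact ⟨φ, hφ, h4⟩
        · rintro ⟨ψ, h4, h5⟩
          have h6 : ψ = φ := by
            rw [hφ] at h4
            have : Encodable.encode φ = Encodable.encode ψ := by exact_mod_cast h4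
            exact (Encodable.encode_injective this).symm
          rw [h6] at h5
          exact h5
      · refine S.congr (S.const False) (fun i v _ => ?_)
        constructor
        · exact False.elim
        · rintro ⟨φ, h1, _⟩
          exact h ⟨φ, h1⟩
    let t : ℕ → Unit → (ℕ → Ordinal.{0}) → Ordinal.{0} := fun k _ v =>
      sInf {η | η < β ∧ R k η v}
    have ht : ∀ k, TmB e β (t k) := fun k => TmB.least hβ (hR k)
    -- evaluation of the terms
    set p := cd N q with hpdef
    have hpl : p < l := cd_lt hJ hl0 N q hq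
    have hpβ : p < β := hpl.trans hlβ
    have hval : ∀ k < N, ∀ η, t k () (cons η (cons δ (cons p (fun _ => 0)))) = w k := by
      intro k hk η
      rw [← hqw k]
      have hk1 : K1 (K2^[k] p) = q k := K1_cd N q k hk
      have hK2 : K2 (q k) < β := lt_of_le_of_lt (K2_le _) ((hq k).trans hlβ)
      show sInf {η' | η' < β ∧ ∃ φ : Fm BL, K1 (q k) = ((Encodable.encode φ : ℕ) : Ordinal.{0}) ∧
        φ.Sat (fun a => a < β) (Rl e) (cons η' (cons δ (cons (K2 (K1 (K2^[k] p)))
          (fun _ => 0))))} = _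
      rw [hk1]
      by_cases h : ∃ φ : Fm BL, K1 (q k) = ((Encodable.encode φ : ℕ) : Ordinal.{0})
      · obtain ⟨φ, hφ⟩ := h
        have e1 : q k = gJ ((Encodable.encode φ : ℕ) : Ordinal.{0}) (K2 (q k)) := by
          rw [← hφ, gJ_K]
        conv_rhs => rw [e1]
        rw [hh_code e β δ hδ φ hK2]
        congr 1
        ext η'
        simp only [Set.mem_ofPred_eq]
        refine and_congr_right fun _ => ?_
        constructor
        · rintro ⟨ψ, h4, h5⟩
          have h6 : ψ = φ := by
            rw [hφ] at h4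
            have : Encodable.encode φ = Encodable.encode ψ := by exact_mod_cast h4
            exact (Encodable.encode_injective this).symm
          rw [h6] at h5
          exact h5
        · intro h5
          exact ⟨φ, hφ, h5⟩
      · rw [hh_other e β δ h]
        have : {η' | η' < β ∧ ∃ φ : Fm BL, K1 (q k) = ((Encodable.encode φ : ℕ) : Ordinal.{0}) ∧
            φ.Sat (fun a => a < β) (Rl e) (cons η' (cons δ (cons (K2 (q k))
            (fun _ => 0))))} = ∅ := by
          ext η'
          simp only [Set.mem_ofPred_eq, Set.mem_empty_iff_false, iff_false]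
          rintro ⟨_, φ, h1, _⟩
          exact h ⟨φ, h1⟩
        rw [this, Ordinal.sInf_empty]
    -- the combined formula
    have hP' : FB e β (fun _ v => P (cons (v 0) (fun k => if k < N then t k () v else 0))) := by
      have h2 := S.subst hP (fun n => Nat.casesOn n (fun _ v => v 0) (fun k =>
        if k < N then t k else (fun _ _ => 0))) (fun n => by
          cases n with
          | zero => exact TmB.v 0
          | succ k =>
            by_cases hk : k < N
            · simp only [hk, if_true]; exact ht k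
            · simp only [hk, if_false]; exact TmB.zero hβ)
      refine S.congr h2 (fun i v _ => ?_)
      have h3 : (fun n => (Nat.casesOn n (fun (_ : Unit) (v : ℕ → Ordinal.{0}) => v 0) (fun k =>
          if k < N then t k else (fun _ _ => 0)) :
            Unit → (ℕ → Ordinal.{0}) → Ordinal.{0}) i v) =
          cons (v 0) (fun k => if k < N then t k () v else 0) := by
        funext n
        cases n with
        | zero => rfl
        | succ k =>
          by_cases hk : k < N
          · simp only [hk, if_true, cons]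
          · simp only [hk, if_false, cons]
      rw [h3]
    obtain ⟨φ', hφ'⟩ := hP'
    have hagree : ∀ η < β, (P (cons η (fun k => if k < N then
        t k () (cons η (cons δ (cons p (fun _ => 0)))) else 0)) ↔ P (cons η w)) := by
      intro η hη
      refine hN () _ _ ?_ ?_ ?_
      · refine cons_dom (P := fun a => a < β) hη (fun k => ?_)
        by_cases hk : k < N
        · simp only [hk, if_true, hval k hk]
          rw [← hqw k]; exact hh_lt e β δ hβ _
        · simp only [hk, if_false]; exact hβ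
      · refine cons_dom (P := fun a => a < β) hη (fun k => ?_)
        rw [← hqw k]; exact hh_lt e β δ hβ _
      · intro n hn
        cases n with
        | zero => rfl
        | succ k =>
          have hk : k < N := by omega
          show (if k < N then t k () _ else 0) = w k
          rw [if_pos hk, hval k hk]
    have hsat : ∀ η < β, (φ'.Sat (fun a => a < β) (Rl e) (cons η (cons δ (cons p (fun _ => 0)))) ↔
        P (cons η w)) := by
      intro η hη
      rw [← hagree η hη, ← hφ' () (cons η (cons δ (cons p (fun _ => 0))))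
        (cons_dom (P := fun a => a < β) hη (cons_dom (P := fun a => a < β) hδ
          (cons_dom (P := fun a => a < β) hpβ (fun _ => hβ))))]
      rfl
    obtain ⟨η0, hη0, hPη0⟩ := hex
    have hne : Set.Nonempty {η | η < β ∧ φ'.Sat (fun a => a < β) (Rl e)
        (cons η (cons δ (cons p (fun _ => 0))))} := ⟨η0, hη0, (hsat η0 hη0).2 hPη0⟩
    have hmem := csInf_mem hne
    have hcode := hh_code e β δ hδ φ' hpβ
    rw [← hcode] at hmem
    refine ⟨_, ⟨_, hJ _ (hnl (Encodable.encode φ')) p hpl, rfl⟩, ?_⟩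
    exact (hsat _ hmem.1).1 hmem.2
  · exact hh_of_sat e β δ hδ hl hJ hlβ (Fm.eq 0 1) hl0 hδ (fun η _ => Iff.rfl)

end HullSec

end Pool.Agent.Work.MP_fbd45d_lc
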