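import Pool.Agent.Work.MP_fbd45d_lc.HierZF

/-!
# Condensation
-/

namespace Pool.Agent.Work.MP_fbd45d_lc

open ZFSet (pair)
open Ordinal

/-- Definability without parameters in `𝔹_β`. -/
abbrev FB (e : ℕ → ZFSet.{1}) (β : Ordinal.{0}) :
    (Unit → (ℕ → Ordinal.{0}) → Prop) → Prop :=
  FD (fun (_ : Unit) (a : Ordinal.{0}) => a < β) (fun _ => Rl e)

theorem FB.ds (e : ℕ → ZFSet.{1}) (β : Ordinal.{0}) :
    DS (fun (_ : Unit) (a : Ordinal.{0}) => a < β) (FB e β) := FD.ds _ _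

theorem FB.rel {e : ℕ → ZFSet.{1}} {β : Ordinal.{0}} (r : BL) (i j k : ℕ) :
    FB e β (fun _ v => Rl e r (v i) (v j) (v k)) := FD.rel _ _ r i j k

/-- `X` is an elementary submodel of `𝔹_β`. -/
structure Hull (e : ℕ → ZFSet.{1}) (β : Ordinal.{0}) (X : Set Ordinal.{0}) : Prop where
  sub : ∀ a ∈ X, a < β
  nat : ∀ n : ℕ, (n : Ordinal.{0}) ∈ X
  J : ∀ a < β, ∀ b < β, gJ a b < β
  tv : ∀ P : (ℕ → Ordinal.{0}) → Prop, FB e β (fun _ => P) → ∀ w : ℕ → Ordinal.{0},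
    (∀ n, w n ∈ X) → (∃ η < β, P (cons η w)) → ∃ η ∈ X, P (cons η w)

/-! ### The collapse -/

/-- The collapsing function of a set of ordinals. -/
noncomputable def cl (X : Set Ordinal.{0}) (ξ : Ordinal.{0}) : Ordinal.{0} :=
  ⨆ η : {η : Set.Iio ξ // η.1 ∈ X}, (cl X η.1.1 + 1)
termination_by ξ
decreasing_by exact η.1.2

section Cl

variable {X : Set Ordinal.{0}}

theorem cl_lt_of {ξ η : Ordinal.{0}} (h : η < ξ) (hη : η ∈ X) : cl X η < cl X ξ := by
  rw [cl.eq_1 X ξ]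
  exact lt_of_lt_of_le (lt_add_one _) (Ordinal.le_iSup
    (fun η : {η : Set.Iio ξ // η.1 ∈ X} => cl X η.1.1 + 1) ⟨⟨η, h⟩, hη⟩)

theorem lt_cl {ξ ζ : Ordinal.{0}} : ζ < cl X ξ ↔ ∃ η ∈ X, η < ξ ∧ cl X η = ζ := by
  constructor
  · induction ξ using WellFoundedLT.induction with
    | _ ξ ih =>
      intro h
      rw [cl.eq_1 X ξ, Ordinal.lt_iSup_iff] at h
      obtain ⟨⟨⟨η, hη⟩, hηX⟩, h1⟩ := h
      dsimp only at h1
      rw [← Order.succ_eq_add_one, Order.lt_succ_iff] at h1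
      rcases h1.lt_or_eq with h1 | h1
      · obtain ⟨η', h2, h3, h4⟩ := ih η hη h1
        exact ⟨η', h2, h3.trans hη, h4⟩
      · exact ⟨η, hηX, hη, h1.symm⟩
  · rintro ⟨η, hη, h1, rfl⟩
    exact cl_lt_of h1 hη

theorem cl_le (ξ : Ordinal.{0}) : cl X ξ ≤ ξ := by
  induction ξ using WellFoundedLT.induction with
  | _ ξ ih =>
    by_contra hcon
    obtain ⟨η, _, h1, h2⟩ := lt_cl.1 (not_le.1 hcon)
    have := ih η h1
    rw [h2] at this
    exact absurd (lt_of_le_of_lt this h1) (lt_irrefl _)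

theorem cl_lt_iff {a b : Ordinal.{0}} (ha : a ∈ X) (hb : b ∈ X) : cl X a < cl X b ↔ a < b := by
  constructor
  · intro h
    rcases lt_trichotomy a b with h1 | rfl | h1
    · exact h1
    · exact absurd h (lt_irrefl _)
    · exact absurd (h.trans (cl_lt_of h1 hb)) (lt_irrefl _)
  · intro h; exact cl_lt_of h ha

theorem cl_inj {a b : Ordinal.{0}} (ha : a ∈ X) (hb : b ∈ X) (h : cl X a = cl X b) : a = b := by
  rcases lt_trichotomy a b with h1 | h1 | h1
  · have := cl_lt_of h1 ha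
    rw [h] at this
    exact absurd this (lt_irrefl _)
  · exact h1
  · have := cl_lt_of h1 hb
    rw [h] at this
    exact absurd this (lt_irrefl _)

theorem cl_id {l ξ : Ordinal.{0}} (hl : ∀ a < l, a ∈ X) (h : ξ ≤ l) : cl X ξ = ξ := by
  induction ξ using WellFoundedLT.induction with
  | _ ξ ih =>
    refine le_antisymm (cl_le ξ) ?_
    by_contra hcon
    have h1 : cl X ξ < ξ := not_le.1 hcon
    have h2 := ih _ h1 (h1.le.trans h)
    have h3 := cl_lt_of h1 (hl _ (lt_of_lt_of_le h1 h))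
    rw [h2] at h3
    exact absurd h3 (lt_irrefl _)

theorem cl_max {a b : Ordinal.{0}} (ha : a ∈ X) (hb : b ∈ X) :
    cl X (max a b) = max (cl X a) (cl X b) := by
  rcases le_total a b with h | h
  · rw [max_eq_right h]
    rcases h.lt_or_eq with h | rfl
    · rw [max_eq_right (cl_lt_of h ha).le]
    · rw [max_self]
  · rw [max_eq_left h]
    rcases h.lt_or_eq with h | rfl
    · rw [max_eq_left (cl_lt_of h hb).le]
    · rw [max_self]

theorem max_mem {a b : Ordinal.{0}} (ha : a ∈ X) (hb : b ∈ X) : max a b ∈ X := by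
  rcases le_total a b with h | h
  · rw [max_eq_right h]; exact hb
  · rw [max_eq_left h]; exact ha

theorem cl_gLt {a b a' b' : Ordinal.{0}} (ha : a ∈ X) (hb : b ∈ X) (ha' : a' ∈ X)
    (hb' : b' ∈ X) : gLt (cl X a) (cl X b) (cl X a') (cl X b') ↔ gLt a b a' b' := by
  unfold gLt
  rw [← cl_max ha hb, ← cl_max ha' hb', cl_lt_iff (max_mem ha hb) (max_mem ha' hb'),
    cl_lt_iff ha ha', cl_lt_iff hb hb']
  have h1 : cl X (max a b) = cl X (max a' b') ↔ max a b = max a' b' :=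
    ⟨fun h => cl_inj (max_mem ha hb) (max_mem ha' hb') h, fun h => by rw [h]⟩
  have h2 : cl X a = cl X a' ↔ a = a' := ⟨fun h => cl_inj ha ha' h, fun h => by rw [h]⟩
  rw [h1, h2]

end Cl

namespace Hull

variable {e : ℕ → ZFSet.{1}} {β : Ordinal.{0}} {X : Set Ordinal.{0}}

theorem tv3 (H : Hull e β X) {P : Ordinal.{0} → Ordinal.{0} → Ordinal.{0} → Ordinal.{0} → Prop}
    (hP : FB e β (fun _ v => P (v 0) (v 1) (v 2) (v 3))) {x y z : Ordinal.{0}}
    (hx : x ∈ X) (hy : y ∈ X) (hz : z ∈ X) (h : ∃ η < β, P η x y z) : ∃ η ∈ X, P η x y z :=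
  H.tv (fun v => P (v 0) (v 1) (v 2) (v 3)) hP (cons x (cons y (fun _ => z)))
    (cons_dom (P := fun a => a ∈ X) hx (cons_dom (P := fun a => a ∈ X) hy (fun _ => hz))) h

theorem gJ_mem (H : Hull e β X) {a b : Ordinal.{0}} (ha : a ∈ X) (hb : b ∈ X) :
    gJ a b ∈ X := by
  obtain ⟨c, hc, h⟩ := H.tv3 (P := fun c a b _ => Rl e BL.J a b c) (FB.rel BL.J 1 2 0)
    ha hb hb ⟨gJ a b, H.J a (H.sub a ha) b (H.sub b hb), rfl⟩
  have h' : gJ a b = c := h
  rw [h']; exact hc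

theorem K1_mem (H : Hull e β X) {a : Ordinal.{0}} (ha : a ∈ X) : K1 a ∈ X := by
  have S := FB.ds e β
  obtain ⟨c, hc, d, _, h⟩ := H.tv3 (P := fun c a _ _ => ∃ d, d < β ∧ Rl e BL.J c d a)
    (S.ex (Q := fun _ d v => Rl e BL.J (v 0) d (v 1)) (FB.rel BL.J 1 0 2))
    ha ha ha ⟨K1 a, lt_of_le_of_lt (K1_le a) (H.sub a ha), K2 a,
      lt_of_le_of_lt (K2_le a) (H.sub a ha), gJ_K a⟩
  have h' : gJ c d = a := h
  rw [← h', K1_gJ]; exact hc

theorem K2_mem (H : Hull e β X) {a : Ordinal.{0}} (ha : a ∈ X) : K2 a ∈ X := by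
  have S := FB.ds e β
  obtain ⟨c, hc, d, _, h⟩ := H.tv3 (P := fun c a _ _ => ∃ d, d < β ∧ Rl e BL.J d c a)
    (S.ex (Q := fun _ d v => Rl e BL.J d (v 0) (v 1)) (FB.rel BL.J 0 1 2))
    ha ha ha ⟨K2 a, lt_of_le_of_lt (K2_le a) (H.sub a ha), K1 a,
      lt_of_le_of_lt (K1_le a) (H.sub a ha), gJ_K a⟩
  have h' : gJ d c = a := h
  rw [← h', K2_gJ]; exact hc

theorem K2_iter_mem (H : Hull e β X) {a : Ordinal.{0}} (ha : a ∈ X) (k : ℕ) :
    K2^[k] a ∈ X := by
  induction k with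
  | zero => exact ha
  | succ k ih => rw [Function.iterate_succ_apply']; exact H.K2_mem ih

theorem cl_nat (H : Hull e β X) (n : ℕ) : cl X n = n := by
  refine cl_id (l := ω) ?_ (Ordinal.natCast_lt_omega0 n).le
  intro a ha
  obtain ⟨m, rfl⟩ := Ordinal.lt_omega0.1 ha
  exact H.nat m

theorem cl_omega (H : Hull e β X) : cl X ω = ω := by
  refine cl_id (l := ω) ?_ le_rfl
  intro a ha
  obtain ⟨m, rfl⟩ := Ordinal.lt_omega0.1 ha
  exact H.nat m

theorem cl_ge_omega (H : Hull e β X) {m : Ordinal.{0}} (hm : m ∈ X) (h : ω ≤ m) :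
    ω ≤ cl X m := by
  by_contra hcon
  obtain ⟨n, hn⟩ := Ordinal.lt_omega0.1 (not_le.1 hcon)
  rw [← H.cl_nat n] at hn
  have := cl_inj hm (H.nat n) hn
  rw [this] at h
  exact absurd (Ordinal.natCast_lt_omega0 n) (not_lt.2 h)

theorem cl_gJ (H : Hull e β X) : ∀ (c a b : Ordinal.{0}), a ∈ X → b ∈ X → gJ a b = c →
    cl X c = gJ (cl X a) (cl X b) := by
  intro c
  induction c using WellFoundedLT.induction with
  | _ c ih =>
    intro a b ha hb hc
    have hcX : c ∈ X := by rw [← hc]; exact H.gJ_mem ha hb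
    apply le_antisymm
    · by_contra hcon
      obtain ⟨η, hη, hηc, h1⟩ := lt_cl.1 (not_le.1 hcon)
      have h2 := ih η hηc (K1 η) (K2 η) (H.K1_mem hη) (H.K2_mem hη) (gJ_K η)
      rw [h2] at h1
      obtain ⟨h3, h4⟩ := gJ_inj h1
      have h5 := cl_inj (H.K1_mem hη) ha h3
      have h6 := cl_inj (H.K2_mem hη) hb h4
      rw [← hc, ← h5, ← h6, gJ_K] at hηc
      exact absurd hηc (lt_irrefl _)
    · by_contra hcon
      have hlt : cl X c < gJ (cl X a) (cl X b) := not_le.1 hcon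
      obtain ⟨x, y, hxy⟩ := gJ_surj (cl X c)
      rw [← hxy, gJ_lt_iff] at hlt
      have hm : max x y ≤ max (cl X a) (cl X b) := by
        rcases hlt with h | h
        · exact h.le
        · exact h.1.le
      have hin : ∀ z, z ≤ max (cl X a) (cl X b) → ∃ z' ∈ X, cl X z' = z := by
        intro z hz
        rw [← cl_max ha hb] at hz
        rcases hz.lt_or_eq with h | h
        · obtain ⟨η, h1, _, h2⟩ := lt_cl.1 h
          exact ⟨η, h1, h2⟩
        · exact ⟨_, max_mem ha hb, h.symm⟩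
      obtain ⟨x', hx', rfl⟩ := hin x ((le_max_left _ _).trans hm)
      obtain ⟨y', hy', rfl⟩ := hin y ((le_max_right _ _).trans hm)
      rw [cl_gLt hx' hy' ha hb, ← gJ_lt_iff, hc] at hlt
      have h1 := ih _ hlt x' y' hx' hy' rfl
      rw [hxy] at h1
      have h2 := cl_lt_of hlt (H.gJ_mem hx' hy')
      rw [h1] at h2
      exact absurd h2 (lt_irrefl _)

theorem K1_cl (H : Hull e β X) {a : Ordinal.{0}} (ha : a ∈ X) : K1 (cl X a) = cl X (K1 a) := by
  rw [H.cl_gJ a (K1 a) (K2 a) (H.K1_mem ha) (H.K2_mem ha) (gJ_K a), K1_gJ]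

theorem K2_cl (H : Hull e β X) {a : Ordinal.{0}} (ha : a ∈ X) : K2 (cl X a) = cl X (K2 a) := by
  rw [H.cl_gJ a (K1 a) (K2 a) (H.K1_mem ha) (H.K2_mem ha) (gJ_K a), K2_gJ]

theorem K2_iter_cl (H : Hull e β X) {a : Ordinal.{0}} (ha : a ∈ X) (k : ℕ) :
    K2^[k] (cl X a) = cl X (K2^[k] a) := by
  induction k with
  | zero => rfl
  | succ k ih =>
    rw [Function.iterate_succ_apply', Function.iterate_succ_apply', ih,
      H.K2_cl (H.K2_iter_mem ha k)]

theorem zero_mem (H : Hull e β X) : (0 : Ordinal.{0}) ∈ X := by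
  have := H.nat 0
  simpa using this

theorem cl_zero (H : Hull e β X) : cl X 0 = 0 := by
  have := H.cl_nat 0
  simpa using this

theorem dec_mem (H : Hull e β X) {b p : Ordinal.{0}} (hp : p ∈ X) (k : ℕ) :
    dec b p k ∈ X := by
  unfold dec
  split
  · exact H.K1_mem (H.K2_iter_mem hp k)
  · exact H.zero_mem

theorem dec_cl (H : Hull e β X) {b p : Ordinal.{0}} (hb : b ∈ X) (hp : p ∈ X) (k : ℕ) :
    dec (cl X b) (cl X p) k = cl X (dec b p k) := by
  unfold dec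
  rw [H.K2_iter_cl hp, H.K1_cl (H.K2_iter_mem hp k)]
  by_cases h : K1 (K2^[k] p) < b
  · rw [if_pos h, if_pos ((cl_lt_iff (H.K1_mem (H.K2_iter_mem hp k)) hb).2 h)]
  · rw [if_neg h, if_neg (fun h' => h ((cl_lt_iff (H.K1_mem (H.K2_iter_mem hp k)) hb).1 h')),
      H.cl_zero]

/-- Satisfaction in `𝔹_{v 0}` is definable in `𝔹_β`. -/
theorem relSat (e : ℕ → ZFSet.{1}) (β : Ordinal.{0}) (φ : Fm BL) :
    FB e β (fun _ v => φ.Sat (fun a => a < v 0) (Rl e) (fun n => v (n + 1))) := by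
  have S := FB.ds e β
  induction φ with
  | rel r i j k => exact FB.rel r (i + 1) (j + 1) (k + 1)
  | eq i j => exact S.eq' (i + 1) (j + 1)
  | neg φ ih => exact S.not ih
  | and φ ψ ih1 ih2 => exact S.and ih1 ih2
  | ex φ ih =>
    have h1 : FB e β (fun _ v => φ.Sat (fun a => a < v 1) (Rl e)
        (cons (v 0) (fun n => v (n + 2)))) := by
      refine S.congr (S.rename ih (fun n => Nat.casesOn n 1 (fun n => Nat.casesOn n 0
        (fun n => n + 2)))) (fun i v _ => ?_)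
      have : (fun n => v (Nat.casesOn (n + 1) 1 (fun n => Nat.casesOn n 0 (fun n => n + 2)))) =
          cons (v 0) (fun n => v (n + 2)) := by
        funext n; cases n <;> rfl
      dsimp only
      rw [this]
      exact Iff.rfl
    have h2 := S.ex (Q := fun _ a v => a < v 0 ∧ φ.Sat (fun a => a < v 0) (Rl e)
      (cons a (fun n => v (n + 1)))) (S.and (FB.rel BL.lt 0 1 0) h1)
    refine S.congr h2 (fun i v hv => ?_)
    constructor
    · rintro ⟨a, _, ha, h⟩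
      exact ⟨a, ha, h⟩
    · rintro ⟨a, ha, h⟩
      exact ⟨a, ha.trans (hv 0), ha, h⟩

theorem tv_rel (H : Hull e β X) (φ : Fm BL) {b : Ordinal.{0}} (hb : b ∈ X)
    {w : ℕ → Ordinal.{0}} (hw : ∀ n, w n ∈ X)
    (h : ∃ η < b, φ.Sat (fun a => a < b) (Rl e) (cons η w)) :
    ∃ η ∈ X, η < b ∧ φ.Sat (fun a => a < b) (Rl e) (cons η w) := by
  have S := FB.ds e β
  have h1 : FB e β (fun _ v => φ.Sat (fun a => a < v 1) (Rl e)
      (cons (v 0) (fun n => v (n + 2)))) := by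
    refine S.congr (S.rename (relSat e β φ) (fun n => Nat.casesOn n 1 (fun n => Nat.casesOn n 0
      (fun n => n + 2)))) (fun i v _ => ?_)
    have : (fun n => v (Nat.casesOn (n + 1) 1 (fun n => Nat.casesOn n 0 (fun n => n + 2)))) =
        cons (v 0) (fun n => v (n + 2)) := by
      funext n; cases n <;> rfl
    dsimp only
    rw [this]
    exact Iff.rfl
  obtain ⟨η, hη, h2, h3⟩ := H.tv (fun v => v 0 < v 1 ∧ φ.Sat (fun a => a < v 1) (Rl e)
      (cons (v 0) (fun n => v (n + 2)))) (S.and (FB.rel BL.lt 0 1 0) h1) (cons b w)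
    (cons_dom (P := fun a => a ∈ X) hb hw) (by
      obtain ⟨η, h2, h3⟩ := h
      exact ⟨η, h2.trans (H.sub b hb), h2, h3⟩)
  exact ⟨η, hη, h2, h3⟩

/-- Preservation of the relations below `γ`. -/
def Pres (e : ℕ → ZFSet.{1}) (X : Set Ordinal.{0}) (γ : Ordinal.{0}) : Prop :=
  ∀ (r : BL) (a b c : Ordinal.{0}), a ∈ X → b ∈ X → c ∈ X → a < γ → b < γ → c < γ →
    (Rl e r a b c ↔ Rl e r (cl X a) (cl X b) (cl X c))

theorem sat_cl (H : Hull e β X) {m b : Ordinal.{0}} (hP : Pres e X m) (hb : b ∈ X)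
    (hbm : b ≤ m) (φ : Fm BL) : ∀ v : ℕ → Ordinal.{0}, (∀ n, v n ∈ X) → (∀ n, v n < b) →
    (φ.Sat (fun a => a < b) (Rl e) v ↔
      φ.Sat (fun a => a < cl X b) (Rl e) (fun n => cl X (v n))) := by
  induction φ with
  | rel r i j k =>
    intro v hv hv'
    exact hP r _ _ _ (hv i) (hv j) (hv k) (lt_of_lt_of_le (hv' i) hbm)
      (lt_of_lt_of_le (hv' j) hbm) (lt_of_lt_of_le (hv' k) hbm)
  | eq i j =>
    intro v hv _
    exact ⟨fun h => by
      have h' : v i = v j := h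
      show cl X (v i) = cl X (v j)
      rw [h'], fun h => cl_inj (hv i) (hv j) h⟩
  | neg φ ih => intro v hv hv'; simp only [Fm.Sat, ih v hv hv']
  | and φ ψ ih1 ih2 => intro v hv hv'; simp only [Fm.Sat, ih1 v hv hv', ih2 v hv hv']
  | ex φ ih =>
    intro v hv hv'
    have e1 : ∀ a, (fun n => cl X (cons a v n)) = cons (cl X a) (fun n => cl X (v n)) := by
      intro a; funext n; cases n <;> rfl
    constructor
    · intro h
      obtain ⟨a, ha, hab, h1⟩ := H.tv_rel φ hb hv h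
      refine ⟨cl X a, cl_lt_of hab ha, ?_⟩
      rw [← e1]
      exact (ih _ (cons_dom (P := fun a => a ∈ X) ha hv)
        (cons_dom (P := fun a => a < b) hab hv')).1 h1
    · rintro ⟨a', ha', h⟩
      obtain ⟨a, ha, hab, rfl⟩ := lt_cl.1 ha'
      rw [← e1] at h
      exact ⟨a, hab, (ih _ (cons_dom (P := fun a => a ∈ X) ha hv)
        (cons_dom (P := fun a => a < b) hab hv')).2 h⟩

theorem T_cl (H : Hull e β X) {m a b : Ordinal.{0}} (hP : Pres e X m) (ha : a ∈ X)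
    (hb : b ∈ X) (ham : a ≤ m) : T e a b ↔ T e (cl X a) (cl X b) := by
  rw [T_iff, T_iff, H.K1_cl ha, H.K2_cl ha, H.K1_cl (H.K2_mem ha), H.K2_cl (H.K2_mem ha),
    cl_lt_iff hb (H.K1_mem ha)]
  refine and_congr_right fun hba => exists_congr fun φ => and_congr ?_ ?_
  · constructor
    · intro h; rw [h, H.cl_nat]
    · intro h
      rw [← H.cl_nat] at h
      exact cl_inj (H.K1_mem (H.K2_mem ha)) (H.nat _) h
  · have h0 : 0 < K1 a := lt_of_le_of_lt zero_le hba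
    have hp := H.K2_mem (H.K2_mem ha)
    rw [H.sat_cl hP (H.K1_mem ha) ((K1_le a).trans ham) φ _
      (cons_dom (P := fun a => a ∈ X) hb (fun k => H.dec_mem hp k))
      (cons_dom (P := fun x => x < K1 a) hba (dec_lt h0))]
    have e1 : (fun n => cl X (cons b (dec (K1 a) (K2 (K2 a))) n)) =
        cons (cl X b) (dec (cl X (K1 a)) (cl X (K2 (K2 a)))) := by
      funext n
      cases n with
      | zero => rfl
      | succ n => exact (H.dec_cl (H.K1_mem ha) hp n).symm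
    rw [e1]

theorem nat_case (H : Hull e β X) {m a : Ordinal.{0}} (hm : m < ω) (ha : a ≤ m) :
    cl X a = a := by
  obtain ⟨n, rfl⟩ := Ordinal.lt_omega0.1 (lt_of_le_of_lt ha hm)
  exact H.cl_nat n

theorem E_cl (H : Hull e β X) {m a : Ordinal.{0}} (hP : Pres e X m) (ha : a ∈ X)
    (hm : m ∈ X) (ham : a < m) : F e a ∈ F e m ↔ F e (cl X a) ∈ F e (cl X m) := by
  have S := FB.ds e β
  rcases lt_or_ge m ω with hω | hω
  · rw [H.nat_case hω le_rfl, H.nat_case hω ham.le]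
  · have hω' := H.cl_ge_omega hm hω
    rw [mem_F e hω, mem_F e hω']
    constructor
    · rintro ⟨θ, h1, h2⟩
      obtain ⟨θ, hθ, h1, h2⟩ := H.tv3 (P := fun θ m a _ => Rl e BL.T m θ θ ∧ Rl e BL.Q θ a a)
        (S.and (FB.rel BL.T 1 0 0) (FB.rel BL.Q 0 2 2)) hm ha ha
        ⟨θ, (T_lt' e h1).trans (H.sub m hm), h1, h2⟩
      have h1' : T e m θ := h1
      exact ⟨cl X θ, (H.T_cl hP hm hθ le_rfl).1 h1,
        (hP BL.Q θ a a hθ ha ha (T_lt' e h1') ham ham).1 h2⟩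
    · rintro ⟨θ', h1, h2⟩
      obtain ⟨θ, hθ, hθm, rfl⟩ := lt_cl.1 (T_lt' e h1)
      exact ⟨θ, (H.T_cl hP hm hθ le_rfl).2 h1, (hP BL.Q θ a a hθ ha ha hθm ham ham).2 h2⟩

/-- Extensionality for the `F e a`. -/
theorem F_ext (he : BT e) {m a b : Ordinal.{0}} (hω : ω ≤ m) (ha : a ≤ m) (hb : b ≤ m) :
    F e a = F e b ↔ ∀ θ < m, (F e θ ∈ F e a ↔ F e θ ∈ F e b) := by
  constructor
  · intro h θ _; rw [h]
  · intro h
    ext z
    constructor
    · intro hz
      obtain ⟨θ, hθ, rfl⟩ := F_elem he hz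
      exact (h θ (lt_of_lt_of_le hθ (max_le ha hω))).1 hz
    · intro hz
      obtain ⟨θ, hθ, rfl⟩ := F_elem he hz
      exact (h θ (lt_of_lt_of_le hθ (max_le hb hω))).2 hz

theorem Q_cl (H : Hull e β X) (he : BT e) {m a : Ordinal.{0}} (hP : Pres e X m) (ha : a ∈ X)
    (hm : m ∈ X) (ham : a < m) : F e a = F e m ↔ F e (cl X a) = F e (cl X m) := by
  have S := FB.ds e β
  rcases lt_or_ge m ω with hω | hω
  · rw [H.nat_case hω le_rfl, H.nat_case hω ham.le]
  · have hω' := H.cl_ge_omega hm hω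
    rw [F_ext he hω ham.le le_rfl, F_ext he hω' (cl_lt_of ham ha).le le_rfl]
    constructor
    · intro h θ' hθ'
      obtain ⟨θ, hθ, hθm, rfl⟩ := lt_cl.1 hθ'
      have h1 := hP BL.E θ a a hθ ha ha hθm ham ham
      simp only [Rl_E] at h1
      rw [← h1, ← H.E_cl hP hθ hm hθm]
      exact h θ hθm
    · intro h
      by_contra hcon
      push Not at hcon
      obtain ⟨θ, hθ, h1⟩ := hcon
      have h1' : ¬ (F e θ ∈ F e a ↔ F e θ ∈ F e m) := by tauto
      obtain ⟨θ, hθX, hθm, h2⟩ := H.tv3 (P := fun θ m a _ => Rl e BL.lt θ m m ∧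
          ¬ (Rl e BL.E θ a a ↔ Rl e BL.E θ m m))
        (S.and (FB.rel BL.lt 0 1 1) (S.not (S.iff (FB.rel BL.E 0 2 2) (FB.rel BL.E 0 1 1))))
        hm ha ha ⟨θ, hθ.trans (H.sub m hm), hθ, h1'⟩
      have hθm' : θ < m := hθm
      apply h2
      have h3 := hP BL.E θ a a hθX ha ha hθm' ham ham
      have h4 := H.E_cl hP hθX hm hθm'
      simp only [Rl_E] at h3 ⊢
      rw [h3, h4]
      exact h _ (cl_lt_of hθm' hθX)

theorem E_cl' (H : Hull e β X) (he : BT e) {m a : Ordinal.{0}} (hP : Pres e X m) (ha : a ∈ X)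
    (hm : m ∈ X) (ham : a < m) : F e m ∈ F e a ↔ F e (cl X m) ∈ F e (cl X a) := by
  have S := FB.ds e β
  rcases lt_or_ge m ω with hω | hω
  · rw [H.nat_case hω le_rfl, H.nat_case hω ham.le]
  · have hω' := H.cl_ge_omega hm hω
    constructor
    · intro h
      obtain ⟨θ, hθ, h1⟩ := F_elem he h
      have hθm : θ < m := lt_of_lt_of_le hθ (max_le ham.le hω)
      obtain ⟨θ, hθX, h2, h3, h4⟩ := H.tv3 (P := fun θ m a _ => Rl e BL.lt θ m m ∧
          (Rl e BL.Q θ m m ∧ Rl e BL.E θ a a))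
        (S.and (FB.rel BL.lt 0 1 1) (S.and (FB.rel BL.Q 0 1 1) (FB.rel BL.E 0 2 2)))
        hm ha ha ⟨θ, hθm.trans (H.sub m hm), hθm, h1, by
          show F e θ ∈ F e a
          rw [h1]; exact h⟩
      have h2' : θ < m := h2
      have h5 := (hP BL.E θ a a hθX ha ha h2' ham ham).1 h4
      have h6 := (H.Q_cl he hP hθX hm h2').1 h3
      rw [← h6]
      exact h5
    · intro h
      obtain ⟨θ', hθ', h1⟩ := F_elem he h
      have hθm' : θ' < cl X m :=
        lt_of_lt_of_le hθ' (max_le (cl_lt_of ham ha).le hω')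
      obtain ⟨θ, hθ, hθm, rfl⟩ := lt_cl.1 hθm'
      rw [(H.Q_cl he hP hθ hm hθm).2 h1.symm.symm |>.symm]
      refine (hP BL.E θ a a hθ ha ha hθm ham ham).2 ?_
      show F e (cl X θ) ∈ F e (cl X a)
      rw [h1]; exact h

theorem N_ext (he : BT e) {m a b : Ordinal.{0}} (hω : ω ≤ m) (ha : a ≤ m) :
    F e a = lf b ↔ (∀ θ < m, F e θ ∈ F e a → ∃ ζ < b, F e θ = lf ζ) ∧
      ∀ ζ < b, ∃ θ < m, F e θ ∈ F e a ∧ F e θ = lf ζ := by
  constructor
  · intro h
    refine ⟨fun θ _ h1 => ?_, fun ζ hζ => ?_⟩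
    · rw [h] at h1
      exact mem_lf.1 h1
    · have h1 : lf ζ ∈ F e a := by rw [h]; exact lf_mem_lf.2 hζ
      obtain ⟨θ, hθ, h2⟩ := F_elem he h1
      exact ⟨θ, lt_of_lt_of_le hθ (max_le ha hω), by rw [h2]; exact h1, h2⟩
  · rintro ⟨h1, h2⟩
    ext z
    constructor
    · intro hz
      obtain ⟨θ, hθ, rfl⟩ := F_elem he hz
      exact mem_lf.2 (h1 θ (lt_of_lt_of_le hθ (max_le ha hω)) hz)
    · intro hz
      obtain ⟨ζ, hζ, rfl⟩ := mem_lf.1 hz
      obtain ⟨θ, _, h3, h4⟩ := h2 ζ hζ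
      rw [← h4]; exact h3

theorem N_cl (H : Hull e β X) (he : BT e) {m a b : Ordinal.{0}} (hP : Pres e X m)
    (ha : a ∈ X) (hb : b ∈ X) (hm : m ∈ X) (ham : a ≤ m) (hbm : b ≤ m) :
    F e a = lf b ↔ F e (cl X a) = lf (cl X b) := by
  have S := FB.ds e β
  rcases lt_or_ge m ω with hω | hω
  · rw [H.nat_case hω hbm, H.nat_case hω ham]
  · have hω' := H.cl_ge_omega hm hω
    have hcam : cl X a ≤ cl X m := by
      rcases ham.lt_or_eq with h | rfl
      · exact (cl_lt_of h ha).le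
      · exact le_rfl
    -- membership of lower sets in `F a` is preserved
    have hE : ∀ θ ∈ X, θ < m → (F e θ ∈ F e a ↔ F e (cl X θ) ∈ F e (cl X a)) := by
      intro θ hθ hθm
      rcases ham.lt_or_eq with h | rfl
      · exact hP BL.E θ a a hθ ha ha hθm h h
      · exact H.E_cl hP hθ ha hθm
    have hN : ∀ θ ∈ X, θ < m → ∀ ζ ∈ X, ζ < m → (F e θ = lf ζ ↔ F e (cl X θ) = lf (cl X ζ)) :=
      fun θ hθ hθm ζ hζ hζm => hP BL.N θ ζ ζ hθ hζ hζ hθm hζm hζm
    rw [N_ext he hω ham, N_ext he hω' hcam]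
    constructor
    · rintro ⟨h1, h2⟩
      constructor
      · intro θ' hθ' h3
        obtain ⟨θ, hθ, hθm, rfl⟩ := lt_cl.1 hθ'
        obtain ⟨ζ, hζ, h4⟩ := h1 θ hθm ((hE θ hθ hθm).2 h3)
        obtain ⟨ζ, hζX, h5, h6⟩ := H.tv3 (P := fun ζ b θ _ => Rl e BL.lt ζ b b ∧ Rl e BL.N θ ζ ζ)
          (S.and (FB.rel BL.lt 0 1 1) (FB.rel BL.N 2 0 0)) hb hθ hθ
          ⟨ζ, hζ.trans (H.sub b hb), hζ, h4⟩
        have h5' : ζ < b := h5
        exact ⟨cl X ζ, cl_lt_of h5' hζX,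
          (hN θ hθ hθm ζ hζX (lt_of_lt_of_le h5' hbm)).1 h6⟩
      · intro ζ' hζ'
        obtain ⟨ζ, hζ, hζb, rfl⟩ := lt_cl.1 hζ'
        obtain ⟨θ, hθm, h3, h4⟩ := h2 ζ hζb
        obtain ⟨θ, hθX, h5, h6, h7⟩ := H.tv (fun v => Rl e BL.lt (v 0) (v 1) (v 1) ∧
            (Rl e BL.E (v 0) (v 2) (v 2) ∧ Rl e BL.N (v 0) (v 3) (v 3)))
          (S.and (FB.rel BL.lt 0 1 1) (S.and (FB.rel BL.E 0 2 2) (FB.rel BL.N 0 3 3)))
          (cons m (cons a (fun _ => ζ))) (cons_dom (P := fun a => a ∈ X) hm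
            (cons_dom (P := fun a => a ∈ X) ha (fun _ => hζ)))
          ⟨θ, hθm.trans (H.sub m hm), hθm, h3, h4⟩
        have h5' : θ < m := h5
        exact ⟨cl X θ, cl_lt_of h5' hθX, (hE θ hθX h5').1 h6,
          (hN θ hθX h5' ζ hζ (lt_of_lt_of_le hζb hbm)).1 h7⟩
    · rintro ⟨h1, h2⟩
      constructor
      · by_contra hcon
        push Not at hcon
        obtain ⟨θ, hθm, h3, h4⟩ := hcon
        obtain ⟨θ, hθX, h5, h6, h7⟩ := H.tv (fun v => Rl e BL.lt (v 0) (v 1) (v 1) ∧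
            (Rl e BL.E (v 0) (v 2) (v 2) ∧ ∀ ζ, ζ < β → (Rl e BL.lt ζ (v 3) (v 3) →
              ¬ Rl e BL.N (v 0) ζ ζ)))
          (S.and (FB.rel BL.lt 0 1 1) (S.and (FB.rel BL.E 0 2 2)
            (S.all (Q := fun _ ζ v => Rl e BL.lt ζ (v 3) (v 3) → ¬ Rl e BL.N (v 0) ζ ζ)
              (S.imp (FB.rel BL.lt 0 4 4) (S.not (FB.rel BL.N 1 0 0))))))
          (cons m (cons a (fun _ => b))) (cons_dom (P := fun a => a ∈ X) hm
            (cons_dom (P := fun a => a ∈ X) ha (fun _ => hb)))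
          ⟨θ, hθm.trans (H.sub m hm), hθm, h3, fun ζ _ hζ => h4 ζ hζ⟩
        have h5' : θ < m := h5
        obtain ⟨ζ', hζ', h8⟩ := h1 (cl X θ) (cl_lt_of h5' hθX) ((hE θ hθX h5').1 h6)
        obtain ⟨ζ, hζ, hζb, rfl⟩ := lt_cl.1 hζ'
        exact h7 ζ (H.sub ζ hζ) hζb ((hN θ hθX h5' ζ hζ (lt_of_lt_of_le hζb hbm)).2 h8)
      · by_contra hcon
        push Not at hcon
        obtain ⟨ζ, hζb, h3⟩ := hcon
        obtain ⟨ζ, hζX, h5, h7⟩ := H.tv (fun v => Rl e BL.lt (v 0) (v 3) (v 3) ∧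
            ∀ θ, θ < β → (Rl e BL.lt θ (v 1) (v 1) → (Rl e BL.E θ (v 2) (v 2) →
              ¬ Rl e BL.N θ (v 0) (v 0))))
          (S.and (FB.rel BL.lt 0 3 3)
            (S.all (Q := fun _ θ v => Rl e BL.lt θ (v 1) (v 1) → (Rl e BL.E θ (v 2) (v 2) →
              ¬ Rl e BL.N θ (v 0) (v 0)))
              (S.imp (FB.rel BL.lt 0 2 2) (S.imp (FB.rel BL.E 0 3 3)
                (S.not (FB.rel BL.N 0 1 1))))))
          (cons m (cons a (fun _ => b))) (cons_dom (P := fun a => a ∈ X) hm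
            (cons_dom (P := fun a => a ∈ X) ha (fun _ => hb)))
          ⟨ζ, hζb.trans (H.sub b hb), hζb, fun θ _ h4 h5 h6 => h3 θ h4 h5 h6⟩
        have h5' : ζ < b := h5
        obtain ⟨θ', hθ', h8, h9⟩ := h2 (cl X ζ) (cl_lt_of h5' hζX)
        obtain ⟨θ, hθ, hθm, rfl⟩ := lt_cl.1 hθ'
        exact h7 θ (H.sub θ hθ) hθm ((hE θ hθ hθm).2 h8)
          ((hN θ hθ hθm ζ hζX (lt_of_lt_of_le h5' hbm)).2 h9)

/-- **Condensation**: the collapse preserves all the relations. -/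
theorem pres (H : Hull e β X) (he : BT e) (γ : Ordinal.{0}) : Pres e X γ := by
  induction γ using WellFoundedLT.induction with
  | _ γ ih =>
    intro r a b c ha hb hc haγ hbγ hcγ
    have hm := max_mem ha hb
    have hmγ : max a b < γ := max_lt haγ hbγ
    have hP := ih _ hmγ
    have ham : a ≤ max a b := le_max_left _ _
    have hbm : b ≤ max a b := le_max_right _ _
    cases r with
    | lt => exact (cl_lt_iff ha hb).symm
    | J =>
      show gJ a b = c ↔ gJ (cl X a) (cl X b) = cl X c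
      constructor
      · intro h; exact (H.cl_gJ c a b ha hb h).symm
      · intro h
        rw [← H.cl_gJ (gJ a b) a b ha hb rfl] at h
        exact cl_inj (H.gJ_mem ha hb) hc h
    | T => exact H.T_cl hP ha hb ham
    | E =>
      show F e a ∈ F e b ↔ F e (cl X a) ∈ F e (cl X b)
      rcases lt_trichotomy a b with h | h | h
      · rw [max_eq_right h.le] at hP
        exact H.E_cl hP ha hb h
      · rw [h]
        exact iff_of_false (ZFSet.mem_irrefl _) (ZFSet.mem_irrefl _)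
      · rw [max_eq_left h.le] at hP
        exact H.E_cl' he hP hb ha h
    | Q =>
      show F e a = F e b ↔ F e (cl X a) = F e (cl X b)
      rcases lt_trichotomy a b with h | h | h
      · rw [max_eq_right h.le] at hP
        exact H.Q_cl he hP ha hb h
      · rw [h]
        simp
      · rw [max_eq_left h.le] at hP
        rw [eq_comm, H.Q_cl he hP hb ha h, eq_comm]
    | N => exact H.N_cl he hP ha hb hm ham hbm

end Hull

end Pool.Agent.Work.MP_fbd45d_lc
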