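import Pool.Agent.Work.MP_fbd45d_lc.Hier

/-!
# The union of the hierarchy is a model of ZFC
-/

namespace Pool.Agent.Work.MP_fbd45d_lc

open ZFSet (pair)
open Ordinal

/-- The class of all the sets `F e ξ`. -/
noncomputable def WW (e : ℕ → ZFSet.{1}) : ZFSet.{1} := ZFSet.range (F e)

theorem mem_WW {e : ℕ → ZFSet.{1}} {z : ZFSet.{1}} : z ∈ WW e ↔ ∃ ξ, F e ξ = z :=
  ZFSet.mem_range

theorem F_mem (e : ℕ → ZFSet.{1}) (ξ : Ordinal.{0}) : F e ξ ∈ WW e := mem_WW.2 ⟨ξ, rfl⟩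

/-- The base is transitive. -/
def BT (e : ℕ → ZFSet.{1}) : Prop := ∀ n z, z ∈ e n → ∃ m, e m = z

theorem F_elem {e : ℕ → ZFSet.{1}} (he : BT e) {ξ : Ordinal.{0}} {z : ZFSet.{1}}
    (h : z ∈ F e ξ) : ∃ η < max ξ ω, F e η = z := by
  rcases lt_or_ge ξ ω with hξ | hξ
  · obtain ⟨n, rfl⟩ := Ordinal.lt_omega0.1 hξ
    rw [F_nat] at h
    obtain ⟨m, rfl⟩ := he n z h
    exact ⟨m, lt_of_lt_of_le (Ordinal.natCast_lt_omega0 m) (le_max_right _ _), F_nat e m⟩
  · obtain ⟨η, h1, h2⟩ := (mem_F e hξ z).1 h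
    exact ⟨η, lt_of_lt_of_le (T_lt' e h1) (le_max_left _ _), h2⟩

theorem WW_trans {e : ℕ → ZFSet.{1}} (he : BT e) : (WW e).IsTransitive := by
  intro y hy z hz
  obtain ⟨ξ, rfl⟩ := mem_WW.1 hy
  obtain ⟨η, _, rfl⟩ := F_elem he hz
  exact F_mem e η

/-! ## Reflection -/

/-- `𝔹_β` is an elementary substructure of the whole structure. -/
def El (e : ℕ → ZFSet.{1}) (β : Ordinal.{0}) : Prop :=
  ∀ (φ : Fm BL) (v : ℕ → Ordinal.{0}), (∀ n, v n < β) →
    (φ.Sat (fun a => a < β) (Rl e) v ↔ φ.Sat (fun _ => True) (Rl e) v)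

section

variable (e : ℕ → ZFSet.{1})

/-- The assignment given by a list of ordinals. -/
def asgL (l : List Ordinal.{0}) (n : ℕ) : Ordinal.{0} := l.getD n 0

open Classical in
/-- Skolem functions. -/
noncomputable def skB (φ : Fm BL) (l : List Ordinal.{0}) : Ordinal.{0} :=
  if h : ∃ a, φ.Sat (fun _ => True) (Rl e) (cons a (asgL l)) then h.choose else 0

theorem skB_spec {φ : Fm BL} {l : List Ordinal.{0}}
    (h : ∃ a, φ.Sat (fun _ => True) (Rl e) (cons a (asgL l))) :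
    φ.Sat (fun _ => True) (Rl e) (cons (skB e φ l) (asgL l)) := by
  unfold skB
  rw [dif_pos h]
  exact h.choose_spec

/-- A bound for the values of the Skolem functions. -/
noncomputable def bdB (γ : Ordinal.{0}) : Ordinal.{0} :=
  ⨆ p : Fm BL × List (Set.Iio γ), (skB e p.1 (p.2.map Subtype.val) + 1)

theorem lt_bdB {γ : Ordinal.{0}} (φ : Fm BL) (l : List Ordinal.{0}) (hl : ∀ x ∈ l, x < γ) :
    skB e φ l < bdB e γ := by
  have h1 := Ordinal.le_iSup (fun p : Fm BL × List (Set.Iio γ) =>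
    skB e p.1 (p.2.map Subtype.val) + 1) (φ, l.attach.map (fun x => ⟨x.1, hl x.1 x.2⟩))
  have h2 : (l.attach.map (fun x => (⟨x.1, hl x.1 x.2⟩ : Set.Iio γ))).map Subtype.val = l := by
    simp [List.map_map, Function.comp_def]
  dsimp only at h1
  rw [h2] at h1
  exact lt_of_lt_of_le (lt_add_one _) h1

/-- Iteration. -/
noncomputable def seqB (β0 : Ordinal.{0}) : ℕ → Ordinal.{0}
  | 0 => max β0 ω + 1
  | n + 1 => max (seqB β0 n) (bdB e (seqB β0 n))

theorem seqB_mono (β0 : Ordinal.{0}) {m n : ℕ} (h : m ≤ n) : seqB e β0 m ≤ seqB e β0 n := by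
  induction h with
  | refl => exact le_rfl
  | step _ ih => exact ih.trans (le_max_left _ _)

theorem exists_El (β0 : Ordinal.{0}) : ∃ β, β0 < β ∧ ω < β ∧ El e β := by
  let β : Ordinal.{0} := ⨆ n, seqB e β0 n
  have hβ : ∀ {η}, η < β ↔ ∃ n, η < seqB e β0 n := Ordinal.lt_iSup_iff
  have hω : max β0 ω < β := hβ.2 ⟨0, lt_add_one _⟩
  refine ⟨β, lt_of_le_of_lt (le_max_left _ _) hω, lt_of_le_of_lt (le_max_right _ _) hω, ?_⟩
  intro φ
  induction φ with
  | rel r i j k => intro v _; rfl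
  | eq i j => intro v _; rfl
  | neg φ ih => intro v hv; simp only [Fm.Sat, ih v hv]
  | and φ ψ ih1 ih2 => intro v hv; simp only [Fm.Sat, ih1 v hv, ih2 v hv]
  | ex φ ih =>
    intro v hv
    constructor
    · rintro ⟨a, ha, h⟩
      exact ⟨a, trivial, (ih _ (cons_dom (P := fun a => a < β) ha hv)).1 h⟩
    · rintro ⟨a, _, ha⟩
      let l : List Ordinal.{0} := (List.range φ.bd).map v
      have hl : ∀ n < φ.bd, asgL l n = v n := by
        intro n hn
        simp [asgL, l, List.getD, hn]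
      have hcong : ∀ a, (φ.Sat (fun _ => True) (Rl e) (cons a v) ↔
          φ.Sat (fun _ => True) (Rl e) (cons a (asgL l))) := by
        intro a
        refine Fm.sat_bd _ _ φ _ _ (fun n hn => ?_)
        cases n with
        | zero => rfl
        | succ n => exact (hl n (by omega)).symm
      have h1 := skB_spec e ⟨a, (hcong a).1 ha⟩
      have h2 := (hcong _).2 h1
      have hbd : ∃ k, ∀ x ∈ l, x < seqB e β0 k := by
        have : ∀ l' : List Ordinal.{0}, (∀ x ∈ l', x < β) → ∃ k, ∀ x ∈ l', x < seqB e β0 k := by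
          intro l'
          induction l' with
          | nil => intro _; exact ⟨0, by simp⟩
          | cons a l' ih =>
            intro h
            obtain ⟨k, hk⟩ := ih (fun x hx => h x (List.mem_cons_of_mem _ hx))
            obtain ⟨k', hk'⟩ := hβ.1 (h a List.mem_cons_self)
            refine ⟨max k k', ?_⟩
            intro x hx
            rcases List.mem_cons.1 hx with rfl | hx
            · exact lt_of_lt_of_le hk' (seqB_mono e β0 (le_max_right _ _))
            · exact lt_of_lt_of_le (hk x hx) (seqB_mono e β0 (le_max_left _ _))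
        refine this l (fun x hx => ?_)
        simp only [l, List.mem_map] at hx
        obtain ⟨n, _, rfl⟩ := hx
        exact hv n
      obtain ⟨k, hk⟩ := hbd
      have hmem : skB e φ l < β :=
        hβ.2 ⟨k + 1, lt_of_lt_of_le (lt_bdB e φ l hk) (le_max_right _ _)⟩
      exact ⟨_, hmem, (ih _ (cons_dom (P := fun a => a < β) hmem hv)).2 h2⟩

/-! ## Definability -/

/-- Definability with parameters over the structure of all ordinals. -/
def BD : (Unit → (ℕ → Ordinal.{0}) → Prop) → Prop :=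
  PD (fun _ _ => True) (FD (fun (_ : Unit) (_ : Ordinal.{0}) => True) (fun _ => Rl e))

theorem BD.ds : DS (fun (_ : Unit) (_ : Ordinal.{0}) => True) (BD e) := PD.ds (FD.ds _ _)

theorem BD.rel (r : BL) (i j k : ℕ) : BD e (fun _ v => Rl e r (v i) (v j) (v k)) :=
  PD.of (FD.rel _ _ r i j k)

theorem BD.par (a : Ordinal.{0}) :
    Tm (fun (_ : Unit) (_ : Ordinal.{0}) => True) (BD e) (fun _ _ => a) :=
  PD.par (FD.ds _ _) (fun _ => trivial)

theorem BD.v (n : ℕ) :
    Tm (fun (_ : Unit) (_ : Ordinal.{0}) => True) (BD e) (fun _ v => v n) :=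
  Tm.var (BD.ds e) n

/-- Definability with parameters over the union of the hierarchy. -/
def DW (P : Unit → (ℕ → ZFSet.{1}) → Prop) : Prop :=
  BD e (fun i w => P i (fun n => F e (w n)))

theorem comp {Q : Ordinal.{0} → Prop} (hQ : BD e (fun _ w => Q (w 0))) (γ : Ordinal.{0}) :
    ∃ s ∈ WW e, ∀ z, z ∈ s ↔ ∃ η < γ, Q η ∧ F e η = z := by
  classical
  have S := BD.ds e
  have hQ' : BD e (fun _ w => w 0 < γ ∧ Q (w 0)) := by
    refine S.and ?_ hQ
    exact S.rel3 (R := fun _ a b c => Rl e BL.lt a b c) (BD.rel e BL.lt 0 1 2)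
      (BD.v e 0) (BD.par e γ) (BD.v e 0)
  obtain ⟨P, ⟨φ, hφ⟩, s, _, hs⟩ := hQ'
  have h1 : ∀ η, (η < γ ∧ Q η) ↔ φ.Sat (fun _ => True) (Rl e) (asg s () (fun _ => η)) := by
    intro η
    rw [← hφ () _ (fun _ => trivial), ← hs () (fun _ => η) (fun _ => trivial)]
  let w : ℕ → Ordinal.{0} := fun n => Sum.elim (fun _ => 0) (fun c => c ()) (s n)
  let f : ℕ → ℕ := fun n => Sum.elim (fun _ => 0) (fun _ => n + 1) (s n)
  have h2 : ∀ η, (fun n => cons η w (f n)) = asg s () (fun _ => η) := by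
    intro η
    funext n
    rcases e1 : s n with m | c
    · simp [asg, e1, f, cons]
    · simp [asg, e1, f, cons, w]
  have h3 : ∀ η, (η < γ ∧ Q η) ↔ (φ.rename f).Sat (fun _ => True) (Rl e) (cons η w) := by
    intro η
    rw [h1, Fm.sat_rename, h2]
  obtain ⟨β, hβ, hωβ, hEl⟩ := exists_El e (max γ (⨆ n, w n))
  have hw : ∀ n, w n < β := fun n =>
    lt_of_le_of_lt ((Ordinal.le_iSup w n).trans (le_max_right _ _)) hβ
  have hγ : γ < β := lt_of_le_of_lt (le_max_left _ _) hβ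
  refine ⟨F e (idx β (φ.rename f) w), F_mem e _, fun z => ?_⟩
  rw [mem_F e (hωβ.le.trans (le_idx _ _ _))]
  constructor
  · rintro ⟨η, hη, h4⟩
    rw [T_idx e hw] at hη
    have h5 := (hEl _ _ (cons_dom (P := fun a => a < β) hη.1 hw)).1 hη.2
    rw [← h3] at h5
    exact ⟨η, h5.1, h5.2, h4⟩
  · rintro ⟨η, hη, h4, h5⟩
    refine ⟨η, ?_, h5⟩
    rw [T_idx e hw]
    have hηβ := hη.trans hγ
    exact ⟨hηβ, (hEl _ _ (cons_dom (P := fun a => a < β) hηβ hw)).2 ((h3 η).1 ⟨hη, h4⟩)⟩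

theorem compW {P : ZFSet.{1} → Prop} (hP : DW e (fun _ v => P (v 0))) (γ : Ordinal.{0})
    (hγ : ∀ z ∈ WW e, P z → ∃ η < γ, F e η = z) : ZFSet.sep P (WW e) ∈ WW e := by
  obtain ⟨s, hs, h⟩ := comp e (Q := fun η => P (F e η)) hP γ
  have : ZFSet.sep P (WW e) = s := by
    ext z
    rw [ZFSet.mem_sep, h]
    constructor
    · rintro ⟨hz, hPz⟩
      obtain ⟨η, hη, rfl⟩ := hγ z hz hPz
      exact ⟨η, hη, hPz, rfl⟩
    · rintro ⟨η, _, h1, rfl⟩
      exact ⟨F_mem e η, h1⟩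
  rw [this]
  exact hs

theorem DW.ds : DS (fun (_ : Unit) x => x ∈ WW e) (DW e) where
  congr' := by
    intro P Q h hP
    exact (BD.ds e).congr' (fun i w _ => h i _ (fun n => F_mem e _)) hP
  eq' := fun m n => BD.rel e BL.Q m n 0
  not := fun hP => (BD.ds e).not hP
  and := fun hP hQ => (BD.ds e).and hP hQ
  ex' := by
    intro P hP
    refine (BD.ds e).congr' ?_ ((BD.ds e).ex' hP)
    intro i w _
    have h1 : ∀ a, (fun n => F e (cons a w n)) = cons (F e a) (fun n => F e (w n)) := by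
      intro a; funext n; cases n <;> rfl
    simp only [h1]
    constructor
    · rintro ⟨a, _, h⟩
      exact ⟨F e a, F_mem e a, h⟩
    · rintro ⟨z, hz, h⟩
      obtain ⟨a, rfl⟩ := mem_WW.1 hz
      exact ⟨a, trivial, h⟩
  rename := fun hP f => (BD.ds e).rename hP f
  fin := by
    intro P hP
    obtain ⟨N, hN⟩ := (BD.ds e).fin hP
    refine ⟨N, fun i v v' hv hv' h => ?_⟩
    classical
    choose w hw using fun n => mem_WW.1 (hv n)
    choose w' hw' using fun n => mem_WW.1 (hv' n)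
    have h1 := hN i w (fun n => if n < N then w n else w' n) (fun _ => trivial)
      (fun _ => trivial) (fun n hn => by simp [hn])
    have e1 : (fun n => F e (w n)) = v := funext hw
    have e2 : (fun n => F e (if n < N then w n else w' n)) = v' := by
      funext n
      by_cases hn : n < N
      · simp only [hn, if_true]
        rw [hw, h n hn]
      · simp only [hn, if_false]
        exact hw' n
    rw [e1, e2] at h1
    exact h1

theorem DW.par {a : ZFSet.{1}} (ha : a ∈ WW e) :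
    TmV (fun (_ : Unit) => WW e) (DW e) (fun _ _ => a) := by
  refine ⟨fun _ _ _ => ha, ?_⟩
  obtain ⟨α, rfl⟩ := mem_WW.1 ha
  exact (BD.ds e).rel3 (R := fun _ a b c => Rl e BL.Q a b c) (BD.rel e BL.Q 0 1 2)
    (BD.v e 0) (BD.par e α) (BD.v e 0)

theorem DW.ts {e : ℕ → ZFSet.{1}} (he : BT e) : TS (fun (_ : Unit) => WW e) (DW e) where
  ds := DW.ds e
  mem' := BD.rel e BL.E 0 1 0
  trans := fun _ => WW_trans he
  upair' := by
    intro _ a ha b hb
    have h1 : DW e (fun _ v => v 0 = a ∨ v 0 = b) := by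
      refine (DW.ds e).or ?_ ?_
      · exact (DW.ds e).eq (Tm.var (DW.ds e) 0) (DW.par e ha)
      · exact (DW.ds e).eq (Tm.var (DW.ds e) 0) (DW.par e hb)
    obtain ⟨α, rfl⟩ := mem_WW.1 ha
    obtain ⟨β, rfl⟩ := mem_WW.1 hb
    have h2 := compW e (P := fun z => z = F e α ∨ z = F e β) h1 (max α β + 1) (by
      rintro z _ (rfl | rfl)
      · exact ⟨α, lt_of_le_of_lt (le_max_left _ _) (lt_add_one _), rfl⟩
      · exact ⟨β, lt_of_le_of_lt (le_max_right _ _) (lt_add_one _), rfl⟩)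
    have h3 : ZFSet.sep (fun z => z = F e α ∨ z = F e β) (WW e) = ({F e α, F e β} : ZFSet.{1}) := by
      ext z
      rw [ZFSet.mem_sep, ZFSet.mem_pair]
      constructor
      · exact fun h => h.2
      · rintro (rfl | rfl)
        · exact ⟨F_mem e _, Or.inl rfl⟩
        · exact ⟨F_mem e _, Or.inr rfl⟩
    rw [← h3]
    exact h2

theorem bounded_family {e : ℕ → ZFSet.{1}} {ι : Type*} [Small.{0} ι] (f : ι → ZFSet.{1})
    (hf : ∀ i, f i ∈ WW e) : ∃ γ, ∀ i, ∃ η < γ, F e η = f i := by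
  choose g hg using fun i => mem_WW.1 (hf i)
  refine ⟨⨆ i, (g i + 1), fun i => ⟨g i, ?_, hg i⟩⟩
  exact lt_of_lt_of_le (lt_add_one _) (Ordinal.le_iSup (fun i => g i + 1) i)

theorem small_elems {e : ℕ → ZFSet.{1}} (he : BT e) {a : ZFSet.{1}} (ha : a ∈ WW e) :
    Small.{0} {x // x ∈ a} := by
  obtain ⟨α, rfl⟩ := mem_WW.1 ha
  have h1 : ∀ x : {x // x ∈ F e α}, ∃ η : Set.Iio (max α ω), F e η.1 = x.1 := by
    intro x
    obtain ⟨η, hη, h⟩ := F_elem he x.2
    exact ⟨⟨η, hη⟩, h⟩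
  choose g hg using h1
  have hinj : Function.Injective g := by
    intro x y h
    apply Subtype.ext
    rw [← hg x, ← hg y, h]
  exact small_of_injective hinj

theorem sUnion_mem {e : ℕ → ZFSet.{1}} (he : BT e) {a : ZFSet.{1}} (ha : a ∈ WW e) :
    (ZFSet.sUnion a : ZFSet.{1}) ∈ WW e := by
  have S := DW.ts he
  have htr := WW_trans he
  have h1 : DW e (fun _ v => ∃ y, y ∈ a ∧ v 0 ∈ y) :=
    S.exMem (DW.par e ha) (S.mem (S.v 1) (S.v 0))
  obtain ⟨α, rfl⟩ := mem_WW.1 ha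
  have h2 := compW e (P := fun z => ∃ y, y ∈ F e α ∧ z ∈ y) h1 (max α ω) (by
    rintro z _ ⟨y, hy, hz⟩
    obtain ⟨η, hη, rfl⟩ := F_elem he hy
    obtain ⟨η', hη', rfl⟩ := F_elem he hz
    exact ⟨η', lt_of_lt_of_le hη' (max_le hη.le (le_max_right _ _)), rfl⟩)
  have h3 : ZFSet.sep (fun z => ∃ y, y ∈ F e α ∧ z ∈ y) (WW e) = ZFSet.sUnion (F e α) := by
    ext z
    rw [ZFSet.mem_sep, ZFSet.mem_sUnion]
    constructor
    · rintro ⟨_, y, hy, hz⟩; exact ⟨y, hy, hz⟩
    · rintro ⟨y, hy, hz⟩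
      exact ⟨htr _ (htr _ (F_mem e α) hy) hz, y, hy, hz⟩
  rw [← h3]
  exact h2

theorem nat_mem_WW {e : ℕ → ZFSet.{1}} (he : BT e) (n : ℕ) : nat n ∈ WW e := by
  have S := DW.ts he
  induction n with
  | zero =>
    have h1 : DW e (fun _ _ => False) := S.const False
    have h2 := compW e (P := fun _ => False) h1 0 (by simp)
    have h3 : ZFSet.sep (fun _ => False) (WW e) = nat 0 := by
      ext z
      rw [ZFSet.mem_sep]
      simp [nat]
    rw [← h3]; exact h2
  | succ n ih =>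
    have h1 : nat.{1} (n + 1) = insert (nat n) (nat n) := by
      unfold nat
      rw [Nat.cast_succ, Ordinal.toZFSet_add_one]
    rw [h1, ZFSet.insert_eq, ← ZFSet.sUnion_pair]
    exact sUnion_mem he (S.upair' () _ (S.single_mem (i := ()) ih) _ ih)

theorem WW_zm {e : ℕ → ZFSet.{1}} (he : BT e) : ZM (WW e) (DW e) where
  ts := DW.ts he
  par := fun a ha => DW.par e ha
  union' := fun a ha => sUnion_mem he ha
  power' := by
    intro a ha
    have S := DW.ts he
    have h1 : DW e (fun _ v => v 0 ⊆ a) := S.subset (S.v 0) (DW.par e ha)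
    have hsm := small_elems he ha
    have hsm2 : Small.{0} {x // x ∈ WW e ∧ x ⊆ a} := by
      let g : {x // x ∈ WW e ∧ x ⊆ a} → Set {x // x ∈ a} := fun x => {y | y.1 ∈ x.1}
      have hg : Function.Injective g := by
        intro x y h
        apply Subtype.ext
        ext z
        constructor
        · intro hz
          have : (⟨z, x.2.2 hz⟩ : {x // x ∈ a}) ∈ g x := hz
          rw [h] at this
          exact this
        · intro hz
          have : (⟨z, y.2.2 hz⟩ : {x // x ∈ a}) ∈ g y := hz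
          rw [← h] at this
          exact this
      exact small_of_injective hg
    obtain ⟨γ, hγ⟩ := bounded_family (e := e) (fun x : {x // x ∈ WW e ∧ x ⊆ a} => x.1)
      (fun x => x.2.1)
    exact compW e h1 γ (fun z hz hza => hγ ⟨z, hz, hza⟩)
  omega := by
    have S := DW.ts he
    have h1 : DW e (fun _ v => NatOrd (v 0)) := S.natOrd (S.v 0)
    obtain ⟨γ, hγ⟩ := bounded_family (e := e) (fun n : ℕ => nat n) (fun n => nat_mem_WW he n)
    have h2 := compW e h1 γ (by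
      intro z _ hz
      obtain ⟨n, rfl⟩ := mem_omega.1 (natOrd_iff.1 hz)
      exact hγ n)
    have h3 : ZFSet.sep NatOrd (WW e) = Ordinal.toZFSet (ω : Ordinal.{1}) := by
      ext z
      rw [ZFSet.mem_sep, natOrd_iff]
      constructor
      · exact fun h => h.2
      · intro hz
        refine ⟨?_, hz⟩
        obtain ⟨n, rfl⟩ := mem_omega.1 hz
        exact nat_mem_WW he n
    rw [← h3]; exact h2
  sep' := by
    intro P hP a ha
    have S := DW.ts he
    have h1 : DW e (fun _ v => v 0 ∈ a ∧ P (v 0)) := S.and (S.mem (S.v 0) (DW.par e ha)) hP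
    obtain ⟨α, rfl⟩ := mem_WW.1 ha
    have h2 := compW e (P := fun z => z ∈ F e α ∧ P z) h1 (max α ω)
      (fun z _ hz => F_elem he hz.1)
    have h3 : ZFSet.sep (fun z => z ∈ F e α ∧ P z) (WW e) = ZFSet.sep P (F e α) := by
      ext z
      rw [ZFSet.mem_sep, ZFSet.mem_sep]
      constructor
      · exact fun h => h.2
      · exact fun h => ⟨WW_trans he _ (F_mem e α) h.1, h⟩
    rw [← h3]; exact h2
  repl' := by
    intro P hP a ha hu
    have S := DW.ts he
    have h1 : DW e (fun _ v => ∃ x, x ∈ a ∧ P x (v 0)) :=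
      S.exMem (DW.par e ha) (S.ds.rel2 (R := fun _ a b => P a b) hP (S.v 0) (S.v 1))
    have hsm := small_elems he ha
    choose f hf hfu using fun x : {x // x ∈ a} => hu x.1 x.2
    obtain ⟨γ, hγ⟩ := bounded_family (e := e) f (fun x => (hf x).1)
    have h2 := compW e (P := fun z => ∃ x, x ∈ a ∧ P x z) h1 γ (by
      rintro z hz ⟨x, hx, hxz⟩
      obtain ⟨η, hη, h⟩ := hγ ⟨x, hx⟩
      exact ⟨η, hη, by rw [h]; exact (hfu ⟨x, hx⟩ z ⟨hz, hxz⟩).symm⟩)
    exact ⟨_, h2, fun y => ZFSet.mem_sep⟩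

/-! ## ZFC -/

theorem sat_def {V : ZFSet.{1}} {D : (Unit → (ℕ → ZFSet.{1}) → Prop) → Prop}
    (S : TS (fun _ => V) D) (φ : SForm) : D (fun _ v => φ.Sat V v) := by
  induction φ with
  | mem i j => exact S.mem (S.v i) (S.v j)
  | eq i j => exact S.eq (S.v i) (S.v j)
  | neg φ ih => exact S.not ih
  | and φ ψ ih1 ih2 => exact S.and ih1 ih2
  | ex φ ih => exact S.ds.ex' ih

/-- `z` is the element of `x` with the least index. -/
def LI (z x : ZFSet.{1}) : Prop :=
  ∃ η, F e η = z ∧ F e η ∈ x ∧ ∀ η' < η, F e η' ∉ x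

theorem LI_def : DW e (fun _ v => LI e (v 0) (v 1)) := by
  have S := BD.ds e
  have h1 : BD e (fun _ w => ∃ η, True ∧ (F e η = F e (w 0) ∧ (F e η ∈ F e (w 1) ∧
      ∀ η', True → (η' < η → ¬ F e η' ∈ F e (w 1))))) := by
    refine S.ex (Q := fun _ η w => F e η = F e (w 0) ∧ (F e η ∈ F e (w 1) ∧
      ∀ η', True → (η' < η → ¬ F e η' ∈ F e (w 1)))) ?_
    refine S.and (BD.rel e BL.Q 0 1 0) (S.and (BD.rel e BL.E 0 2 0) ?_)
    exact S.all (Q := fun _ η' w => η' < w 0 → ¬ F e η' ∈ F e (w 2))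
      (S.imp (BD.rel e BL.lt 0 1 0) (S.not (BD.rel e BL.E 0 3 0)))
  refine S.congr h1 (fun i w _ => ?_)
  unfold LI
  simp only [true_and, forall_true_left]

theorem WW_ZFC {e : ℕ → ZFSet.{1}} (he : BT e) : IsTransModelZFC (WW e) := by
  have Z := WW_zm he
  have S := Z.ts
  refine ⟨Z.tr, ?_, ?_, ?_, ?_, ?_, ?_, ?_⟩
  · intro a ha b hb
    exact ⟨{a, b}, Z.upair_mem ha hb, fun x _ => ZFSet.mem_pair⟩
  · intro a ha
    refine ⟨ZFSet.sUnion a, Z.union' a ha, fun x _ => ?_⟩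
    rw [ZFSet.mem_sUnion]
    constructor
    · rintro ⟨z, hz, hx⟩; exact ⟨z, Z.mem_tr ha hz, hz, hx⟩
    · rintro ⟨z, _, hz, hx⟩; exact ⟨z, hz, hx⟩
  · intro a ha
    refine ⟨_, Z.power' a ha, fun x hx => ?_⟩
    rw [ZFSet.mem_sep]
    constructor
    · exact fun h y _ hy => h.2 hy
    · exact fun h => ⟨hx, fun y hy => h y (Z.mem_tr hx hy) hy⟩
  · refine ⟨_, Z.omega, ⟨∅, Z.empty_mem, ?_, fun x _ => ZFSet.notMem_empty x⟩, ?_⟩
    · have := nat_mem_omega.{1} 0
      simpa [nat] using this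
    · intro x hx hxω
      obtain ⟨n, rfl⟩ := mem_omega.1 hxω
      refine ⟨nat (n + 1), Z.nat_mem _, nat_mem_omega _, fun z _ => ?_⟩
      have h1 : nat.{1} (n + 1) = insert (nat n) (nat n) := by
        unfold nat
        rw [Nat.cast_succ, Ordinal.toZFSet_add_one]
      rw [h1, ZFSet.mem_insert_iff]
      tauto
  · intro φ v hv a ha
    have h1 : DW e (fun _ w => φ.Sat (WW e) (cons (w 0) (fun n => w (n + 1)))) :=
      S.congr (sat_def S φ) (fun i w _ => by rw [cons_tail])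
    refine ⟨_, Z.sepv (Q := fun x v => φ.Sat (WW e) (cons x v)) h1 hv ha, fun x _ => ?_⟩
    exact ZFSet.mem_sep
  · intro φ v hv a ha hu
    have h1 : DW e (fun _ w => φ.Sat (WW e) (cons (w 0) (cons (w 1) (fun n => w (n + 2))))) := by
      refine S.congr (sat_def S φ) (fun i w _ => ?_)
      have : cons (w 0) (cons (w 1) (fun n => w (n + 2))) = w := by
        funext n; rcases n with _ | _ | n <;> rfl
      rw [this]
    obtain ⟨b, hb, h2⟩ := Z.repl' (fun x y => φ.Sat (WW e) (cons x (cons y v)))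
      (Z.inst2 (Q := fun x y v => φ.Sat (WW e) (cons x (cons y v))) h1 hv) a ha
      (fun x hx => hu x (Z.mem_tr ha hx) hx)
    refine ⟨b, hb, fun y hy => ?_⟩
    rw [h2]
    constructor
    · rintro ⟨_, x, hx, h3⟩
      exact ⟨x, Z.mem_tr ha hx, hx, h3⟩
    · rintro ⟨x, _, hx, h3⟩
      exact ⟨hy, x, hx, h3⟩
  · intro a ha hne hdis
    have h1 : DW e (fun _ v => ∃ x, x ∈ a ∧ (v 0 ∈ x ∧ LI e (v 0) x)) :=
      S.exMem (Z.par a ha) (S.and (S.mem (S.v 1) (S.v 0))
        (S.ds.rel2 (R := fun _ a b => LI e a b) (LI_def e) (S.v 1) (S.v 0)))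
    refine ⟨_, Z.sep' (fun z => ∃ x, x ∈ a ∧ (z ∈ x ∧ LI e z x)) h1 _ (Z.union' a ha), ?_⟩
    intro x hx hxa
    obtain ⟨z0, hz0, hz0x⟩ := hne x hx hxa
    obtain ⟨η0, hη0⟩ := mem_WW.1 hz0
    have hex : ∃ η, F e η ∈ x := ⟨η0, by rw [hη0]; exact hz0x⟩
    -- the least index
    have hmin := WellFounded.min_mem (wellFounded_lt (α := Ordinal.{0})) {η | F e η ∈ x} hex
    have hmin' : ∀ ν, F e ν ∈ x →
        ¬ ν < WellFounded.min (wellFounded_lt (α := Ordinal.{0})) {η | F e η ∈ x} hex :=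
      fun ν hν => WellFounded.not_lt_min _ _ (by exact hν)
    set η := WellFounded.min (wellFounded_lt (α := Ordinal.{0})) {η | F e η ∈ x} hex
    refine ⟨F e η, ⟨F_mem e η, hmin, ?_⟩, ?_⟩
    · show F e η ∈ ZFSet.sep _ _
      rw [ZFSet.mem_sep, ZFSet.mem_sUnion]
      exact ⟨⟨x, hxa, hmin⟩, x, hxa, hmin, η, rfl, hmin, fun η' h1 h2 => hmin' η' h2 h1⟩
    · rintro z ⟨hz, hzx, hzc⟩
      have hzc' : z ∈ ZFSet.sep _ _ := hzc
      rw [ZFSet.mem_sep] at hzc'
      obtain ⟨_, x', hx'a, hzx', η', rfl, h3, h4⟩ := hzc'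
      have hxx : x = x' := hdis x hx x' (Z.mem_tr ha hx'a) hxa hx'a ⟨_, hz, hzx, hzx'⟩
      rw [← hxx] at h3 h4
      rcases lt_trichotomy η η' with h | h | h
      · exact absurd hmin (h4 _ h)
      · rw [h]
      · exact absurd h (hmin' _ h3)

end

end Pool.Agent.Work.MP_fbd45d_lc
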