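import Pool.Agent.Work.MP_fbd45d_lc.Theory

/-!
# The theory of all transitive models of ZFC + GCH
-/

namespace Pool.Agent.Work.MP_fbd45d_lc

universe u

open ZFSet (pair)
open Ordinal

/-- Transitive models of ZFC + GCH. -/
def IsK (V : ZFSet.{u}) : Prop := IsTransModelZFC V ∧ SatGCH V

/-- The formulas which are valid in all transitive models of ZFC + GCH. -/
def T0 : Set SForm :=
  {φ | ∀ V : ZFSet.{u}, IsK V → ∀ v : ℕ → ZFSet.{u}, (∀ n, v n ∈ V) → φ.Sat V v}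

theorem transfer {I : Type*} {Vf : I → ZFSet.{u}} (hall : ∀ V, IsK V → ∃ i, Vf i = V)
    {A : I → Prop} (hA : SD Vf (fun i _ => A i)) (hK : ∀ i, IsK (Vf i) → A i) (i0 : I)
    {v0 : ℕ → ZFSet.{u}} (hv0 : ∀ n, v0 n ∈ Vf i0) (hT : ∀ φ ∈ T0.{u}, φ.Sat (Vf i0) v0) :
    A i0 := by
  obtain ⟨φ, hφ⟩ := SD.iff.1 hA
  have h1 : φ ∈ T0.{u} := by
    intro V hV v hv
    obtain ⟨i, rfl⟩ := hall V hV
    exact (hφ i v hv).1 (hK i hV)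
  exact (hφ i0 v0 hv0).2 (hT φ h1)

/-- Set-theoretic description of infinite cardinals. -/
def ICard (V k : ZFSet.{u}) : Prop := InfOrd V k ∧ ∀ b, b ∈ k → ¬ SameSizeIn V b k

theorem TS.icard {I : Type*} {V : I → ZFSet.{u}} {D : (I → (ℕ → ZFSet.{u}) → Prop) → Prop}
    (S : TS V D) {s : I → (ℕ → ZFSet.{u}) → ZFSet.{u}} (hs : TmV V D s) :
    D (fun i v => ICard (V i) (s i v)) := by
  refine S.ds.rel1 (R := fun i k => ICard (V i) k) ?_ hs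
  exact S.and (S.infOrd (S.v 0)) (S.allMem (S.v 0) (S.not (S.sameSize (S.v 0) (S.v 1))))

theorem icard_iff {V : ZFSet.{u}} (hV : V.IsTransitive) {κ : Ordinal.{u}} :
    IsInfCard V κ ↔ κ.toZFSet ∈ V ∧ ICard V κ.toZFSet := by
  constructor
  · rintro ⟨h1, h2, h3⟩
    refine ⟨h1, (infOrd_iff hV h1).2 h2, ?_⟩
    intro b hb
    obtain ⟨β, hβ, rfl⟩ := Ordinal.mem_toZFSet_iff.1 hb
    exact h3 β hβ
  · rintro ⟨h1, h2, h3⟩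
    exact ⟨h1, (infOrd_iff hV h1).1 h2, fun β hβ =>
      h3 _ (Ordinal.toZFSet_mem_toZFSet_iff.2 hβ)⟩

theorem ICard.ord {V k : ZFSet.{u}} (h : ICard V k) : ∃ κ : Ordinal.{u}, k = κ.toZFSet := by
  obtain ⟨κ, rfl⟩ := (ZFSet.isOrdinal_iff_mem_range_toZFSet).1 h.1.1
  exact ⟨κ, rfl⟩

/-- First-order version of GCH. -/
def GCH' (V : ZFSet.{u}) : Prop :=
  ∀ k, k ∈ V → ICard V k → ∃ m, m ∈ V ∧ (k ∈ m ∧ (ICard V m ∧
    ((∀ n, n ∈ V → k ∈ n → ICard V n → m ⊆ n) ∧ ∃ p, p ∈ V ∧ ((∀ x, x ∈ V → (x ∈ p ↔ x ⊆ k)) ∧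
      SameSizeIn V p m))))

theorem gch_iff {V : ZFSet.{u}} (hV : V.IsTransitive) : SatGCH V ↔ GCH' V := by
  constructor
  · intro h k hk hc
    obtain ⟨κ, rfl⟩ := hc.ord
    obtain ⟨μ, h1, h2, h3, p, hp, h4, h5⟩ := h κ ((icard_iff hV).2 ⟨hk, hc⟩)
    have h2' := (icard_iff hV).1 h2
    refine ⟨μ.toZFSet, h2'.1, Ordinal.toZFSet_mem_toZFSet_iff.2 h1, h2'.2, ?_, p, hp, h4, h5⟩
    intro n hn hkn hcn
    obtain ⟨ν, rfl⟩ := hcn.ord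
    exact Ordinal.toZFSet_subset_toZFSet_iff.2
      (h3 ν (Ordinal.toZFSet_mem_toZFSet_iff.1 hkn) ((icard_iff hV).2 ⟨hn, hcn⟩))
  · intro h κ hκ
    have hκ' := (icard_iff hV).1 hκ
    obtain ⟨m, hm, h1, h2, h3, p, hp, h4, h5⟩ := h _ hκ'.1 hκ'.2
    obtain ⟨μ, rfl⟩ := h2.ord
    refine ⟨μ, Ordinal.toZFSet_mem_toZFSet_iff.1 h1, (icard_iff hV).2 ⟨hm, h2⟩, ?_, p, hp,
      h4, h5⟩
    intro ν hν hcν
    have hcν' := (icard_iff hV).1 hcν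
    exact Ordinal.toZFSet_subset_toZFSet_iff.1
      (h3 _ hcν'.1 (Ordinal.toZFSet_mem_toZFSet_iff.2 hν) hcν'.2)

theorem isK_upair {V : ZFSet.{u}} (hV : V.IsTransitive) {v0 : ℕ → ZFSet.{u}}
    (hv0 : ∀ n, v0 n ∈ V) (hT : ∀ φ ∈ T0.{u}, φ.Sat V v0) :
    ∀ a ∈ V, ∀ b ∈ V, ∃ c ∈ V, ∀ x ∈ V, x ∈ c ↔ x = a ∨ x = b := by
  let Vf : {V : ZFSet.{u} // V.IsTransitive} → ZFSet.{u} := fun i => i.1
  have hall : ∀ V, IsK V → ∃ i, Vf i = V := fun V hV => ⟨⟨V, hV.1.transitive⟩, rfl⟩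
  have S := SD.ds Vf
  have M : ∀ m n : ℕ, SD Vf (fun _ v => v m ∈ v n) := fun m n => FD.rel _ _ () m n 0
  refine transfer (A := fun i : {V : ZFSet.{u} // V.IsTransitive} =>
    ∀ a, a ∈ i.1 → ∀ b, b ∈ i.1 → ∃ c, c ∈ i.1 ∧ ∀ x, x ∈ i.1 → (x ∈ c ↔ x = a ∨ x = b)) hall
    ?_ (fun i hi => hi.1.pairing) ⟨V, hV⟩ hv0 hT
  exact S.all (S.all (S.ex (S.all (S.iff (M 0 1) (S.or (S.eq' 0 3) (S.eq' 0 2))))))

theorem isK_of_T0 {V : ZFSet.{u}} (hV : V.IsTransitive) {v0 : ℕ → ZFSet.{u}}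
    (hv0 : ∀ n, v0 n ∈ V) (hT : ∀ φ ∈ T0.{u}, φ.Sat V v0) : IsK V := by
  have hp := isK_upair hV hv0 hT
  have hup : ∀ a ∈ V, ∀ b ∈ V, ({a, b} : ZFSet.{u}) ∈ V := by
    intro a ha b hb
    obtain ⟨c, hc, h1⟩ := hp a ha b hb
    have : ({a, b} : ZFSet.{u}) = c := by
      ext x
      rw [ZFSet.mem_pair]
      constructor
      · rintro (rfl | rfl)
        · exact (h1 _ ha).2 (Or.inl rfl)
        · exact (h1 _ hb).2 (Or.inr rfl)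
      · intro hx
        exact (h1 x (hV _ hc hx)).1 hx
    rw [this]
    exact hc
  let I : Type (u + 1) := {V : ZFSet.{u} // V.IsTransitive ∧
    ∀ a ∈ V, ∀ b ∈ V, ({a, b} : ZFSet.{u}) ∈ V}
  let Vf : I → ZFSet.{u} := fun i => i.1
  have hall : ∀ V, IsK V → ∃ i, Vf i = V := fun V hV =>
    ⟨⟨V, hV.1.transitive, hV.1.upair⟩, rfl⟩
  have S : TS Vf (SD Vf) := SD.ts (fun i => i.2.1) (fun i => i.2.2)
  let i0 : I := ⟨V, hV, hup⟩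
  have tf : ∀ {A : I → Prop}, SD Vf (fun i _ => A i) → (∀ i, IsK (Vf i) → A i) → A i0 :=
    fun hA hK => transfer hall hA hK i0 hv0 hT
  refine ⟨⟨hV, hp, ?_, ?_, ?_, ?_, ?_, ?_⟩, ?_⟩
  · -- union
    refine tf (A := fun i => ∀ a, a ∈ Vf i → ∃ c, c ∈ Vf i ∧ ∀ x, x ∈ Vf i →
      (x ∈ c ↔ ∃ y, y ∈ Vf i ∧ (y ∈ a ∧ x ∈ y))) ?_ (fun i hi => hi.1.union)
    exact S.all (S.ex (S.all (S.iff (S.mem (S.v 0) (S.v 1)) (S.ex (S.and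
      (S.mem (S.v 0) (S.v 3)) (S.mem (S.v 1) (S.v 0)))))))
  · -- power set
    refine tf (A := fun i => ∀ a, a ∈ Vf i → ∃ c, c ∈ Vf i ∧ ∀ x, x ∈ Vf i →
      (x ∈ c ↔ ∀ y, y ∈ Vf i → y ∈ x → y ∈ a)) ?_ (fun i hi => hi.1.powerset)
    exact S.all (S.ex (S.all (S.iff (S.mem (S.v 0) (S.v 1)) (S.all (S.imp
      (S.mem (S.v 0) (S.v 1)) (S.mem (S.v 0) (S.v 3)))))))
  · -- infinity
    refine tf (A := fun i => ∃ c, c ∈ Vf i ∧ ((∃ e, e ∈ Vf i ∧ (e ∈ c ∧ ∀ x, x ∈ Vf i →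
      ¬ x ∈ e)) ∧ ∀ x, x ∈ Vf i → x ∈ c → ∃ y, y ∈ Vf i ∧ (y ∈ c ∧ ∀ z, z ∈ Vf i →
        (z ∈ y ↔ z ∈ x ∨ z = x)))) ?_ (fun i hi => hi.1.infinity)
    exact S.ex (S.and (S.ex (S.and (S.mem (S.v 0) (S.v 1)) (S.all (S.not
      (S.mem (S.v 0) (S.v 1)))))) (S.all (S.imp (S.mem (S.v 0) (S.v 1)) (S.ex (S.and
      (S.mem (S.v 0) (S.v 2)) (S.all (S.iff (S.mem (S.v 0) (S.v 1)) (S.or
      (S.mem (S.v 0) (S.v 2)) (S.eq (S.v 0) (S.v 2))))))))))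
  · -- separation
    intro φ
    refine tf (A := fun i => ∀ v : ℕ → ZFSet.{u}, (∀ n, v n ∈ Vf i) → ∀ a, a ∈ Vf i →
      ∃ b, b ∈ Vf i ∧ ∀ x, x ∈ Vf i → (x ∈ b ↔ x ∈ a ∧ φ.Sat (Vf i) (cons x v))) ?_
      (fun i hi => hi.1.separation φ)
    refine S.ds.closure ?_
    refine S.all (S.ex (S.all (S.iff (S.mem (S.v 0) (S.v 1)) (S.and (S.mem (S.v 0) (S.v 2))
      ?_))))
    have h1 : SD Vf (fun i v => φ.Sat (Vf i) v) := SD.iff.2 ⟨φ, fun _ _ _ => Iff.rfl⟩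
    have h2 := S.ds.rename h1 (fun n => Nat.casesOn n 0 (fun n => n + 3))
    refine S.congr h2 (fun i v _ => ?_)
    have : (fun n => v (Nat.casesOn n 0 (fun n => n + 3))) =
        cons (v 0) (fun n => v (n + 1 + 1 + 1)) := by
      funext n; cases n <;> rfl
    rw [this]
  · -- replacement
    intro φ
    refine tf (A := fun i => ∀ v : ℕ → ZFSet.{u}, (∀ n, v n ∈ Vf i) → ∀ a, a ∈ Vf i →
      (∀ x, x ∈ Vf i → x ∈ a → ∃! y, y ∈ Vf i ∧ φ.Sat (Vf i) (cons x (cons y v))) →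
      ∃ b, b ∈ Vf i ∧ ∀ y, y ∈ Vf i → (y ∈ b ↔ ∃ x, x ∈ Vf i ∧ (x ∈ a ∧
        φ.Sat (Vf i) (cons x (cons y v))))) ?_
      (fun i hi => hi.1.replacement φ)
    have h1 : SD Vf (fun i v => φ.Sat (Vf i) v) := SD.iff.2 ⟨φ, fun _ _ _ => Iff.rfl⟩
    refine S.ds.closure ?_
    refine S.all (S.imp (S.all (S.imp (S.mem (S.v 0) (S.v 1)) (S.exu ?_)))
      (S.ex (S.all (S.iff (S.mem (S.v 0) (S.v 1)) (S.ex (S.and (S.mem (S.v 0) (S.v 3)) ?_))))))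
    · have h2 := S.ds.rename h1 (fun n => Nat.casesOn n 1 (fun n => Nat.casesOn n 0
        (fun n => n + 3)))
      refine S.congr h2 (fun i v _ => ?_)
      have : (fun n => v (Nat.casesOn n 1 (fun n => Nat.casesOn n 0 (fun n => n + 3)))) =
          cons (v 1) (cons (v 0) (fun n => v (n + 1 + 1 + 1))) := by
        funext n; rcases n with _ | _ | n <;> rfl
      rw [this]
    · have h2 := S.ds.rename h1 (fun n => Nat.casesOn n 0 (fun n => Nat.casesOn n 1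
        (fun n => n + 4)))
      refine S.congr h2 (fun i v _ => ?_)
      have : (fun n => v (Nat.casesOn n 0 (fun n => Nat.casesOn n 1 (fun n => n + 4)))) =
          cons (v 0) (cons (v 1) (fun n => v (n + 1 + 1 + 1 + 1))) := by
        funext n; rcases n with _ | _ | n <;> rfl
      rw [this]
  · -- choice
    refine tf (A := fun i => ∀ a, a ∈ Vf i → (∀ x, x ∈ Vf i → x ∈ a → ∃ z, z ∈ Vf i ∧ z ∈ x) →
      (∀ x, x ∈ Vf i → ∀ y, y ∈ Vf i → x ∈ a → y ∈ a →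
        (∃ z, z ∈ Vf i ∧ (z ∈ x ∧ z ∈ y)) → x = y) →
      ∃ c, c ∈ Vf i ∧ ∀ x, x ∈ Vf i → x ∈ a → ∃! z, z ∈ Vf i ∧ (z ∈ x ∧ z ∈ c)) ?_
      (fun i hi => hi.1.choice)
    refine S.all (S.imp (S.all (S.imp (S.mem (S.v 0) (S.v 1)) (S.ex (S.mem (S.v 0) (S.v 1)))))
      (S.imp ?_ ?_))
    · exact S.all (S.all (S.imp (S.mem (S.v 1) (S.v 2)) (S.imp (S.mem (S.v 0) (S.v 2))
        (S.imp (S.ex (S.and (S.mem (S.v 0) (S.v 2)) (S.mem (S.v 0) (S.v 1))))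
        (S.eq (S.v 1) (S.v 0))))))
    · exact S.ex (S.all (S.imp (S.mem (S.v 0) (S.v 2)) (S.exu (S.and (S.mem (S.v 0) (S.v 1))
        (S.mem (S.v 0) (S.v 2))))))
  · -- GCH
    rw [gch_iff hV]
    refine tf (A := fun i => GCH' (Vf i)) ?_ (fun i hi => (gch_iff i.2.1).1 hi.2)
    unfold GCH'
    exact S.all (S.imp (S.icard (S.v 0)) (S.ex (S.and (S.mem (S.v 1) (S.v 0)) (S.and
      (S.icard (S.v 0)) (S.and (S.all (S.imp (S.mem (S.v 2) (S.v 0)) (S.imp (S.icard (S.v 0))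
      (S.subset (S.v 1) (S.v 0))))) (S.ex (S.and (S.all (S.iff (S.mem (S.v 0) (S.v 1))
      (S.subset (S.v 0) (S.v 3)))) (S.sameSize (S.v 0) (S.v 1)))))))))

end Pool.Agent.Work.MP_fbd45d_lc
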