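import Pool.Agent.Work.MP_fbd45d_lc.Key

/-!
# Countable transitive models of ZFC + GCH (Löwenheim–Skolem and Mostowski collapse)
-/

namespace Pool.Agent.Work.MP_fbd45d_lc

universe u

open ZFSet (pair)
open Ordinal

theorem SForm.sat_bd (φ : SForm) : ∃ N : ℕ, ∀ (V : ZFSet.{u}) (v w : ℕ → ZFSet.{u}),
    (∀ n < N, v n = w n) → (φ.Sat V v ↔ φ.Sat V w) := by
  refine ⟨φ.toFm.bd, fun V v w h => ?_⟩
  rw [← SForm.sat_toFm, ← SForm.sat_toFm]
  exact Fm.sat_bd _ _ _ v w h

section Hull

variable (W d : ZFSet.{u})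

/-- The assignment given by a list. -/
def ofList (l : List ZFSet.{u}) (n : ℕ) : ZFSet.{u} := l.getD n d

open Classical in
/-- Skolem functions. -/
noncomputable def sk (p : SForm × List ZFSet.{u}) : ZFSet.{u} :=
  if h : ∃ a, a ∈ W ∧ p.1.Sat W (cons a (ofList d p.2)) then h.choose else d

theorem sk_mem (hd : d ∈ W) (p : SForm × List ZFSet.{u}) : sk W d p ∈ W := by
  unfold sk
  split
  · next h => exact h.choose_spec.1
  · exact hd

theorem sk_spec (φ : SForm) (l : List ZFSet.{u})
    (h : ∃ a, a ∈ W ∧ φ.Sat W (cons a (ofList d l))) :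
    φ.Sat W (cons (sk W d (φ, l)) (ofList d l)) := by
  unfold sk
  rw [dif_pos h]
  exact h.choose_spec.2

/-- Stages of the Skolem hull. -/
noncomputable def hull (Z : Set ZFSet.{u}) : ℕ → Set ZFSet.{u}
  | 0 => Z
  | n + 1 => hull Z n ∪ sk W d '' {p | ∀ x ∈ p.2, x ∈ hull Z n}

theorem hull_mono (Z : Set ZFSet.{u}) {m n : ℕ} (h : m ≤ n) : hull W d Z m ⊆ hull W d Z n := by
  induction h with
  | refl => exact le_rfl
  | step _ ih => exact ih.trans Set.subset_union_left

theorem hull_countable {Z : Set ZFSet.{u}} (hZ : Z.Countable) (n : ℕ) :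
    (hull W d Z n).Countable := by
  induction n with
  | zero => exact hZ
  | succ n ih =>
    refine ih.union (Set.Countable.image ?_ _)
    have := ih.to_subtype
    have h1 : Set.Countable (Set.range (fun p : SForm × List (hull W d Z n) =>
        ((p.1, p.2.map Subtype.val) : SForm × List ZFSet.{u}))) := Set.countable_range _
    refine h1.mono ?_
    rintro ⟨φ, l⟩ hl
    refine ⟨(φ, l.attach.map (fun x => ⟨x.1, hl x.1 x.2⟩)), ?_⟩
    simp [List.map_map, Function.comp_def]

theorem hull_subset {Z : Set ZFSet.{u}} (hZ : ∀ x ∈ Z, x ∈ W) (hd : d ∈ W) (n : ℕ) :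
    ∀ x ∈ hull W d Z n, x ∈ W := by
  induction n with
  | zero => exact hZ
  | succ n ih =>
    rintro x (hx | ⟨p, _, rfl⟩)
    · exact ih x hx
    · exact sk_mem W d hd p

/-- A countable elementary submodel. -/
theorem exists_hull (Z : Set ZFSet.{u}) (hZc : Z.Countable) (hZ : ∀ x ∈ Z, x ∈ W) (hd : d ∈ Z) :
    ∃ M : ZFSet.{u}, M ⊆ W ∧ (M : Set ZFSet.{u}).Countable ∧ (∀ x ∈ Z, x ∈ M) ∧
      ∀ (φ : SForm) (v : ℕ → ZFSet.{u}), (∀ n, v n ∈ M) → (φ.Sat M v ↔ φ.Sat W v) := by
  have hdW := hZ d hd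
  let M : ZFSet.{u} := ZFSet.sep (fun x => ∃ n, x ∈ hull W d Z n) W
  have hM : ∀ x, x ∈ M ↔ ∃ n, x ∈ hull W d Z n := by
    intro x
    rw [ZFSet.mem_sep]
    constructor
    · exact fun h => h.2
    · rintro ⟨n, h⟩
      exact ⟨hull_subset W d hZ hdW n x h, n, h⟩
  refine ⟨M, ZFSet.sep_subset, ?_, fun x hx => (hM x).2 ⟨0, hx⟩, ?_⟩
  · have : (M : Set ZFSet.{u}) = ⋃ n, hull W d Z n := by
      ext x
      simp only [Set.mem_iUnion]
      exact hM x
    rw [this]
    exact Set.countable_iUnion (hull_countable W d hZc)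
  · intro φ
    induction φ with
    | mem i j => intro v _; rfl
    | eq i j => intro v _; rfl
    | neg φ ih => intro v hv; simp only [SForm.Sat, ih v hv]
    | and φ ψ ih1 ih2 => intro v hv; simp only [SForm.Sat, ih1 v hv, ih2 v hv]
    | ex φ ih =>
      intro v hv
      constructor
      · rintro ⟨a, ha, h⟩
        exact ⟨a, ZFSet.sep_subset ha, (ih _ (cons_dom (P := fun x => x ∈ M) ha hv)).1 h⟩
      · intro hex
        obtain ⟨N, hN⟩ := φ.sat_bd
        -- the list of the first values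
        let l : List ZFSet.{u} := (List.range N).map v
        have hl : ∀ n < N, ofList d l n = v n := by
          intro n hn
          simp [ofList, l, List.getD, hn]
        have hcong : ∀ a, (φ.Sat W (cons a v) ↔ φ.Sat W (cons a (ofList d l))) := by
          intro a
          refine hN W _ _ (fun n hn => ?_)
          cases n with
          | zero => rfl
          | succ n => exact (hl n (by omega)).symm
        have hex' : ∃ a, a ∈ W ∧ φ.Sat W (cons a (ofList d l)) := by
          obtain ⟨a, ha, h⟩ := hex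
          exact ⟨a, ha, (hcong a).1 h⟩
        have h1 := sk_spec W d φ l hex'
        have h2 := (hcong _).2 h1
        have hbd : ∃ k, ∀ x ∈ l, x ∈ hull W d Z k := by
          have : ∀ l' : List ZFSet.{u}, (∀ x ∈ l', x ∈ M) → ∃ k, ∀ x ∈ l', x ∈ hull W d Z k := by
            intro l'
            induction l' with
            | nil => intro _; exact ⟨0, by simp⟩
            | cons a l' ih =>
              intro h
              obtain ⟨k, hk⟩ := ih (fun x hx => h x (List.mem_cons_of_mem _ hx))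
              obtain ⟨k', hk'⟩ := (hM a).1 (h a List.mem_cons_self)
              refine ⟨max k k', ?_⟩
              intro x hx
              rcases List.mem_cons.1 hx with rfl | hx
              · exact hull_mono W d Z (le_max_right _ _) hk'
              · exact hull_mono W d Z (le_max_left _ _) (hk x hx)
          refine this l (fun x hx => ?_)
          simp only [l, List.mem_map] at hx
          obtain ⟨n, _, rfl⟩ := hx
          exact hv n
        obtain ⟨k, hk⟩ := hbd
        have hmem : sk W d (φ, l) ∈ M := (hM _).2 ⟨k + 1, Or.inr ⟨(φ, l), hk, rfl⟩⟩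
        exact ⟨_, hmem, (ih _ (cons_dom (P := fun x => x ∈ M) hmem hv)).2 h2⟩

end Hull

/-! ## Mostowski collapse -/

/-- The Mostowski collapse of `M`. -/
noncomputable def coll (M x : ZFSet.{u}) : ZFSet.{u} :=
  ZFSet.range (fun y : (ZFSet.sep (fun z => z ∈ M) x : ZFSet.{u}) => coll M y.1)
termination_by x
decreasing_by exact (ZFSet.mem_sep.1 y.2).1

theorem mem_coll {M x z : ZFSet.{u}} : z ∈ coll M x ↔ ∃ y, y ∈ x ∧ y ∈ M ∧ coll M y = z := by
  rw [coll, ZFSet.mem_range]
  constructor
  · rintro ⟨⟨y, hy⟩, h⟩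
    rw [ZFSet.mem_sep] at hy
    exact ⟨y, hy.1, hy.2, h⟩
  · rintro ⟨y, h1, h2, h⟩
    exact ⟨⟨y, ZFSet.mem_sep.2 ⟨h1, h2⟩⟩, h⟩

theorem coll_inj {M : ZFSet.{u}}
    (hext : ∀ x ∈ M, ∀ y ∈ M, (∀ z ∈ M, z ∈ x ↔ z ∈ y) → x = y) :
    ∀ x : ZFSet.{u}, ∀ y, x ∈ M → y ∈ M → coll M x = coll M y → x = y := by
  intro x
  induction x using ZFSet.inductionOn with
  | h x ih =>
    intro y hx hy h
    refine hext x hx y hy (fun z hz => ?_)
    constructor
    · intro hzx
      have h1 : coll M z ∈ coll M y := by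
        rw [← h]; exact mem_coll.2 ⟨z, hzx, hz, rfl⟩
      obtain ⟨z', hz'y, hz', h2⟩ := mem_coll.1 h1
      rw [ih z hzx z' hz hz' h2.symm]
      exact hz'y
    · intro hzy
      have h1 : coll M z ∈ coll M x := by
        rw [h]; exact mem_coll.2 ⟨z, hzy, hz, rfl⟩
      obtain ⟨z', hz'x, hz', h2⟩ := mem_coll.1 h1
      rw [← ih z' hz'x z hz' hz h2]
      exact hz'x

theorem exists_countable_model {W : ZFSet.{u}} (hW : IsK W) {t : ZFSet.{u}}
    (ht : t.IsTransitive) (htc : (t : Set ZFSet.{u}).Countable) (htW : t ⊆ W) :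
    ∃ V : ZFSet.{u}, IsK V ∧ (V : Set ZFSet.{u}).Countable ∧ t ⊆ V := by
  obtain ⟨d, hd⟩ := hW.1.nonempty
  obtain ⟨M, hMW, hMc, hZM, hM⟩ := exists_hull W d (insert d (t : Set ZFSet.{u}))
    (htc.insert d) (by
      rintro x (rfl | hx)
      · exact hd
      · exact htW hx) (Set.mem_insert _ _)
  have hdM : d ∈ M := hZM d (Set.mem_insert _ _)
  have hext : ∀ x ∈ M, ∀ y ∈ M, (∀ z ∈ M, z ∈ x ↔ z ∈ y) → x = y := by
    have key : ∀ x ∈ M, ∀ y ∈ M, (∀ z ∈ M, z ∈ x → z ∈ y) → ∀ z, z ∈ x → z ∈ y := by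
      intro x hx y hy h z hz
      by_contra hzy
      have h1 := (hM (SForm.ex (SForm.and (SForm.mem 0 1) (SForm.neg (SForm.mem 0 2))))
        (cons x (fun _ => y)) (cons_dom (P := fun x => x ∈ M) hx (fun _ => hy))).2
        ⟨z, hW.1.transitive _ (hMW hx) hz, hz, hzy⟩
      obtain ⟨z', hz', h2, h3⟩ := h1
      exact h3 (h z' hz' h2)
    intro x hx y hy h
    ext z
    exact ⟨fun hz => key x hx y hy (fun z hz hzx => (h z hz).1 hzx) z hz,
      fun hz => key y hy x hx (fun z hz hzx => (h z hz).2 hzx) z hz⟩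
  have hinj := coll_inj hext
  let V : ZFSet.{u} := img (coll M) M
  have hmV : ∀ x ∈ M, coll M x ∈ V := fun x hx => mem_img.2 ⟨x, hx, rfl⟩
  have hVt : V.IsTransitive := by
    intro y hy z hz
    obtain ⟨x, hx, rfl⟩ := mem_img.1 hy
    obtain ⟨x', _, hx', rfl⟩ := mem_coll.1 hz
    exact hmV x' hx'
  have hmem : ∀ x ∈ M, ∀ y ∈ M, (coll M x ∈ coll M y ↔ x ∈ y) := by
    intro x hx y hy
    constructor
    · intro h
      obtain ⟨z, hzy, hz, h1⟩ := mem_coll.1 h
      rw [← hinj z x hz hx h1]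
      exact hzy
    · intro h
      exact mem_coll.2 ⟨x, h, hx, rfl⟩
  have hsat : ∀ (φ : SForm) (v : ℕ → ZFSet.{u}), (∀ n, v n ∈ M) →
      (φ.Sat V (fun n => coll M (v n)) ↔ φ.Sat M v) := by
    intro φ
    induction φ with
    | mem i j => intro v hv; exact hmem _ (hv i) _ (hv j)
    | eq i j =>
      intro v hv
      constructor
      · intro h; exact hinj _ _ (hv i) (hv j) h
      · intro h
        have h' : v i = v j := h
        simp only [SForm.Sat, h']
    | neg φ ih => intro v hv; simp only [SForm.Sat, ih v hv]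
    | and φ ψ ih1 ih2 => intro v hv; simp only [SForm.Sat, ih1 v hv, ih2 v hv]
    | ex φ ih =>
      intro v hv
      have e : ∀ a, (fun n => coll M (cons a v n)) = cons (coll M a) (fun n => coll M (v n)) := by
        intro a; funext n; cases n <;> rfl
      constructor
      · rintro ⟨a, ha, h⟩
        obtain ⟨x, hx, rfl⟩ := mem_img.1 ha
        refine ⟨x, hx, ?_⟩
        rw [← ih _ (cons_dom (P := fun x => x ∈ M) hx hv), e]
        exact h
      · rintro ⟨x, hx, h⟩
        refine ⟨coll M x, hmV x hx, ?_⟩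
        rw [← e, ih _ (cons_dom (P := fun x => x ∈ M) hx hv)]
        exact h
  refine ⟨V, ?_, ?_, ?_⟩
  · refine isK_of_T0 hVt (v0 := fun _ => coll M d) (fun _ => hmV d hdM) ?_
    intro φ hφ
    rw [hsat φ (fun _ => d) (fun _ => hdM), hM φ _ (fun _ => hdM)]
    exact hφ W hW _ (fun _ => hd)
  · have : (V : Set ZFSet.{u}) = coll M '' (M : Set ZFSet.{u}) := by
      ext x
      simp only [Set.mem_image]
      exact mem_img
    rw [this]
    exact hMc.image _
  · have : ∀ x : ZFSet.{u}, x ∈ t → coll M x = x := by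
      intro x
      induction x using ZFSet.inductionOn with
      | h x ih =>
        intro hx
        ext z
        rw [mem_coll]
        constructor
        · rintro ⟨y, hyx, _, rfl⟩
          rw [ih y hyx (ht _ hx hyx)]
          exact hyx
        · intro hz
          have hzt := ht _ hx hz
          exact ⟨z, hz, hZM z (Set.mem_insert_of_mem _ hzt), ih z hz hzt⟩
    intro x hx
    rw [← this x hx]
    exact hmV x (hZM x (Set.mem_insert_of_mem _ hx))

end Pool.Agent.Work.MP_fbd45d_lc
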