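import Pool.Agent.Work.MP_fbd45d_lc.VSide

/-!
# Doubling and shifting of ordinals inside a model
-/

namespace Pool.Agent.Work.MP_fbd45d_lc

universe u

open ZFSet (pair)
open Ordinal

open Classical in
theorem TS.ite {I : Type*} {V : I → ZFSet.{u}} {D : (I → (ℕ → ZFSet.{u}) → Prop) → Prop}
    (S : TS V D) {P : I → (ℕ → ZFSet.{u}) → Prop} (hP : D P)
    {s t : I → (ℕ → ZFSet.{u}) → ZFSet.{u}} (hs : TmV V D s) (ht : TmV V D t) :
    TmV V D (fun i v => if P i v then s i v else t i v) := by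
  refine ⟨fun i v hv => ?_, ?_⟩
  · show (if P i v then s i v else t i v) ∈ V i
    split
    · exact hs.closed i v hv
    · exact ht.closed i v hv
  · have hP' : D (fun i v => P i (fun n => v (n + 1))) := S.ds.rename hP (fun n => n + 1)
    refine S.congr (S.or (S.and hP' hs.graph) (S.and (S.not hP') ht.graph)) (fun i v _ => ?_)
    by_cases h : P i (fun n => v (n + 1))
    · simp [h]
    · simp [h]

theorem ZM.ts_omega {V : ZFSet.{u}} {D : (Unit → (ℕ → ZFSet.{u}) → Prop) → Prop} (Z : ZM V D) :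
    TmV (fun _ => V) D (fun _ _ => Ordinal.toZFSet (ω : Ordinal.{u})) := Z.par _ Z.omega

theorem isBij_gr {F : ZFSet.{u} → ZFSet.{u}} {a b : ZFSet.{u}} (h1 : ∀ x ∈ a, F x ∈ b)
    (h2 : ∀ x ∈ a, ∀ x' ∈ a, F x = F x' → x = x') (h3 : ∀ y ∈ b, ∃ x ∈ a, F x = y) :
    IsBij (gr F a) a b := by
  refine ⟨?_, ?_, ?_⟩
  · intro p hp
    obtain ⟨x, hx, rfl⟩ := mem_gr.1 hp
    exact ⟨x, hx, F x, h1 x hx, rfl⟩
  · intro x hx
    exact ⟨F x, pair_mem_gr.2 ⟨hx, rfl⟩, fun y hy => (pair_mem_gr.1 hy).2.symm⟩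
  · intro y hy
    obtain ⟨x, hx, rfl⟩ := h3 y hy
    refine ⟨x, pair_mem_gr.2 ⟨hx, rfl⟩, fun x' hx' => ?_⟩
    obtain ⟨h4, h5⟩ := pair_mem_gr.1 hx'
    exact h2 x' h4 x hx h5

theorem sUnion_nat_succ (n : ℕ) : ZFSet.sUnion (nat.{u} (n + 1)) = nat n := by
  ext z
  rw [ZFSet.mem_sUnion]
  constructor
  · rintro ⟨w, hw, hz⟩
    obtain ⟨a, ha, rfl⟩ := Ordinal.mem_toZFSet_iff.1 hw
    obtain ⟨m, rfl⟩ := Ordinal.lt_omega0.1 (ha.trans (Ordinal.natCast_lt_omega0 _))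
    obtain ⟨b, hb, rfl⟩ := Ordinal.mem_toZFSet_iff.1 hz
    refine Ordinal.toZFSet_mem_toZFSet_iff.2 (lt_of_lt_of_le hb ?_)
    have : m < n + 1 := by exact_mod_cast ha
    exact_mod_cast Nat.lt_succ_iff.1 this
  · intro hz
    exact ⟨nat n, nat_mem_nat.2 (Nat.lt_succ_self n), hz⟩

section

variable {V : ZFSet.{u}} {D : (Unit → (ℕ → ZFSet.{u}) → Prop) → Prop}

theorem ZM.tmSucc (Z : ZM V D) {s : Unit → (ℕ → ZFSet.{u}) → ZFSet.{u}}
    (hs : TmV (fun _ => V) D s) : TmV (fun _ => V) D (fun _ v => insert (s () v) (s () v)) :=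
  Z.tmInsert hs hs

theorem ZM.memWF (V X : ZFSet.{u}) : ZM.WFIn V (fun x y => x ∈ y) X := by
  rintro Y _ _ ⟨y, hy⟩
  obtain ⟨x, hx, h⟩ := ZFSet.regularity Y (by rintro rfl; simp at hy)
  refine ⟨x, hx, fun y hy hyx => ?_⟩
  have : y ∈ Y ∩ x := ZFSet.mem_inter.2 ⟨hy, hyx⟩
  rw [h] at this
  simp at this

/-- Internal doubling. -/
theorem ZM.double (Z : ZM V D) {κ : Ordinal.{u}} (hκ : κ.toZFSet ∈ V) :
    ∃ g : ZFSet.{u} → ZFSet.{u}, gr g κ.toZFSet ∈ V ∧
      ∀ ξ < κ, g ξ.toZFSet = (2 * ξ).toZFSet := by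
  have hR : D (fun _ v => v 0 ∈ v 1) := Z.ts.mem (Z.ts.v 0) (Z.ts.v 1)
  have hh : TmV (fun _ => V) D (fun _ v => ZFSet.sUnion (img (fun y =>
      insert (insert y y) (insert y y)) (v 0))) :=
    Z.tmsUnion (Z.tmImg (f := fun y _ => insert (insert y y) (insert y y))
      (Z.tmSucc (s := fun _ v => insert (v 0) (v 0)) (Z.tmSucc (Z.ts.v 0))) (Z.ts.v 0))
  obtain ⟨g, hg, hgx⟩ := Z.recursion (X := κ.toZFSet) (R := fun x y => x ∈ y)
    (h := fun s => ZFSet.sUnion (img (fun y => insert (insert y y) (insert y y)) s))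
    hκ hR (ZM.memWF _ _) hh
  refine ⟨g, hg, ?_⟩
  intro ξ
  induction ξ using WellFoundedLT.induction with
  | _ ξ ih =>
    intro hξ
    rw [(hgx _ (Ordinal.toZFSet_mem_toZFSet_iff.2 hξ)).2]
    have e : ∀ η : Ordinal.{u}, insert (insert η.toZFSet η.toZFSet)
        (insert η.toZFSet η.toZFSet) = (η + 1 + 1).toZFSet := by
      intro η
      rw [Ordinal.toZFSet_add_one, Ordinal.toZFSet_add_one]
    have h2 : (2 : Ordinal.{u}) ≠ 0 := by norm_num
    have e2 : ∀ η : Ordinal.{u}, 2 * (η + 1) = 2 * η + 1 + 1 := by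
      intro η
      rw [mul_add, mul_one, add_assoc, one_add_one_eq_two]
    ext z
    rw [ZFSet.mem_sUnion]
    constructor
    · rintro ⟨w, hw, hz⟩
      obtain ⟨y, hy, rfl⟩ := mem_img.1 hw
      obtain ⟨x, hx, rfl⟩ := mem_img.1 hy
      rw [ZFSet.mem_sep] at hx
      obtain ⟨η, hη, rfl⟩ := Ordinal.mem_toZFSet_iff.1 hx.2
      rw [ih η hη (hη.trans hξ), e] at hz
      obtain ⟨ζ, hζ, rfl⟩ := Ordinal.mem_toZFSet_iff.1 hz
      rw [Ordinal.toZFSet_mem_toZFSet_iff]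
      rw [← e2] at hζ
      refine lt_of_lt_of_le hζ ?_
      have : η + 1 ≤ ξ := Order.add_one_le_of_lt hη
      gcongr
    · intro hz
      obtain ⟨ζ, hζ, rfl⟩ := Ordinal.mem_toZFSet_iff.1 hz
      have h3 : ζ / 2 < ξ := (Ordinal.lt_mul_iff_div_lt h2).1 hζ
      refine ⟨(2 * (ζ / 2) + 1 + 1).toZFSet, mem_img.2 ⟨(2 * (ζ / 2)).toZFSet, mem_img.2
        ⟨(ζ / 2).toZFSet, ZFSet.mem_sep.2 ⟨Ordinal.toZFSet_mem_toZFSet_iff.2 (h3.trans hξ),
          Ordinal.toZFSet_mem_toZFSet_iff.2 h3⟩, ih _ h3 (h3.trans hξ)⟩, e _⟩, ?_⟩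
      rw [Ordinal.toZFSet_mem_toZFSet_iff]
      have := Ordinal.lt_mul_div_add ζ h2
      rw [add_assoc, one_add_one_eq_two]
      exact this

open Classical in
/-- Infinite cardinals of the model are limit ordinals. -/
theorem ZM.card_limit (Z : ZM V D) {κ : Ordinal.{u}} (hκ : IsInfCard V κ) {ξ : Ordinal.{u}}
    (hξ : ξ < κ) : ξ + 1 < κ := by
  by_contra hcon
  have hle : κ ≤ ξ + 1 := not_lt.1 hcon
  have hκe : κ = ξ + 1 := le_antisymm hle (Order.add_one_le_of_lt hξ)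
  have hωξ : ω ≤ ξ := by
    have h1 : ω ≤ ξ + 1 := by rw [← hκe]; exact hκ.2.1
    rcases h1.lt_or_eq with h1 | h1
    · exact Order.le_of_lt_add_one h1
    · exfalso
      have h2 : ξ < ω := by rw [h1]; exact lt_add_one ξ
      obtain ⟨n, rfl⟩ := Ordinal.lt_omega0.1 h2
      have h3 : ((n + 1 : ℕ) : Ordinal.{u}) < ω := Ordinal.natCast_lt_omega0 _
      rw [h1] at h3
      push_cast at h3
      exact lt_irrefl _ h3
  have hξV : ξ.toZFSet ∈ V := Z.mem_tr hκ.1 (Ordinal.toZFSet_mem_toZFSet_iff.2 hξ)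
  let F : ZFSet.{u} → ZFSet.{u} := fun x => if x = ∅ then ξ.toZFSet else
    if x ∈ Ordinal.toZFSet (ω : Ordinal.{u}) then ZFSet.sUnion x else x
  have hF : TmV (fun _ => V) D (fun _ v => F (v 0)) :=
    Z.ts.ite (P := fun _ v => v 0 = ∅) (Z.ts.eq (Z.ts.v 0) (Z.par _ Z.empty_mem))
      (Z.par _ hξV) (Z.ts.ite (P := fun _ v => v 0 ∈ Ordinal.toZFSet (ω : Ordinal.{u}))
        (Z.ts.mem (Z.ts.v 0) (Z.par _ Z.omega)) (Z.tmsUnion (Z.ts.v 0)) (Z.ts.v 0))
  have h0 : F ∅ = ξ.toZFSet := by simp [F]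
  have hn : ∀ n : ℕ, F (nat (n + 1)) = nat n := by
    intro n
    have h1 : nat.{u} (n + 1) ≠ ∅ := by
      intro h
      have : nat.{u} n ∈ nat (n + 1) := nat_mem_nat.2 (Nat.lt_succ_self n)
      rw [h] at this
      simp at this
    simp only [F, h1, if_false, nat_mem_omega, if_true, sUnion_nat_succ]
  have hbig : ∀ η : Ordinal.{u}, ω ≤ η → F η.toZFSet = η.toZFSet := by
    intro η hη
    have h1 : η.toZFSet ≠ ∅ := by
      intro h
      have : (0 : Ordinal.{u}).toZFSet ∈ η.toZFSet :=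
        Ordinal.toZFSet_mem_toZFSet_iff.2 (lt_of_lt_of_le Ordinal.omega0_pos hη)
      rw [h] at this
      simp at this
    have h2 : ¬ η.toZFSet ∈ Ordinal.toZFSet (ω : Ordinal.{u}) := by
      rw [Ordinal.toZFSet_mem_toZFSet_iff]; exact not_lt.2 hη
    simp only [F, h1, h2, if_false]
  have hcases : ∀ η : Ordinal.{u}, η.toZFSet = ∅ ∨ (∃ n : ℕ, η = ((n + 1 : ℕ) : Ordinal.{u})) ∨
      ω ≤ η := by
    intro η
    rcases lt_or_ge η ω with h | h
    · obtain ⟨n, rfl⟩ := Ordinal.lt_omega0.1 h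
      cases n with
      | zero => left; simp
      | succ n => right; left; exact ⟨n, rfl⟩
    · right; right; exact h
  apply hκ.2.2 ξ hξ
  refine ⟨gr F ξ.toZFSet, Z.gr_mem hξV ?_ ?_, isBij_gr ?_ ?_ ?_⟩
  · exact Z.ts.and (Z.ts.mem (Z.ts.v 0) (Z.par _ hξV)) (Z.ts.eq (Z.ts.v 1)
      (Z.ts.ds.tm1 (f := fun _ x => F x) hF (Z.ts.v 0)))
  · intro x hx
    exact hF.closed () (fun _ => x) (fun _ => Z.mem_tr hξV hx)
  · -- maps into κ
    intro x hx
    obtain ⟨η, hη, rfl⟩ := Ordinal.mem_toZFSet_iff.1 hx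
    rcases hcases η with h | ⟨n, rfl⟩ | h
    · rw [h, h0]; exact Ordinal.toZFSet_mem_toZFSet_iff.2 hξ
    · have := hn n
      unfold nat at this
      rw [this, Ordinal.toZFSet_mem_toZFSet_iff]
      exact lt_of_lt_of_le (Ordinal.natCast_lt_omega0 n) hκ.2.1
    · rw [hbig η h]; exact Ordinal.toZFSet_mem_toZFSet_iff.2 (hη.trans hξ)
  · -- injective
    have hnξ : ∀ n : ℕ, nat.{u} n ≠ ξ.toZFSet := by
      intro n h
      have := Ordinal.toZFSet_injective h
      rw [← this] at hωξ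
      exact absurd (Ordinal.natCast_lt_omega0 n) (not_lt.2 hωξ)
    intro x hx x' hx' hxx
    obtain ⟨η, hη, rfl⟩ := Ordinal.mem_toZFSet_iff.1 hx
    obtain ⟨η', hη', rfl⟩ := Ordinal.mem_toZFSet_iff.1 hx'
    rcases hcases η with h | ⟨n, rfl⟩ | h <;> rcases hcases η' with h' | ⟨n', rfl⟩ | h'
    · rw [h, h']
    · rw [h, h0] at hxx
      have := hn n'
      unfold nat at this
      rw [this] at hxx
      exact absurd hxx.symm (hnξ n')
    · rw [h, h0, hbig η' h'] at hxx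
      have := Ordinal.toZFSet_injective hxx
      rw [this] at hη'
      exact absurd hη' (lt_irrefl _)
    · rw [h', h0] at hxx
      have := hn n
      unfold nat at this
      rw [this] at hxx
      exact absurd hxx (hnξ n)
    · have h1 := hn n
      have h2 := hn n'
      unfold nat at h1 h2
      rw [h1, h2] at hxx
      have h3 : n = n' := by
        have := Ordinal.toZFSet_injective hxx
        exact_mod_cast this
      rw [h3]
    · have h1 := hn n
      unfold nat at h1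
      rw [h1, hbig η' h'] at hxx
      have := Ordinal.toZFSet_injective hxx
      rw [← this] at h'
      exact absurd (Ordinal.natCast_lt_omega0 n) (not_lt.2 h')
    · rw [h', h0, hbig η h] at hxx
      have := Ordinal.toZFSet_injective hxx
      rw [this] at hη
      exact absurd hη (lt_irrefl _)
    · have h1 := hn n'
      unfold nat at h1
      rw [h1, hbig η h] at hxx
      have := Ordinal.toZFSet_injective hxx
      rw [this] at h
      exact absurd (Ordinal.natCast_lt_omega0 n') (not_lt.2 h)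
    · rw [hbig η h, hbig η' h'] at hxx
      exact hxx
  · -- surjective
    intro y hy
    rw [hκe, Ordinal.toZFSet_add_one, ZFSet.mem_insert_iff] at hy
    rcases hy with rfl | hy
    · refine ⟨∅, ?_, h0⟩
      have : (0 : Ordinal.{u}).toZFSet ∈ ξ.toZFSet :=
        Ordinal.toZFSet_mem_toZFSet_iff.2 (lt_of_lt_of_le Ordinal.omega0_pos hωξ)
      simpa using this
    · obtain ⟨η, hη, rfl⟩ := Ordinal.mem_toZFSet_iff.1 hy
      rcases lt_or_ge η ω with h | h
      · obtain ⟨n, rfl⟩ := Ordinal.lt_omega0.1 h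
        refine ⟨nat (n + 1), Ordinal.toZFSet_mem_toZFSet_iff.2
          (lt_of_lt_of_le (Ordinal.natCast_lt_omega0 _) hωξ), hn n⟩
      · exact ⟨η.toZFSet, hy, hbig η h⟩

theorem double_lt {κ : Ordinal.{u}} (hlim : ∀ ξ < κ, ξ + 1 < κ) {ξ : Ordinal.{u}} (hξ : ξ < κ) :
    2 * ξ + 1 + 1 < κ := by
  have h2 : (2 : Ordinal.{u}) * ω = ω :=
    Ordinal.mul_omega0 (by norm_num) (by exact_mod_cast Ordinal.natCast_lt_omega0 2)
  have e := Ordinal.div_add_mod ξ ω
  obtain ⟨n, hn⟩ := Ordinal.lt_omega0.1 (Ordinal.mod_lt ξ Ordinal.omega0_ne_zero)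
  rw [hn] at e
  have e2 : 2 * ξ = ω * (ξ / ω) + ((2 * n : ℕ) : Ordinal.{u}) := by
    conv_lhs => rw [← e]
    rw [mul_add, ← mul_assoc, h2]
    push_cast
    rfl
  have key : ∀ k : ℕ, ω * (ξ / ω) + (k : Ordinal.{u}) < κ := by
    intro k
    induction k with
    | zero =>
      rw [Nat.cast_zero, add_zero]
      exact lt_of_le_of_lt (Ordinal.mul_div_le ξ ω) hξ
    | succ k ih =>
      rw [Nat.cast_succ, ← add_assoc]
      exact hlim _ ih
  rw [e2]
  have := key (2 * n + 1 + 1)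
  rw [Nat.cast_add, Nat.cast_add, Nat.cast_one, ← add_assoc, ← add_assoc] at this
  exact this

end

end Pool.Agent.Work.MP_fbd45d_lc
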