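import Pool.Agent.Work.MP_fbd45d_lc.TransSys

/-!
# Internal set theory in transitive models, for an abstract notion of definability
-/

namespace Pool.Agent.Work.MP_fbd45d_lc

universe u

open ZFSet (pair)

/-- A transitive model of ZF, with respect to an abstract notion of definability. -/
structure ZM (V : ZFSet.{u}) (D : (Unit → (ℕ → ZFSet.{u}) → Prop) → Prop) : Prop where
  ts : TS (fun _ => V) D
  par : ∀ a ∈ V, TmV (fun _ => V) D (fun _ _ => a)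
  union' : ∀ a ∈ V, (ZFSet.sUnion a : ZFSet.{u}) ∈ V
  power' : ∀ a ∈ V, ZFSet.sep (fun x => x ⊆ a) V ∈ V
  omega : Ordinal.toZFSet Ordinal.omega0 ∈ V
  sep' : ∀ P : ZFSet.{u} → Prop, D (fun _ v => P (v 0)) → ∀ a ∈ V, ZFSet.sep P a ∈ V
  repl' : ∀ P : ZFSet.{u} → ZFSet.{u} → Prop, D (fun _ v => P (v 0) (v 1)) → ∀ a ∈ V,
    (∀ x ∈ a, ∃! y, y ∈ V ∧ P x y) → ∃ b ∈ V, ∀ y, y ∈ b ↔ y ∈ V ∧ ∃ x ∈ a, P x y

/-- Function application: the value of `f` (a set of pairs) at `x`. -/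
noncomputable def app (f x : ZFSet.{u}) : ZFSet.{u} :=
  ZFSet.sUnion (ZFSet.sep (fun y => pair x y ∈ f) (ZFSet.sUnion (ZFSet.sUnion f)))

theorem right_mem_sUnion {f x y : ZFSet.{u}} (h : pair x y ∈ f) :
    y ∈ ZFSet.sUnion (ZFSet.sUnion f) := by
  rw [ZFSet.mem_sUnion]
  refine ⟨{x, y}, ?_, by simp⟩
  rw [ZFSet.mem_sUnion]
  exact ⟨pair x y, h, by simp [pair]⟩

theorem left_mem_sUnion {f x y : ZFSet.{u}} (h : pair x y ∈ f) :
    x ∈ ZFSet.sUnion (ZFSet.sUnion f) := by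
  rw [ZFSet.mem_sUnion]
  refine ⟨{x, y}, ?_, by simp⟩
  rw [ZFSet.mem_sUnion]
  exact ⟨pair x y, h, by simp [pair]⟩

theorem app_eq {f x y : ZFSet.{u}} (h : pair x y ∈ f) (hu : ∀ z, pair x z ∈ f → z = y) :
    app f x = y := by
  ext z
  rw [app, ZFSet.mem_sUnion]
  constructor
  · rintro ⟨w, hw, hz⟩
    rw [ZFSet.mem_sep] at hw
    rw [hu w hw.2] at hz
    exact hz
  · intro hz
    exact ⟨y, ZFSet.mem_sep.2 ⟨right_mem_sUnion h, h⟩, hz⟩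

theorem app_gr {g : ZFSet.{u} → ZFSet.{u}} {a x : ZFSet.{u}} (hx : x ∈ a) :
    app (gr g a) x = g x :=
  app_eq (pair_mem_gr.2 ⟨hx, rfl⟩) (fun z hz => (pair_mem_gr.1 hz).2.symm)

theorem gr_congr {g g' : ZFSet.{u} → ZFSet.{u}} {a : ZFSet.{u}} (h : ∀ x ∈ a, g x = g' x) :
    gr g a = gr g' a := by
  ext p
  rw [mem_gr, mem_gr]
  constructor
  · rintro ⟨z, hz, rfl⟩
    exact ⟨z, hz, by rw [h z hz]⟩
  · rintro ⟨z, hz, rfl⟩
    exact ⟨z, hz, by rw [h z hz]⟩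

theorem img_congr {g g' : ZFSet.{u} → ZFSet.{u}} {a : ZFSet.{u}} (h : ∀ x ∈ a, g x = g' x) :
    img g a = img g' a := by
  ext p
  rw [mem_img, mem_img]
  constructor
  · rintro ⟨z, hz, rfl⟩
    exact ⟨z, hz, (h z hz).symm⟩
  · rintro ⟨z, hz, rfl⟩
    exact ⟨z, hz, h z hz⟩

/-- A functional relation is the graph of its application function. -/
theorem gr_app {f a : ZFSet.{u}} (h1 : ∀ p ∈ f, ∃ x ∈ a, ∃ y, p = pair x y)
    (h2 : ∀ x ∈ a, ∃! y, pair x y ∈ f) : gr (app f) a = f := by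
  ext p
  rw [mem_gr]
  constructor
  · rintro ⟨x, hx, rfl⟩
    obtain ⟨y, hy, hu⟩ := h2 x hx
    rw [app_eq hy hu]
    exact hy
  · intro hp
    obtain ⟨x, hx, y, rfl⟩ := h1 p hp
    obtain ⟨y', hy, hu⟩ := h2 x hx
    refine ⟨x, hx, ?_⟩
    rw [app_eq hy hu, hu y hp]

namespace ZM

variable {V : ZFSet.{u}} {D : (Unit → (ℕ → ZFSet.{u}) → Prop) → Prop}

theorem tr (Z : ZM V D) : V.IsTransitive := Z.ts.trans ()

theorem mem_tr (Z : ZM V D) {x y : ZFSet.{u}} (hy : y ∈ V) (h : x ∈ y) : x ∈ V :=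
  Z.tr _ hy h

theorem inst1 (Z : ZM V D) {Q : ZFSet.{u} → (ℕ → ZFSet.{u}) → Prop}
    (h : D (fun _ w => Q (w 0) (fun n => w (n + 1)))) {v : ℕ → ZFSet.{u}}
    (hv : ∀ n, v n ∈ V) : D (fun _ w => Q (w 0) v) :=
  Z.ts.ds.subst h (fun n => Nat.casesOn n (fun _ w => w 0) (fun n _ _ => v n))
    (fun n => by
      cases n
      · exact Z.ts.v 0
      · exact Z.par _ (hv _))

theorem inst2 (Z : ZM V D) {Q : ZFSet.{u} → ZFSet.{u} → (ℕ → ZFSet.{u}) → Prop}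
    (h : D (fun _ w => Q (w 0) (w 1) (fun n => w (n + 2)))) {v : ℕ → ZFSet.{u}}
    (hv : ∀ n, v n ∈ V) : D (fun _ w => Q (w 0) (w 1) v) :=
  Z.ts.ds.subst h (fun n => Nat.casesOn n (fun _ w => w 0)
      (fun n => Nat.casesOn n (fun _ w => w 1) (fun n _ _ => v n)))
    (fun n => by
      rcases n with _ | _ | n
      · exact Z.ts.v 0
      · exact Z.ts.v 1
      · exact Z.par _ (hv _))

theorem single_mem (Z : ZM V D) {a : ZFSet.{u}} (ha : a ∈ V) : ({a} : ZFSet.{u}) ∈ V :=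
  Z.ts.single_mem (i := ()) ha

theorem upair_mem (Z : ZM V D) {a b : ZFSet.{u}} (ha : a ∈ V) (hb : b ∈ V) :
    ({a, b} : ZFSet.{u}) ∈ V := Z.ts.upair' () a ha b hb

theorem pair_mem (Z : ZM V D) {a b : ZFSet.{u}} (ha : a ∈ V) (hb : b ∈ V) :
    pair a b ∈ V := Z.ts.pair_mem (i := ()) ha hb

theorem union_mem (Z : ZM V D) {a b : ZFSet.{u}} (ha : a ∈ V) (hb : b ∈ V) :
    a ∪ b ∈ V := by
  rw [← ZFSet.sUnion_pair]; exact Z.union' _ (Z.upair_mem ha hb)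

theorem insert_mem (Z : ZM V D) {a b : ZFSet.{u}} (ha : a ∈ V) (hb : b ∈ V) :
    insert a b ∈ V := by
  rw [ZFSet.insert_eq]; exact Z.union_mem (Z.single_mem ha) hb

theorem nat_mem (Z : ZM V D) (n : ℕ) : nat n ∈ V := by
  refine Z.mem_tr Z.omega ?_
  rw [Ordinal.mem_toZFSet_iff]
  exact ⟨n, Ordinal.natCast_lt_omega0 n, rfl⟩

theorem empty_mem (Z : ZM V D) : (∅ : ZFSet.{u}) ∈ V := by
  have := Z.nat_mem 0
  simpa [nat] using this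

/-! ### Separation and replacement -/

theorem sepv (Z : ZM V D) {Q : ZFSet.{u} → (ℕ → ZFSet.{u}) → Prop}
    (h : D (fun _ w => Q (w 0) (fun n => w (n + 1)))) {v : ℕ → ZFSet.{u}}
    (hv : ∀ n, v n ∈ V) {a : ZFSet.{u}} (ha : a ∈ V) : ZFSet.sep (fun x => Q x v) a ∈ V :=
  Z.sep' _ (Z.inst1 h hv) a ha

theorem img_mem (Z : ZM V D) {f : ZFSet.{u} → ZFSet.{u}} {a : ZFSet.{u}} (ha : a ∈ V)
    (hf : D (fun _ v => v 0 ∈ a ∧ v 1 = f (v 0))) (hcl : ∀ x ∈ a, f x ∈ V) :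
    img f a ∈ V := by
  obtain ⟨b, hb, h⟩ := Z.repl' (fun x y => x ∈ a ∧ y = f x) hf a ha
    (fun x hx => ⟨f x, ⟨hcl x hx, hx, rfl⟩, fun y hy => hy.2.2⟩)
  have : img f a = b := by
    ext y
    rw [mem_img, h]
    constructor
    · rintro ⟨z, hz, rfl⟩
      exact ⟨hcl z hz, z, hz, hz, rfl⟩
    · rintro ⟨_, x, hx, _, rfl⟩
      exact ⟨x, hx, rfl⟩
  rw [this]
  exact hb

theorem gr_mem (Z : ZM V D) {f : ZFSet.{u} → ZFSet.{u}} {a : ZFSet.{u}} (ha : a ∈ V)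
    (hf : D (fun _ v => v 0 ∈ a ∧ v 1 = f (v 0))) (hcl : ∀ x ∈ a, f x ∈ V) :
    gr f a ∈ V := by
  refine Z.img_mem ha ?_ (fun x hx => Z.pair_mem (Z.mem_tr ha hx) (hcl x hx))
  -- `v 0 ∈ a ∧ v 1 = pair (v 0) (f (v 0))`
  have h1 : D (fun _ v => ∃ y, y ∈ V ∧ ((v 0 ∈ a ∧ y = f (v 0)) ∧ v 1 = pair (v 0) y)) := by
    refine Z.ts.ex (Q := fun _ y v => (v 0 ∈ a ∧ y = f (v 0)) ∧ v 1 = pair (v 0) y) ?_
    refine Z.ts.and ?_ (Z.ts.eq (Z.ts.v 2) (Z.ts.pair (Z.ts.v 1) (Z.ts.v 0)))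
    exact Z.ts.ds.rename hf (fun n => if n = 0 then 1 else 0)
  refine Z.ts.congr h1 (fun i v _ => ?_)
  constructor
  · rintro ⟨y, _, ⟨h1, rfl⟩, h2⟩
    exact ⟨h1, h2⟩
  · rintro ⟨h1, h2⟩
    exact ⟨f (v 0), hcl _ h1, ⟨h1, rfl⟩, h2⟩

/-! ### Terms -/

theorem tmSep (Z : ZM V D) {Q : ZFSet.{u} → (ℕ → ZFSet.{u}) → Prop}
    (h : D (fun _ w => Q (w 0) (fun n => w (n + 1)))) {t : Unit → (ℕ → ZFSet.{u}) → ZFSet.{u}}
    (ht : TmV (fun _ => V) D t) :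
    TmV (fun _ => V) D (fun _ v => ZFSet.sep (fun x => Q x v) (t () v)) := by
  refine Z.ts.ofMem (fun i v hv => Z.sepv h hv (ht.closed i v hv)) ?_
  refine Z.ts.congr (Z.ts.and (Z.ts.mem (Z.ts.v 0) (Z.ts.sh ht)) h) (fun i v _ => ?_)
  rw [ZFSet.mem_sep]

theorem tmsUnion (Z : ZM V D) {t : Unit → (ℕ → ZFSet.{u}) → ZFSet.{u}}
    (ht : TmV (fun _ => V) D t) :
    TmV (fun _ => V) D (fun _ v => ZFSet.sUnion (t () v)) := by
  refine Z.ts.ofMem (fun i v hv => Z.union' _ (ht.closed i v hv)) ?_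
  refine Z.ts.congr (Z.ts.exMem (Q := fun _ z w => w 0 ∈ z) (Z.ts.sh ht)
    (Z.ts.mem (Z.ts.v 1) (Z.ts.v 0))) (fun i v _ => ?_)
  rw [ZFSet.mem_sUnion]

theorem tmUnion (Z : ZM V D) {s t : Unit → (ℕ → ZFSet.{u}) → ZFSet.{u}}
    (hs : TmV (fun _ => V) D s) (ht : TmV (fun _ => V) D t) :
    TmV (fun _ => V) D (fun _ v => s () v ∪ t () v) := by
  have := Z.tmsUnion (Z.ts.upair hs ht)
  simpa only [ZFSet.sUnion_pair] using this

theorem tmInsert (Z : ZM V D) {s t : Unit → (ℕ → ZFSet.{u}) → ZFSet.{u}}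
    (hs : TmV (fun _ => V) D s) (ht : TmV (fun _ => V) D t) :
    TmV (fun _ => V) D (fun _ v => insert (s () v) (t () v)) := by
  have := Z.tmUnion (Z.ts.single hs) ht
  simpa only [← ZFSet.insert_eq] using this

/-- Images under definable functions (with parameters). -/
theorem tmImg (Z : ZM V D) {f : ZFSet.{u} → (ℕ → ZFSet.{u}) → ZFSet.{u}}
    (hf : TmV (fun _ => V) D (fun _ w => f (w 0) (fun n => w (n + 1))))
    {t : Unit → (ℕ → ZFSet.{u}) → ZFSet.{u}} (ht : TmV (fun _ => V) D t) :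
    TmV (fun _ => V) D (fun _ v => img (fun x => f x v) (t () v)) := by
  refine Z.ts.ofMem (fun i v hv => ?_) ?_
  · have ha := ht.closed i v hv
    refine Z.img_mem ha ?_ (fun x hx => ?_)
    · have h1 : D (fun _ w => w 1 = f (w 0) (fun n => w (n + 2))) :=
        Z.ts.ds.rename hf.graph (fun n => Nat.casesOn n 1 (fun n => Nat.casesOn n 0
          (fun n => n + 2)))
      exact Z.ts.and (Z.ts.mem (Z.ts.v 0) (Z.par _ ha))
        (Z.inst2 (Q := fun a b v => b = f a v) h1 hv)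
    · have := hf.closed i (cons x v) (cons_dom (P := fun x => x ∈ V) (Z.mem_tr ha hx) hv)
      exact this
  · refine Z.ts.congr (Z.ts.exMem (Q := fun _ z w => w 0 = f z (fun n => w (n + 1)))
      (Z.ts.sh ht) ?_) (fun i v _ => ?_)
    · exact Z.ts.ds.rename hf.graph (fun n => Nat.casesOn n 1 (fun n => Nat.casesOn n 0
        (fun n => n + 2)))
    · rw [mem_img]
      constructor
      · rintro ⟨z, hz, h⟩
        exact ⟨z, hz, h.symm⟩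
      · rintro ⟨z, hz, h⟩
        exact ⟨z, hz, h.symm⟩

theorem tmProd (Z : ZM V D) {s t : Unit → (ℕ → ZFSet.{u}) → ZFSet.{u}}
    (hs : TmV (fun _ => V) D s) (ht : TmV (fun _ => V) D t) :
    TmV (fun _ => V) D (fun _ v => ZFSet.prod (s () v) (t () v)) := by
  have h1 : TmV (fun _ => V) D (fun _ v =>
      ZFSet.sUnion (img (fun x => img (fun y => pair x y) (v 1)) (v 0))) := by
    refine Z.tmsUnion (Z.tmImg (f := fun x v => img (fun y => pair x y) (v 1)) ?_ (Z.ts.v 0))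
    exact Z.tmImg (f := fun y w => pair (w 0) y) (Z.ts.pair (Z.ts.v 1) (Z.ts.v 0)) (Z.ts.v 2)
  have h2 := Z.ts.ds.tm2 (f := fun _ a b =>
      ZFSet.sUnion (img (fun x => img (fun y => pair x y) b) a)) h1 hs ht
  have h3 : ∀ a b : ZFSet.{u}, ZFSet.sUnion (img (fun x => img (fun y => pair x y) b) a) =
      ZFSet.prod a b := by
    intro a b
    ext z
    simp only [ZFSet.mem_sUnion, mem_img, ZFSet.mem_prod]
    constructor
    · rintro ⟨w, ⟨x, hx, rfl⟩, h⟩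
      rw [mem_img] at h
      obtain ⟨y, hy, h⟩ := h
      exact ⟨x, hx, y, hy, h.symm⟩
    · rintro ⟨x, hx, y, hy, h⟩
      exact ⟨_, ⟨x, hx, rfl⟩, mem_img.2 ⟨y, hy, h.symm⟩⟩
  simpa only [h3] using h2

theorem tmApp (Z : ZM V D) {s t : Unit → (ℕ → ZFSet.{u}) → ZFSet.{u}}
    (hs : TmV (fun _ => V) D s) (ht : TmV (fun _ => V) D t) :
    TmV (fun _ => V) D (fun _ v => app (s () v) (t () v)) := by
  have h1 : TmV (fun _ => V) D (fun _ v => app (v 0) (v 1)) := by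
    unfold app
    refine Z.tmsUnion (Z.tmSep (Q := fun y v => pair (v 1) y ∈ v 0) ?_
      (Z.tmsUnion (Z.tmsUnion (Z.ts.v 0))))
    exact Z.ts.mem (Z.ts.pair (Z.ts.v 2) (Z.ts.v 0)) (Z.ts.v 1)
  exact Z.ts.ds.tm2 (f := fun _ a b => app a b) h1 hs ht

attribute [irreducible] app

theorem app_mem (Z : ZM V D) {f x : ZFSet.{u}} (hf : f ∈ V) (hx : x ∈ V) : app f x ∈ V :=
  (Z.tmApp (Z.par f hf) (Z.par x hx)).closed () (fun _ => x) (fun _ => hx)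

theorem prod_mem (Z : ZM V D) {a b : ZFSet.{u}} (ha : a ∈ V) (hb : b ∈ V) :
    ZFSet.prod a b ∈ V :=
  (Z.tmProd (Z.par a ha) (Z.par b hb)).closed () (fun _ => a) (fun _ => ha)

/-! ### Well-founded recursion -/

/-- The set of the values of `f` at the `R`-predecessors of `x`. -/
noncomputable def vals (R : ZFSet.{u} → ZFSet.{u} → Prop) (X f x : ZFSet.{u}) : ZFSet.{u} :=
  ZFSet.sep (fun w => ∃ z, z ∈ X ∧ (R z x ∧ pair z w ∈ f)) (ZFSet.sUnion (ZFSet.sUnion f))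

theorem mem_vals {R : ZFSet.{u} → ZFSet.{u} → Prop} {X f x w : ZFSet.{u}} :
    w ∈ vals R X f x ↔ ∃ z, z ∈ X ∧ (R z x ∧ pair z w ∈ f) := by
  rw [vals, ZFSet.mem_sep]
  constructor
  · exact fun h => h.2
  · rintro ⟨z, hz, h1, h2⟩
    exact ⟨right_mem_sUnion h2, z, hz, h1, h2⟩

/-- Approximations to the function defined by recursion. -/
def Appr (V : ZFSet.{u}) (R : ZFSet.{u} → ZFSet.{u} → Prop) (X : ZFSet.{u})
    (h : ZFSet.{u} → ZFSet.{u}) (f : ZFSet.{u}) : Prop :=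
  (∀ p, p ∈ f → ∃ x, x ∈ X ∧ ∃ y, y ∈ V ∧ p = pair x y) ∧
  ((∀ x, x ∈ V → ∀ y, y ∈ V → ∀ y', y' ∈ V → pair x y ∈ f → pair x y' ∈ f → y = y') ∧
  (∀ x, x ∈ X → ∀ y, y ∈ V → pair x y ∈ f → ((∀ z, z ∈ X → R z x → ∃ w, w ∈ V ∧ pair z w ∈ f) ∧
    y = h (vals R X f x))))

variable {R : ZFSet.{u} → ZFSet.{u} → Prop} {X : ZFSet.{u}} {h : ZFSet.{u} → ZFSet.{u}}

theorem tmVals (Z : ZM V D) (hX : X ∈ V) (hR : D (fun _ v => R (v 0) (v 1)))
    {s t : Unit → (ℕ → ZFSet.{u}) → ZFSet.{u}}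
    (hs : TmV (fun _ => V) D s) (ht : TmV (fun _ => V) D t) :
    TmV (fun _ => V) D (fun _ v => vals R X (s () v) (t () v)) := by
  have h1 : TmV (fun _ => V) D (fun _ v => vals R X (v 0) (v 1)) := by
    unfold vals
    refine Z.tmSep (Q := fun w v => ∃ z, z ∈ X ∧ (R z (v 1) ∧ pair z w ∈ v 0)) ?_
      (Z.tmsUnion (Z.tmsUnion (Z.ts.v 0)))
    refine Z.ts.exMem (Q := fun _ z w => R z (w 2) ∧ pair z (w 0) ∈ w 1) (Z.par X hX) ?_
    exact Z.ts.and (Z.ts.ds.rel2 (R := fun _ a b => R a b) hR (Z.ts.v 0) (Z.ts.v 3))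
      (Z.ts.mem (Z.ts.pair (Z.ts.v 0) (Z.ts.v 1)) (Z.ts.v 2))
  exact Z.ts.ds.tm2 (f := fun _ a b => vals R X a b) h1 hs ht

theorem appr_def (Z : ZM V D) (hX : X ∈ V) (hR : D (fun _ v => R (v 0) (v 1)))
    (hh : TmV (fun _ => V) D (fun _ v => h (v 0))) :
    D (fun _ v => Appr V R X h (v 0)) := by
  unfold Appr
  refine Z.ts.and ?_ (Z.ts.and ?_ ?_)
  · exact Z.ts.allMem (Z.ts.v 0) (Z.ts.exMem (Z.par X hX) (Z.ts.ex
      (Z.ts.eq (Z.ts.v 2) (Z.ts.pair (Z.ts.v 1) (Z.ts.v 0)))))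
  · exact Z.ts.all (Z.ts.all (Z.ts.all (Z.ts.imp (Z.ts.mem (Z.ts.pair (Z.ts.v 2) (Z.ts.v 1))
      (Z.ts.v 3)) (Z.ts.imp (Z.ts.mem (Z.ts.pair (Z.ts.v 2) (Z.ts.v 0)) (Z.ts.v 3))
      (Z.ts.eq (Z.ts.v 1) (Z.ts.v 0))))))
  · refine Z.ts.allMem (Z.par X hX) (Z.ts.all (Z.ts.imp (Z.ts.mem (Z.ts.pair (Z.ts.v 1)
      (Z.ts.v 0)) (Z.ts.v 2)) (Z.ts.and ?_ ?_)))
    · exact Z.ts.allMem (Z.par X hX) (Z.ts.imp
        (Z.ts.ds.rel2 (R := fun _ a b => R a b) hR (Z.ts.v 0) (Z.ts.v 2))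
        (Z.ts.ex (Z.ts.mem (Z.ts.pair (Z.ts.v 1) (Z.ts.v 0)) (Z.ts.v 4))))
    · exact Z.ts.eq (Z.ts.v 0) (Z.ts.ds.tm1 (f := fun _ a => h a) hh
        (Z.tmVals hX hR (Z.ts.v 2) (Z.ts.v 1)))

/-- Every `V`-nonempty subset of `X` lying in `V` has an `R`-minimal element. -/
def WFIn (V : ZFSet.{u}) (R : ZFSet.{u} → ZFSet.{u} → Prop) (X : ZFSet.{u}) : Prop :=
  ∀ Y ∈ V, Y ⊆ X → (∃ y, y ∈ Y) → ∃ x ∈ Y, ∀ y ∈ Y, ¬ R y x

theorem appr_unique (Z : ZM V D) (hX : X ∈ V)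
    (hwf : WFIn V R X) {f g : ZFSet.{u}} (hf : f ∈ V) (hg : g ∈ V)
    (hf' : Appr V R X h f) (hg' : Appr V R X h g) {x y y' : ZFSet.{u}}
    (h1 : pair x y ∈ f) (h2 : pair x y' ∈ g) : y = y' := by
  by_contra hne
  have key : ZFSet.sep (fun x => ∃ y, y ∈ V ∧ ∃ y', y' ∈ V ∧ (pair x y ∈ f ∧
      (pair x y' ∈ g ∧ ¬ y = y'))) X ∈ V := by
    refine Z.sep' _ ?_ X hX
    exact Z.ts.ex (Z.ts.ex (Z.ts.and (Z.ts.mem (Z.ts.pair (Z.ts.v 2) (Z.ts.v 1)) (Z.par f hf))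
      (Z.ts.and (Z.ts.mem (Z.ts.pair (Z.ts.v 2) (Z.ts.v 0)) (Z.par g hg))
      (Z.ts.not (Z.ts.eq (Z.ts.v 1) (Z.ts.v 0))))))
  have hxX : x ∈ X := by
    obtain ⟨x', hx', y'', _, e⟩ := hf'.1 _ h1
    rw [ZFSet.pair_inj] at e
    rw [e.1]; exact hx'
  obtain ⟨x0, hx0, hmin⟩ := hwf _ key ZFSet.sep_subset ⟨x, by
    rw [ZFSet.mem_sep]
    exact ⟨hxX, y, (mem_of_pair_mem Z.tr hf h1).2, y', (mem_of_pair_mem Z.tr hg h2).2,
      h1, h2, hne⟩⟩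
  rw [ZFSet.mem_sep] at hx0
  obtain ⟨hx0X, y1, hy1, y2, hy2, hy1f, hy2g, hy12⟩ := hx0
  obtain ⟨a1, b1⟩ := hf'.2.2 x0 hx0X y1 hy1 hy1f
  obtain ⟨a2, b2⟩ := hg'.2.2 x0 hx0X y2 hy2 hy2g
  apply hy12
  rw [b1, b2]
  congr 1
  ext w
  rw [mem_vals, mem_vals]
  constructor
  · rintro ⟨z, hz, hzR, hzw⟩
    obtain ⟨w', hw', hzw'⟩ := a2 z hz hzR
    have : w = w' := by
      by_contra hww
      refine hmin z ?_ hzR
      rw [ZFSet.mem_sep]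
      exact ⟨hz, w, (mem_of_pair_mem Z.tr hf hzw).2, w', hw', hzw, hzw', hww⟩
    rw [this]
    exact ⟨z, hz, hzR, hzw'⟩
  · rintro ⟨z, hz, hzR, hzw⟩
    obtain ⟨w', hw', hzw'⟩ := a1 z hz hzR
    have : w' = w := by
      by_contra hww
      refine hmin z ?_ hzR
      rw [ZFSet.mem_sep]
      exact ⟨hz, w', hw', w, (mem_of_pair_mem Z.tr hg hzw).2, hzw', hzw, hww⟩
    rw [← this]
    exact ⟨z, hz, hzR, hzw'⟩

theorem recursion (Z : ZM V D) (hX : X ∈ V) (hR : D (fun _ v => R (v 0) (v 1)))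
    (hwf : WFIn V R X) (hh : TmV (fun _ => V) D (fun _ v => h (v 0))) :
    ∃ g : ZFSet.{u} → ZFSet.{u}, gr g X ∈ V ∧ ∀ x ∈ X, g x ∈ V ∧
      g x = h (img g (ZFSet.sep (fun z => R z x) X)) := by
  have hA := Z.appr_def hX hR hh
  set X' := ZFSet.sep (fun x => ∃ y, y ∈ V ∧ ∃ f, f ∈ V ∧ (Appr V R X h f ∧ pair x y ∈ f)) X
    with hX'
  have hX'V : X' ∈ V := by
    refine Z.sep' _ ?_ X hX
    refine Z.ts.ex (Z.ts.ex (Z.ts.and ?_ (Z.ts.mem (Z.ts.pair (Z.ts.v 2) (Z.ts.v 1))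
      (Z.ts.v 0))))
    exact Z.ts.ds.rel1 (R := fun _ f => Appr V R X h f) hA (Z.ts.v 0)
  obtain ⟨G, hGV, hG⟩ := Z.repl' (fun x p => ∃ y, y ∈ V ∧ (p = pair x y ∧ ∃ f, f ∈ V ∧
      (Appr V R X h f ∧ p ∈ f))) (by
        refine Z.ts.ex (Z.ts.and (Z.ts.eq (Z.ts.v 2) (Z.ts.pair (Z.ts.v 1) (Z.ts.v 0)))
          (Z.ts.ex (Z.ts.and ?_ (Z.ts.mem (Z.ts.v 3) (Z.ts.v 0)))))
        exact Z.ts.ds.rel1 (R := fun _ f => Appr V R X h f) hA (Z.ts.v 0)) X' hX'V (by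
        intro x hx
        rw [hX', ZFSet.mem_sep] at hx
        obtain ⟨hxX, y, hy, f, hf, hfA, hxy⟩ := hx
        refine ⟨pair x y, ⟨Z.pair_mem (Z.mem_tr hX hxX) hy, y, hy, rfl, f, hf, hfA, hxy⟩, ?_⟩
        rintro p ⟨_, y', _, rfl, f', hf', hfA', hxy'⟩
        rw [Z.appr_unique hX hwf hf hf' hfA hfA' hxy hxy'])
  have hGp : ∀ x y, pair x y ∈ G ↔ ∃ f, f ∈ V ∧ (Appr V R X h f ∧ pair x y ∈ f) := by
    intro x y
    rw [hG]
    constructor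
    · rintro ⟨_, x', _, y', _, e, h1⟩
      exact h1
    · rintro ⟨f, hf, hfA, hxy⟩
      obtain ⟨hx, hy⟩ := mem_of_pair_mem Z.tr hf hxy
      obtain ⟨x', hx', y', hy', e⟩ := hfA.1 _ hxy
      rw [ZFSet.pair_inj] at e
      obtain ⟨rfl, rfl⟩ := e
      refine ⟨Z.pair_mem hx hy, x, ?_, y, hy, rfl, f, hf, hfA, hxy⟩
      rw [hX', ZFSet.mem_sep]
      exact ⟨hx', y, hy, f, hf, hfA, hxy⟩
  have hGf : ∀ x y f, f ∈ V → Appr V R X h f → pair x y ∈ f →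
      vals R X G x = vals R X f x := by
    intro x y f hf hfA hxy
    obtain ⟨hx, hy⟩ := mem_of_pair_mem Z.tr hf hxy
    obtain ⟨x', hx', y', hy', e⟩ := hfA.1 _ hxy
    rw [ZFSet.pair_inj] at e
    obtain ⟨rfl, rfl⟩ := e
    ext w
    rw [mem_vals, mem_vals]
    constructor
    · rintro ⟨z, hz, hzR, hzw⟩
      obtain ⟨f', hf', hfA', hzw'⟩ := (hGp z w).1 hzw
      obtain ⟨w', hw', h3⟩ := (hfA.2.2 x hx' y hy hxy).1 z hz hzR
      rw [Z.appr_unique hX hwf hf' hf hfA' hfA hzw' h3]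
      exact ⟨z, hz, hzR, h3⟩
    · rintro ⟨z, hz, hzR, hzw⟩
      exact ⟨z, hz, hzR, (hGp z w).2 ⟨f, hf, hfA, hzw⟩⟩
  have hGA : Appr V R X h G := by
    refine ⟨?_, ?_, ?_⟩
    · intro p hp
      obtain ⟨_, x, hx, y, hy, rfl, _⟩ := (hG p).1 hp
      rw [hX', ZFSet.mem_sep] at hx
      exact ⟨x, hx.1, y, hy, rfl⟩
    · intro x _ y _ y' _ h1 h2
      obtain ⟨f, hf, hfA, hxy⟩ := (hGp x y).1 h1
      obtain ⟨f', hf', hfA', hxy'⟩ := (hGp x y').1 h2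
      exact Z.appr_unique hX hwf hf hf' hfA hfA' hxy hxy'
    · intro x hx y hy h1
      obtain ⟨f, hf, hfA, hxy⟩ := (hGp x y).1 h1
      obtain ⟨h3, h4⟩ := hfA.2.2 x hx y hy hxy
      refine ⟨?_, ?_⟩
      · intro z hz hzR
        obtain ⟨w, hw, hzw⟩ := h3 z hz hzR
        exact ⟨w, hw, (hGp z w).2 ⟨f, hf, hfA, hzw⟩⟩
      · rw [hGf x y f hf hfA hxy]
        exact h4
  have hall : ∀ x ∈ X, ∃ y, pair x y ∈ G := by
    by_contra hcon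
    push Not at hcon
    obtain ⟨x1, hx1, hx1'⟩ := hcon
    have hY : ZFSet.sep (fun x => ¬ ∃ y, y ∈ V ∧ pair x y ∈ G) X ∈ V := by
      refine Z.sep' _ ?_ X hX
      exact Z.ts.not (Z.ts.ex (Z.ts.mem (Z.ts.pair (Z.ts.v 1) (Z.ts.v 0)) (Z.par G hGV)))
    obtain ⟨x, hx, hmin⟩ := hwf _ hY ZFSet.sep_subset ⟨x1, by
      rw [ZFSet.mem_sep]
      exact ⟨hx1, fun ⟨y, _, hy⟩ => hx1' y hy⟩⟩
    rw [ZFSet.mem_sep] at hx
    obtain ⟨hxX, hxG⟩ := hx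
    have hxG' : ∀ y, pair x y ∉ G := fun y hy =>
      hxG ⟨y, (mem_of_pair_mem Z.tr hGV hy).2, hy⟩
    have hRxx : ¬ R x x := hmin x (by rw [ZFSet.mem_sep]; exact ⟨hxX, hxG⟩)
    have hpred : ∀ z ∈ X, R z x → ∃ w, pair z w ∈ G := by
      intro z hz hzR
      by_contra hc
      refine hmin z ?_ hzR
      rw [ZFSet.mem_sep]
      exact ⟨hz, fun ⟨w, _, hw⟩ => hc ⟨w, hw⟩⟩
    have hxV : x ∈ V := Z.mem_tr hX hxX
    have hvV : vals R X G x ∈ V :=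
      (Z.tmVals hX hR (Z.par G hGV) (Z.par x hxV)).closed () (fun _ => x) (fun _ => hxV)
    have hval : h (vals R X G x) ∈ V := hh.closed () (fun _ => vals R X G x) (fun _ => hvV)
    set y0 := h (vals R X G x) with hy0
    set G' := insert (pair x y0) G with hG'
    have hG'V : G' ∈ V := Z.insert_mem (Z.pair_mem hxV hval) hGV
    have hG'p : ∀ a b, pair a b ∈ G' ↔ (a = x ∧ b = y0) ∨ pair a b ∈ G := by
      intro a b
      rw [hG', ZFSet.mem_insert_iff, ZFSet.pair_inj]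
    have hvals : ∀ t, (t = x ∨ ∃ s, pair t s ∈ G) → vals R X G' t = vals R X G t := by
      intro t ht
      ext w
      rw [mem_vals, mem_vals]
      constructor
      · rintro ⟨z, hz, hzR, hzw⟩
        rcases (hG'p z w).1 hzw with ⟨rfl, rfl⟩ | h3
        · exfalso
          rcases ht with rfl | ⟨s, hs⟩
          · exact hRxx hzR
          · obtain ⟨x', hx', y', hy', e⟩ := hGA.1 _ hs
            rw [ZFSet.pair_inj] at e
            obtain ⟨rfl, rfl⟩ := e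
            obtain ⟨w', _, hw'⟩ := (hGA.2.2 t hx' s hy' hs).1 z hz hzR
            exact hxG' w' hw'
        · exact ⟨z, hz, hzR, h3⟩
      · rintro ⟨z, hz, hzR, hzw⟩
        exact ⟨z, hz, hzR, (hG'p z w).2 (Or.inr hzw)⟩
    have hG'A : Appr V R X h G' := by
      refine ⟨?_, ?_, ?_⟩
      · intro p hp
        rw [hG', ZFSet.mem_insert_iff] at hp
        rcases hp with rfl | hp
        · exact ⟨x, hxX, y0, hval, rfl⟩
        · exact hGA.1 p hp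
      · intro a ha y hy y' hy' h1 h2
        rcases (hG'p _ _).1 h1 with ⟨e1, e2⟩ | h3
        · rcases (hG'p _ _).1 h2 with ⟨_, e3⟩ | h4
          · rw [e2, e3]
          · rw [e1] at h4
            exact absurd h4 (hxG' _)
        · rcases (hG'p _ _).1 h2 with ⟨e3, _⟩ | h4
          · rw [e3] at h3
            exact absurd h3 (hxG' _)
          · exact hGA.2.1 a ha y hy y' hy' h3 h4
      · intro a ha y hy h1
        rcases (hG'p _ _).1 h1 with ⟨rfl, rfl⟩ | h1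
        · refine ⟨?_, ?_⟩
          · intro z hz hzR
            obtain ⟨w, hw⟩ := hpred z hz hzR
            exact ⟨w, (mem_of_pair_mem Z.tr hGV hw).2, (hG'p _ _).2 (Or.inr hw)⟩
          · rw [hvals a (Or.inl rfl)]
        · obtain ⟨h3, h4⟩ := hGA.2.2 a ha y hy h1
          refine ⟨?_, ?_⟩
          · intro z hz hzR
            obtain ⟨w, hw, hzw⟩ := h3 z hz hzR
            exact ⟨w, hw, (hG'p _ _).2 (Or.inr hzw)⟩
          · rw [hvals a (Or.inr ⟨y, h1⟩)]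
            exact h4
    exact hxG' y0 ((hGp x y0).2 ⟨G', hG'V, hG'A, (hG'p _ _).2 (Or.inl ⟨rfl, rfl⟩)⟩)
  have hGu : ∀ x ∈ X, ∃! y, pair x y ∈ G := by
    intro x hx
    obtain ⟨y, hy⟩ := hall x hx
    refine ⟨y, hy, fun z hz => ?_⟩
    obtain ⟨hxV, hyV⟩ := mem_of_pair_mem Z.tr hGV hy
    obtain ⟨_, hzV⟩ := mem_of_pair_mem Z.tr hGV hz
    exact hGA.2.1 x hxV z hzV y hyV hz hy
  have hgr : gr (app G) X = G := gr_app (fun p hp => by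
    obtain ⟨x, hx, y, _, e⟩ := hGA.1 p hp
    exact ⟨x, hx, y, e⟩) hGu
  refine ⟨app G, by rw [hgr]; exact hGV, fun x hx => ?_⟩
  obtain ⟨y, hy, hu⟩ := hGu x hx
  have e1 : app G x = y := app_eq hy hu
  have hyV := (mem_of_pair_mem Z.tr hGV hy).2
  rw [e1]
  refine ⟨hyV, ?_⟩
  rw [(hGA.2.2 x hx y hyV hy).2]
  congr 1
  ext w
  rw [mem_vals, mem_img]
  constructor
  · rintro ⟨z, hz, hzR, hzw⟩
    refine ⟨z, ZFSet.mem_sep.2 ⟨hz, hzR⟩, ?_⟩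
    obtain ⟨w', hw', hu'⟩ := hGu z hz
    rw [app_eq hzw (fun t ht => (hu' t ht).trans (hu' w hzw).symm)]
  · rintro ⟨z, hz, rfl⟩
    rw [ZFSet.mem_sep] at hz
    refine ⟨z, hz.1, hz.2, ?_⟩
    obtain ⟨w', hw', hu'⟩ := hGu z hz.1
    rw [app_eq hw' hu']
    exact hw'

end ZM

end Pool.Agent.Work.MP_fbd45d_lc
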