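import Pool.Agent.Work.MP_fbd45d_lc.Form

/-!
# Hereditarily countable sets and the real coding the tables
-/

namespace Pool.Agent.Work.MP_fbd45d_lc

universe u

open ZFSet (pair)
open Ordinal

/-! ## Hereditarily countable sets -/

/-- Hereditarily countable sets. -/
def HC (x : ZFSet.{u}) : Prop :=
  ∃ t : ZFSet.{u}, t.IsTransitive ∧ x ∈ t ∧ (t : Set ZFSet.{u}).Countable

theorem HC.insert_trans {t x : ZFSet.{u}} (ht : t.IsTransitive) (hx : x ⊆ t) :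
    (insert x t : ZFSet.{u}).IsTransitive := by
  intro y hy z hz
  rw [ZFSet.mem_insert_iff] at hy ⊢
  rcases hy with rfl | hy
  · exact Or.inr (hx hz)
  · exact Or.inr (ht _ hy hz)

theorem HC.range {f : ℕ → ZFSet.{u}} (h : ∀ n, HC (f n)) : HC (ZFSet.range f) := by
  choose t h1 h2 h3 using h
  let T : ZFSet.{u} := ZFSet.sUnion (ZFSet.range t)
  have hT : ∀ z, z ∈ T ↔ ∃ n, z ∈ t n := by
    intro z
    rw [ZFSet.mem_sUnion]
    constructor
    · rintro ⟨w, hw, hz⟩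
      obtain ⟨n, rfl⟩ := ZFSet.mem_range.1 hw
      exact ⟨n, hz⟩
    · rintro ⟨n, hn⟩
      exact ⟨t n, ZFSet.mem_range.2 ⟨n, rfl⟩, hn⟩
  have hTt : T.IsTransitive := by
    intro y hy z hz
    obtain ⟨n, hn⟩ := (hT y).1 hy
    exact (hT z).2 ⟨n, h1 n _ hn hz⟩
  refine ⟨insert (ZFSet.range f) T, HC.insert_trans hTt ?_, ZFSet.mem_insert _ _, ?_⟩
  · intro z hz
    obtain ⟨n, rfl⟩ := ZFSet.mem_range.1 hz
    exact (hT _).2 ⟨n, h2 n⟩
  · rw [ZFSet.coe_insert]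
    refine Set.Countable.insert _ ?_
    have : (T : Set ZFSet.{u}) = ⋃ n, (t n : Set ZFSet.{u}) := by
      ext z
      rw [Set.mem_iUnion]
      exact hT z
    rw [this]
    exact Set.countable_iUnion h3

theorem HC.upair {x y : ZFSet.{u}} (hx : HC x) (hy : HC y) : HC ({x, y} : ZFSet.{u}) := by
  have := HC.range (f := fun n => if n = 0 then x else y) (by
    intro n
    by_cases hn : n = 0
    · simpa [hn] using hx
    · simpa [hn] using hy)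
  have e : ZFSet.range (fun n : ℕ => if n = 0 then x else y) = ({x, y} : ZFSet.{u}) := by
    ext z
    rw [ZFSet.mem_range, ZFSet.mem_pair]
    constructor
    · rintro ⟨n, rfl⟩
      by_cases hn : n = 0
      · simp [hn]
      · simp [hn]
    · rintro (rfl | rfl)
      · exact ⟨0, by simp⟩
      · exact ⟨1, by simp⟩
  rw [← e]
  exact this

theorem HC.pair {x y : ZFSet.{u}} (hx : HC x) (hy : HC y) : HC (ZFSet.pair x y) := by
  have h1 : HC ({x} : ZFSet.{u}) := by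
    rw [← ZFSet.pair_eq_singleton]; exact hx.upair hx
  exact h1.upair (hx.upair hy)

theorem countable_toZFSet {α : Ordinal.{u}} (h : α < ω_ 1) :
    ((α.toZFSet : ZFSet.{u}) : Set ZFSet.{u}).Countable := by
  rw [← Set.countable_coe_iff, ← Cardinal.mk_le_aleph0_iff]
  have h2 := ZFSet.cardinalMk_coe_sort (x := α.toZFSet)
  have h3 : Cardinal.mk ((α.toZFSet : ZFSet.{u}) : Set ZFSet.{u}) = Cardinal.mk α.toZFSet := rfl
  rw [h3, h2, Ordinal.card_toZFSet, Cardinal.lift_le_aleph0]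
  rw [← Cardinal.ord_aleph, Cardinal.lt_ord] at h
  have h4 : (Cardinal.aleph 1 : Cardinal.{u}) = Order.succ Cardinal.aleph0 := by
    rw [← Cardinal.succ_aleph0]
  rw [h4] at h
  exact Order.lt_succ_iff.1 h

theorem HC.ord {α : Ordinal.{u}} (h : α < ω_ 1) : HC α.toZFSet := by
  have h1 : Order.succ α < ω_ 1 := by
    rw [← Cardinal.ord_aleph] at h ⊢
    exact (Cardinal.isSuccLimit_ord (Cardinal.aleph0_le_aleph 1)).succ_lt h
  exact ⟨(Order.succ α).toZFSet, (ZFSet.isOrdinal_toZFSet _).1,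
    Ordinal.toZFSet_mem_toZFSet_iff.2 (Order.lt_succ α), countable_toZFSet h1⟩

theorem HC.nat (n : ℕ) : HC (nat.{u} n) := by
  refine ⟨q0, q0_trans, ?_, q0_countable⟩
  have h := q0_pair.{u} (m := n) (n := n)
  exact (mem_of_pair q0_trans h).1

theorem HC.e0 (n : ℕ) : HC (e0.{u} n) :=
  ⟨q0, q0_trans, (e0_spec _).2 ⟨n, rfl⟩, q0_countable⟩

theorem HC.code (φ : LForm) : HC (LForm.code.{u} φ) := by
  induction φ with
  | pred n i => exact HC.pair (HC.nat _) (HC.pair (HC.nat _) (HC.nat _))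
  | eq i j => exact HC.pair (HC.nat _) (HC.pair (HC.nat _) (HC.nat _))
  | neg φ ih => exact HC.pair (HC.nat _) ih
  | conj f ih => exact HC.pair (HC.nat _) (HC.range (fun n => HC.pair (HC.nat _) (ih n)))
  | ex φ ih => exact HC.pair (HC.nat _) ih

theorem nat_inj {m n : ℕ} : nat.{u} m = nat n ↔ m = n := by
  constructor
  · intro h
    have := Ordinal.toZFSet_injective h
    exact_mod_cast this
  · rintro rfl; rfl

theorem mem_omega {x : ZFSet.{u}} : x ∈ Ordinal.toZFSet (ω : Ordinal.{u}) ↔ ∃ n : ℕ, x = nat n := by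
  rw [Ordinal.mem_toZFSet_iff]
  constructor
  · rintro ⟨a, ha, rfl⟩
    obtain ⟨n, rfl⟩ := Ordinal.lt_omega0.1 ha
    exact ⟨n, rfl⟩
  · rintro ⟨n, rfl⟩
    exact ⟨n, Ordinal.natCast_lt_omega0 n, rfl⟩

theorem nat_mem_omega (n : ℕ) : nat.{u} n ∈ Ordinal.toZFSet (ω : Ordinal.{u}) :=
  mem_omega.2 ⟨n, rfl⟩

theorem nat_mem_nat {m n : ℕ} : nat.{u} m ∈ nat n ↔ m < n := by
  unfold nat
  rw [Ordinal.toZFSet_mem_toZFSet_iff]
  exact_mod_cast Iff.rfl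

/-! ## Tables -/

/-- Codes of the positive literals. -/
noncomputable def tabPos : ZFSet.{u} :=
  ZFSet.range fun n : ℕ => pair (nat n) (LForm.code.{u} (litA.{u} n))
/-- Codes of the negative literals. -/
noncomputable def tabNeg : ZFSet.{u} :=
  ZFSet.range fun n : ℕ => pair (nat n) (LForm.code.{u} (litB.{u} n))
/-- The enumeration `e0`. -/
noncomputable def tabE : ZFSet.{u} := ZFSet.range fun n : ℕ => pair (nat n) (e0.{u} n)
/-- The indices of the core bits. -/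
noncomputable def tabC : ZFSet.{u} :=
  ZFSet.range fun k : ℕ => pair (pair (nat (Nat.unpair k).1) (nat (Nat.unpair k).2)) (nat (3 * k))
/-- The indices of the other bits. -/
noncomputable def tabD : ZFSet.{u} := ZFSet.range fun n : ℕ => pair (nat n) (nat (3 * n + 2))

theorem mem_tabC {x y z : ZFSet.{u}} : pair (pair x y) z ∈ tabC.{u} ↔
    ∃ m n : ℕ, x = nat m ∧ y = nat n ∧ z = nat (cr m n) := by
  unfold tabC
  rw [ZFSet.mem_range]
  constructor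
  · rintro ⟨k, hk⟩
    rw [ZFSet.pair_inj, ZFSet.pair_inj] at hk
    refine ⟨_, _, hk.1.1.symm, hk.1.2.symm, ?_⟩
    rw [← hk.2, cr, Nat.pair_unpair]
  · rintro ⟨m, n, rfl, rfl, rfl⟩
    refine ⟨Nat.pair m n, ?_⟩
    rw [Nat.unpair_pair]
    rfl

theorem mem_tab {f : ℕ → ZFSet.{u}} {x y : ZFSet.{u}} :
    pair x y ∈ ZFSet.range (fun n : ℕ => pair (nat n) (f n)) ↔ ∃ n : ℕ, x = nat n ∧ y = f n := by
  rw [ZFSet.mem_range]
  constructor
  · rintro ⟨k, hk⟩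
    rw [ZFSet.pair_inj] at hk
    exact ⟨k, hk.1.symm, hk.2.symm⟩
  · rintro ⟨n, rfl, rfl⟩
    exact ⟨n, rfl⟩

theorem mem_tabD {x y : ZFSet.{u}} : pair x y ∈ tabD.{u} ↔
    ∃ n : ℕ, x = nat n ∧ y = nat (3 * n + 2) := mem_tab (f := fun n => nat (3 * n + 2))

/-- The base: a countable transitive set containing `α` and the tables, with an enumeration. -/
structure Base (α : Ordinal.{u}) (b : ZFSet.{u}) (eb : ℕ → ZFSet.{u}) : Prop where
  trans : b.IsTransitive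
  enum : ∀ z, z ∈ b ↔ ∃ n, eb n = z
  ord : α.toZFSet ∈ b
  pos : tabPos.{u} ∈ b
  neg : tabNeg.{u} ∈ b
  tE : tabE.{u} ∈ b
  tC : tabC.{u} ∈ b
  tD : tabD.{u} ∈ b

theorem exists_base {α : Ordinal.{u}} (hα : α < ω_ 1) : ∃ b eb, Base α b eb := by
  have h1 : HC tabPos.{u} := HC.range (fun n => HC.pair (HC.nat _) (HC.code _))
  have h2 : HC tabNeg.{u} := HC.range (fun n => HC.pair (HC.nat _) (HC.code _))
  have h3 : HC tabE.{u} := HC.range (fun n => HC.pair (HC.nat _) (HC.e0 _))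
  have h4 : HC tabC.{u} :=
    HC.range (fun n => HC.pair (HC.pair (HC.nat _) (HC.nat _)) (HC.nat _))
  have h5 : HC tabD.{u} := HC.range (fun n => HC.pair (HC.nat _) (HC.nat _))
  obtain ⟨b, hb, hx, hc⟩ := HC.pair (HC.ord hα) (HC.pair h1 (HC.pair h2 (HC.pair h3
    (HC.pair h4 h5))))
  obtain ⟨eb, heb⟩ := hc.exists_eq_range ⟨_, hx⟩
  obtain ⟨a1, hx⟩ := mem_of_pair hb hx
  obtain ⟨a2, hx⟩ := mem_of_pair hb hx
  obtain ⟨a3, hx⟩ := mem_of_pair hb hx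
  obtain ⟨a4, hx⟩ := mem_of_pair hb hx
  obtain ⟨a5, a6⟩ := mem_of_pair hb hx
  refine ⟨b, eb, hb, fun z => ?_, a1, a2, a3, a4, a5, a6⟩
  have : z ∈ (b : Set ZFSet.{u}) ↔ z ∈ Set.range eb := by rw [heb]
  simpa using this

/-- The membership relation of the base, as a subset of `ω × ω`. -/
noncomputable def rOf (eb : ℕ → ZFSet.{u}) : ZFSet.{u} :=
  ZFSet.sep (fun p => ∃ m n : ℕ, p = pair (nat m) (nat n) ∧ eb m ∈ eb n) q0

theorem mem_rOf {eb : ℕ → ZFSet.{u}} {x y : ZFSet.{u}} :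
    pair x y ∈ rOf eb ↔ ∃ m n : ℕ, x = nat m ∧ y = nat n ∧ eb m ∈ eb n := by
  unfold rOf
  rw [ZFSet.mem_sep]
  constructor
  · rintro ⟨_, m, n, h, h'⟩
    rw [ZFSet.pair_inj] at h
    exact ⟨m, n, h.1, h.2, h'⟩
  · rintro ⟨m, n, rfl, rfl, h⟩
    exact ⟨q0_pair, m, n, rfl, h⟩

theorem nat_mem_rOf {eb : ℕ → ZFSet.{u}} {m n : ℕ} :
    pair (nat m) (nat n) ∈ rOf eb ↔ eb m ∈ eb n := by
  rw [mem_rOf]
  constructor
  · rintro ⟨m', n', h1, h2, h⟩
    rw [nat_inj] at h1 h2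
    rw [h1, h2]; exact h
  · intro h
    exact ⟨m, n, rfl, rfl, h⟩

theorem rOf_subset {eb : ℕ → ZFSet.{u}} : rOf eb ⊆ q0 := ZFSet.sep_subset

section Decode

variable {V : ZFSet.{u}} {D : (Unit → (ℕ → ZFSet.{u}) → Prop) → Prop}

theorem ZM.gr_def (Z : ZM V D) {g : ZFSet.{u} → ZFSet.{u}} {a : ZFSet.{u}}
    (hG : gr g a ∈ V) (ha : a ∈ V) : D (fun _ v => v 0 ∈ a ∧ v 1 = g (v 0)) := by
  refine Z.ts.congr (Z.ts.and (Z.ts.mem (Z.ts.v 0) (Z.par a ha)) (Z.ts.eq (Z.ts.v 1)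
    (Z.tmApp (Z.par _ hG) (Z.ts.v 0)))) (fun i v _ => ?_)
  constructor
  · rintro ⟨h1, h2⟩
    rw [app_gr h1] at h2
    exact ⟨h1, h2⟩
  · rintro ⟨h1, h2⟩
    refine ⟨h1, ?_⟩
    rw [app_gr h1]
    exact h2

theorem ZM.gr_val (Z : ZM V D) {g : ZFSet.{u} → ZFSet.{u}} {a x : ZFSet.{u}}
    (hG : gr g a ∈ V) (hx : x ∈ a) : g x ∈ V :=
  (mem_of_pair_mem Z.tr hG (pair_mem_gr.2 ⟨hx, rfl⟩)).2

theorem ZM.img_of_gr (Z : ZM V D) {g : ZFSet.{u} → ZFSet.{u}} {a : ZFSet.{u}}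
    (hG : gr g a ∈ V) (ha : a ∈ V) : img g a ∈ V :=
  Z.img_mem ha (Z.gr_def hG ha) (fun _ hx => Z.gr_val hG hx)

theorem decode (Z : ZM V D) {α : Ordinal.{u}} {b : ZFSet.{u}} {eb : ℕ → ZFSet.{u}}
    (hB : Base α b eb) (hr : rOf eb ∈ V) :
    ZFSet.range (fun n : ℕ => pair (nat n) (eb n)) ∈ V ∧ b ∈ V := by
  have hR : D (fun _ v => pair (v 0) (v 1) ∈ rOf eb) :=
    Z.ts.mem (Z.ts.pair (Z.ts.v 0) (Z.ts.v 1)) (Z.par _ hr)
  have hwf : ZM.WFIn V (fun x y => pair x y ∈ rOf eb) (Ordinal.toZFSet (ω : Ordinal.{u})) := by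
    rintro Y _ hYω ⟨y, hy⟩
    -- choose a member whose value is `∈`-minimal
    obtain ⟨n, rfl⟩ := mem_omega.1 (hYω hy)
    have key : ∀ z : ZFSet.{u}, ∀ n, eb n = z → nat n ∈ Y →
        ∃ x ∈ Y, ∀ y ∈ Y, ¬ pair y x ∈ rOf eb := by
      intro z
      induction z using ZFSet.inductionOn with
      | h z ih =>
        intro n hn hnY
        by_contra hcon
        push Not at hcon
        obtain ⟨y, hy, hyr⟩ := hcon _ hnY
        obtain ⟨m, n', rfl, hn', hmn⟩ := mem_rOf.1 hyr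
        rw [nat_inj] at hn'
        subst hn'
        rw [hn] at hmn
        obtain ⟨x, hx, h⟩ := ih _ hmn m rfl hy
        obtain ⟨y', hy', h'⟩ := hcon x hx
        exact h y' hy' h'
    exact key _ n rfl hy
  obtain ⟨g, hg, hgx⟩ := Z.recursion (X := Ordinal.toZFSet (ω : Ordinal.{u}))
    (R := fun x y => pair x y ∈ rOf eb) (h := fun s => s) Z.omega hR hwf (Z.ts.v 0)
  have hgn : ∀ z : ZFSet.{u}, ∀ n, eb n = z → g (nat n) = z := by
    intro z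
    induction z using ZFSet.inductionOn with
    | h z ih =>
      intro n hn
      rw [(hgx _ (nat_mem_omega n)).2]
      ext w
      rw [mem_img]
      constructor
      · rintro ⟨y, hy, rfl⟩
        rw [ZFSet.mem_sep] at hy
        obtain ⟨m, n', rfl, hn', hmn⟩ := mem_rOf.1 hy.2
        rw [nat_inj] at hn'
        subst hn'
        rw [hn] at hmn
        rw [ih _ hmn m rfl]
        exact hmn
      · intro hw
        have hwb : w ∈ b := hB.trans _ ((hB.enum z).2 ⟨n, hn⟩) hw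
        obtain ⟨m, hm⟩ := (hB.enum w).1 hwb
        refine ⟨nat m, ZFSet.mem_sep.2 ⟨nat_mem_omega m, ?_⟩, ih w hw m hm⟩
        rw [nat_mem_rOf, hm, hn]
        exact hw
  have e1 : gr g (Ordinal.toZFSet (ω : Ordinal.{u})) =
      ZFSet.range (fun n : ℕ => pair (nat n) (eb n)) := by
    ext p
    rw [mem_gr, ZFSet.mem_range]
    constructor
    · rintro ⟨z, hz, rfl⟩
      obtain ⟨n, rfl⟩ := mem_omega.1 hz
      exact ⟨n, by rw [hgn _ n rfl]⟩
    · rintro ⟨n, rfl⟩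
      exact ⟨nat n, nat_mem_omega n, by rw [hgn _ n rfl]⟩
  have e2 : img g (Ordinal.toZFSet (ω : Ordinal.{u})) = b := by
    ext z
    rw [mem_img, hB.enum]
    constructor
    · rintro ⟨w, hw, rfl⟩
      obtain ⟨n, rfl⟩ := mem_omega.1 hw
      exact ⟨n, (hgn _ n rfl).symm⟩
    · rintro ⟨n, rfl⟩
      exact ⟨nat n, nat_mem_omega n, hgn _ n rfl⟩
  refine ⟨?_, ?_⟩
  · rw [← e1]; exact hg
  · rw [← e2]; exact Z.img_of_gr hg Z.omega

theorem countableIn (Z : ZM V D) {α : Ordinal.{u}} {b : ZFSet.{u}} {eb : ℕ → ZFSet.{u}}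
    (hB : Base α b eb) (hr : rOf eb ∈ V) : CountableIn V α := by
  obtain ⟨hG, hb⟩ := decode Z hB hr
  have hα : α.toZFSet ∈ V := Z.mem_tr hb hB.ord
  refine ⟨hα, ?_⟩
  set G := ZFSet.range (fun n : ℕ => pair (nat n) (eb n)) with hGdef
  have hGm : ∀ x y, pair x y ∈ G ↔ ∃ n : ℕ, x = nat n ∧ y = eb n := fun x y => mem_tab
  set f := ZFSet.sep (fun p => ∃ x, x ∈ α.toZFSet ∧ ∃ n, n ∈ Ordinal.toZFSet (ω : Ordinal.{u}) ∧
    (p = pair x n ∧ (pair n x ∈ G ∧ ∀ m, m ∈ n → ¬ pair m x ∈ G)))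
    (ZFSet.prod α.toZFSet (Ordinal.toZFSet (ω : Ordinal.{u}))) with hf
  have hfm : ∀ x y, pair x y ∈ f ↔ x ∈ α.toZFSet ∧ y ∈ Ordinal.toZFSet (ω : Ordinal.{u}) ∧
      (pair y x ∈ G ∧ ∀ m, m ∈ y → ¬ pair m x ∈ G) := by
    intro x y
    rw [hf, ZFSet.mem_sep, ZFSet.pair_mem_prod]
    constructor
    · rintro ⟨_, x', hx', n, hn, h, h'⟩
      rw [ZFSet.pair_inj] at h
      obtain ⟨rfl, rfl⟩ := h
      exact ⟨hx', hn, h'⟩
    · rintro ⟨h1, h2, h3⟩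
      exact ⟨⟨h1, h2⟩, x, h1, y, h2, rfl, h3⟩
  refine ⟨f, ?_, ⟨ZFSet.sep_subset, ?_⟩, ?_⟩
  · refine Z.sep' _ ?_ _ (Z.prod_mem hα Z.omega)
    exact Z.ts.exMem (Z.par _ hα) (Z.ts.exMem (Z.par _ Z.omega) (Z.ts.and
      (Z.ts.eq (Z.ts.v 2) (Z.ts.pair (Z.ts.v 1) (Z.ts.v 0)))
      (Z.ts.and (Z.ts.mem (Z.ts.pair (Z.ts.v 0) (Z.ts.v 1)) (Z.par _ hG))
      (Z.ts.allMem (Z.ts.v 0) (Z.ts.not (Z.ts.mem (Z.ts.pair (Z.ts.v 0) (Z.ts.v 2))
        (Z.par _ hG)))))))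
  · intro x hx
    have hxb : x ∈ b := hB.trans _ hB.ord hx
    have hex : ∃ n, eb n = x := (hB.enum x).1 hxb
    classical
    refine ⟨nat (Nat.find hex), ?_, ?_⟩
    · show pair _ _ ∈ f
      rw [hfm]
      refine ⟨hx, nat_mem_omega _, (hGm _ _).2 ⟨_, rfl, (Nat.find_spec hex).symm⟩, ?_⟩
      intro m hm hmG
      obtain ⟨k, rfl, hk⟩ := (hGm _ _).1 hmG
      rw [nat_mem_nat] at hm
      exact Nat.find_min hex hm hk.symm
    · intro y hy
      have hy' : pair x y ∈ f := hy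
      rw [hfm] at hy'
      obtain ⟨_, hyω, h1, h2⟩ := hy'
      obtain ⟨k, rfl, hk⟩ := (hGm _ _).1 h1
      rcases lt_trichotomy k (Nat.find hex) with h | h | h
      · exact absurd hk.symm (Nat.find_min hex h)
      · rw [h]
      · exact absurd ((hGm _ _).2 ⟨_, rfl, (Nat.find_spec hex).symm⟩)
          (h2 _ (nat_mem_nat.2 h))
  · intro x x' y hx hx'
    rw [hfm] at hx hx'
    obtain ⟨n, rfl, hn⟩ := (hGm _ _).1 hx.2.2.1
    obtain ⟨n', hn'', hn'⟩ := (hGm _ _).1 hx'.2.2.1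
    rw [nat_inj] at hn''
    rw [hn, hn', hn'']

open Classical in
theorem code_mem (Z : ZM V D) {α : Ordinal.{u}} {b : ZFSet.{u}} {eb : ℕ → ZFSet.{u}}
    (hB : Base α b eb) (hr : rOf eb ∈ V) : (phi (rOf eb)).code ∈ V := by
  obtain ⟨_, hb⟩ := decode Z hB hr
  have hP := Z.mem_tr hb hB.pos
  have hN := Z.mem_tr hb hB.neg
  have hE := Z.mem_tr hb hB.tE
  set r := rOf eb with hr_def
  have e : ZFSet.range (fun n : ℕ => pair (nat n) (LForm.code.{u}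
      ((fun n => if e0.{u} n ∈ r then litA.{u} n else litB.{u} n) n))) =
      ZFSet.sep (fun p => ∃ x, x ∈ Ordinal.toZFSet (ω : Ordinal.{u}) ∧ ∃ a, a ∈ V ∧
        (pair x a ∈ tabE ∧ ((∃ y, y ∈ V ∧ p = pair x y) ∧
        ((a ∈ r ∧ p ∈ tabPos) ∨ (¬ a ∈ r ∧ p ∈ tabNeg))))) (tabPos ∪ tabNeg) := by
    ext p
    rw [ZFSet.mem_range, ZFSet.mem_sep, ZFSet.mem_union]
    constructor
    · rintro ⟨n, rfl⟩
      have hEn : pair (nat n) (e0 n) ∈ tabE.{u} := mem_tab.2 ⟨n, rfl, rfl⟩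
      by_cases hn : e0.{u} n ∈ r
      · simp only [hn, if_true]
        have h1 : pair (nat n) (LForm.code.{u} (litA.{u} n)) ∈ tabPos.{u} :=
          ZFSet.mem_range.2 ⟨n, rfl⟩
        exact ⟨Or.inl h1, nat n, nat_mem_omega n, e0 n, (mem_of_pair_mem Z.tr hE hEn).2, hEn,
          ⟨_, (mem_of_pair_mem Z.tr hP h1).2, rfl⟩, Or.inl ⟨hn, h1⟩⟩
      · simp only [hn, if_false]
        have h1 : pair (nat n) (LForm.code.{u} (litB.{u} n)) ∈ tabNeg.{u} :=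
          ZFSet.mem_range.2 ⟨n, rfl⟩
        exact ⟨Or.inr h1, nat n, nat_mem_omega n, e0 n, (mem_of_pair_mem Z.tr hE hEn).2, hEn,
          ⟨_, (mem_of_pair_mem Z.tr hN h1).2, rfl⟩, Or.inr ⟨hn, h1⟩⟩
    · rintro ⟨_, x, _, a, _, hxa, ⟨y, _, rfl⟩, h⟩
      obtain ⟨n, rfl, rfl⟩ := mem_tab.1 hxa
      rcases h with ⟨h1, h2⟩ | ⟨h1, h2⟩
      · obtain ⟨n', hn', rfl⟩ := mem_tab.1 h2
        rw [nat_inj] at hn'
        subst hn'
        refine ⟨n, ?_⟩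
        simp only [h1, if_true]
      · obtain ⟨n', hn', rfl⟩ := mem_tab.1 h2
        rw [nat_inj] at hn'
        subst hn'
        refine ⟨n, ?_⟩
        simp only [h1, if_false]
  have hcode : (phi r).code = pair (nat 3) (ZFSet.range (fun n : ℕ => pair (nat n)
      (LForm.code.{u} ((fun n => if e0.{u} n ∈ r then litA.{u} n else litB.{u} n) n)))) := rfl
  rw [hcode, e]
  refine Z.pair_mem (Z.nat_mem 3) (Z.sep' _ ?_ _ (Z.union_mem hP hN))
  exact Z.ts.exMem (Z.par _ Z.omega) (Z.ts.ex (Z.ts.and (Z.ts.mem (Z.ts.pair (Z.ts.v 1)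
    (Z.ts.v 0)) (Z.par _ hE)) (Z.ts.and (Z.ts.ex (Z.ts.eq (Z.ts.v 3) (Z.ts.pair (Z.ts.v 2)
    (Z.ts.v 0)))) (Z.ts.or (Z.ts.and (Z.ts.mem (Z.ts.v 0) (Z.par _ hr)) (Z.ts.mem (Z.ts.v 2)
    (Z.par _ hP))) (Z.ts.and (Z.ts.not (Z.ts.mem (Z.ts.v 0) (Z.par _ hr)))
    (Z.ts.mem (Z.ts.v 2) (Z.par _ hN)))))))

end Decode

end Pool.Agent.Work.MP_fbd45d_lc
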