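import Pool.Agent.Work.MP_fbd45d_lc.SetModel

/-!
# Definability by formulas of set theory; the theory of all transitive models of ZFC + GCH
-/

namespace Pool.Agent.Work.MP_fbd45d_lc

universe u

open ZFSet (pair)
open Ordinal

/-! ## Formulas of set theory as a definability system -/

/-- Translation into the general syntax. -/
def SForm.toFm : SForm → Fm Unit
  | mem i j => Fm.rel () i j 0
  | eq i j => Fm.eq i j
  | neg φ => Fm.neg φ.toFm
  | and φ ψ => Fm.and φ.toFm ψ.toFm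
  | ex φ => Fm.ex φ.toFm

/-- Translation back. -/
def Fm.toS : Fm Unit → SForm
  | rel _ i j _ => SForm.mem i j
  | eq i j => SForm.eq i j
  | neg φ => SForm.neg φ.toS
  | and φ ψ => SForm.and φ.toS ψ.toS
  | ex φ => SForm.ex φ.toS

theorem SForm.sat_toFm (V : ZFSet.{u}) (φ : SForm) : ∀ v : ℕ → ZFSet.{u},
    φ.toFm.Sat (fun x => x ∈ V) (fun _ a b _ => a ∈ b) v ↔ φ.Sat V v := by
  induction φ with
  | mem i j => intro v; rfl
  | eq i j => intro v; rfl
  | neg φ ih => intro v; simp only [toFm, Fm.Sat, Sat, ih]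
  | and φ ψ ih1 ih2 => intro v; simp only [toFm, Fm.Sat, Sat, ih1, ih2]
  | ex φ ih => intro v; simp only [toFm, Fm.Sat, Sat, ih]

theorem Fm.sat_toS (V : ZFSet.{u}) (φ : Fm Unit) : ∀ v : ℕ → ZFSet.{u},
    φ.toS.Sat V v ↔ φ.Sat (fun x => x ∈ V) (fun _ a b _ => a ∈ b) v := by
  induction φ with
  | rel r i j k => intro v; rfl
  | eq i j => intro v; rfl
  | neg φ ih => intro v; simp only [toS, SForm.Sat, Sat, ih]
  | and φ ψ ih1 ih2 => intro v; simp only [toS, SForm.Sat, Sat, ih1, ih2]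
  | ex φ ih => intro v; simp only [toS, SForm.Sat, Sat, ih]

theorem SForm.toFm_injective : Function.Injective SForm.toFm := by
  intro φ
  induction φ with
  | mem i j =>
    intro ψ h
    cases ψ with
    | mem i' j' => simpa [toFm] using h
    | _ => simp [toFm] at h
  | eq i j =>
    intro ψ h
    cases ψ with
    | eq i' j' => simpa [toFm] using h
    | _ => simp [toFm] at h
  | neg φ ih =>
    intro ψ h
    cases ψ with
    | neg ψ => rw [ih (by simpa [toFm] using h)]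
    | _ => simp [toFm] at h
  | and φ ψ ih1 ih2 =>
    intro χ h
    cases χ with
    | and χ1 χ2 =>
      simp only [toFm, Fm.and.injEq] at h
      rw [ih1 h.1, ih2 h.2]
    | _ => simp [toFm] at h
  | ex φ ih =>
    intro ψ h
    cases ψ with
    | ex ψ => rw [ih (by simpa [toFm] using h)]
    | _ => simp [toFm] at h

instance : Countable SForm := Function.Injective.countable SForm.toFm_injective

/-- Uniform definability over a family of sets. -/
def SD {I : Type*} (V : I → ZFSet.{u}) : (I → (ℕ → ZFSet.{u}) → Prop) → Prop :=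
  FD (fun i x => x ∈ V i) (fun _ (_ : Unit) a b _ => a ∈ b)

theorem SD.iff {I : Type*} {V : I → ZFSet.{u}} {P : I → (ℕ → ZFSet.{u}) → Prop} :
    SD V P ↔ ∃ φ : SForm, ∀ i v, (∀ n, v n ∈ V i) → (P i v ↔ φ.Sat (V i) v) := by
  constructor
  · rintro ⟨φ, hφ⟩
    exact ⟨φ.toS, fun i v hv => (hφ i v hv).trans (Fm.sat_toS _ φ v).symm⟩
  · rintro ⟨φ, hφ⟩
    exact ⟨φ.toFm, fun i v hv => (hφ i v hv).trans (SForm.sat_toFm _ φ v).symm⟩

theorem SD.ds {I : Type*} (V : I → ZFSet.{u}) : DS (fun i x => x ∈ V i) (SD V) := FD.ds _ _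

theorem SD.ts {I : Type*} {V : I → ZFSet.{u}} (h1 : ∀ i, (V i).IsTransitive)
    (h2 : ∀ i, ∀ a ∈ V i, ∀ b ∈ V i, ({a, b} : ZFSet.{u}) ∈ V i) : TS V (SD V) where
  ds := SD.ds V
  mem' := FD.rel _ _ () 0 1 0
  trans := h1
  upair' := h2

/-- Definability with parameters over a single set. -/
def PS (V : ZFSet.{u}) : (Unit → (ℕ → ZFSet.{u}) → Prop) → Prop :=
  PD (fun _ x => x ∈ V) (SD (fun _ : Unit => V))

theorem PS.ds (V : ZFSet.{u}) : DS (fun (_ : Unit) x => x ∈ V) (PS V) := PD.ds (SD.ds _)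

theorem PS.par {V a : ZFSet.{u}} (ha : a ∈ V) : TmV (fun _ => V) (PS V) (fun _ _ => a) :=
  PD.par (SD.ds _) (fun _ => ha)

theorem PS.mem' (V : ZFSet.{u}) : PS V (fun _ v => v 0 ∈ v 1) :=
  PD.of (FD.rel _ _ () 0 1 0)

/-- A predicate definable with parameters is given by a formula. -/
theorem PS.form {V : ZFSet.{u}} {P : Unit → (ℕ → ZFSet.{u}) → Prop} (hP : PS V P) :
    ∃ (φ : SForm) (s : ℕ → ℕ ⊕ (Unit → ZFSet.{u})), (∀ n c, s n = Sum.inr c → c () ∈ V) ∧
      ∀ v, (∀ n, v n ∈ V) → (P () v ↔ φ.Sat V (asg s () v)) := by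
  obtain ⟨Q, hQ, s, hs, h⟩ := hP
  obtain ⟨φ, hφ⟩ := SD.iff.1 hQ
  exact ⟨φ, s, fun n c hc => hs n c hc (),
    fun v hv => (h () v hv).trans (hφ () _ (asg_dom hs hv))⟩

theorem SForm.rename (φ : SForm) (f : ℕ → ℕ) : ∃ ψ : SForm, ∀ (V : ZFSet.{u}) v,
    ψ.Sat V v ↔ φ.Sat V (fun n => v (f n)) := by
  refine ⟨(φ.toFm.rename f).toS, fun V v => ?_⟩
  rw [Fm.sat_toS, Fm.sat_rename, SForm.sat_toFm]

section Model

variable {V : ZFSet.{u}}

theorem IsTransModelZFC.nonempty (h : IsTransModelZFC V) : ∃ a, a ∈ V := by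
  obtain ⟨c, hc, _⟩ := h.infinity
  exact ⟨c, hc⟩

theorem IsTransModelZFC.upair (h : IsTransModelZFC V) : ∀ a ∈ V, ∀ b ∈ V,
    ({a, b} : ZFSet.{u}) ∈ V := by
  intro a ha b hb
  obtain ⟨c, hc, h1⟩ := h.pairing a ha b hb
  have : ({a, b} : ZFSet.{u}) = c := by
    ext x
    rw [ZFSet.mem_pair]
    constructor
    · rintro (rfl | rfl)
      · exact (h1 _ ha).2 (Or.inl rfl)
      · exact (h1 _ hb).2 (Or.inr rfl)
    · intro hx
      exact (h1 x (h.transitive _ hc hx)).1 hx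
  rw [this]
  exact hc

theorem IsTransModelZFC.sep (h : IsTransModelZFC V) {P : ZFSet.{u} → Prop}
    (hP : PS V (fun _ v => P (v 0))) : ∀ a ∈ V, ZFSet.sep P a ∈ V := by
  classical
  intro a ha
  obtain ⟨φ, s, hs, hφ⟩ := PS.form hP
  obtain ⟨ψ, hψ⟩ := φ.rename (fun n => Sum.elim (fun _ => 0) (fun _ => n + 1) (s n))
  obtain ⟨b, hb, hb'⟩ := h.separation ψ (fun n => Sum.elim (fun _ => a) (fun c => c ()) (s n))
    (fun n => by
      rcases e : s n with m | c
      · exact ha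
      · exact hs n c e) a ha
  have key : ∀ x ∈ V, (ψ.Sat V (cons x (fun n => Sum.elim (fun _ => a) (fun c => c ()) (s n))) ↔
      P x) := by
    intro x hx
    rw [hψ]
    have := hφ (fun _ => x) (fun _ => hx)
    rw [this]
    have e : (fun n => cons x (fun n => Sum.elim (fun _ => a) (fun c => c ()) (s n))
        (Sum.elim (fun _ => 0) (fun _ => n + 1) (s n))) = asg s () (fun _ => x) := by
      funext n
      rcases e : s n with m | c
      · simp [asg, e, cons]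
      · simp [asg, e, cons]
    rw [e]
  have : ZFSet.sep P a = b := by
    ext x
    rw [ZFSet.mem_sep]
    constructor
    · rintro ⟨hx, hPx⟩
      have hxV := h.transitive _ ha hx
      exact (hb' x hxV).2 ⟨hx, (key x hxV).2 hPx⟩
    · intro hx
      have hxV := h.transitive _ hb hx
      obtain ⟨h1, h2⟩ := (hb' x hxV).1 hx
      exact ⟨h1, (key x hxV).1 h2⟩
  rw [this]
  exact hb

theorem IsTransModelZFC.repl (h : IsTransModelZFC V) {P : ZFSet.{u} → ZFSet.{u} → Prop}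
    (hP : PS V (fun _ v => P (v 0) (v 1))) : ∀ a ∈ V,
    (∀ x ∈ a, ∃! y, y ∈ V ∧ P x y) → ∃ b ∈ V, ∀ y, y ∈ b ↔ y ∈ V ∧ ∃ x ∈ a, P x y := by
  classical
  intro a ha hu
  obtain ⟨φ, s, hs, hφ⟩ := PS.form hP
  obtain ⟨ψ, hψ⟩ := φ.rename (fun n => Sum.elim (fun m => if m = 0 then 0 else 1)
    (fun _ => n + 2) (s n))
  have key : ∀ x ∈ V, ∀ y ∈ V, (ψ.Sat V (cons x (cons y (fun n => Sum.elim (fun _ => a)
      (fun c => c ()) (s n)))) ↔ P x y) := by
    intro x hx y hy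
    rw [hψ]
    have := hφ (cons x (fun _ => y)) (cons_dom (P := fun x => x ∈ V) hx (fun _ => hy))
    have e0 : P (cons x (fun _ => y) 0) (cons x (fun _ => y) 1) = P x y := rfl
    rw [e0] at this
    rw [this]
    have e : (fun n => cons x (cons y (fun n => Sum.elim (fun _ => a) (fun c => c ()) (s n)))
        (Sum.elim (fun m => if m = 0 then 0 else 1) (fun _ => n + 2) (s n))) =
        asg s () (cons x (fun _ => y)) := by
      funext n
      rcases e : s n with m | c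
      · cases m <;> simp [asg, e, cons]
      · simp [asg, e, cons]
    rw [e]
  obtain ⟨b, hb, hb'⟩ := h.replacement ψ (fun n => Sum.elim (fun _ => a) (fun c => c ()) (s n))
    (fun n => by
      rcases e : s n with m | c
      · exact ha
      · exact hs n c e) a ha (by
      intro x hx hxa
      obtain ⟨y, ⟨hy, hPy⟩, huy⟩ := hu x hxa
      refine ⟨y, ⟨hy, (key x hx y hy).2 hPy⟩, ?_⟩
      rintro z ⟨hz, hz'⟩
      exact huy z ⟨hz, (key x hx z hz).1 hz'⟩)
  refine ⟨b, hb, fun y => ?_⟩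
  constructor
  · intro hy
    have hyV := h.transitive _ hb hy
    obtain ⟨x, hx, hxa, h1⟩ := (hb' y hyV).1 hy
    exact ⟨hyV, x, hxa, (key x hx y hyV).1 h1⟩
  · rintro ⟨hyV, x, hxa, h1⟩
    have hx := h.transitive _ ha hxa
    exact (hb' y hyV).2 ⟨x, hx, hxa, (key x hx y hyV).2 h1⟩

theorem PS.ts (h : IsTransModelZFC V) : TS (fun _ => V) (PS V) where
  ds := PS.ds V
  mem' := PS.mem' V
  trans := fun _ => h.transitive
  upair' := fun _ => h.upair

end Model

/-! ## Some absolute notions -/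

/-- A set-theoretic description of the infinite ordinals. -/
def InfOrd (V k : ZFSet.{u}) : Prop :=
  k.IsOrdinal ∧ ∃ l, l ∈ V ∧ ((l ∈ k ∨ l = k) ∧ ((∃ x, x ∈ l ∧ x = x) ∧
    ∀ x, x ∈ l → ∃ y, y ∈ l ∧ x ∈ y))

theorem TS.infOrd {I : Type*} {V : I → ZFSet.{u}} {D : (I → (ℕ → ZFSet.{u}) → Prop) → Prop}
    (S : TS V D) {s : I → (ℕ → ZFSet.{u}) → ZFSet.{u}} (hs : TmV V D s) :
    D (fun i v => InfOrd (V i) (s i v)) := by
  refine S.ds.rel1 (R := fun i k => InfOrd (V i) k) ?_ hs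
  unfold InfOrd
  exact S.and (S.isOrd (S.v 0)) (S.ex (S.and (S.or (S.mem (S.v 0) (S.v 1)) (S.eq (S.v 0) (S.v 1)))
    (S.and (S.exMem (S.v 0) (S.eq (S.v 0) (S.v 0))) (S.allMem (S.v 0) (S.exMem (S.v 1)
      (S.mem (S.v 1) (S.v 0)))))))

theorem limit_of_no_max {o : Ordinal.{u}} (h0 : o ≠ 0) (h : ∀ a < o, ∃ b < o, a < b) :
    ω ≤ o := by
  by_contra hlt
  push Not at hlt
  obtain ⟨n, rfl⟩ := Ordinal.lt_omega0.1 hlt
  cases n with
  | zero => exact h0 (by simp)
  | succ n =>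
    obtain ⟨b, hb, hnb⟩ := h n (by exact_mod_cast Nat.lt_succ_self n)
    obtain ⟨m, rfl⟩ := Ordinal.lt_omega0.1 (hb.trans (Ordinal.natCast_lt_omega0 _))
    have h1 : m < n + 1 := by exact_mod_cast hb
    have h2 : n < m := by exact_mod_cast hnb
    omega

theorem infOrd_iff {V : ZFSet.{u}} (hV : V.IsTransitive) {κ : Ordinal.{u}}
    (hκ : κ.toZFSet ∈ V) : InfOrd V κ.toZFSet ↔ ω ≤ κ := by
  constructor
  · rintro ⟨_, l, _, hl, ⟨x, hx, _⟩, hmax⟩
    have : ∃ o : Ordinal.{u}, o ≤ κ ∧ l = o.toZFSet := by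
      rcases hl with hl | hl
      · obtain ⟨o, ho, rfl⟩ := Ordinal.mem_toZFSet_iff.1 hl
        exact ⟨o, ho.le, rfl⟩
      · exact ⟨κ, le_rfl, hl⟩
    obtain ⟨o, ho, rfl⟩ := this
    refine le_trans (limit_of_no_max ?_ ?_) ho
    · rintro rfl
      simp at hx
    · intro a ha
      obtain ⟨y, hy, hay⟩ := hmax a.toZFSet (Ordinal.toZFSet_mem_toZFSet_iff.2 ha)
      obtain ⟨b, hb, rfl⟩ := Ordinal.mem_toZFSet_iff.1 hy
      exact ⟨b, hb, Ordinal.toZFSet_mem_toZFSet_iff.1 hay⟩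
  · intro h
    have hω : (ω : Ordinal.{u}).toZFSet ∈ κ.toZFSet ∨ (ω : Ordinal.{u}).toZFSet = κ.toZFSet := by
      rcases h.lt_or_eq with h | h
      · exact Or.inl (Ordinal.toZFSet_mem_toZFSet_iff.2 h)
      · exact Or.inr (by rw [h])
    refine ⟨ZFSet.isOrdinal_toZFSet κ, (ω : Ordinal.{u}).toZFSet, ?_, hω, ⟨(0 : Ordinal.{u}).toZFSet,
      Ordinal.toZFSet_mem_toZFSet_iff.2 Ordinal.omega0_pos, rfl⟩, ?_⟩
    · rcases hω with h | h
      · exact hV _ hκ h
      · rw [h]; exact hκ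
    · intro x hx
      obtain ⟨a, ha, rfl⟩ := Ordinal.mem_toZFSet_iff.1 hx
      obtain ⟨n, rfl⟩ := Ordinal.lt_omega0.1 ha
      exact ⟨((n + 1 : ℕ) : Ordinal.{u}).toZFSet,
        Ordinal.toZFSet_mem_toZFSet_iff.2 (Ordinal.natCast_lt_omega0 _),
        Ordinal.toZFSet_mem_toZFSet_iff.2 (by exact_mod_cast Nat.lt_succ_self n)⟩

/-- Description of the natural numbers. -/
def NatOrd (k : ZFSet.{u}) : Prop :=
  k.IsOrdinal ∧ (∀ l, l ∈ k → ((∀ x, x ∈ l → ¬ x = x) ∨ ∃ x, x ∈ l ∧ ∀ y, y ∈ l → y ∈ x ∨ y = x)) ∧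
    ((∀ x, x ∈ k → ¬ x = x) ∨ ∃ x, x ∈ k ∧ ∀ y, y ∈ k → y ∈ x ∨ y = x)

theorem TS.natOrd {I : Type*} {V : I → ZFSet.{u}} {D : (I → (ℕ → ZFSet.{u}) → Prop) → Prop}
    (S : TS V D) {s : I → (ℕ → ZFSet.{u}) → ZFSet.{u}} (hs : TmV V D s) :
    D (fun i v => NatOrd (s i v)) := by
  refine S.ds.rel1 (R := fun i k => NatOrd k) ?_ hs
  unfold NatOrd
  refine S.and (S.isOrd (S.v 0)) (S.and ?_ ?_)
  · exact S.allMem (S.v 0) (S.or (S.allMem (S.v 0) (S.not (S.eq (S.v 0) (S.v 0))))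
      (S.exMem (S.v 0) (S.allMem (S.v 1) (S.or (S.mem (S.v 0) (S.v 1)) (S.eq (S.v 0) (S.v 1))))))
  · exact S.or (S.allMem (S.v 0) (S.not (S.eq (S.v 0) (S.v 0))))
      (S.exMem (S.v 0) (S.allMem (S.v 1) (S.or (S.mem (S.v 0) (S.v 1)) (S.eq (S.v 0) (S.v 1)))))

theorem natOrd_iff {k : ZFSet.{u}} : NatOrd k ↔ k ∈ Ordinal.toZFSet (ω : Ordinal.{u}) := by
  have step : ∀ o : Ordinal.{u}, ω ≤ o → (∀ l : Ordinal.{u}, l ≤ o →
      ((∀ x, x ∈ l.toZFSet → ¬ x = x) ∨ ∃ x, x ∈ l.toZFSet ∧ ∀ y, y ∈ l.toZFSet →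
        y ∈ x ∨ y = x)) → False := by
    intro o ho h
    rcases h ω ho with h | ⟨x, hx, h⟩
    · exact h _ (Ordinal.toZFSet_mem_toZFSet_iff.2 Ordinal.omega0_pos) rfl
    · obtain ⟨a, ha, rfl⟩ := Ordinal.mem_toZFSet_iff.1 hx
      obtain ⟨n, rfl⟩ := Ordinal.lt_omega0.1 ha
      rcases h ((n + 1 : ℕ) : Ordinal.{u}).toZFSet
        (Ordinal.toZFSet_mem_toZFSet_iff.2 (Ordinal.natCast_lt_omega0 _)) with h | h
      · rw [Ordinal.toZFSet_mem_toZFSet_iff] at h
        have : n + 1 < n := by exact_mod_cast h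
        omega
      · have h' := Ordinal.toZFSet_injective h
        have : n + 1 = n := by exact_mod_cast h'
        omega
  have hn : ∀ n : ℕ, ((∀ x, x ∈ (n : Ordinal.{u}).toZFSet → ¬ x = x) ∨
      ∃ x, x ∈ (n : Ordinal.{u}).toZFSet ∧ ∀ y, y ∈ (n : Ordinal.{u}).toZFSet →
        y ∈ x ∨ y = x) := by
    intro n
    cases n with
    | zero => left; intro x hx; simp at hx
    | succ n =>
      right
      refine ⟨(n : Ordinal.{u}).toZFSet,
        Ordinal.toZFSet_mem_toZFSet_iff.2 (by exact_mod_cast Nat.lt_succ_self n), ?_⟩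
      intro y hy
      obtain ⟨a, ha, rfl⟩ := Ordinal.mem_toZFSet_iff.1 hy
      obtain ⟨m, rfl⟩ := Ordinal.lt_omega0.1 (ha.trans (Ordinal.natCast_lt_omega0 _))
      have h1 : m < n + 1 := by exact_mod_cast ha
      rcases Nat.lt_succ_iff_lt_or_eq.1 h1 with h1 | h1
      · left
        exact Ordinal.toZFSet_mem_toZFSet_iff.2 (by exact_mod_cast h1)
      · right; rw [h1]
  constructor
  · rintro ⟨hk, h1, h2⟩
    obtain ⟨o, rfl⟩ := (ZFSet.isOrdinal_iff_mem_range_toZFSet).1 hk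
    by_contra hcon
    rw [Ordinal.toZFSet_mem_toZFSet_iff, not_lt] at hcon
    refine step o hcon (fun l hl => ?_)
    rcases hl.lt_or_eq with hl | rfl
    · exact h1 _ (Ordinal.toZFSet_mem_toZFSet_iff.2 hl)
    · exact h2
  · intro hk
    obtain ⟨a, ha, rfl⟩ := Ordinal.mem_toZFSet_iff.1 hk
    obtain ⟨n, rfl⟩ := Ordinal.lt_omega0.1 ha
    refine ⟨ZFSet.isOrdinal_toZFSet _, ?_, hn n⟩
    intro l hl
    obtain ⟨b, hb, rfl⟩ := Ordinal.mem_toZFSet_iff.1 hl
    obtain ⟨m, rfl⟩ := Ordinal.lt_omega0.1 (hb.trans ha)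
    exact hn m

theorem IsTransModelZFC.omega_mem {V : ZFSet.{u}} (h : IsTransModelZFC V) :
    Ordinal.toZFSet (ω : Ordinal.{u}) ∈ V := by
  obtain ⟨c, hc, ⟨e, he, hec, he'⟩, hs⟩ := h.infinity
  have hn : ∀ n : ℕ, (n : Ordinal.{u}).toZFSet ∈ c := by
    intro n
    induction n with
    | zero =>
      have : e = ∅ := by
        rw [ZFSet.eq_empty]
        intro y hy
        exact he' y (h.transitive _ he hy) hy
      rw [this] at hec
      simpa using hec
    | succ n ih =>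
      have hnV := h.transitive _ hc ih
      obtain ⟨y, hy, hyc, hy'⟩ := hs _ hnV ih
      have : y = ((n + 1 : ℕ) : Ordinal.{u}).toZFSet := by
        rw [Nat.cast_succ, Ordinal.toZFSet_add_one]
        ext z
        rw [ZFSet.mem_insert_iff]
        constructor
        · intro hz
          rcases (hy' z (h.transitive _ hy hz)).1 hz with h1 | h1
          · exact Or.inr h1
          · exact Or.inl h1
        · rintro (rfl | hz)
          · exact (hy' _ hnV).2 (Or.inr rfl)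
          · exact (hy' z (h.transitive _ hnV hz)).2 (Or.inl hz)
      rw [← this]
      exact hyc
  have h1 : ZFSet.sep NatOrd c ∈ V := h.sep ((PS.ts h).natOrd ((PS.ts h).v 0)) c hc
  have h2 : Ordinal.toZFSet (ω : Ordinal.{u}) = ZFSet.sep NatOrd c := by
    ext x
    rw [ZFSet.mem_sep, natOrd_iff]
    constructor
    · intro hx
      refine ⟨?_, hx⟩
      obtain ⟨a, ha, rfl⟩ := Ordinal.mem_toZFSet_iff.1 hx
      obtain ⟨n, rfl⟩ := Ordinal.lt_omega0.1 ha
      exact hn n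
    · exact fun h => h.2
  rw [h2]
  exact h1

/-- A transitive model of ZFC is a model in the abstract sense. -/
theorem IsTransModelZFC.zm {V : ZFSet.{u}} (h : IsTransModelZFC V) : ZM V (PS V) where
  ts := PS.ts h
  par := fun a ha => PS.par ha
  union' := by
    intro a ha
    obtain ⟨c, hc, h1⟩ := h.union a ha
    have : ZFSet.sUnion a = c := by
      ext x
      rw [ZFSet.mem_sUnion]
      constructor
      · rintro ⟨z, hz, hx⟩
        have hzV := h.transitive _ ha hz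
        exact (h1 x (h.transitive _ hzV hx)).2 ⟨z, hzV, hz, hx⟩
      · intro hx
        obtain ⟨z, _, hz, hxz⟩ := (h1 x (h.transitive _ hc hx)).1 hx
        exact ⟨z, hz, hxz⟩
    rw [this]; exact hc
  power' := by
    intro a ha
    obtain ⟨c, hc, h1⟩ := h.powerset a ha
    have : ZFSet.sep (fun x => x ⊆ a) V = c := by
      ext x
      rw [ZFSet.mem_sep]
      constructor
      · rintro ⟨hx, hxa⟩
        exact (h1 x hx).2 (fun y _ hy => hxa hy)
      · intro hx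
        have hxV := h.transitive _ hc hx
        exact ⟨hxV, fun y hy => (h1 x hxV).1 hx y (h.transitive _ hxV hy) hy⟩
    rw [this]; exact hc
  omega := h.omega_mem
  sep' := fun _ hP => h.sep hP
  repl' := fun _ hP => h.repl hP

end Pool.Agent.Work.MP_fbd45d_lc
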