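import Pool.Agent.Work.MP_fbd45d_lc.DefSys

/-!
# Definability over transitive sets closed under pairing
-/

namespace Pool.Agent.Work.MP_fbd45d_lc

universe u

open ZFSet (pair)

/-! ## Images, graphs and application -/

/-- The image of the set `x` under the function `f`. -/
noncomputable def img (f : ZFSet.{u} → ZFSet.{u}) (x : ZFSet.{u}) : ZFSet.{u} :=
  ZFSet.range (fun y : x => f y)

theorem mem_img {f : ZFSet.{u} → ZFSet.{u}} {x y : ZFSet.{u}} :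
    y ∈ img f x ↔ ∃ z ∈ x, f z = y := by
  simp [img]

/-- The graph of `f` restricted to `x`. -/
noncomputable def gr (f : ZFSet.{u} → ZFSet.{u}) (x : ZFSet.{u}) : ZFSet.{u} :=
  img (fun y => pair y (f y)) x

theorem mem_gr {f : ZFSet.{u} → ZFSet.{u}} {x p : ZFSet.{u}} :
    p ∈ gr f x ↔ ∃ z ∈ x, pair z (f z) = p := mem_img

theorem pair_mem_gr {f : ZFSet.{u} → ZFSet.{u}} {x a b : ZFSet.{u}} :
    pair a b ∈ gr f x ↔ a ∈ x ∧ f a = b := by
  rw [mem_gr]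
  constructor
  · rintro ⟨z, hz, h⟩
    rw [ZFSet.pair_inj] at h
    obtain ⟨rfl, h⟩ := h
    exact ⟨hz, h⟩
  · rintro ⟨h, rfl⟩
    exact ⟨a, h, rfl⟩

theorem left_mem_of_pair {V : ZFSet.{u}} (hV : V.IsTransitive) {x y p : ZFSet.{u}}
    (h : pair x y ∈ V) : x ∈ V := by
  have h1 : ({x} : ZFSet) ∈ V := hV _ h (by simp [pair])
  exact hV _ h1 (by simp)

theorem mem_of_pair {V : ZFSet.{u}} (hV : V.IsTransitive) {x y : ZFSet.{u}}
    (h : pair x y ∈ V) : x ∈ V ∧ y ∈ V := by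
  have h1 : ({x, y} : ZFSet) ∈ V := hV _ h (by simp [pair])
  exact ⟨hV _ h1 (by simp), hV _ h1 (by simp)⟩

theorem mem_of_pair_mem {V : ZFSet.{u}} (hV : V.IsTransitive) {x y f : ZFSet.{u}}
    (hf : f ∈ V) (h : pair x y ∈ f) : x ∈ V ∧ y ∈ V :=
  mem_of_pair hV (hV _ hf h)

/-! ## Transitive systems -/

/-- A definability system over transitive sets closed under pairing. -/
structure TS {I : Type*} (V : I → ZFSet.{u}) (D : (I → (ℕ → ZFSet.{u}) → Prop) → Prop) :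
    Prop where
  ds : DS (fun i x => x ∈ V i) D
  mem' : D (fun _ v => v 0 ∈ v 1)
  trans : ∀ i, (V i).IsTransitive
  upair' : ∀ i, ∀ a ∈ V i, ∀ b ∈ V i, ({a, b} : ZFSet.{u}) ∈ V i

/-- Terms over a family of sets. -/
abbrev TmV {I : Type*} (V : I → ZFSet.{u}) (D : (I → (ℕ → ZFSet.{u}) → Prop) → Prop)
    (t : I → (ℕ → ZFSet.{u}) → ZFSet.{u}) : Prop :=
  Tm (fun i x => x ∈ V i) D t

namespace TS

variable {I : Type*} {V : I → ZFSet.{u}} {D : (I → (ℕ → ZFSet.{u}) → Prop) → Prop}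

theorem congr (S : TS V D) {P Q : I → (ℕ → ZFSet.{u}) → Prop} (hP : D P)
    (h : ∀ i v, (∀ n, v n ∈ V i) → (P i v ↔ Q i v)) : D Q := S.ds.congr' h hP

theorem not (S : TS V D) {P : I → (ℕ → ZFSet.{u}) → Prop} (hP : D P) :
    D (fun i v => ¬ P i v) := S.ds.not hP

theorem and (S : TS V D) {P Q : I → (ℕ → ZFSet.{u}) → Prop} (hP : D P) (hQ : D Q) :
    D (fun i v => P i v ∧ Q i v) := S.ds.and hP hQ

theorem or (S : TS V D) {P Q : I → (ℕ → ZFSet.{u}) → Prop} (hP : D P) (hQ : D Q) :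
    D (fun i v => P i v ∨ Q i v) := S.ds.or hP hQ

theorem imp (S : TS V D) {P Q : I → (ℕ → ZFSet.{u}) → Prop} (hP : D P) (hQ : D Q) :
    D (fun i v => P i v → Q i v) := S.ds.imp hP hQ

theorem iff (S : TS V D) {P Q : I → (ℕ → ZFSet.{u}) → Prop} (hP : D P) (hQ : D Q) :
    D (fun i v => P i v ↔ Q i v) := S.ds.iff hP hQ

theorem const (S : TS V D) (p : Prop) : D (fun _ _ => p) := S.ds.const p

theorem ex (S : TS V D) {Q : I → ZFSet.{u} → (ℕ → ZFSet.{u}) → Prop}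
    (h : D (fun i w => Q i (w 0) (fun n => w (n + 1)))) :
    D (fun i v => ∃ a, a ∈ V i ∧ Q i a v) := S.ds.ex h

theorem all (S : TS V D) {Q : I → ZFSet.{u} → (ℕ → ZFSet.{u}) → Prop}
    (h : D (fun i w => Q i (w 0) (fun n => w (n + 1)))) :
    D (fun i v => ∀ a, a ∈ V i → Q i a v) := S.ds.all h

theorem exu (S : TS V D) {Q : I → ZFSet.{u} → (ℕ → ZFSet.{u}) → Prop}
    (h : D (fun i w => Q i (w 0) (fun n => w (n + 1)))) :
    D (fun i v => ∃! a, a ∈ V i ∧ Q i a v) := S.ds.exu h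

theorem eq (S : TS V D) {s t : I → (ℕ → ZFSet.{u}) → ZFSet.{u}} (hs : TmV V D s)
    (ht : TmV V D t) : D (fun i v => s i v = t i v) := S.ds.eq hs ht

theorem v (S : TS V D) (n : ℕ) : TmV V D (fun _ v => v n) := Tm.var S.ds n

theorem sh (S : TS V D) {t : I → (ℕ → ZFSet.{u}) → ZFSet.{u}} (ht : TmV V D t) :
    TmV V D (fun i v => t i (fun n => v (n + 1))) := S.ds.tmRename ht (fun n => n + 1)

theorem mem (S : TS V D) {s t : I → (ℕ → ZFSet.{u}) → ZFSet.{u}} (hs : TmV V D s)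
    (ht : TmV V D t) : D (fun i v => s i v ∈ t i v) :=
  S.ds.rel2 (R := fun _ a b => a ∈ b) S.mem' hs ht

theorem exMem (S : TS V D) {t : I → (ℕ → ZFSet.{u}) → ZFSet.{u}} (ht : TmV V D t)
    {Q : I → ZFSet.{u} → (ℕ → ZFSet.{u}) → Prop}
    (h : D (fun i w => Q i (w 0) (fun n => w (n + 1)))) :
    D (fun i v => ∃ a, a ∈ t i v ∧ Q i a v) := by
  refine S.congr (S.ex (Q := fun i a v => a ∈ t i v ∧ Q i a v)
    (S.and (S.mem (S.v 0) (S.sh ht)) h)) (fun i v hv => ?_)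
  constructor
  · rintro ⟨a, _, h1, h2⟩
    exact ⟨a, h1, h2⟩
  · rintro ⟨a, h1, h2⟩
    exact ⟨a, S.trans i _ (ht.closed i v hv) h1, h1, h2⟩

theorem allMem (S : TS V D) {t : I → (ℕ → ZFSet.{u}) → ZFSet.{u}} (ht : TmV V D t)
    {Q : I → ZFSet.{u} → (ℕ → ZFSet.{u}) → Prop}
    (h : D (fun i w => Q i (w 0) (fun n => w (n + 1)))) :
    D (fun i v => ∀ a, a ∈ t i v → Q i a v) := by
  refine S.congr (S.all (Q := fun i a v => a ∈ t i v → Q i a v)
    (S.imp (S.mem (S.v 0) (S.sh ht)) h)) (fun i v hv => ?_)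
  constructor
  · intro H a ha
    exact H a (S.trans i _ (ht.closed i v hv) ha) ha
  · intro H a _ ha
    exact H a ha

theorem subset (S : TS V D) {s t : I → (ℕ → ZFSet.{u}) → ZFSet.{u}} (hs : TmV V D s)
    (ht : TmV V D t) : D (fun i v => s i v ⊆ t i v) :=
  S.congr (S.allMem hs (Q := fun i a v => a ∈ t i v) (S.mem (S.v 0) (S.sh ht)))
    (fun i v _ => Iff.rfl)

theorem ofMem (S : TS V D) {f : I → (ℕ → ZFSet.{u}) → ZFSet.{u}}
    (hcl : ∀ i v, (∀ n, v n ∈ V i) → f i v ∈ V i)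
    (hm : D (fun i w => w 0 ∈ f i (fun n => w (n + 1)))) : TmV V D f := by
  refine ⟨hcl, ?_⟩
  have h1 : D (fun i w => w 0 ∈ f i (fun n => w (n + 2))) :=
    S.ds.rename hm (fun n => Nat.casesOn n 0 (fun k => k + 2))
  refine S.congr (S.all (Q := fun i z v => (z ∈ v 0 ↔ z ∈ f i (fun n => v (n + 1))))
    (S.iff (S.mem (S.v 0) (S.v 1)) h1)) (fun i v hv => ?_)
  constructor
  · intro H
    show v 0 = f i (fun n => v (n + 1))
    ext z
    constructor
    · intro hz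
      exact (H z (S.trans i _ (hv 0) hz)).1 hz
    · intro hz
      exact (H z (S.trans i _ (hcl i _ (fun n => hv _)) hz)).2 hz
  · intro H z _
    have H' : v 0 = f i (fun n => v (n + 1)) := H
    rw [H']

theorem upair (S : TS V D) {s t : I → (ℕ → ZFSet.{u}) → ZFSet.{u}} (hs : TmV V D s)
    (ht : TmV V D t) : TmV V D (fun i v => ({s i v, t i v} : ZFSet.{u})) := by
  refine S.ofMem (fun i v hv => S.upair' i _ (hs.closed i v hv) _ (ht.closed i v hv)) ?_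
  refine S.congr (S.or (S.eq (S.v 0) (S.sh hs)) (S.eq (S.v 0) (S.sh ht))) (fun i v _ => ?_)
  simp

theorem single (S : TS V D) {s : I → (ℕ → ZFSet.{u}) → ZFSet.{u}} (hs : TmV V D s) :
    TmV V D (fun i v => ({s i v} : ZFSet.{u})) := by
  have := S.upair hs hs
  simpa only [ZFSet.pair_eq_singleton] using this

theorem pair (S : TS V D) {s t : I → (ℕ → ZFSet.{u}) → ZFSet.{u}} (hs : TmV V D s)
    (ht : TmV V D t) : TmV V D (fun i v => ZFSet.pair (s i v) (t i v)) :=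
  S.upair (S.single hs) (S.upair hs ht)

theorem single_mem (S : TS V D) {i : I} {a : ZFSet.{u}} (ha : a ∈ V i) :
    ({a} : ZFSet.{u}) ∈ V i := by
  rw [← ZFSet.pair_eq_singleton]; exact S.upair' i a ha a ha

theorem pair_mem (S : TS V D) {i : I} {a b : ZFSet.{u}} (ha : a ∈ V i) (hb : b ∈ V i) :
    ZFSet.pair a b ∈ V i :=
  S.upair' i _ (S.single_mem ha) _ (S.upair' i a ha b hb)

theorem isTrans (S : TS V D) {s : I → (ℕ → ZFSet.{u}) → ZFSet.{u}} (hs : TmV V D s) :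
    D (fun i v => (s i v).IsTransitive) :=
  S.ds.rel1 (R := fun _ a => a.IsTransitive)
    (S.allMem (Q := fun _ a v => a ⊆ v 0) (S.v 0) (S.subset (S.v 0) (S.v 1))) hs

theorem isOrd (S : TS V D) {s : I → (ℕ → ZFSet.{u}) → ZFSet.{u}} (hs : TmV V D s) :
    D (fun i v => (s i v).IsOrdinal) := by
  refine S.ds.rel1 (R := fun _ a => a.IsOrdinal) ?_ hs
  refine S.congr (S.and (S.isTrans (S.v 0))
    (S.allMem (Q := fun _ a _ => a.IsTransitive) (S.v 0) (S.isTrans (S.v 0))))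
    (fun i v _ => ?_)
  exact (ZFSet.isOrdinal_iff_forall_mem_isTransitive).symm

/-- `∃!` for the second coordinates of pairs in a set. -/
theorem exuPair (S : TS V D) {f x : I → (ℕ → ZFSet.{u}) → ZFSet.{u}} (hf : TmV V D f)
    (hx : TmV V D x) : D (fun i v => ∃! y, ZFSet.pair (x i v) y ∈ f i v) := by
  refine S.congr (S.exu (Q := fun i y v => ZFSet.pair (x i v) y ∈ f i v)
    (S.mem (S.pair (S.sh hx) (S.v 0)) (S.sh hf))) (fun i v hv => ?_)
  constructor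
  · rintro ⟨y, ⟨_, h1⟩, h2⟩
    exact ⟨y, h1, fun z hz => h2 z ⟨(mem_of_pair_mem (S.trans i) (hf.closed i v hv) hz).2, hz⟩⟩
  · rintro ⟨y, h1, h2⟩
    exact ⟨y, ⟨(mem_of_pair_mem (S.trans i) (hf.closed i v hv) h1).2, h1⟩,
      fun z hz => h2 z hz.2⟩

theorem exuPair' (S : TS V D) {f y : I → (ℕ → ZFSet.{u}) → ZFSet.{u}} (hf : TmV V D f)
    (hy : TmV V D y) : D (fun i v => ∃! x, ZFSet.pair x (y i v) ∈ f i v) := by
  refine S.congr (S.exu (Q := fun i x v => ZFSet.pair x (y i v) ∈ f i v)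
    (S.mem (S.pair (S.v 0) (S.sh hy)) (S.sh hf))) (fun i v hv => ?_)
  constructor
  · rintro ⟨x, ⟨_, h1⟩, h2⟩
    exact ⟨x, h1, fun z hz => h2 z ⟨(mem_of_pair_mem (S.trans i) (hf.closed i v hv) hz).1, hz⟩⟩
  · rintro ⟨x, h1, h2⟩
    exact ⟨x, ⟨(mem_of_pair_mem (S.trans i) (hf.closed i v hv) h1).1, h1⟩,
      fun z hz => h2 z hz.2⟩

theorem isBij (S : TS V D) {f a b : I → (ℕ → ZFSet.{u}) → ZFSet.{u}} (hf : TmV V D f)
    (ha : TmV V D a) (hb : TmV V D b) : D (fun i v => IsBij (f i v) (a i v) (b i v)) := by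
  refine S.ds.rel3 (R := fun _ f a b => IsBij f a b) ?_ hf ha hb
  refine S.and ?_ (S.and ?_ ?_)
  · exact S.allMem (S.v 0) (S.exMem (S.v 2) (S.exMem (S.v 4)
      (S.eq (S.v 2) (S.pair (S.v 1) (S.v 0)))))
  · exact S.allMem (S.v 1) (S.exuPair (S.v 1) (S.v 0))
  · exact S.allMem (S.v 2) (S.exuPair' (S.v 1) (S.v 0))

theorem sameSize (S : TS V D) {a b : I → (ℕ → ZFSet.{u}) → ZFSet.{u}}
    (ha : TmV V D a) (hb : TmV V D b) : D (fun i v => SameSizeIn (V i) (a i v) (b i v)) :=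
  S.ex (Q := fun i f v => IsBij f (a i v) (b i v)) (S.isBij (S.v 0) (S.sh ha) (S.sh hb))

end TS

end Pool.Agent.Work.MP_fbd45d_lc
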