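import Pool.Agent.Work.MP_fbd45d_lc.Tables

/-!
# Cores which are well-founded in a minimal model
-/

namespace Pool.Agent.Work.MP_fbd45d_lc

universe u

open ZFSet (pair)
open Ordinal

/-- Universal quantifier. -/
def SForm.all (φ : SForm) : SForm := .neg (.ex (.neg φ))
/-- Implication. -/
def SForm.imp (φ ψ : SForm) : SForm := .neg (.and φ (.neg ψ))

/-- Equal sets belong to the same sets. -/
def congF : SForm :=
  .all (.all (.all (.imp (.and (.eq 0 1) (.mem 0 2)) (.mem 1 2))))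

theorem congF_mem : congF ∈ T0.{u} := by
  intro V _ v _
  simp only [congF, SForm.all, SForm.imp, SForm.Sat]
  push Not
  intro a _ b _ c _ h
  have h1 : c = b := h.1
  have h2 : c ∈ a := h.2
  show b ∈ a
  rw [← h1]; exact h2

theorem GoodE.cong {r : ZFSet.{u}} {E : ℕ → ℕ → Prop} (h : GoodE r E) {a b c : ℕ}
    (hab : ∀ k, E k a ↔ E k b) (hac : E a c) : E b c := by
  have h1 := h.thy _ congF_mem
  simp only [congF, SForm.all, SForm.imp, SatE] at h1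
  push Not at h1
  exact h1 c b a ⟨hab, hac⟩

section Collapse

variable {r : ZFSet.{u}} {E : ℕ → ℕ → Prop} {h : ℕ → ZFSet.{u}}

theorem collapse_eq (hG : GoodE r E) (hh : ∀ n z, z ∈ h n ↔ ∃ k, E k n ∧ h k = z) :
    ∀ z : ZFSet.{u}, ∀ m n, h m = z → h n = z → ∀ k, E k m → E k n := by
  intro z
  induction z using ZFSet.inductionOn with
  | h z ih =>
    intro m n hm hn k hk
    have h1 : h k ∈ z := by rw [← hm]; exact (hh m _).2 ⟨k, hk, rfl⟩
    have h2 : h k ∈ h n := by rw [hn]; exact h1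
    obtain ⟨k', hk', e⟩ := (hh n _).1 h2
    exact hG.cong (fun l => ⟨ih _ h1 k' k e rfl l, ih _ h1 k k' rfl e l⟩) hk'

theorem collapse_mem (hG : GoodE r E) (hh : ∀ n z, z ∈ h n ↔ ∃ k, E k n ∧ h k = z) (m n : ℕ) :
    h m ∈ h n ↔ E m n := by
  constructor
  · intro h1
    obtain ⟨k, hk, e⟩ := (hh n _).1 h1
    exact hG.cong (fun l => ⟨collapse_eq hG hh _ k m rfl e.symm l,
      collapse_eq hG hh _ m k rfl e l⟩) hk
  · intro h1
    exact (hh n _).2 ⟨m, h1, rfl⟩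

/-- Truth in the pre-structure is truth in the collapse. -/
theorem satE_iff {V0 : ZFSet.{u}} (hV0 : ∀ z, z ∈ V0 ↔ ∃ n, h n = z) (htr : V0.IsTransitive)
    (hm : ∀ m n, h m ∈ h n ↔ E m n) (φ : SForm) : ∀ s : ℕ → ℕ,
    SatE E φ s ↔ φ.Sat V0 (fun n => h (s n)) := by
  induction φ with
  | mem i j => intro s; exact (hm _ _).symm
  | eq i j =>
    intro s
    simp only [SatE, SForm.Sat]
    constructor
    · intro H
      ext z
      constructor
      · intro hz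
        obtain ⟨k, rfl⟩ := (hV0 z).1 (htr _ ((hV0 _).2 ⟨_, rfl⟩) hz)
        exact (hm _ _).2 ((H k).1 ((hm _ _).1 hz))
      · intro hz
        obtain ⟨k, rfl⟩ := (hV0 z).1 (htr _ ((hV0 _).2 ⟨_, rfl⟩) hz)
        exact (hm _ _).2 ((H k).2 ((hm _ _).1 hz))
    · intro H k
      rw [← hm, ← hm, H]
  | neg φ ih => intro s; simp only [SatE, SForm.Sat, ih]
  | and φ ψ ih1 ih2 => intro s; simp only [SatE, SForm.Sat, ih1, ih2]
  | ex φ ih =>
    intro s
    simp only [SatE, SForm.Sat, ih]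
    have e : ∀ k : ℕ, (fun n => h (cons k s n)) = cons (h k) (fun n => h (s n)) := by
      intro k; funext n; cases n <;> rfl
    constructor
    · rintro ⟨k, hk⟩
      refine ⟨h k, (hV0 _).2 ⟨k, rfl⟩, ?_⟩
      rw [← e]; exact hk
    · rintro ⟨a, ha, hk⟩
      obtain ⟨k, rfl⟩ := (hV0 a).1 ha
      refine ⟨k, ?_⟩
      rw [e]; exact hk

theorem collapse_trans {V0 : ZFSet.{u}} (hV0 : ∀ z, z ∈ V0 ↔ ∃ n, h n = z)
    (hh : ∀ n z, z ∈ h n ↔ ∃ k, E k n ∧ h k = z) : V0.IsTransitive := by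
  intro y hy z hz
  obtain ⟨n, rfl⟩ := (hV0 y).1 hy
  obtain ⟨k, _, rfl⟩ := (hh n z).1 hz
  exact (hV0 _).2 ⟨k, rfl⟩

theorem collapse_isK {V0 : ZFSet.{u}} (hV0 : ∀ z, z ∈ V0 ↔ ∃ n, h n = z) (hG : GoodE r E)
    (hh : ∀ n z, z ∈ h n ↔ ∃ k, E k n ∧ h k = z) : IsK V0 := by
  have htr := collapse_trans hV0 hh
  refine isK_of_T0 htr (v0 := fun _ => h 0) (fun _ => (hV0 _).2 ⟨0, rfl⟩) ?_
  intro φ hφ
  exact (satE_iff hV0 htr (collapse_mem hG hh) φ _).1 (hG.thy φ hφ)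

theorem collapse_nm (hG : GoodE r E) (hh : ∀ n z, z ∈ h n ↔ ∃ k, E k n ∧ h k = z) :
    ∀ z : ZFSet.{u}, ∀ m, e0 m = z → h (nm m) = z := by
  intro z
  induction z using ZFSet.inductionOn with
  | h z ih =>
    intro m hm
    ext w
    rw [hh]
    constructor
    · rintro ⟨k, hk, rfl⟩
      obtain ⟨m', hm'⟩ := hG.cl (m + 1) k (by simpa [tg] using hk)
      have h1 : E (nm m') (nm m) := hG.cong hm' hk
      rw [hG.dia, hm] at h1
      have h2 := ih _ h1 m' rfl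
      have h3 : h k = h (nm m') := by
        ext x
        rw [hh, hh]
        simp only [hm']
      rw [h3, h2]
      exact h1
    · intro hw
      have hz : z ∈ q0 := (e0_spec z).2 ⟨m, hm⟩
      obtain ⟨m', rfl⟩ := (e0_spec w).1 (q0_trans _ hz hw)
      refine ⟨nm m', ?_, ih _ hw m' rfl⟩
      rw [hG.dia, hm]
      exact hw

theorem collapse_r (hG : GoodE r E) (hr : r ⊆ q0)
    (hh : ∀ n z, z ∈ h n ↔ ∃ k, E k n ∧ h k = z) : h 0 = r := by
  ext w
  rw [hh]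
  constructor
  · rintro ⟨k, hk, rfl⟩
    obtain ⟨m', hm'⟩ := hG.cl 0 k (by simpa [tg] using hk)
    have h1 : E (nm m') 0 := hG.cong hm' hk
    have h3 : h k = h (nm m') := by
      ext x
      rw [hh, hh]
      simp only [hm']
    rw [h3, collapse_nm hG hh _ m' rfl]
    exact (hG.lit m').1 h1
  · intro hw
    obtain ⟨m, rfl⟩ := (e0_spec w).1 (hr hw)
    exact ⟨nm m, (hG.lit m).2 hw, collapse_nm hG hh _ m rfl⟩

end Collapse

/-- In a model of minimal rank, good relations are ill-founded. -/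
theorem core_illfounded {V : ZFSet.{u}} {D : (Unit → (ℕ → ZFSet.{u}) → Prop) → Prop}
    (Z : ZM V D) {r : ZFSet.{u}} (hr : r ⊆ q0)
    (hmin : ∀ V', IsK V' → (V' : Set ZFSet.{u}).Countable → r ∈ V' → V.rank ≤ V'.rank)
    {E : ℕ → ℕ → Prop} (hG : GoodE r E) {Eh : ZFSet.{u}} (hEh : Eh ∈ V)
    (hE : ∀ m n, pair (nat m) (nat n) ∈ Eh ↔ E m n) :
    ∃ Y ∈ V, Y ⊆ Ordinal.toZFSet (ω : Ordinal.{u}) ∧ (∃ y, y ∈ Y) ∧
      ∀ x ∈ Y, ∃ y ∈ Y, pair y x ∈ Eh := by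
  by_contra hcon
  have hwf : ZM.WFIn V (fun x y => pair x y ∈ Eh) (Ordinal.toZFSet (ω : Ordinal.{u})) := by
    intro Y hY hYω hne
    by_contra hc
    apply hcon
    refine ⟨Y, hY, hYω, hne, ?_⟩
    push Not at hc
    exact hc
  have hR : D (fun _ v => pair (v 0) (v 1) ∈ Eh) :=
    Z.ts.mem (Z.ts.pair (Z.ts.v 0) (Z.ts.v 1)) (Z.par _ hEh)
  obtain ⟨g, hg, hgx⟩ := Z.recursion (X := Ordinal.toZFSet (ω : Ordinal.{u}))
    (R := fun x y => pair x y ∈ Eh) (h := fun s => s) Z.omega hR hwf (Z.ts.v 0)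
  have hh : ∀ n z, z ∈ g (nat n) ↔ ∃ k, E k n ∧ g (nat k) = z := by
    intro n z
    rw [(hgx _ (nat_mem_omega n)).2, mem_img]
    constructor
    · rintro ⟨y, hy, rfl⟩
      rw [ZFSet.mem_sep] at hy
      obtain ⟨k, rfl⟩ := mem_omega.1 hy.1
      exact ⟨k, (hE _ _).1 hy.2, rfl⟩
    · rintro ⟨k, hk, rfl⟩
      exact ⟨nat k, ZFSet.mem_sep.2 ⟨nat_mem_omega k, (hE _ _).2 hk⟩, rfl⟩
  let V0 := img g (Ordinal.toZFSet (ω : Ordinal.{u}))
  have hV0V : V0 ∈ V := Z.img_of_gr hg Z.omega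
  have hV0 : ∀ z, z ∈ V0 ↔ ∃ n : ℕ, g (nat n) = z := by
    intro z
    show z ∈ img _ _ ↔ _
    rw [mem_img]
    constructor
    · rintro ⟨w, hw, rfl⟩
      obtain ⟨n, rfl⟩ := mem_omega.1 hw
      exact ⟨n, rfl⟩
    · rintro ⟨n, rfl⟩
      exact ⟨nat n, nat_mem_omega n, rfl⟩
  have hK := collapse_isK hV0 hG hh
  have hr0 : r ∈ V0 := (hV0 r).2 ⟨0, collapse_r hG hr hh⟩
  have hc : (V0 : Set ZFSet.{u}).Countable := by
    have : (V0 : Set ZFSet.{u}) = Set.range (fun n : ℕ => g (nat n)) := by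
      ext z
      rw [Set.mem_range]
      exact hV0 z
    rw [this]
    exact Set.countable_range _
  exact absurd (hmin V0 hK hc hr0) (not_le.2 (ZFSet.rank_lt_of_mem hV0V))

end Pool.Agent.Work.MP_fbd45d_lc
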