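import Pool.Agent.Work.MP_fbd45d_lc.Amalg

/-!
# Amalgamation fails in a model which contains the minimal model as a countable set
-/

namespace Pool.Agent.Work.MP_fbd45d_lc

universe u

open ZFSet (pair)
open Ordinal

/-- The interpretation of the names: `0` names `r`, `nm m` names `e0 m`, and `2 * m + 2` names
`hv m`. -/
noncomputable def nameOf (r : ZFSet.{u}) (hv : ℕ → ZFSet.{u}) (n : ℕ) : ZFSet.{u} :=
  if n = 0 then r else if n % 2 = 1 then e0 (n / 2) else hv (n / 2 - 1)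

theorem nameOf_zero {r : ZFSet.{u}} {hv : ℕ → ZFSet.{u}} : nameOf r hv 0 = r := by
  simp [nameOf]

theorem nameOf_nm {r : ZFSet.{u}} {hv : ℕ → ZFSet.{u}} (m : ℕ) : nameOf r hv (nm m) = e0 m := by
  unfold nameOf nm
  have h1 : ¬ 2 * m + 1 = 0 := by omega
  have h2 : (2 * m + 1) % 2 = 1 := by omega
  have h3 : (2 * m + 1) / 2 = m := by omega
  rw [if_neg h1, if_pos h2, h3]

theorem nameOf_even {r : ZFSet.{u}} {hv : ℕ → ZFSet.{u}} (m : ℕ) :
    nameOf r hv (2 * m + 2) = hv m := by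
  unfold nameOf
  have h1 : ¬ 2 * m + 2 = 0 := by omega
  have h2 : ¬ (2 * m + 2) % 2 = 1 := by omega
  have h3 : (2 * m + 2) / 2 - 1 = m := by omega
  rw [if_neg h1, if_neg h2, h3]

theorem nameOf_range {V r : ZFSet.{u}} {hv : ℕ → ZFSet.{u}} (hr : r ∈ V)
    (he : ∀ n, e0 n ∈ V) (hV : ∀ z, z ∈ V ↔ ∃ n, hv n = z) (z : ZFSet.{u}) :
    z ∈ V ↔ ∃ n, nameOf r hv n = z := by
  constructor
  · intro hz
    obtain ⟨n, hn⟩ := (hV z).1 hz
    exact ⟨2 * n + 2, by rw [nameOf_even, hn]⟩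
  · rintro ⟨n, rfl⟩
    unfold nameOf
    split
    · exact hr
    · split
      · exact he _
      · exact (hV _).2 ⟨_, rfl⟩

theorem goodE_nameOf {V r : ZFSet.{u}} {hv : ℕ → ZFSet.{u}} (hK : IsK V) (hr : r ∈ V)
    (hrq : r ⊆ q0) (he : ∀ n, e0 n ∈ V) (hV : ∀ z, z ∈ V ↔ ∃ n, hv n = z) :
    GoodE r (fun m n => nameOf r hv m ∈ nameOf r hv n) := by
  have hrange := nameOf_range hr he hV
  refine ⟨?_, ?_, ?_, ?_⟩
  · intro φ hφ
    rw [satE_iff hrange hK.1.transitive (fun _ _ => Iff.rfl)]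
    exact hφ V hK _ (fun _ => (hrange _).2 ⟨_, rfl⟩)
  · intro m n
    rw [nameOf_nm, nameOf_nm]
  · intro n k hk
    have h1 : nameOf r hv k ∈ q0 := by
      unfold tg at hk
      split at hk
      · rw [nameOf_zero] at hk
        exact hrq hk
      · rw [nameOf_nm] at hk
        exact q0_trans _ ((e0_spec _).2 ⟨_, rfl⟩) hk
    obtain ⟨m, hm⟩ := (e0_spec _).1 h1
    refine ⟨m, fun l => ?_⟩
    rw [nameOf_nm, hm]
  · intro n
    rw [nameOf_nm, nameOf_zero]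

/-- The core of the structures, as a set of natural numbers. -/
noncomputable def coreSet (h : ℕ → ZFSet.{u}) : ZFSet.{u} :=
  ZFSet.sep (fun c => ∃ m n : ℕ, c = nat (cr m n) ∧ h m ∈ h n)
    (Ordinal.toZFSet (ω : Ordinal.{u}))

theorem cr_mem_coreSet {h : ℕ → ZFSet.{u}} {m n : ℕ} :
    nat (cr m n) ∈ coreSet h ↔ h m ∈ h n := by
  unfold coreSet
  rw [ZFSet.mem_sep]
  constructor
  · rintro ⟨_, m', n', h1, h2⟩
    rw [nat_inj] at h1
    obtain ⟨rfl, rfl⟩ := cr_inj h1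
    exact h2
  · intro h1
    exact ⟨nat_mem_omega _, m, n, rfl, h1⟩

theorem not_mem_coreSet {h : ℕ → ZFSet.{u}} {k : ℕ} (hk : k % 3 ≠ 0) :
    nat k ∉ coreSet h := by
  unfold coreSet
  rw [ZFSet.mem_sep]
  rintro ⟨_, m', n', h1, h2⟩
  rw [nat_inj] at h1
  unfold cr at h1
  omega

theorem coreSet_subset {h : ℕ → ZFSet.{u}} : coreSet h ⊆ Ordinal.toZFSet (ω : Ordinal.{u}) :=
  ZFSet.sep_subset

section

variable {W : ZFSet.{u}} {D : (Unit → (ℕ → ZFSet.{u}) → Prop) → Prop}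

open Classical in
theorem not_amalgamation_W (Z : ZM W D) {r : ZFSet.{u}} {h : ℕ → ZFSet.{u}}
    (hG : GoodE r (fun m n => h m ∈ h n)) (hS : coreSet h ∈ W) {α κ : Ordinal.{u}}
    (hκ : IsAleph W α κ) : ¬ AmalgamationIn W (phi r) α := by
  intro hAm
  have hc := hκ.card
  have hκV := hc.1
  have h0κ : (∅ : ZFSet.{u}) ∈ κ.toZFSet := by
    have : (0 : Ordinal.{u}).toZFSet ∈ κ.toZFSet :=
      Ordinal.toZFSet_mem_toZFSet_iff.2 (lt_of_lt_of_le Ordinal.omega0_pos hc.2.1)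
    simpa using this
  have h0V := Z.empty_mem
  set A := κ.toZFSet with hA
  set U0 := ZFSet.prod (coreSet h) A with hU0
  have hU0V : U0 ∈ W := Z.prod_mem hS hκV
  have hU0m : ∀ n z, pair n z ∈ U0 ↔ n ∈ coreSet h ∧ z ∈ A := by
    intro n z
    rw [hU0, ZFSet.pair_mem_prod]
  -- the general structure with a marker
  have hU : ∀ k : ℕ, k % 3 = 1 → ∀ n z, pair n z ∈ insert (pair (nat k) ∅) U0 ↔
      (n = nat k ∧ z = ∅) ∨ (n ∈ coreSet h ∧ z ∈ A) := by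
    intro k _ n z
    rw [ZFSet.mem_insert_iff, ZFSet.pair_inj, hU0m]
  have hStr0 : IsStr A U0 := by
    refine ⟨⟨_, h0κ⟩, ?_⟩
    intro p hp
    obtain ⟨a, ha, b, hb, rfl⟩ := ZFSet.mem_prod.1 hp
    obtain ⟨n, rfl⟩ := mem_omega.1 (coreSet_subset ha)
    exact ⟨n, b, hb, rfl⟩
  have hStrk : ∀ k : ℕ, IsStr A (insert (pair (nat k) ∅) U0) := by
    intro k
    refine ⟨⟨_, h0κ⟩, ?_⟩
    intro p hp
    rw [ZFSet.mem_insert_iff] at hp
    rcases hp with rfl | hp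
    · exact ⟨k, ∅, h0κ, rfl⟩
    · exact hStr0.2 p hp
  have hMod0 : ModSem r A U0 := by
    refine ⟨fun m n => h m ∈ h n, ?_, hG, ?_⟩
    · intro z hz m n
      rw [hU0m, cr_mem_coreSet]
      exact ⟨fun h => h.1, fun h => ⟨h, hz⟩⟩
    · rintro ⟨z, _, hz⟩
      rw [hU0m] at hz
      exact absurd hz.1 (not_mem_coreSet (by norm_num))
  have hModk : ∀ k : ℕ, k = 1 ∨ k = 4 → ModSem r A (insert (pair (nat k) ∅) U0) := by
    intro k hk
    have hk3 : k % 3 = 1 := by rcases hk with rfl | rfl <;> norm_num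
    refine ⟨fun m n => h m ∈ h n, ?_, hG, ?_⟩
    · intro z hz m n
      rw [hU k hk3, cr_mem_coreSet]
      constructor
      · rintro (⟨h1, _⟩ | h1)
        · rw [nat_inj] at h1
          unfold cr at h1
          omega
        · exact h1.1
      · intro h1
        exact Or.inr ⟨h1, hz⟩
    · rintro ⟨z, _, hz⟩ ⟨z', _, hz'⟩
      rw [hU k hk3] at hz hz'
      rcases hz with ⟨h1, _⟩ | h1
      · rcases hz' with ⟨h2, _⟩ | h2
        · rw [← h1, nat_inj] at h2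
          omega
        · exact absurd h2.1 (not_mem_coreSet (by norm_num))
      · exact absurd h1.1 (not_mem_coreSet (by norm_num))
  have hAA : SameSizeIn W A κ.toZFSet := Z.sameSize_refl hκV
  have hM0 : IsModelOfSize W (phi r) κ A U0 :=
    ⟨hκV, hU0V, hStr0, (phi_sem ⟨_, h0κ⟩).2 hMod0, hAA⟩
  have hMk : ∀ k : ℕ, k = 1 ∨ k = 4 →
      IsModelOfSize W (phi r) κ A (insert (pair (nat k) ∅) U0) := fun k hk =>
    ⟨hκV, Z.insert_mem (Z.pair_mem (Z.nat_mem k) h0V) hU0V, hStrk k,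
      (phi_sem ⟨_, h0κ⟩).2 (hModk k hk), hAA⟩
  -- the shift
  let Sh : ZFSet.{u} → ZFSet.{u} := fun x =>
    if x ∈ Ordinal.toZFSet (ω : Ordinal.{u}) then insert x x else x
  have hSh : TmV (fun _ => W) D (fun _ v => Sh (v 0)) :=
    Z.ts.ite (P := fun _ v => v 0 ∈ Ordinal.toZFSet (ω : Ordinal.{u}))
      (Z.ts.mem (Z.ts.v 0) (Z.par _ Z.omega)) (Z.tmSucc (s := fun _ v => v 0) (Z.ts.v 0))
      (Z.ts.v 0)
  have hShn : ∀ n : ℕ, Sh (nat n) = nat (n + 1) := by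
    intro n
    simp only [Sh, nat_mem_omega, if_true]
    unfold nat
    rw [Nat.cast_succ, Ordinal.toZFSet_add_one]
  have hShb : ∀ η : Ordinal.{u}, ω ≤ η → Sh η.toZFSet = η.toZFSet := by
    intro η hη
    have h2 : ¬ η.toZFSet ∈ Ordinal.toZFSet (ω : Ordinal.{u}) := by
      rw [Ordinal.toZFSet_mem_toZFSet_iff]; exact not_lt.2 hη
    simp only [Sh, h2, if_false]
  have hcases : ∀ x ∈ A, (∃ n : ℕ, x = nat n) ∨ ∃ η : Ordinal.{u}, ω ≤ η ∧ x = η.toZFSet := by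
    intro x hx
    obtain ⟨η, hη, rfl⟩ := Ordinal.mem_toZFSet_iff.1 hx
    rcases lt_or_ge η ω with h | h
    · obtain ⟨n, rfl⟩ := Ordinal.lt_omega0.1 h
      exact Or.inl ⟨n, rfl⟩
    · exact Or.inr ⟨η, h, rfl⟩
  have hnat_ne : ∀ (n : ℕ) (η : Ordinal.{u}), ω ≤ η → nat n ≠ η.toZFSet := by
    intro n η hη h
    have := Ordinal.toZFSet_injective h
    rw [← this] at hη
    exact absurd (Ordinal.natCast_lt_omega0 n) (not_lt.2 hη)
  have hShA : ∀ x ∈ A, Sh x ∈ A := by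
    intro x hx
    rcases hcases x hx with ⟨n, rfl⟩ | ⟨η, hη, rfl⟩
    · rw [hShn]
      exact Ordinal.toZFSet_mem_toZFSet_iff.2
        (lt_of_lt_of_le (Ordinal.natCast_lt_omega0 _) hc.2.1)
    · rw [hShb η hη]; exact hx
  have hSh0 : ∀ x ∈ A, Sh x ≠ ∅ := by
    intro x hx
    rcases hcases x hx with ⟨n, rfl⟩ | ⟨η, hη, rfl⟩
    · rw [hShn]
      intro h0
      have : nat.{u} n ∈ nat (n + 1) := nat_mem_nat.2 (Nat.lt_succ_self n)
      rw [h0] at this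
      simp at this
    · rw [hShb η hη]
      intro h0
      have : (0 : Ordinal.{u}).toZFSet ∈ η.toZFSet :=
        Ordinal.toZFSet_mem_toZFSet_iff.2 (lt_of_lt_of_le Ordinal.omega0_pos hη)
      rw [h0] at this
      simp at this
  have hShinj : ∀ x ∈ A, ∀ x' ∈ A, Sh x = Sh x' → x = x' := by
    intro x hx x' hx' hxx
    rcases hcases x hx with ⟨n, rfl⟩ | ⟨η, hη, rfl⟩ <;>
      rcases hcases x' hx' with ⟨n', rfl⟩ | ⟨η', hη', rfl⟩
    · rw [hShn, hShn, nat_inj] at hxx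
      rw [Nat.succ_injective hxx]
    · rw [hShn, hShb _ hη'] at hxx
      exact absurd hxx (hnat_ne _ _ hη')
    · rw [hShn, hShb _ hη] at hxx
      exact absurd hxx.symm (hnat_ne _ _ hη)
    · rw [hShb _ hη, hShb _ hη'] at hxx
      exact hxx
  have hemb : ∀ k : ℕ, k = 1 ∨ k = 4 → IsEmb (gr Sh A) A U0 A (insert (pair (nat k) ∅) U0) := by
    intro k hk
    have hk3 : k % 3 = 1 := by rcases hk with rfl | rfl <;> norm_num
    refine isEmb_gr hShA hShinj ?_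
    intro x hx n
    rw [hU k hk3, hU0m]
    constructor
    · rintro ⟨h1, _⟩
      exact Or.inr ⟨h1, hShA x hx⟩
    · rintro (⟨_, h1⟩ | ⟨h1, _⟩)
      · exact absurd h1 (hSh0 x hx)
      · exact ⟨h1, hx⟩
  have hShW : gr Sh A ∈ W := Z.gr_of_tm hSh hκV
  obtain ⟨B, N, hN, g₁, _, g₂, _, hg₁, hg₂, _⟩ := hAm κ hκ A U0 A _ A _ hM0 (hMk 1 (Or.inl rfl))
    (hMk 4 (Or.inr rfl)) _ hShW _ hShW (hemb 1 (Or.inl rfl)) (hemb 4 (Or.inr rfl))
  obtain ⟨p1, q1⟩ := isFunc_app hg₁.1 h0κ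
  obtain ⟨p2, q2⟩ := isFunc_app hg₂.1 h0κ
  obtain ⟨E', hE', _, hmk⟩ := (phi_sem hN.2.2.1.1).1 hN.2.2.2.1
  have hEE : ∀ m n, E' m n → h m ∈ h n := by
    intro m n hmn
    have h1 := (hE' _ q1 m n).2 hmn
    have h2 := (hg₁.2.2 _ _ p1 _).2 h1
    rw [hU 1 (by norm_num)] at h2
    rcases h2 with ⟨h3, _⟩ | h3
    · rw [nat_inj] at h3
      unfold cr at h3
      omega
    · exact cr_mem_coreSet.1 h3.1
  have hm1 : ∃ z ∈ B, pair (nat 1) z ∈ N :=
    ⟨_, q1, (hg₁.2.2 _ _ p1 _).1 (ZFSet.mem_insert _ _)⟩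
  have hm4 : ∃ z ∈ B, pair (nat 4) z ∈ N :=
    ⟨_, q2, (hg₂.2.2 _ _ p2 _).1 (ZFSet.mem_insert _ _)⟩
  obtain ⟨z, _, ⟨n0, hn0⟩, hz⟩ := hmk hm1 hm4
  have key : ∀ y : ZFSet.{u}, ∀ n : ℕ, h n = y → ¬ pair (nat (3 * n + 2)) z ∈ N := by
    intro y
    induction y using ZFSet.inductionOn with
    | h y ih =>
      intro n hn hnN
      obtain ⟨m, hm, hmn⟩ := hz n hnN
      have := hEE m n hmn
      rw [hn] at this
      exact ih _ this m rfl hm
  exact key _ n0 rfl hn0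

end

end Pool.Agent.Work.MP_fbd45d_lc
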